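import Pool.Agent.Lib.P267408.Cheb2

open Finset

namespace Pool.Agent.Lib.P267408

/-- Scaling constant. -/
noncomputable def sig : ℝ := 1 / gam 0

lemma gam_zero : gam 0 = 8 / (3 * Real.pi) := by
  have h := gam_even 0
  rw [Nat.mul_zero] at h
  rw [h]
  have := Real.pi_pos
  norm_num
  field_simp

lemma gam_zero_pos : 0 < gam 0 := by
  rw [gam_zero]
  have := Real.pi_pos
  positivity

lemma sig_pos : 0 < sig := by
  unfold sig
  have := gam_zero_pos
  positivity

lemma sig_mul : sig * gam 0 = 1 := by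
  unfold sig
  have := gam_zero_pos
  field_simp

lemma sig_sq_le : sig ^ 2 ≤ 2 := by
  unfold sig
  rw [gam_zero]
  have h1 := Real.pi_pos
  have h2 := Real.pi_lt_d2
  rw [one_div_div, div_pow]
  rw [div_le_iff₀ (by norm_num)]
  nlinarith

/-- The nonlinearity coefficients. -/
noncomputable def alp (u : ℕ) : ℝ := sig * gam u / sig ^ u

/-- The arities. -/
def SS (J : ℕ) : Finset ℕ := (Finset.Icc 1 J).image fun j => 2 * j

lemma mem_SS {J u : ℕ} : u ∈ SS J ↔ ∃ j, 1 ≤ j ∧ j ≤ J ∧ 2 * j = u := by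
  unfold SS
  simp only [Finset.mem_image, Finset.mem_Icc, and_assoc]

lemma sum_SS (J : ℕ) (F : ℕ → ℝ) : ∑ s ∈ SS J, F s = ∑ j ∈ Finset.Icc 1 J, F (2 * j) := by
  unfold SS
  rw [Finset.sum_image]
  intro a _ b _ h
  simp only at h
  omega

/-- Rescaled variances. -/
noncomputable def yk (J : ℕ) : ℕ → ℝ
  | 0 => 0
  | k + 1 => gam 0 ^ 2 + ∑ j ∈ Finset.Icc 1 J, pj j * yk J k ^ (2 * j)

lemma xk_eq (J k : ℕ) : xk alp (SS J) k = sig ^ 2 * yk J k := by
  induction k with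
  | zero => show (0 : ℝ) = sig ^ 2 * 0; rw [mul_zero]
  | succ k ih =>
    show 1 + ∑ s ∈ SS J, alp s ^ 2 * xk alp (SS J) k ^ s =
      sig ^ 2 * (gam 0 ^ 2 + ∑ j ∈ Finset.Icc 1 J, pj j * yk J k ^ (2 * j))
    rw [ih, sum_SS, mul_add, Finset.mul_sum]
    congr 1
    · rw [← mul_pow, sig_mul, one_pow]
    · refine Finset.sum_congr rfl fun j _ => ?_
      unfold alp pj
      have := sig_pos
      rw [div_pow, mul_pow, mul_pow]
      field_simp
      rw [← pow_mul sig 2, ← pow_mul sig (2 * j) 2, mul_comm 2 (2 * j)]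

lemma pj_zero : pj 0 = gam 0 ^ 2 := rfl

lemma sum_pj_split (J : ℕ) : gam 0 ^ 2 + ∑ j ∈ Finset.Icc 1 J, pj j =
    ∑ j ∈ Finset.range (J + 1), pj j := by
  rw [← pj_zero, Finset.range_eq_Ico, Finset.sum_eq_sum_Ico_succ_bot (by omega)]
  rfl

lemma yk_nonneg (J k : ℕ) : 0 ≤ yk J k := by
  induction k with
  | zero => exact le_rfl
  | succ k ih =>
    show 0 ≤ gam 0 ^ 2 + ∑ j ∈ Finset.Icc 1 J, pj j * yk J k ^ (2 * j)
    have : 0 ≤ ∑ j ∈ Finset.Icc 1 J, pj j * yk J k ^ (2 * j) :=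
      Finset.sum_nonneg fun j _ => mul_nonneg (pj_nonneg j) (pow_nonneg ih _)
    positivity

lemma yk_le_one (J k : ℕ) : yk J k ≤ 1 := by
  induction k with
  | zero => exact zero_le_one
  | succ k ih =>
    show gam 0 ^ 2 + ∑ j ∈ Finset.Icc 1 J, pj j * yk J k ^ (2 * j) ≤ 1
    have h1 : ∑ j ∈ Finset.Icc 1 J, pj j * yk J k ^ (2 * j) ≤ ∑ j ∈ Finset.Icc 1 J, pj j := by
      refine Finset.sum_le_sum fun j _ => ?_
      have := pow_le_one₀ (n := 2 * j) (yk_nonneg J k) ih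
      have := pj_nonneg j
      nlinarith
    have h2 := sum_pj_split J
    have h3 := sum_pj_le J
    linarith

lemma yk_pos (J k : ℕ) : 0 < yk J (k + 1) := by
  show 0 < gam 0 ^ 2 + ∑ j ∈ Finset.Icc 1 J, pj j * yk J k ^ (2 * j)
  have : 0 ≤ ∑ j ∈ Finset.Icc 1 J, pj j * yk J k ^ (2 * j) :=
    Finset.sum_nonneg fun j _ => mul_nonneg (pj_nonneg j) (pow_nonneg (yk_nonneg J k) _)
  have := gam_zero_pos
  positivity

lemma one_sub_pow_le (y : ℝ) (hy : 0 ≤ y) (n : ℕ) : 1 - y ^ n ≤ n * (1 - y) := by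
  have := one_add_mul_le_pow (a := y - 1) (by linarith) n
  have e : 1 + (y - 1) = y := by ring
  rw [e] at this
  linarith

lemma yk_conv (J k : ℕ) : 1 - yk J k ≤
    81 * (1 - ∑ j ∈ Finset.range (J + 1), pj j) + (80 / 81) ^ k := by
  set τ := 1 - ∑ j ∈ Finset.range (J + 1), pj j with hτ
  have hτ0 : 0 ≤ τ := by have := sum_pj_le J; linarith
  induction k with
  | zero =>
    show 1 - 0 ≤ _
    rw [pow_zero]; linarith
  | succ k ih =>
    have h0 : yk J (k + 1) = gam 0 ^ 2 + ∑ j ∈ Finset.Icc 1 J, pj j * yk J k ^ (2 * j) := rfl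
    have h1 : ∑ j ∈ Finset.Icc 1 J, pj j - ∑ j ∈ Finset.Icc 1 J, pj j * yk J k ^ (2 * j) ≤
        (80 / 81) * (1 - yk J k) := by
      rw [← Finset.sum_sub_distrib]
      calc ∑ j ∈ Finset.Icc 1 J, (pj j - pj j * yk J k ^ (2 * j))
          ≤ ∑ j ∈ Finset.Icc 1 J, (((2 * j : ℕ) : ℝ) * pj j) * (1 - yk J k) := by
            refine Finset.sum_le_sum fun j _ => ?_
            have h2 := one_sub_pow_le (yk J k) (yk_nonneg J k) (2 * j)
            have h3 := pj_nonneg j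
            calc pj j - pj j * yk J k ^ (2 * j) = pj j * (1 - yk J k ^ (2 * j)) := by ring
              _ ≤ pj j * (((2 * j : ℕ) : ℝ) * (1 - yk J k)) := by gcongr
              _ = _ := by ring
        _ = (∑ j ∈ Finset.Icc 1 J, (((2 * j : ℕ) : ℝ) * pj j)) * (1 - yk J k) := by
            rw [Finset.sum_mul]
        _ ≤ (80 / 81) * (1 - yk J k) := by
            have := yk_le_one J k
            have := mean_lt J
            gcongr
    have h2 := sum_pj_split J
    rw [h0, pow_succ (80 / 81 : ℝ) k]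
    linarith

lemma sum_even_odd (M : ℕ) (F : ℕ → ℝ) : ∑ u ∈ Finset.range (2 * M), F u =
    ∑ j ∈ Finset.range M, (F (2 * j) + F (2 * j + 1)) := by
  induction M with
  | zero => simp
  | succ M ih =>
    rw [Finset.sum_range_succ, ← ih, Nat.mul_succ, Finset.sum_range_succ, Finset.sum_range_succ,
      add_assoc]

/-- The main parameter estimate. -/
lemma params_aux (J k D M : ℕ) (hJM : J ≤ M) (ρ0 : ℕ → ℝ) :
    ∃ ρ : ℕ → ℝ, ∑ u ∈ Finset.range (2 * (M + 1)),
      (gco alp (SS J) u - bco ρ D (xk alp (SS J) (k + 1)) u) ^ 2 * xk alp (SS J) (k + 1) ^ u ≤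
      4 * (2 * (1 - yk J (k + 1)) + (1 - ∑ j ∈ Finset.range (J + 1), pj j)) +
      4 * ∑ u ∈ Finset.range (2 * (M + 1)), (bco ρ0 D 1 u - gam u) ^ 2 := by
  classical
  set y := yk J (k + 1) with hy
  have hy0 : 0 < y := yk_pos J k
  have hy1 : y ≤ 1 := yk_le_one J (k + 1)
  set w := Real.sqrt y with hw
  have hw0 : 0 < w := Real.sqrt_pos.mpr hy0
  have hw2 : w ^ 2 = y := Real.sq_sqrt hy0.le
  have hw1 : w ≤ 1 := by
    rw [hw]
    exact Real.sqrt_le_one.mpr hy1
  have hyw : y ≤ w := by nlinarith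
  have hs := sig_pos
  set z := Real.sqrt (sig * w) with hz
  have hz0 : 0 < z := Real.sqrt_pos.mpr (by positivity)
  have hz2 : z ^ 2 = sig * w := Real.sq_sqrt (by positivity)
  have hx : xk alp (SS J) (k + 1) = z ^ 4 := by
    rw [xk_eq, ← hy, show z ^ 4 = (z ^ 2) ^ 2 by ring, hz2, mul_pow, hw2]
  set ρ : ℕ → ℝ := fun s => z * ρ0 s / z ^ (2 * s) with hρ
  refine ⟨ρ, ?_⟩
  have hbco : ∀ u, bco ρ D (xk alp (SS J) (k + 1)) u = z ^ 2 * bco ρ0 D 1 u / z ^ (2 * u) := by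
    intro u
    unfold bco
    rw [Finset.mul_sum, Finset.sum_div]
    refine Finset.sum_congr rfl fun s _ => ?_
    rw [Finset.mul_sum, Finset.sum_div]
    refine Finset.sum_congr rfl fun t _ => ?_
    rw [Finset.mul_sum, Finset.sum_div]
    refine Finset.sum_congr rfl fun κ hκ => ?_
    rw [Finset.mem_range] at hκ
    split_ifs with h
    · rw [hx, one_pow, mul_one]
      simp only [hρ]
      have e1 : s + t = u + 2 * κ := by omega
      rw [div_mul_div_comm, ← pow_add, ← Nat.mul_add, e1, ← pow_mul]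
      have e2 : 2 * (u + 2 * κ) = 2 * u + 4 * κ := by ring
      rw [e2, pow_add]
      field_simp
    · simp
  set e : ℕ → ℝ := fun u => if u = 0 then 1 else if u = 1 then w else
    if u ∈ SS J then w ^ u else 0 with he
  have hgco : ∀ u, gco alp (SS J) u * (sig * w) ^ u = sig * (gam u * e u) := by
    intro u
    unfold gco
    simp only [he]
    rcases Nat.eq_zero_or_pos u with rfl | hu
    · rw [if_pos (by norm_num), if_pos rfl, pow_zero, mul_one, mul_one, sig_mul]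
    rcases Nat.lt_or_ge 1 u with hu1 | hu1
    · have c1 : ¬ u ≤ 1 := by omega
      have c2 : ¬ u = 0 := by omega
      have c3 : ¬ u = 1 := by omega
      simp only [c1, c2, c3, if_false]
      split_ifs with h
      · unfold alp
        rw [mul_pow]
        field_simp
      · ring
    · have : u = 1 := by omega
      subst this
      rw [if_pos le_rfl, if_neg one_ne_zero, if_pos rfl, gam_one]
      ring
  have hterm : ∀ u, (gco alp (SS J) u - bco ρ D (xk alp (SS J) (k + 1)) u) ^ 2 *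
      xk alp (SS J) (k + 1) ^ u ≤
      4 * (gam u ^ 2 * (e u - w) ^ 2) + 4 * (bco ρ0 D 1 u - gam u) ^ 2 := by
    intro u
    have h1 : (gco alp (SS J) u - bco ρ D (xk alp (SS J) (k + 1)) u) ^ 2 *
        xk alp (SS J) (k + 1) ^ u = (sig * (gam u * e u - w * bco ρ0 D 1 u)) ^ 2 := by
      rw [hbco, hx]
      have e1 : (z ^ 4) ^ u = (z ^ (2 * u)) ^ 2 := by rw [← pow_mul, ← pow_mul]; ring_nf
      rw [e1, ← mul_pow, sub_mul, div_mul_cancel₀ _ (by positivity)]
      congr 1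
      rw [pow_mul, hz2, hgco]
      ring
    rw [h1]
    have h2 : gam u * e u - w * bco ρ0 D 1 u =
        gam u * (e u - w) + w * (gam u - bco ρ0 D 1 u) := by ring
    rw [h2, mul_pow]
    have h3 : (gam u * (e u - w) + w * (gam u - bco ρ0 D 1 u)) ^ 2 ≤
        2 * (gam u ^ 2 * (e u - w) ^ 2) + 2 * (bco ρ0 D 1 u - gam u) ^ 2 := by
      have h4 : (w * (gam u - bco ρ0 D 1 u)) ^ 2 ≤ (bco ρ0 D 1 u - gam u) ^ 2 := by
        rw [mul_pow, hw2]
        nlinarith [sq_nonneg (gam u - bco ρ0 D 1 u)]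
      nlinarith [sq_nonneg (gam u * (e u - w) - w * (gam u - bco ρ0 D 1 u))]
    calc sig ^ 2 * (gam u * (e u - w) + w * (gam u - bco ρ0 D 1 u)) ^ 2
        ≤ 2 * (2 * (gam u ^ 2 * (e u - w) ^ 2) + 2 * (bco ρ0 D 1 u - gam u) ^ 2) :=
          mul_le_mul sig_sq_le h3 (sq_nonneg _) (by norm_num)
      _ = _ := by ring
  refine (Finset.sum_le_sum fun u _ => hterm u).trans ?_
  rw [Finset.sum_add_distrib, ← Finset.mul_sum, ← Finset.mul_sum]
  gcongr
  -- the remaining sum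
  rw [sum_even_odd (M + 1) (fun u => gam u ^ 2 * (e u - w) ^ 2), Finset.sum_add_distrib]
  have hodd : ∑ j ∈ Finset.range (M + 1), gam (2 * j + 1) ^ 2 * (e (2 * j + 1) - w) ^ 2 = 0 := by
    refine Finset.sum_eq_zero fun j _ => ?_
    rcases Nat.eq_zero_or_pos j with rfl | hj
    · simp only [he]
      simp
    · obtain ⟨i, rfl⟩ : ∃ i, j = i + 1 := ⟨j - 1, by omega⟩
      have : 2 * (i + 1) + 1 = 2 * i + 3 := by ring
      rw [this, gam_odd]
      ring
  rw [hodd, add_zero]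
  have hsplit : ∑ j ∈ Finset.range (M + 1), gam (2 * j) ^ 2 * (e (2 * j) - w) ^ 2 =
      ∑ j ∈ Finset.range (J + 1), gam (2 * j) ^ 2 * (e (2 * j) - w) ^ 2 +
      ∑ j ∈ Finset.Ico (J + 1) (M + 1), gam (2 * j) ^ 2 * (e (2 * j) - w) ^ 2 := by
    rw [Finset.range_eq_Ico, Finset.range_eq_Ico, Finset.sum_Ico_consecutive _ (by omega) (by omega)]
  rw [hsplit]
  have hpart1 : ∑ j ∈ Finset.range (J + 1), gam (2 * j) ^ 2 * (e (2 * j) - w) ^ 2 ≤
      2 * (1 - y) := by
    rw [Finset.range_eq_Ico, Finset.sum_eq_sum_Ico_succ_bot (by omega)]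
    have h0 : gam (2 * 0) ^ 2 * (e (2 * 0) - w) ^ 2 ≤ 1 - y := by
      have h1 : e (2 * 0) = 1 := by simp only [he]; simp
      rw [h1]
      have h2 : gam (2 * 0) ^ 2 ≤ 1 := by
        have := sum_pj_le 0
        rw [Finset.sum_range_one] at this
        exact this
      have h3 : (1 - w) ^ 2 ≤ 1 - y := by nlinarith
      calc gam (2 * 0) ^ 2 * (1 - w) ^ 2 ≤ 1 * (1 - w) ^ 2 := by gcongr
        _ ≤ 1 - y := by rw [one_mul]; exact h3
    have h1 : ∑ j ∈ Finset.Ico (0 + 1) (J + 1), gam (2 * j) ^ 2 * (e (2 * j) - w) ^ 2 ≤ 1 - y := by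
      calc ∑ j ∈ Finset.Ico (0 + 1) (J + 1), gam (2 * j) ^ 2 * (e (2 * j) - w) ^ 2
          ≤ ∑ j ∈ Finset.Ico (0 + 1) (J + 1), (((2 * j : ℕ) : ℝ) * pj j) * (1 - y) := by
            refine Finset.sum_le_sum fun j hj => ?_
            rw [Finset.mem_Ico] at hj
            have h2 : e (2 * j) = w ^ (2 * j) := by
              simp only [he]
              rw [if_neg (by omega), if_neg (by omega), if_pos]
              exact mem_SS.mpr ⟨j, by omega, by omega, rfl⟩
            rw [h2]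
            have h3 : (w ^ (2 * j) - w) ^ 2 ≤ ((2 * j : ℕ) : ℝ) * (1 - y) := by
              have h4 := one_sub_pow_le w hw0.le (2 * j)
              have h5 : w ^ (2 * j) ≤ w := by
                calc w ^ (2 * j) ≤ w ^ 1 := pow_le_pow_of_le_one hw0.le hw1 (by omega)
                  _ = w := pow_one w
              have h6 : 0 ≤ w ^ (2 * j) := by positivity
              have h7 : ((2 * j : ℕ) : ℝ) * (1 - w) ≤ ((2 * j : ℕ) : ℝ) * (1 - y) := by
                gcongr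
              have h8 : (w ^ (2 * j) - w) ^ 2 ≤ w - w ^ (2 * j) := by
                nlinarith
              linarith
            calc gam (2 * j) ^ 2 * (w ^ (2 * j) - w) ^ 2
                ≤ gam (2 * j) ^ 2 * (((2 * j : ℕ) : ℝ) * (1 - y)) := by gcongr
              _ = _ := by unfold pj; ring
        _ = (∑ j ∈ Finset.Icc 1 J, (((2 * j : ℕ) : ℝ) * pj j)) * (1 - y) := by
            rw [Finset.sum_mul]
            rfl
        _ ≤ 1 * (1 - y) := by
            have := mean_lt J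
            gcongr
            linarith
        _ = 1 - y := one_mul _
    linarith
  have hpart2 : ∑ j ∈ Finset.Ico (J + 1) (M + 1), gam (2 * j) ^ 2 * (e (2 * j) - w) ^ 2 ≤
      1 - ∑ j ∈ Finset.range (J + 1), pj j := by
    have h1 : ∑ j ∈ Finset.Ico (J + 1) (M + 1), gam (2 * j) ^ 2 * (e (2 * j) - w) ^ 2 ≤
        ∑ j ∈ Finset.Ico (J + 1) (M + 1), pj j := by
      refine Finset.sum_le_sum fun j hj => ?_
      rw [Finset.mem_Ico] at hj
      have h2 : e (2 * j) = 0 := by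
        simp only [he]
        rw [if_neg (by omega), if_neg (by omega), if_neg]
        intro h
        obtain ⟨i, h3, h4, h5⟩ := mem_SS.mp h
        omega
      rw [h2]
      have h3 : (0 - w) ^ 2 ≤ 1 := by nlinarith
      calc gam (2 * j) ^ 2 * (0 - w) ^ 2 ≤ gam (2 * j) ^ 2 * 1 := by gcongr
        _ = pj j := mul_one _
    have h2 : ∑ j ∈ Finset.range (J + 1), pj j + ∑ j ∈ Finset.Ico (J + 1) (M + 1), pj j =
        ∑ j ∈ Finset.range (M + 1), pj j := by
      rw [Finset.range_eq_Ico, Finset.range_eq_Ico,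
        Finset.sum_Ico_consecutive _ (by omega) (by omega)]
    have h3 := sum_pj_le M
    linarith
  linarith

/-- The AMP certificate. -/
theorem amp (δ : ℝ) (hδ : 0 < δ) : ∃ n0 : ℕ, ∀ n ≥ n0, ∃ (a ε R : Gr n → Fin n → Fin n → ℝ),
      (∀ ω i j, a ω i j = a ω j i) ∧ (∀ ω i j, ε ω i j = ε ω j i) ∧ (∀ ω i, a ω i i = 0) ∧
      (∀ ω ω' i j, (∀ e, e ≠ s(i, j) → (e ∈ ω ↔ e ∈ ω')) → a ω i j = a ω' i j) ∧
      (∀ ω i j, (if i = j then 1 else 0) - 1 / Real.sqrt n + (1 + sg ω s(i, j)) * a ω i j -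
        ε ω i j = ∑ x, R ω i x * R ω j x) ∧
      nrm2 a ≤ 4 ∧ nrm2 ε ≤ δ := by
  -- choice of the parameters
  obtain ⟨η, hη0, hηδ⟩ : ∃ η : ℝ, 0 < η ∧ 4000 * η ≤ δ := ⟨δ / 4000, by positivity, by linarith⟩
  obtain ⟨J, hJ⟩ : ∃ J : ℕ, 1 - ∑ j ∈ Finset.range (J + 1), pj j ≤ η := by
    have h1 := tendsto_sum_pj.eventually (lt_mem_nhds (show 1 - η < 1 by linarith))
    obtain ⟨J, hJ⟩ := h1.exists
    exact ⟨J, by linarith⟩
  obtain ⟨k, hk⟩ : ∃ k : ℕ, ((80 : ℝ) / 81) ^ (k + 1) ≤ η := by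
    obtain ⟨k, hk⟩ := exists_pow_lt_of_lt_one hη0 (show (80 : ℝ) / 81 < 1 by norm_num)
    refine ⟨k, ?_⟩
    rw [pow_succ]
    have : (0 : ℝ) ≤ (80 / 81) ^ k := by positivity
    linarith
  obtain ⟨D, ρ0, hρ0⟩ := exists_approx η hη0
  set M := max J D with hM
  have hJM : J ≤ M := le_max_left _ _
  have hDM : D ≤ M := le_max_right _ _
  set U := Finset.range (2 * (M + 1)) with hU
  have hU1 : ∀ u ≤ 2 * D, u ∈ U := by
    intro u hu
    rw [hU, Finset.mem_range]
    omega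
  obtain ⟨ρ, hρ⟩ := params_aux J k D M hJM ρ0
  have hSS : ∀ s ∈ SS J, 2 ≤ s := by
    intro s hs
    obtain ⟨j, h1, h2, rfl⟩ := mem_SS.mp hs
    omega
  obtain ⟨C, hC0, hC⟩ := amp_core alp (SS J) hSS (k + 1) D ρ U hU1
    (by rw [hU, Finset.mem_range]; omega) (by rw [hU, Finset.mem_range]; omega)
    (by
      intro s hs
      obtain ⟨j, h1, h2, rfl⟩ := mem_SS.mp hs
      rw [hU, Finset.mem_range]
      omega)
  obtain ⟨n0, hn0⟩ := exists_nat_gt (C / η)
  refine ⟨n0 + 1, fun n hn => ?_⟩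
  have hnpos : 0 < n := by omega
  have hn' : (0 : ℝ) < n := by exact_mod_cast hnpos
  obtain ⟨a, ε, R, h1, h2, h3, h4, h5, h6, h7⟩ := hC n hnpos
  refine ⟨a, ε, R, h1, h2, h3, h4, h5, ?_, ?_⟩
  · refine h6.trans ?_
    rw [xk_eq]
    have e1 := yk_le_one J (k + 1 + 1)
    have e2 := yk_nonneg J (k + 1 + 1)
    have e3 := sig_sq_le
    have e4 := sq_nonneg sig
    nlinarith
  · refine h7.trans ?_
    have e0 := hρ0 U hU1
    have e1 := yk_conv J (k + 1)
    have e2 := yk_le_one J (k + 1 + 1)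
    have e3 := yk_le_one J (k + 1)
    have e4 : C / n ≤ η := by
      rw [div_le_iff₀ hn']
      have : (n0 : ℝ) ≤ n := by exact_mod_cast (by omega : n0 ≤ n)
      have h8 : C < n0 * η := by
        rw [div_lt_iff₀ hη0] at hn0
        exact hn0
      nlinarith
    have e5 : xk alp (SS J) (k + 1 + 1) - xk alp (SS J) (k + 1) ≤ 2 * (1 - yk J (k + 1)) := by
      rw [xk_eq, xk_eq, ← mul_sub]
      have e6 := sig_sq_le
      have e7 := sq_nonneg sig
      have e8 : yk J (k + 1 + 1) - yk J (k + 1) ≤ 1 - yk J (k + 1) := by linarith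
      calc sig ^ 2 * (yk J (k + 1 + 1) - yk J (k + 1)) ≤ sig ^ 2 * (1 - yk J (k + 1)) := by gcongr
        _ ≤ 2 * (1 - yk J (k + 1)) := by
          gcongr
    have e6 : 1 - yk J (k + 1) ≤ 82 * η := by linarith
    linarith

end Pool.Agent.Lib.P267408
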