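import Mathlib

open Finset

namespace Pool.Agent.Lib.P267408

/-- A non-crossing set of chords on `{0, …, L}` containing all consecutive pairs. -/
structure Valid (L : ℕ) (E : Finset (ℕ × ℕ)) : Prop where
  lt : ∀ p ∈ E, p.1 < p.2
  le : ∀ p ∈ E, p.2 ≤ L
  path : ∀ a < L, (a, a + 1) ∈ E
  nc : ∀ p ∈ E, ∀ r ∈ E, p.1 < r.1 → r.1 < p.2 → r.2 ≤ p.2

set_option linter.unusedSectionVars false

variable {V : Type*} [DecidableEq V]

/-- The image of a set of chords. -/
def im (f : ℕ → V) (E : Finset (ℕ × ℕ)) : Finset (Sym2 V) := E.image fun p => s(f p.1, f p.2)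

lemma mem_im {f : ℕ → V} {E : Finset (ℕ × ℕ)} {e : Sym2 V} :
    e ∈ im f E ↔ ∃ p ∈ E, s(f p.1, f p.2) = e := by
  simp [im]

/-- Injectivity of the edge map. -/
lemma edge_inj {L : ℕ} {f : ℕ → V} (hf : Set.InjOn f (Set.Iic L)) {p r : ℕ × ℕ}
    (hp : p.1 < p.2) (hpL : p.2 ≤ L) (hr : r.1 < r.2) (hrL : r.2 ≤ L)
    (h : s(f p.1, f p.2) = s(f r.1, f r.2)) : p = r := by
  have i1 : p.1 ∈ Set.Iic L := by simp only [Set.mem_Iic]; omega
  have i2 : p.2 ∈ Set.Iic L := by simp only [Set.mem_Iic]; omega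
  have i3 : r.1 ∈ Set.Iic L := by simp only [Set.mem_Iic]; omega
  have i4 : r.2 ∈ Set.Iic L := by simp only [Set.mem_Iic]; omega
  rw [Sym2.eq_iff] at h
  rcases h with ⟨h1, h2⟩ | ⟨h1, h2⟩
  · exact Prod.ext (hf i1 i3 h1) (hf i2 i4 h2)
  · have := hf i1 i4 h1
    have := hf i2 i3 h2
    omega

lemma eq_of_im_eq {L : ℕ} {E E' : Finset (ℕ × ℕ)} (hE : ∀ p ∈ E, p.1 < p.2 ∧ p.2 ≤ L)
    (hE' : ∀ p ∈ E', p.1 < p.2 ∧ p.2 ≤ L) {f : ℕ → V} (hf : Set.InjOn f (Set.Iic L))
    (h : im f E = im f E') : E = E' := by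
  ext p
  constructor
  · intro hp
    have h1 : s(f p.1, f p.2) ∈ im f E' := h ▸ mem_im.mpr ⟨p, hp, rfl⟩
    obtain ⟨r, hr, hr'⟩ := mem_im.mp h1
    rw [edge_inj hf (hE p hp).1 (hE p hp).2 (hE' r hr).1 (hE' r hr).2 hr'.symm]
    exact hr
  · intro hp
    have h1 : s(f p.1, f p.2) ∈ im f E := h ▸ mem_im.mpr ⟨p, hp, rfl⟩
    obtain ⟨r, hr, hr'⟩ := mem_im.mp h1
    rw [edge_inj hf (hE' p hp).1 (hE' p hp).2 (hE r hr).1 (hE r hr).2 hr'.symm]
    exact hr

/-- discrete crossing: from outside to inside. -/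
lemma exists_enter {P : ℕ → Prop} {a b : ℕ} (hab : a ≤ b) (ha : ¬ P a) (hb : P b) :
    ∃ t, a ≤ t ∧ t < b ∧ ¬ P t ∧ P (t + 1) := by
  induction b, hab using Nat.le_induction with
  | base => exact absurd hb ha
  | succ b hab ih =>
    by_cases h : P b
    · obtain ⟨t, h1, h2, h3, h4⟩ := ih h
      exact ⟨t, h1, by omega, h3, h4⟩
    · exact ⟨b, hab, by omega, h, hb⟩

/-- A Hamiltonian path from `0` to `L` in a non-crossing graph containing all consecutive pairs is
the standard one. -/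
lemma ham_unique {L L' : ℕ} {E : Finset (ℕ × ℕ)} (hE : Valid L E) {σ : ℕ → ℕ}
    (_hσL : ∀ t ≤ L', σ t ≤ L) (hinj : Set.InjOn σ (Set.Iic L')) (hsurj : ∀ z ≤ L, ∃ t ≤ L', σ t = z)
    (h0 : σ 0 = 0) (hL : σ L' = L)
    (hstep : ∀ t < L', (σ t, σ (t + 1)) ∈ E ∨ (σ (t + 1), σ t) ∈ E) :
    L = L' ∧ ∀ t ≤ L', σ t = t := by
  -- crossing lemma
  have key : ∀ a c : ℕ, (a, c) ∈ E → a + 2 ≤ c →
      ∀ t < L', (¬ (a < σ t ∧ σ t < c)) → (a < σ (t + 1) ∧ σ (t + 1) < c) → σ t = a ∨ σ t = c := by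
    intro a c hac hac2 t ht h1 h2
    rcases hstep t ht with h | h
    · have h3 := hE.lt _ h
      simp only at h3
      left
      by_contra hne
      have h4 : σ t < a := by omega
      have h5 := hE.nc _ h _ hac h4 (by simp only; omega)
      simp only at h5
      omega
    · have h3 := hE.lt _ h
      simp only at h3
      have h5 := hE.nc _ hac _ h h2.1 h2.2
      simp only at h5
      omega
  have key' : ∀ a c : ℕ, (a, c) ∈ E → a + 2 ≤ c →
      ∀ t < L', (a < σ t ∧ σ t < c) → ¬ (a < σ (t + 1) ∧ σ (t + 1) < c) →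
        σ (t + 1) = a ∨ σ (t + 1) = c := by
    intro a c hac hac2 t ht h2 h1
    rcases hstep t ht with h | h
    · have h3 := hE.lt _ h
      simp only at h3
      have h5 := hE.nc _ hac _ h h2.1 h2.2
      simp only at h5
      omega
    · have h3 := hE.lt _ h
      simp only at h3
      left
      by_contra hne
      have h4 : σ (t + 1) < a := by omega
      have h5 := hE.nc _ h _ hac h4 (by simp only; omega)
      simp only at h5
      omega
  -- unit steps
  have unit : ∀ t < L', σ (t + 1) = σ t + 1 ∨ σ t = σ (t + 1) + 1 := by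
    intro t ht
    by_contra hcon
    push Not at hcon
    obtain ⟨a, c, hac, hac2, hset⟩ : ∃ a c, (a, c) ∈ E ∧ a + 2 ≤ c ∧
        ((σ t = a ∧ σ (t + 1) = c) ∨ (σ t = c ∧ σ (t + 1) = a)) := by
      rcases hstep t ht with h | h
      · have := hE.lt _ h
        simp only at this
        exact ⟨_, _, h, by omega, Or.inl ⟨rfl, rfl⟩⟩
      · have := hE.lt _ h
        simp only at this
        exact ⟨_, _, h, by omega, Or.inr ⟨rfl, rfl⟩⟩
    have hcL : c ≤ L := hE.le _ hac
    obtain ⟨r, hrL', hr⟩ := hsurj (a + 1) (by omega)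
    have hrt : r ≠ t := by rintro rfl; omega
    have hrt1 : r ≠ t + 1 := by rintro rfl; omega
    rcases lt_or_gt_of_ne hrt with hlt | hgt
    · obtain ⟨u, _, hu2, hu3, hu4⟩ := exists_enter (P := fun u => a < σ u ∧ σ u < c)
        (Nat.zero_le r) (by simp only [h0]; omega) (by simp only [hr]; omega)
      have hu := key a c hac hac2 u (by omega) hu3 hu4
      have : u = t ∨ u = t + 1 := by
        rcases hu with hu | hu <;> rcases hset with ⟨h1, h2⟩ | ⟨h1, h2⟩
        · left; exact hinj (by simp only [Set.mem_Iic]; omega) (by simp only [Set.mem_Iic]; omega)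
            (by rw [hu, h1])
        · right; exact hinj (by simp only [Set.mem_Iic]; omega) (by simp only [Set.mem_Iic]; omega)
            (by rw [hu, h2])
        · right; exact hinj (by simp only [Set.mem_Iic]; omega) (by simp only [Set.mem_Iic]; omega)
            (by rw [hu, h2])
        · left; exact hinj (by simp only [Set.mem_Iic]; omega) (by simp only [Set.mem_Iic]; omega)
            (by rw [hu, h1])
      omega
    · obtain ⟨u, hu1, hu2, hu3, hu4⟩ := exists_enter (P := fun u => ¬ (a < σ u ∧ σ u < c))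
        (a := r) (b := L') (by omega) (by simp only [hr]; omega) (by simp only [hL]; omega)
      have hu := key' a c hac hac2 u (by omega) (not_not.mp hu3) hu4
      have : u + 1 = t ∨ u + 1 = t + 1 := by
        rcases hu with hu | hu <;> rcases hset with ⟨h1, h2⟩ | ⟨h1, h2⟩
        · left; exact hinj (by simp only [Set.mem_Iic]; omega) (by simp only [Set.mem_Iic]; omega)
            (by rw [hu, h1])
        · right; exact hinj (by simp only [Set.mem_Iic]; omega) (by simp only [Set.mem_Iic]; omega)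
            (by rw [hu, h2])
        · right; exact hinj (by simp only [Set.mem_Iic]; omega) (by simp only [Set.mem_Iic]; omega)
            (by rw [hu, h2])
        · left; exact hinj (by simp only [Set.mem_Iic]; omega) (by simp only [Set.mem_Iic]; omega)
            (by rw [hu, h1])
      omega
  have hid : ∀ t ≤ L', σ t = t := by
    intro t
    induction t using Nat.strong_induction_on with
    | _ t ih =>
      intro ht
      rcases Nat.eq_zero_or_pos t with rfl | hpos
      · exact h0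
      · obtain ⟨s, rfl⟩ : ∃ s, t = s + 1 := ⟨t - 1, by omega⟩
        have hs := ih s (by omega) (by omega)
        rcases unit s (by omega) with h | h
        · omega
        · exfalso
          rcases Nat.eq_zero_or_pos s with rfl | hs0
          · omega
          · have h2 := ih (s - 1) (by omega) (by omega)
            have h3 : σ (s + 1) = σ (s - 1) := by omega
            have := hinj (by simp only [Set.mem_Iic]; omega) (by simp only [Set.mem_Iic]; omega) h3
            omega
  exact ⟨by rw [← hL, hid L' le_rfl], hid⟩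

/-- Rigidity of embedded words. -/
theorem rigid {L L' : ℕ} {E E' : Finset (ℕ × ℕ)} (hE : Valid L E) (hE' : Valid L' E')
    {f g : ℕ → V} (hf : Set.InjOn f (Set.Iic L)) (hg : Set.InjOn g (Set.Iic L'))
    (h0 : f 0 = g 0) (hL : f L = g L') (him : im f E = im g E') :
    L = L' ∧ E = E' ∧ ∀ a ≤ L, f a = g a := by
  classical
  -- the case of empty words
  rcases Nat.eq_zero_or_pos L with rfl | hLpos
  · have hE0 : E = ∅ := by
      rw [Finset.eq_empty_iff_forall_notMem]
      intro p hp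
      have := hE.lt p hp
      have := hE.le p hp
      omega
    have hL'0 : L' = 0 := by
      by_contra hne
      have h1 := hE'.path 0 (by omega)
      have h2 : s(g 0, g 1) ∈ im f E := him ▸ mem_im.mpr ⟨_, h1, rfl⟩
      rw [hE0] at h2
      simp [im] at h2
    subst hL'0
    have hE0' : E' = ∅ := by
      rw [Finset.eq_empty_iff_forall_notMem]
      intro p hp
      have := hE'.lt p hp
      have := hE'.le p hp
      omega
    refine ⟨rfl, by rw [hE0, hE0'], ?_⟩
    intro a ha
    obtain rfl : a = 0 := by omega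
    exact h0
  rcases Nat.eq_zero_or_pos L' with rfl | hL'pos
  · have h1 := hE.path 0 hLpos
    have h2 : s(f 0, f 1) ∈ im g E' := him ▸ mem_im.mpr ⟨_, h1, rfl⟩
    obtain ⟨p, hp, -⟩ := mem_im.mp h2
    have := hE'.lt p hp
    have := hE'.le p hp
    omega
  -- vertices
  have hver : ∀ b ≤ L', ∃ a ≤ L, f a = g b := by
    intro b hb
    obtain ⟨c, hc⟩ : ∃ c, (c, c + 1) ∈ E' ∧ (b = c ∨ b = c + 1) := by
      rcases Nat.lt_or_ge b L' with h | h
      · exact ⟨b, hE'.path b h, Or.inl rfl⟩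
      · exact ⟨L' - 1, hE'.path _ (by omega), Or.inr (by omega)⟩
    have h2 : s(g c, g (c + 1)) ∈ im f E := him ▸ mem_im.mpr ⟨_, hc.1, rfl⟩
    obtain ⟨p, hp, hp'⟩ := mem_im.mp h2
    have h3 := hE.lt p hp
    have h4 := hE.le p hp
    have h5 : g b ∈ s(g c, g (c + 1)) := by
      rcases hc.2 with rfl | rfl
      · exact Sym2.mem_mk_left _ _
      · exact Sym2.mem_mk_right _ _
    rw [← hp', Sym2.mem_iff] at h5
    rcases h5 with h5 | h5
    · exact ⟨p.1, by omega, h5.symm⟩
    · exact ⟨p.2, by omega, h5.symm⟩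
  have hver' : ∀ a ≤ L, ∃ b ≤ L', g b = f a := by
    intro b hb
    obtain ⟨c, hc⟩ : ∃ c, (c, c + 1) ∈ E ∧ (b = c ∨ b = c + 1) := by
      rcases Nat.lt_or_ge b L with h | h
      · exact ⟨b, hE.path b h, Or.inl rfl⟩
      · exact ⟨L - 1, hE.path _ (by omega), Or.inr (by omega)⟩
    have h2 : s(f c, f (c + 1)) ∈ im g E' := him ▸ mem_im.mpr ⟨_, hc.1, rfl⟩
    obtain ⟨p, hp, hp'⟩ := mem_im.mp h2
    have h3 := hE'.lt p hp
    have h4 := hE'.le p hp
    have h5 : f b ∈ s(f c, f (c + 1)) := by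
      rcases hc.2 with rfl | rfl
      · exact Sym2.mem_mk_left _ _
      · exact Sym2.mem_mk_right _ _
    rw [← hp', Sym2.mem_iff] at h5
    rcases h5 with h5 | h5
    · exact ⟨p.1, by omega, h5.symm⟩
    · exact ⟨p.2, by omega, h5.symm⟩
  choose! σ hσL hσ using hver
  have hmem : ∀ a, a ≤ L → a ∈ Set.Iic L := fun a h => h
  have hmem' : ∀ a, a ≤ L' → a ∈ Set.Iic L' := fun a h => h
  obtain ⟨h1, h2⟩ := ham_unique (L' := L') hE (σ := σ) hσL
    (by
      intro x hx y hy hxy
      refine hg hx hy ?_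
      rw [← hσ x hx, ← hσ y hy, hxy])
    (by
      intro z hz
      obtain ⟨b, hb, hb'⟩ := hver' z hz
      exact ⟨b, hb, hf (hσL b hb) hz (by rw [hσ b hb, hb'])⟩)
    (hf (hσL 0 (by omega)) (hmem 0 (by omega)) (by rw [hσ 0 (by omega), h0]))
    (hf (hσL L' le_rfl) (hmem L le_rfl) (by rw [hσ L' le_rfl, hL]))
    (by
      intro t ht
      have h2 : s(g t, g (t + 1)) ∈ im f E := him ▸ mem_im.mpr ⟨_, hE'.path t ht, rfl⟩
      obtain ⟨p, hp, hp'⟩ := mem_im.mp h2
      have h3 := hE.lt p hp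
      have h4 := hE.le p hp
      rw [← hσ t (by omega), ← hσ (t + 1) (by omega), Sym2.eq_iff] at hp'
      rcases hp' with ⟨h5, h6⟩ | ⟨h5, h6⟩
      · left
        have e1 := hf (hmem p.1 (by omega)) (hσL t (by omega)) h5
        have e2 := hf (hmem p.2 (by omega)) (hσL (t + 1) (by omega)) h6
        rw [← e1, ← e2]; exact hp
      · right
        have e1 := hf (hmem p.1 (by omega)) (hσL (t + 1) (by omega)) h5
        have e2 := hf (hmem p.2 (by omega)) (hσL t (by omega)) h6
        rw [← e1, ← e2]; exact hp)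
  subst h1
  have hfg : ∀ a ≤ L, f a = g a := by
    intro a ha
    rw [← hσ a ha, h2 a ha]
  refine ⟨rfl, ?_, hfg⟩
  refine eq_of_im_eq (fun p hp => ⟨hE.lt p hp, hE.le p hp⟩)
    (fun p hp => ⟨hE'.lt p hp, hE'.le p hp⟩) hf ?_
  rw [him]
  unfold im
  refine Finset.image_congr fun p hp => ?_
  have h3 := hE'.lt p hp
  have h4 := hE'.le p hp
  show s(g p.1, g p.2) = s(f p.1, f p.2)
  rw [hfg p.1 (by omega), hfg p.2 h4]

end Pool.Agent.Lib.P267408
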