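import Pool.Agent.Lib.P267408.Char
import Pool.Agent.Lib.P267408.Word

open Finset

namespace Pool.Agent.Lib.P267408

/-- Normalised second moment of a random matrix. -/
noncomputable def nrm2 {n : ℕ} (F : Gr n → Fin n → Fin n → ℝ) : ℝ :=
  avg (fun ω => ∑ i, ∑ j, (F ω i j) ^ 2) / n

variable {n : ℕ}

lemma nrm2_nonneg (F : Gr n → Fin n → Fin n → ℝ) : 0 ≤ nrm2 F := by
  unfold nrm2
  refine div_nonneg (avg_nonneg fun ω => ?_) (by positivity)
  exact Finset.sum_nonneg fun i _ => Finset.sum_nonneg fun j _ => sq_nonneg _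

lemma nrm2_mono {F G : Gr n → Fin n → Fin n → ℝ}
    (h : ∀ ω i j, (F ω i j) ^ 2 ≤ (G ω i j) ^ 2) : nrm2 F ≤ nrm2 G := by
  unfold nrm2
  refine div_le_div_of_nonneg_right (avg_mono fun ω => ?_) (by positivity)
  exact Finset.sum_le_sum fun i _ => Finset.sum_le_sum fun j _ => h ω i j

lemma nrm2_smul (c : ℝ) (F : Gr n → Fin n → Fin n → ℝ) :
    nrm2 (fun ω i j => c * F ω i j) = c ^ 2 * nrm2 F := by
  unfold nrm2
  have : (fun ω => ∑ i, ∑ j, (c * F ω i j) ^ 2) = fun ω => c ^ 2 * ∑ i, ∑ j, (F ω i j) ^ 2 := by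
    funext ω
    rw [Finset.mul_sum]
    refine Finset.sum_congr rfl fun i _ => ?_
    rw [Finset.mul_sum]
    exact Finset.sum_congr rfl fun j _ => by ring
  rw [this, avg_mul_left, mul_div_assoc]

lemma nrm2_sum_le {ι : Type*} (s : Finset ι) (F : ι → Gr n → Fin n → Fin n → ℝ) :
    nrm2 (fun ω i j => ∑ a ∈ s, F a ω i j) ≤ s.card * ∑ a ∈ s, nrm2 (F a) := by
  unfold nrm2
  rw [← Finset.sum_div, mul_div_assoc']
  refine div_le_div_of_nonneg_right ?_ (by positivity)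
  rw [← avg_sum, ← avg_mul_left]
  refine avg_mono fun ω => ?_
  have h1 : ∑ a ∈ s, ∑ i, ∑ j, (F a ω i j) ^ 2 = ∑ i, ∑ j, ∑ a ∈ s, (F a ω i j) ^ 2 := by
    rw [Finset.sum_comm]
    refine Finset.sum_congr rfl fun i _ => ?_
    rw [Finset.sum_comm]
  rw [h1, Finset.mul_sum]
  refine Finset.sum_le_sum fun i _ => ?_
  rw [Finset.mul_sum]
  refine Finset.sum_le_sum fun j _ => ?_
  exact sq_sum_le_card_mul_sum_sq

lemma nrm2_add_le (F G : Gr n → Fin n → Fin n → ℝ) :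
    nrm2 (fun ω i j => F ω i j + G ω i j) ≤ 2 * nrm2 F + 2 * nrm2 G := by
  unfold nrm2
  rw [mul_div_assoc', mul_div_assoc', ← add_div]
  refine div_le_div_of_nonneg_right ?_ (by positivity)
  rw [← avg_mul_left, ← avg_mul_left, ← avg_add]
  refine avg_mono fun ω => ?_
  rw [Finset.mul_sum, Finset.mul_sum, ← Finset.sum_add_distrib]
  refine Finset.sum_le_sum fun i _ => ?_
  rw [Finset.mul_sum, Finset.mul_sum, ← Finset.sum_add_distrib]
  refine Finset.sum_le_sum fun j _ => ?_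
  nlinarith [sq_nonneg (F ω i j - G ω i j)]

/-- Evaluation of a finite sequence at a natural number. -/
def ev {L : ℕ} {V : Type*} (φ : Fin (L + 1) → V) (t : ℕ) : V := φ ⟨min t L, by omega⟩

lemma ev_of_le {L : ℕ} {V : Type*} (φ : Fin (L + 1) → V) {t : ℕ} (h : t ≤ L) :
    ev φ t = φ ⟨t, by omega⟩ := by
  unfold ev
  congr 1
  exact Fin.ext (by simp [h])

lemma ev_mk {L : ℕ} {V : Type*} (f : ℕ → V) {t : ℕ} (h : t ≤ L) :
    ev (fun x : Fin (L + 1) => f x) t = f t := by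
  rw [ev_of_le _ h]

lemma injOn_ev {L : ℕ} {V : Type*} {φ : Fin (L + 1) → V} (h : Function.Injective φ) :
    Set.InjOn (ev φ) (Set.Iic L) := by
  intro a ha b hb hab
  simp only [Set.mem_Iic] at ha hb
  rw [ev_of_le _ ha, ev_of_le _ hb] at hab
  have := h hab
  simpa using this

lemma inj_of_injOn_ev {L : ℕ} {V : Type*} {φ : Fin (L + 1) → V}
    (h : Set.InjOn (ev φ) (Set.Iic L)) : Function.Injective φ := by
  intro a b hab
  have ha : (a : ℕ) ≤ L := by omega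
  have hb : (b : ℕ) ≤ L := by omega
  apply Fin.ext
  apply h ha hb
  rw [ev_of_le _ ha, ev_of_le _ hb]
  exact hab

lemma ev_ext {L : ℕ} {V : Type*} {φ ψ : Fin (L + 1) → V} (h : ∀ t ≤ L, ev φ t = ev ψ t) :
    φ = ψ := by
  funext x
  have hx : (x : ℕ) ≤ L := by omega
  have := h x hx
  rwa [ev_of_le _ hx, ev_of_le _ hx] at this

/-- The injective sequences. -/
def Inj (L n : ℕ) : Finset (Fin (L + 1) → Fin n) := by
  classical
  exact Finset.univ.filter Function.Injective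

lemma mem_Inj {L n : ℕ} {φ : Fin (L + 1) → Fin n} : φ ∈ Inj L n ↔ Function.Injective φ := by
  unfold Inj; simp

lemma card_Inj_le (L n : ℕ) : (Inj L n).card ≤ n ^ (L + 1) := by
  classical
  refine (Finset.card_le_card (Finset.subset_univ _)).trans ?_
  simp [Finset.card_univ]

/-- The unnormalised matrix of a word. -/
noncomputable def Om (w : ℕ × Finset (ℕ × ℕ)) (n : ℕ) (ω : Gr n) (i j : Fin n) : ℝ :=
  ∑ φ ∈ Inj w.1 n, if (ev φ 0, ev φ w.1) = (i, j) then wch (im (ev φ) w.2) ω else 0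

/-- The normalised matrix of a word. -/
noncomputable def Nm (w : ℕ × Finset (ℕ × ℕ)) (n : ℕ) (ω : Gr n) (i j : Fin n) : ℝ :=
  Om w n ω i j / (Real.sqrt n) ^ w.1

/-- Orthogonality of distinct words. -/
theorem nrm2_words (Wd : Finset (ℕ × Finset (ℕ × ℕ))) (hv : ∀ w ∈ Wd, Valid w.1 w.2)
    (g : ℕ × Finset (ℕ × ℕ) → ℝ) (hn : 0 < n) :
    nrm2 (fun ω i j => ∑ w ∈ Wd, g w * Nm w n ω i j) ≤ ∑ w ∈ Wd, g w ^ 2 := by
  classical
  set K := Σ w : ℕ × Finset (ℕ × ℕ), (Fin (w.1 + 1) → Fin n) with hK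
  set 𝒦 : Finset K := Wd.sigma fun w => Inj w.1 n with h𝒦
  have hn' : (0 : ℝ) < n := by exact_mod_cast hn
  have h1 : ∀ (ω : Gr n) (i j : Fin n), ∑ w ∈ Wd, g w * Nm w n ω i j =
      ∑ κ ∈ 𝒦, if (ev κ.2 0, ev κ.2 κ.1.1) = (i, j) then
        (g κ.1 / (Real.sqrt n) ^ κ.1.1) * wch (im (ev κ.2) κ.1.2) ω else 0 := by
    intro ω i j
    rw [h𝒦, Finset.sum_sigma]
    refine Finset.sum_congr rfl fun w _ => ?_
    unfold Nm Om
    rw [mul_div_assoc', Finset.mul_sum, Finset.sum_div]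
    refine Finset.sum_congr rfl fun φ _ => ?_
    split_ifs
    · ring
    · ring
  unfold nrm2
  simp_rw [h1]
  rw [avg_sq_config 𝒦 (fun κ => (ev κ.2 0, ev κ.2 κ.1.1)) (fun κ => im (ev κ.2) κ.1.2)
    (fun κ => g κ.1 / (Real.sqrt n) ^ κ.1.1)]
  have h2 : ∀ κ ∈ 𝒦, ∑ κ' ∈ 𝒦, (if (ev κ.2 0, ev κ.2 κ.1.1) = (ev κ'.2 0, ev κ'.2 κ'.1.1) ∧
      im (ev κ.2) κ.1.2 = im (ev κ'.2) κ'.1.2 then
      (g κ.1 / (Real.sqrt n) ^ κ.1.1) * (g κ'.1 / (Real.sqrt n) ^ κ'.1.1) else 0) =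
      g κ.1 ^ 2 / (n : ℝ) ^ κ.1.1 := by
    intro κ hκ
    rw [Finset.sum_eq_single κ]
    · rw [if_pos ⟨rfl, rfl⟩]
      rw [div_mul_div_comm, ← sq, ← sq, ← pow_mul, mul_comm κ.1.1 2, pow_mul,
        Real.sq_sqrt hn'.le]
    · intro κ' hκ' hne
      rw [if_neg]
      rintro ⟨h3, h4⟩
      apply hne
      rw [h𝒦, Finset.mem_sigma] at hκ hκ'
      rw [Prod.mk.injEq] at h3
      obtain ⟨⟨L, E⟩, φ⟩ := κ
      obtain ⟨⟨L', E'⟩, φ'⟩ := κ'
      simp only at h3 h4 hκ hκ'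
      obtain ⟨h5, h6, h7⟩ := rigid (hv _ hκ.1) (hv _ hκ'.1) (injOn_ev (mem_Inj.mp hκ.2))
        (injOn_ev (mem_Inj.mp hκ'.2)) h3.1 h3.2 h4
      subst h5 h6
      have h8 : φ = φ' := ev_ext h7
      rw [h8]
    · intro h; exact absurd hκ h
  rw [Finset.sum_congr rfl h2, h𝒦, Finset.sum_sigma]
  rw [div_le_iff₀ hn', Finset.sum_mul]
  refine Finset.sum_le_sum fun w _ => ?_
  show ∑ _φ ∈ Inj w.1 n, g w ^ 2 / (n : ℝ) ^ w.1 ≤ g w ^ 2 * n
  rw [Finset.sum_const, nsmul_eq_mul]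
  have h3 : ((Inj w.1 n).card : ℝ) ≤ (n : ℝ) ^ (w.1 + 1) := by exact_mod_cast card_Inj_le w.1 n
  calc ((Inj w.1 n).card : ℝ) * (g w ^ 2 / (n : ℝ) ^ w.1)
      ≤ (n : ℝ) ^ (w.1 + 1) * (g w ^ 2 / (n : ℝ) ^ w.1) := by
        gcongr
    _ = g w ^ 2 * n := by
        rw [pow_succ]
        field_simp

end Pool.Agent.Lib.P267408
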