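import Pool.Agent.Lib.P267408.Prod

open Finset

namespace Pool.Agent.Lib.P267408

/-- Words: a length and a set of chords. -/
abbrev WW := ℕ × Finset (ℕ × ℕ)

/-- Concatenation. -/
def concat (w w' : WW) : WW := (w.1 + w'.1, w.2 ∪ w'.2.image fun p => (w.1 + p.1, w.1 + p.2))

lemma mem_concat {w w' : WW} {p : ℕ × ℕ} :
    p ∈ (concat w w').2 ↔ p ∈ w.2 ∨ ∃ q ∈ w'.2, (w.1 + q.1, w.1 + q.2) = p := by
  unfold concat
  simp only [Finset.mem_union, Finset.mem_image]

lemma concat_fst (w w' : WW) : (concat w w').1 = w.1 + w'.1 := rfl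

lemma valid_concat {w w' : WW} (h : Valid w.1 w.2) (h' : Valid w'.1 w'.2) :
    Valid (concat w w').1 (concat w w').2 := by
  constructor
  · intro p hp
    rcases mem_concat.mp hp with hp | ⟨q, hq, rfl⟩
    · exact h.lt p hp
    · have := h'.lt q hq
      simp only
      omega
  · intro p hp
    rw [concat_fst]
    rcases mem_concat.mp hp with hp | ⟨q, hq, rfl⟩
    · have := h.le p hp
      omega
    · have := h'.le q hq
      simp only
      omega
  · intro a ha
    rw [concat_fst] at ha
    rw [mem_concat]
    rcases Nat.lt_or_ge a w.1 with h1 | h1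
    · exact Or.inl (h.path a h1)
    · right
      refine ⟨(a - w.1, a - w.1 + 1), h'.path _ (by omega), ?_⟩
      simp only [Prod.mk.injEq]
      omega
  · intro p hp r hr h1 h2
    rcases mem_concat.mp hp with hp | ⟨q, hq, rfl⟩ <;> rcases mem_concat.mp hr with hr | ⟨q', hq', rfl⟩
    · exact h.nc p hp r hr h1 h2
    · have := h.le p hp
      simp only at h1 h2 ⊢
      omega
    · have := h.le r hr
      have := h.lt r hr
      simp only at h1 h2 ⊢
      omega
    · have := h'.nc q hq q' hq'
      simp only at h1 h2 ⊢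
      have := this (by omega) (by omega)
      omega

/-- Reversal. -/
def starW (w : WW) : WW := (w.1, w.2.image fun p => (w.1 - p.2, w.1 - p.1))

lemma mem_starW {w : WW} {p : ℕ × ℕ} :
    p ∈ (starW w).2 ↔ ∃ q ∈ w.2, (w.1 - q.2, w.1 - q.1) = p := by
  unfold starW
  simp only [Finset.mem_image]

lemma starW_fst (w : WW) : (starW w).1 = w.1 := rfl

lemma concat_assoc (a b c : WW) : concat (concat a b) c = concat a (concat b c) := by
  refine Prod.ext (Nat.add_assoc _ _ _) ?_
  ext p
  rw [mem_concat, mem_concat, mem_concat]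
  constructor
  · rintro ((h | ⟨q, hq, rfl⟩) | ⟨q, hq, rfl⟩)
    · exact Or.inl h
    · exact Or.inr ⟨q, mem_concat.mpr (Or.inl hq), rfl⟩
    · refine Or.inr ⟨(b.1 + q.1, b.1 + q.2), mem_concat.mpr (Or.inr ⟨q, hq, rfl⟩), ?_⟩
      simp only [concat_fst, Nat.add_assoc]
  · rintro (h | ⟨q, hq, rfl⟩)
    · exact Or.inl (Or.inl h)
    · rcases mem_concat.mp hq with hq | ⟨r, hr, rfl⟩
      · exact Or.inl (Or.inr ⟨q, hq, rfl⟩)
      · refine Or.inr ⟨r, hr, ?_⟩
        simp only [concat_fst, Nat.add_assoc]

lemma starW_concat {a b : WW} (ha : Valid a.1 a.2) (hb : Valid b.1 b.2) :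
    starW (concat a b) = concat (starW b) (starW a) := by
  refine Prod.ext ?_ ?_
  · show a.1 + b.1 = b.1 + a.1
    omega
  ext p
  rw [mem_starW, mem_concat]
  constructor
  · rintro ⟨q, hq, rfl⟩
    rcases mem_concat.mp hq with hq | ⟨r, hr, rfl⟩
    · have h1 := ha.lt q hq
      have h2 := ha.le q hq
      refine Or.inr ⟨(a.1 - q.2, a.1 - q.1), mem_starW.mpr ⟨q, hq, rfl⟩, ?_⟩
      simp only [concat_fst, starW_fst, Prod.mk.injEq]
      omega
    · have h1 := hb.lt r hr
      have h2 := hb.le r hr
      refine Or.inl (mem_starW.mpr ⟨r, hr, ?_⟩)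
      simp only [concat_fst, Prod.mk.injEq]
      omega
  · rintro (h | ⟨q, hq, rfl⟩)
    · obtain ⟨r, hr, rfl⟩ := mem_starW.mp h
      have h1 := hb.lt r hr
      have h2 := hb.le r hr
      refine ⟨(a.1 + r.1, a.1 + r.2), mem_concat.mpr (Or.inr ⟨r, hr, rfl⟩), ?_⟩
      simp only [concat_fst, Prod.mk.injEq]
      omega
    · obtain ⟨r, hr, rfl⟩ := mem_starW.mp hq
      have h1 := ha.lt r hr
      have h2 := ha.le r hr
      refine ⟨r, mem_concat.mpr (Or.inl hr), ?_⟩
      simp only [concat_fst, starW_fst, Prod.mk.injEq]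
      omega

/-- Adding the long chord. -/
def closeW (w : WW) : WW := (w.1, insert (0, w.1) w.2)

lemma closeW_fst (w : WW) : (closeW w).1 = w.1 := rfl

lemma mem_closeW {w : WW} {p : ℕ × ℕ} : p ∈ (closeW w).2 ↔ p = (0, w.1) ∨ p ∈ w.2 := by
  unfold closeW
  simp only [Finset.mem_insert]

lemma valid_closeW {w : WW} (h : Valid w.1 w.2) (hpos : 0 < w.1) :
    Valid (closeW w).1 (closeW w).2 := by
  constructor
  · intro p hp
    rcases mem_closeW.mp hp with rfl | hp
    · exact hpos
    · exact h.lt p hp
  · intro p hp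
    rw [closeW_fst]
    rcases mem_closeW.mp hp with rfl | hp
    · exact le_rfl
    · exact h.le p hp
  · intro a ha
    exact mem_closeW.mpr (Or.inr (h.path a ha))
  · intro p hp r hr h1 h2
    rcases mem_closeW.mp hp with rfl | hp <;> rcases mem_closeW.mp hr with rfl | hr
    · exact le_rfl
    · exact h.le r hr
    · simp only at h1; omega
    · exact h.nc p hp r hr h1 h2

lemma starW_closeW (w : WW) : starW (closeW w) = closeW (starW w) := by
  refine Prod.ext rfl ?_
  ext p
  rw [mem_starW, mem_closeW, mem_starW]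
  constructor
  · rintro ⟨q, hq, rfl⟩
    rcases mem_closeW.mp hq with rfl | hq
    · left
      simp only [closeW_fst, starW_fst, Prod.mk.injEq]
      omega
    · right
      exact ⟨q, hq, rfl⟩
  · rintro (rfl | ⟨q, hq, rfl⟩)
    · refine ⟨(0, w.1), mem_closeW.mpr (Or.inl rfl), ?_⟩
      simp only [closeW_fst, starW_fst, Prod.mk.injEq]
      omega
    · exact ⟨q, mem_closeW.mpr (Or.inr hq), rfl⟩

/-- Letters. -/
structure Ltr (w : WW) : Prop where
  valid : Valid w.1 w.2
  pos : 0 < w.1
  chord : (0, w.1) ∈ w.2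

/-- Concatenation of a list of words. -/
def catW : List WW → WW
  | [] => (0, ∅)
  | a :: l => concat a (catW l)

lemma valid_nil : Valid (0, (∅ : Finset (ℕ × ℕ))).1 (0, (∅ : Finset (ℕ × ℕ))).2 := by
  constructor
  · intro p hp; simp at hp
  · intro p hp; simp at hp
  · intro a ha; simp at ha
  · intro p hp; simp at hp

lemma nil_concat (w : WW) : concat (0, ∅) w = w := by
  refine Prod.ext ?_ ?_
  · show 0 + w.1 = w.1
    omega
  · ext p
    rw [mem_concat]
    simp

lemma concat_nil (w : WW) : concat w (0, ∅) = w := by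
  refine Prod.ext ?_ ?_
  · rfl
  · ext p
    rw [mem_concat]
    simp

lemma catW_append (u v : List WW) : catW (u ++ v) = concat (catW u) (catW v) := by
  induction u with
  | nil => rw [List.nil_append]; exact (nil_concat _).symm
  | cons a u ih =>
    show concat a (catW (u ++ v)) = concat (concat a (catW u)) (catW v)
    rw [ih, concat_assoc]

lemma valid_catW {l : List WW} (h : ∀ a ∈ l, Valid a.1 a.2) : Valid (catW l).1 (catW l).2 := by
  induction l with
  | nil => exact valid_nil
  | cons a l ih =>
    exact valid_concat (h a (List.mem_cons_self ..)) (ih fun b hb => h b (List.mem_cons_of_mem _ hb))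

lemma starW_catW {l : List WW} (h : ∀ a ∈ l, Valid a.1 a.2) :
    starW (catW l) = catW (l.map starW).reverse := by
  induction l with
  | nil =>
    show starW (0, ∅) = (0, ∅)
    unfold starW
    simp
  | cons a l ih =>
    have h1 := h a (List.mem_cons_self ..)
    have h2 : ∀ b ∈ l, Valid b.1 b.2 := fun b hb => h b (List.mem_cons_of_mem _ hb)
    rw [List.map_cons, List.reverse_cons, catW_append, ← ih h2]
    show starW (concat a (catW l)) = concat (starW (catW l)) (concat (starW a) (0, ∅))
    rw [concat_nil, starW_concat h1 (valid_catW h2)]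

lemma cut_concat {a w : WW} (ha : Valid a.1 a.2) :
    ∀ p ∈ (concat a w).2, p.2 ≤ a.1 ∨ a.1 ≤ p.1 := by
  intro p hp
  rcases mem_concat.mp hp with hp | ⟨q, hq, rfl⟩
  · exact Or.inl (ha.le p hp)
  · right
    simp only
    omega

lemma tl_concat {a w : WW} (ha : Valid a.1 a.2) (hw : Valid w.1 w.2) :
    tl a.1 (concat a w).2 = w.2 := by
  ext ⟨x, y⟩
  rw [mem_tl (valid_concat ha hw).lt, mem_concat]
  constructor
  · rintro (h | ⟨q, hq, h⟩)
    · have h1 := ha.le _ h
      have h2 := ha.lt _ h
      simp only at h1 h2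
      omega
    · rw [Prod.mk.injEq] at h
      have e1 : q = (x, y) := Prod.ext (by simp only; omega) (by simp only; omega)
      rw [← e1]; exact hq
  · intro h
    exact Or.inr ⟨_, h, rfl⟩

lemma head_concat {a w : WW} (ha : Valid a.1 a.2) (hw : Valid w.1 w.2) :
    ((concat a w).2.filter fun p => p.2 ≤ a.1) = a.2 := by
  ext p
  rw [Finset.mem_filter, mem_concat]
  constructor
  · rintro ⟨h | ⟨q, hq, rfl⟩, h2⟩
    · exact h
    · have := hw.lt q hq
      simp only at h2
      omega
  · intro h
    exact ⟨Or.inl h, ha.le p h⟩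

lemma concat_inj {a w a' w' : WW} (ha : Valid a.1 a.2) (hw : Valid w.1 w.2)
    (ha' : Valid a'.1 a'.2) (hw' : Valid w'.1 w'.2) (h : concat a w = concat a' w')
    (hl : a.1 = a'.1) : a = a' ∧ w = w' := by
  have h1 : a.1 + w.1 = a'.1 + w'.1 := congrArg Prod.fst h
  constructor
  · refine Prod.ext hl ?_
    rw [← head_concat ha hw, ← head_concat ha' hw', h, hl]
  · refine Prod.ext (by omega) ?_
    rw [← tl_concat ha hw, ← tl_concat ha' hw', h, hl]

lemma cut_letter {a w : WW} (ha : Ltr a) (hw : Valid w.1 w.2) {c : ℕ}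
    (hcut : ∀ p ∈ (concat a w).2, p.2 ≤ c ∨ c ≤ p.1) :
    c = 0 ∨ (a.1 ≤ c ∧ ∀ p ∈ w.2, p.2 ≤ c - a.1 ∨ c - a.1 ≤ p.1) := by
  rcases hcut (0, a.1) (mem_concat.mpr (Or.inl ha.chord)) with h | h
  · right
    refine ⟨h, fun p hp => ?_⟩
    have := hw.lt p hp
    have h1 := hcut _ (mem_concat.mpr (Or.inr ⟨p, hp, rfl⟩))
    simp only at h h1
    omega
  · left
    simp only at h
    omega

lemma catW_pos {l : List WW} (h : ∀ a ∈ l, Ltr a) (hl : l ≠ []) : 0 < (catW l).1 := by
  cases l with
  | nil => exact absurd rfl hl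
  | cons a l =>
    have := (h a (List.mem_cons_self ..)).pos
    show 0 < a.1 + (catW l).1
    omega

lemma length_le_catW {l : List WW} (h : ∀ a ∈ l, Ltr a) : l.length ≤ (catW l).1 := by
  induction l with
  | nil => simp
  | cons a l ih =>
    have h1 := (h a (List.mem_cons_self ..)).pos
    have h2 := ih fun b hb => h b (List.mem_cons_of_mem _ hb)
    show l.length + 1 ≤ a.1 + (catW l).1
    omega

lemma cut_catW {l : List WW} (h : ∀ a ∈ l, Ltr a) {c : ℕ} (hc : c ≤ (catW l).1)
    (hcut : ∀ p ∈ (catW l).2, p.2 ≤ c ∨ c ≤ p.1) :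
    ∃ u v, l = u ++ v ∧ (catW u).1 = c := by
  induction l generalizing c with
  | nil =>
    refine ⟨[], [], rfl, ?_⟩
    have : c ≤ 0 := hc
    show 0 = c
    omega
  | cons a l ih =>
    have h2 : ∀ b ∈ l, Ltr b := fun b hb => h b (List.mem_cons_of_mem _ hb)
    rcases cut_letter (h a (List.mem_cons_self ..)) (valid_catW fun b hb => (h2 b hb).valid)
      hcut with h3 | ⟨h3, h4⟩
    · exact ⟨[], a :: l, rfl, h3.symm⟩
    · have hc' : c ≤ a.1 + (catW l).1 := hc
      obtain ⟨u, v, rfl, hu⟩ := ih h2 (by omega) h4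
      refine ⟨a :: u, v, rfl, ?_⟩
      show a.1 + (catW u).1 = c
      omega

/-- Unique factorisation. -/
theorem catW_inj {l l' : List WW} (h : ∀ a ∈ l, Ltr a) (h' : ∀ a ∈ l', Ltr a)
    (heq : catW l = catW l') : l = l' := by
  induction l generalizing l' with
  | nil =>
    by_contra hne
    have := catW_pos h' (fun h => hne h.symm)
    rw [← heq] at this
    exact absurd this (lt_irrefl 0)
  | cons a l ih =>
    cases l' with
    | nil =>
      have := catW_pos h (List.cons_ne_nil _ _)
      rw [heq] at this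
      exact absurd this (lt_irrefl 0)
    | cons a' l' =>
      have ha := h a (List.mem_cons_self ..)
      have ha' := h' a' (List.mem_cons_self ..)
      have h2 : ∀ b ∈ l, Ltr b := fun b hb => h b (List.mem_cons_of_mem _ hb)
      have h2' : ∀ b ∈ l', Ltr b := fun b hb => h' b (List.mem_cons_of_mem _ hb)
      have hv := valid_catW fun b hb => (h2 b hb).valid
      have hv' := valid_catW fun b hb => (h2' b hb).valid
      have heq' : concat a (catW l) = concat a' (catW l') := heq
      have hlen : a.1 = a'.1 := by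
        have hp := ha.pos
        have hp' := ha'.pos
        have c1 := cut_letter ha' hv' (c := a.1) (by rw [← heq']; exact cut_concat ha.valid)
        have c2 := cut_letter ha hv (c := a'.1) (by rw [heq']; exact cut_concat ha'.valid)
        rcases c1 with c1 | ⟨c1, -⟩
        · omega
        rcases c2 with c2 | ⟨c2, -⟩
        · omega
        omega
      obtain ⟨e1, e2⟩ := concat_inj ha.valid hv ha'.valid hv' heq' hlen
      rw [e1, ih h2 h2' e2]

lemma glue_concat {u u' v : WW} (hu : Valid u.1 u.2) (hu' : Valid u'.1 u'.2)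
    (hv : Valid v.1 v.2) : glue (concat u v) (concat u' v) v.1 = concat u (starW u') := by
  refine Prod.ext ?_ ?_
  · show (u.1 + v.1 - v.1) + (u'.1 + v.1 - v.1) = u.1 + u'.1
    omega
  · ext p
    rw [mem_glue, mem_concat (w := u) (w' := starW u')]
    have e1 : (concat u v).1 - v.1 = u.1 := by rw [concat_fst]; omega
    have e2 : (concat u' v).1 - v.1 = u'.1 := by rw [concat_fst]; omega
    rw [e1, e2]
    have h1 : (p ∈ (concat u v).2 ∧ p.2 ≤ u.1) ↔ p ∈ u.2 := by
      have h0 : p ∈ ((concat u v).2.filter fun p => p.2 ≤ u.1) ↔ p ∈ u.2 := by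
        rw [head_concat hu hv]
      rw [Finset.mem_filter] at h0
      exact h0
    rw [h1]
    refine or_congr Iff.rfl ?_
    constructor
    · rintro ⟨q, hq, hq', rfl⟩
      have hq2 : q ∈ u'.2 := by
        rw [← head_concat hu' hv, Finset.mem_filter]
        exact ⟨hq, hq'⟩
      refine ⟨(u'.1 - q.2, u'.1 - q.1), mem_starW.mpr ⟨q, hq2, rfl⟩, ?_⟩
      have := hu'.lt q hq2
      have := hu'.le q hq2
      simp only [Prod.mk.injEq]
      omega
    · rintro ⟨q, hq, rfl⟩
      obtain ⟨r, hr, rfl⟩ := mem_starW.mp hq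
      have h3 := hu'.lt r hr
      have h4 := hu'.le r hr
      refine ⟨r, mem_concat.mpr (Or.inl hr), h4, ?_⟩
      simp only [Prod.mk.injEq]
      omega

lemma compat_iff {l l' : List WW} (h : ∀ a ∈ l, Ltr a) (h' : ∀ a ∈ l', Ltr a) {k : ℕ} :
    Compat (catW l).1 (catW l).2 (catW l').1 (catW l').2 k ↔
      ∃ u u' v, l = u ++ v ∧ l' = u' ++ v ∧ (catW v).1 = k := by
  constructor
  · intro hC
    obtain ⟨u, v, hl, hu⟩ := cut_catW h (Nat.sub_le _ k) hC.cut1
    obtain ⟨u', v', hl', hu'⟩ := cut_catW h' (Nat.sub_le _ k) hC.cut2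
    subst hl hl'
    have hLu : ∀ a ∈ u, Ltr a := fun a ha => h a (List.mem_append_left _ ha)
    have hLv : ∀ a ∈ v, Ltr a := fun a ha => h a (List.mem_append_right _ ha)
    have hLu' : ∀ a ∈ u', Ltr a := fun a ha => h' a (List.mem_append_left _ ha)
    have hLv' : ∀ a ∈ v', Ltr a := fun a ha => h' a (List.mem_append_right _ ha)
    have hVu := valid_catW fun a ha => (hLu a ha).valid
    have hVv := valid_catW fun a ha => (hLv a ha).valid
    have hVu' := valid_catW fun a ha => (hLu' a ha).valid
    have hVv' := valid_catW fun a ha => (hLv' a ha).valid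
    have ht := hC.tail
    have hk1 := hC.le1
    have hk2 := hC.le2
    rw [← hu, ← hu', catW_append, catW_append, tl_concat hVu hVv, tl_concat hVu' hVv'] at ht
    rw [catW_append, concat_fst] at hk1 hu
    rw [catW_append, concat_fst] at hk2 hu'
    have e1 : (catW v).1 = k := by omega
    have e2 : (catW v').1 = k := by omega
    have hvv : v = v' := catW_inj hLv hLv' (Prod.ext (e1.trans e2.symm) ht)
    subst hvv
    exact ⟨u, u', v, rfl, rfl, e1⟩
  · rintro ⟨u, u', v, rfl, rfl, hk⟩
    have hLu : ∀ a ∈ u, Ltr a := fun a ha => h a (List.mem_append_left _ ha)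
    have hLv : ∀ a ∈ v, Ltr a := fun a ha => h a (List.mem_append_right _ ha)
    have hLu' : ∀ a ∈ u', Ltr a := fun a ha => h' a (List.mem_append_left _ ha)
    have hVu := valid_catW fun a ha => (hLu a ha).valid
    have hVv := valid_catW fun a ha => (hLv a ha).valid
    have hVu' := valid_catW fun a ha => (hLu' a ha).valid
    rw [catW_append, catW_append]
    have e1 : (concat (catW u) (catW v)).1 - k = (catW u).1 := by rw [concat_fst]; omega
    have e2 : (concat (catW u') (catW v)).1 - k = (catW u').1 := by rw [concat_fst]; omega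
    refine ⟨by rw [concat_fst]; omega, by rw [concat_fst]; omega, ?_, ?_, ?_⟩
    · rw [e1]; exact cut_concat hVu
    · rw [e2]; exact cut_concat hVu'
    · rw [e1, e2, tl_concat hVu hVv, tl_concat hVu' hVv]

/-- The product rule for lists of letters. -/
theorem prod_rule_list {l l' : List WW} (h : ∀ a ∈ l, Ltr a) (h' : ∀ a ∈ l', Ltr a) :
    ∃ C : ℝ, 0 ≤ C ∧ ∀ n : ℕ, 0 < n → nrm2 (n := n) (fun ω i j =>
      (∑ x, Nm (catW l) n ω i x * Nm (catW l') n ω j x) -
        ∑ κ ∈ Finset.range (min l.length l'.length + 1),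
          if l.drop (l.length - κ) = l'.drop (l'.length - κ) then
            Nm (concat (catW (l.take (l.length - κ))) (starW (catW (l'.take (l'.length - κ)))))
              n ω i j else 0) ≤ C / n := by
  classical
  set Q : Finset ℕ := (Finset.range (min l.length l'.length + 1)).filter fun κ =>
    l.drop (l.length - κ) = l'.drop (l'.length - κ) with hQ
  set φ : ℕ → ℕ := fun κ => (catW (l.drop (l.length - κ))).1 with hφ
  have hLd : ∀ j, ∀ a ∈ l.drop j, Ltr a := fun j a ha => h a (List.mem_of_mem_drop ha)
  have hLt : ∀ j, ∀ a ∈ l.take j, Ltr a := fun j a ha => h a (List.mem_of_mem_take ha)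
  have hLt' : ∀ j, ∀ a ∈ l'.take j, Ltr a := fun j a ha => h' a (List.mem_of_mem_take ha)
  have hφinj : Set.InjOn φ (Q : Set ℕ) := by
    have hmono : ∀ κ κ', κ < κ' → κ' ≤ l.length → φ κ < φ κ' := by
      intro κ κ' hlt hle
      simp only [hφ]
      have e : l.drop (l.length - κ') = (l.drop (l.length - κ')).take (κ' - κ) ++
          l.drop (l.length - κ) := by
        have : l.drop (l.length - κ) = (l.drop (l.length - κ')).drop (κ' - κ) := by
          rw [List.drop_drop]
          congr 1
          omega
        rw [this, List.take_append_drop]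
      rw [e, catW_append, concat_fst]
      have : 0 < (catW ((l.drop (l.length - κ')).take (κ' - κ))).1 := by
        apply catW_pos
        · intro a ha
          exact hLd _ a (List.mem_of_mem_take ha)
        · intro hnil
          have := congrArg List.length hnil
          rw [List.length_take, List.length_drop, List.length_nil] at this
          omega
      omega
    intro κ hκ κ' hκ' heq
    rw [Finset.mem_coe, hQ, Finset.mem_filter, Finset.mem_range] at hκ hκ'
    rcases lt_trichotomy κ κ' with hlt | rfl | hlt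
    · have := hmono _ _ hlt (by omega)
      omega
    · rfl
    · have := hmono _ _ hlt (by omega)
      omega
  obtain ⟨C, hC0, hC⟩ := prod_rule (catW l) (catW l') (valid_catW fun a ha => (h a ha).valid)
    (valid_catW fun a ha => (h' a ha).valid) (Q.image φ) (by
      intro k
      rw [compat_iff h h', Finset.mem_image]
      constructor
      · rintro ⟨κ, hκ, rfl⟩
        rw [hQ, Finset.mem_filter] at hκ
        refine ⟨l.take (l.length - κ), l'.take (l'.length - κ), l.drop (l.length - κ), ?_, ?_, rfl⟩
        · rw [List.take_append_drop]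
        · rw [hκ.2, List.take_append_drop]
      · rintro ⟨u, u', v, rfl, rfl, rfl⟩
        have e1 : (u ++ v).length - v.length = u.length := by rw [List.length_append]; omega
        have e2 : (u' ++ v).length - v.length = u'.length := by rw [List.length_append]; omega
        refine ⟨v.length, ?_, ?_⟩
        · rw [hQ, Finset.mem_filter, Finset.mem_range, e1, e2, List.drop_left, List.drop_left]
          refine ⟨?_, rfl⟩
          rw [List.length_append, List.length_append]
          omega
        · simp only [hφ]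
          rw [e1, List.drop_left])
  refine ⟨C, hC0, fun n hn => ?_⟩
  have hsum : ∀ (ω : Gr n) (i j : Fin n),
      ∑ k ∈ Q.image φ, Nm (glue (catW l) (catW l') k) n ω i j =
      ∑ κ ∈ Finset.range (min l.length l'.length + 1),
          if l.drop (l.length - κ) = l'.drop (l'.length - κ) then
            Nm (concat (catW (l.take (l.length - κ))) (starW (catW (l'.take (l'.length - κ)))))
              n ω i j else 0 := by
    intro ω i j
    rw [Finset.sum_image hφinj, ← Finset.sum_filter, ← hQ]
    refine Finset.sum_congr rfl fun κ hκ => ?_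
    congr 1
    rw [hQ, Finset.mem_filter] at hκ
    have e1 : catW l = concat (catW (l.take (l.length - κ))) (catW (l.drop (l.length - κ))) := by
      rw [← catW_append, List.take_append_drop]
    have e2 : catW l' = concat (catW (l'.take (l'.length - κ))) (catW (l.drop (l.length - κ))) := by
      rw [hκ.2, ← catW_append, List.take_append_drop]
    have hV := valid_catW fun a ha => (hLt (l.length - κ) a ha).valid
    have hV' := valid_catW fun a ha => (hLt' (l'.length - κ) a ha).valid
    have hVd := valid_catW fun a ha => (hLd (l.length - κ) a ha).valid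
    have e3 := glue_concat hV hV' hVd
    rw [← e1, ← e2] at e3
    exact e3
  have := hC n hn
  simp_rw [hsum] at this
  exact this

end Pool.Agent.Lib.P267408
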