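import Mathlib

open Finset

namespace Pool.Agent.Lib.P267408

variable {n : ℕ}

/-- A graph on `Fin n`, encoded by a set of unordered pairs (pairs on the diagonal carry no
information). -/
abbrev Gr (n : ℕ) := Finset (Sym2 (Fin n))

/-- The sign `+1` on edges and `-1` on non-edges. -/
def sg (ω : Gr n) (e : Sym2 (Fin n)) : ℝ := if e ∈ ω then 1 else -1

lemma sg_mul_self (ω : Gr n) (e : Sym2 (Fin n)) : sg ω e * sg ω e = 1 := by
  unfold sg; split_ifs <;> norm_num

/-- Uniform average over all graphs. -/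
noncomputable def avg (F : Gr n → ℝ) : ℝ := (∑ ω, F ω) / 2 ^ Fintype.card (Sym2 (Fin n))

/-- Walsh characters. -/
def wch (A : Finset (Sym2 (Fin n))) (ω : Gr n) : ℝ := ∏ e ∈ A, sg ω e

lemma wch_empty (ω : Gr n) : wch ∅ ω = 1 := by simp [wch]

lemma wch_mul (A B : Finset (Sym2 (Fin n))) (ω : Gr n) :
    wch A ω * wch B ω = wch (symmDiff A B) ω := by
  unfold wch
  have h1 : ∏ e ∈ A, sg ω e = (∏ e ∈ A \ B, sg ω e) * ∏ e ∈ A ∩ B, sg ω e := by
    rw [← Finset.prod_union (Finset.disjoint_sdiff_inter A B), Finset.sdiff_union_inter]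
  have h2 : ∏ e ∈ B, sg ω e = (∏ e ∈ B \ A, sg ω e) * ∏ e ∈ A ∩ B, sg ω e := by
    rw [Finset.inter_comm, ← Finset.prod_union (Finset.disjoint_sdiff_inter B A),
      Finset.sdiff_union_inter]
  have h3 : (∏ e ∈ A ∩ B, sg ω e) * ∏ e ∈ A ∩ B, sg ω e = 1 := by
    rw [← Finset.prod_mul_distrib]
    exact Finset.prod_eq_one fun e _ => sg_mul_self ω e
  have h4 : ∏ e ∈ symmDiff A B, sg ω e = (∏ e ∈ A \ B, sg ω e) * ∏ e ∈ B \ A, sg ω e := by
    rw [symmDiff_def, Finset.sup_eq_union, Finset.prod_union]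
    exact Finset.disjoint_left.mpr fun x hx hy => by
      simp only [Finset.mem_sdiff] at hx hy
      exact hx.2 hy.1
  rw [h1, h2, h4]
  calc (∏ e ∈ A \ B, sg ω e) * (∏ e ∈ A ∩ B, sg ω e) *
        ((∏ e ∈ B \ A, sg ω e) * ∏ e ∈ A ∩ B, sg ω e)
      = (∏ e ∈ A \ B, sg ω e) * (∏ e ∈ B \ A, sg ω e) *
        ((∏ e ∈ A ∩ B, sg ω e) * ∏ e ∈ A ∩ B, sg ω e) := by ring
    _ = _ := by rw [h3, mul_one]

lemma card_Gr : (Fintype.card (Gr n) : ℝ) = 2 ^ Fintype.card (Sym2 (Fin n)) := by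
  simp

lemma avg_const (c : ℝ) : avg (fun _ : Gr n => c) = c := by
  unfold avg
  rw [Finset.sum_const, Finset.card_univ, nsmul_eq_mul, card_Gr]
  field_simp

lemma avg_nonneg {F : Gr n → ℝ} (h : ∀ ω, 0 ≤ F ω) : 0 ≤ avg F := by
  unfold avg
  exact div_nonneg (Finset.sum_nonneg fun ω _ => h ω) (by positivity)

lemma avg_mono {F G : Gr n → ℝ} (h : ∀ ω, F ω ≤ G ω) : avg F ≤ avg G := by
  unfold avg
  exact div_le_div_of_nonneg_right (Finset.sum_le_sum fun ω _ => h ω) (by positivity)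

lemma avg_add (F G : Gr n → ℝ) : avg (fun ω => F ω + G ω) = avg F + avg G := by
  unfold avg
  rw [Finset.sum_add_distrib, add_div]

lemma avg_sum {ι : Type*} (s : Finset ι) (F : ι → Gr n → ℝ) :
    avg (fun ω => ∑ i ∈ s, F i ω) = ∑ i ∈ s, avg (F i) := by
  unfold avg
  rw [Finset.sum_comm, Finset.sum_div]

lemma avg_mul_left (c : ℝ) (F : Gr n → ℝ) : avg (fun ω => c * F ω) = c * avg F := by
  unfold avg
  rw [← Finset.mul_sum, mul_div_assoc]

lemma avg_mul_right (c : ℝ) (F : Gr n → ℝ) : avg (fun ω => F ω * c) = avg F * c := by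
  unfold avg
  rw [← Finset.sum_mul]; ring

lemma avg_div (c : ℝ) (F : Gr n → ℝ) : avg (fun ω => F ω / c) = avg F / c := by
  unfold avg
  rw [← Finset.sum_div]; ring

lemma avg_wch (C : Finset (Sym2 (Fin n))) : avg (wch C) = if C = ∅ then 1 else 0 := by
  split_ifs with h
  · subst h
    have : (wch (∅ : Finset (Sym2 (Fin n)))) = fun _ => (1 : ℝ) := by
      funext ω; exact wch_empty ω
    rw [this, avg_const]
  · obtain ⟨e, he⟩ := Finset.nonempty_iff_ne_empty.mpr h
    unfold avg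
    have hs : ∑ ω, wch C ω = 0 := by
      refine Finset.sum_involution (fun ω _ => symmDiff ω {e}) ?_ ?_ ?_ ?_
      · intro ω _
        have h1 : wch C (symmDiff ω {e}) = - wch C ω := by
          unfold wch
          rw [← Finset.mul_prod_erase _ _ he, ← Finset.mul_prod_erase C (fun x => sg ω x) he]
          have h2 : sg (symmDiff ω {e}) e = - sg ω e := by
            unfold sg
            by_cases hω : e ∈ ω <;> simp [Finset.mem_symmDiff, hω]
          have h3 : ∏ x ∈ C.erase e, sg (symmDiff ω {e}) x = ∏ x ∈ C.erase e, sg ω x := by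
            refine Finset.prod_congr rfl fun x hx => ?_
            have hxe := Finset.ne_of_mem_erase hx
            unfold sg
            simp [Finset.mem_symmDiff, hxe]
          rw [h2, h3]; ring
        rw [h1]; ring
      · intro ω _ _ heq
        have : e ∈ symmDiff ω {e} ↔ e ∈ ω := by rw [heq]
        simp [Finset.mem_symmDiff] at this
      · intro ω _; exact Finset.mem_univ _
      · intro ω _
        rw [symmDiff_assoc, symmDiff_self, symmDiff_bot]
    rw [hs, zero_div]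

lemma avg_wch_mul (A B : Finset (Sym2 (Fin n))) :
    avg (fun ω => wch A ω * wch B ω) = if A = B then 1 else 0 := by
  have h1 : (fun ω => wch A ω * wch B ω) = wch (symmDiff A B) := by
    funext ω; exact wch_mul A B ω
  rw [h1, avg_wch]
  congr 1
  simp only [eq_iff_iff]
  constructor
  · intro h
    have : symmDiff A B = ⊥ := h
    exact symmDiff_eq_bot.mp this
  · rintro rfl
    simp

/-- Second moment of a random matrix given by a sum of characters. -/
lemma avg_sq_config {K : Type*} (𝒦 : Finset K) (r : K → Fin n × Fin n)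
    (A : K → Finset (Sym2 (Fin n))) (c : K → ℝ) :
    avg (fun ω => ∑ i, ∑ j, (∑ κ ∈ 𝒦, if r κ = (i, j) then c κ * wch (A κ) ω else 0) ^ 2) =
      ∑ κ ∈ 𝒦, ∑ κ' ∈ 𝒦, if r κ = r κ' ∧ A κ = A κ' then c κ * c κ' else 0 := by
  have h1 : ∀ ω : Gr n, ∑ i, ∑ j, (∑ κ ∈ 𝒦, if r κ = (i, j) then c κ * wch (A κ) ω else 0) ^ 2 =
      ∑ κ ∈ 𝒦, ∑ κ' ∈ 𝒦, (if r κ = r κ' then c κ * c κ' else 0) * (wch (A κ) ω * wch (A κ') ω) := by
    intro ω
    have h2 : ∀ i j : Fin n, (∑ κ ∈ 𝒦, if r κ = (i, j) then c κ * wch (A κ) ω else 0) ^ 2 =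
        ∑ κ ∈ 𝒦, ∑ κ' ∈ 𝒦, (if r κ = (i, j) then c κ * wch (A κ) ω else 0) *
          (if r κ' = (i, j) then c κ' * wch (A κ') ω else 0) := by
      intro i j
      rw [sq, Finset.sum_mul_sum]
    simp_rw [h2]
    rw [← Finset.sum_product' (s := Finset.univ) (t := Finset.univ)
      (f := fun i j => ∑ κ ∈ 𝒦, ∑ κ' ∈ 𝒦, (if r κ = (i, j) then c κ * wch (A κ) ω else 0) *
          (if r κ' = (i, j) then c κ' * wch (A κ') ω else 0)), Finset.sum_comm]
    refine Finset.sum_congr rfl fun κ _ => ?_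
    rw [Finset.sum_comm]
    refine Finset.sum_congr rfl fun κ' _ => ?_
    rw [Finset.sum_eq_single (r κ)]
    · simp only [Prod.mk.eta, if_true]
      by_cases h : r κ = r κ'
      · simp only [h, if_true]; ring
      · have h' : ¬ r κ' = r κ := fun h' => h h'.symm
        simp only [h, h', if_false]; ring
    · intro p _ hp
      have : ¬ r κ = (p.1, p.2) := fun h => hp h.symm
      simp only [this, if_false, zero_mul]
    · intro h; exact absurd (Finset.mem_product.mpr ⟨Finset.mem_univ _, Finset.mem_univ _⟩) h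
  simp_rw [h1]
  rw [avg_sum]
  refine Finset.sum_congr rfl fun κ _ => ?_
  rw [avg_sum]
  refine Finset.sum_congr rfl fun κ' _ => ?_
  rw [avg_mul_left, avg_wch_mul]
  by_cases h : r κ = r κ' <;> by_cases h' : A κ = A κ' <;> simp [h, h']

end Pool.Agent.Lib.P267408
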