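import Pool.Agent.Lib.P267408.Core

open Finset

namespace Pool.Agent.Lib.P267408

open Real MeasureTheory intervalIntegral

/-- The function `2 y_+` at `y = 2 cos θ`. -/
noncomputable def ff (θ : ℝ) : ℝ := 2 * max (2 * Real.cos θ) 0

/-- Fourier coefficients. -/
noncomputable def gam (u : ℕ) : ℝ :=
  (2 / π) * ∫ θ in (0 : ℝ)..π, ff θ * Real.sin θ * Real.sin ((u + 1) * θ)

lemma cont_ff : Continuous ff := by
  unfold ff
  fun_prop

lemma int_cos_mul {c : ℝ} (hc : c ≠ 0) (b : ℝ) :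
    ∫ θ in (0 : ℝ)..b, Real.cos (c * θ) = Real.sin (c * b) / c := by
  rw [intervalIntegral.integral_comp_mul_left (fun x => Real.cos x) hc, integral_cos]
  simp
  ring

lemma orth (u v : ℕ) : ∫ θ in (0 : ℝ)..π, Real.sin ((u + 1) * θ) * Real.sin ((v + 1) * θ) =
    if u = v then π / 2 else 0 := by
  have h1 : ∀ θ : ℝ, Real.sin ((u + 1) * θ) * Real.sin ((v + 1) * θ) =
      (1 / 2) * Real.cos (((u : ℝ) - v) * θ) - (1 / 2) * Real.cos (((u : ℝ) + v + 2) * θ) := by
    intro θ
    have e1 : ((u : ℝ) - v) * θ = (u + 1) * θ - (v + 1) * θ := by ring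
    have e2 : ((u : ℝ) + v + 2) * θ = (u + 1) * θ + (v + 1) * θ := by ring
    rw [e1, e2, Real.cos_sub, Real.cos_add]
    ring
  simp_rw [h1]
  rw [intervalIntegral.integral_sub, intervalIntegral.integral_const_mul,
    intervalIntegral.integral_const_mul]
  · have h2 : ∫ θ in (0 : ℝ)..π, Real.cos (((u : ℝ) + v + 2) * θ) = 0 := by
      rw [int_cos_mul (by positivity)]
      have : ((u : ℝ) + v + 2) * π = ((u + v + 2 : ℕ) : ℝ) * π := by push_cast; ring
      rw [this, Real.sin_nat_mul_pi, zero_div]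
    rw [h2]
    split_ifs with h
    · subst h
      simp
      ring
    · have h3 : ((u : ℝ) - v) ≠ 0 := by
        intro h4
        apply h
        have : (u : ℝ) = v := by linarith
        exact_mod_cast this
      rw [int_cos_mul h3]
      have : ((u : ℝ) - v) * π = (((u : ℤ) - v : ℤ) : ℝ) * π := by push_cast; ring
      rw [this, Real.sin_int_mul_pi]
      simp
  · exact (by fun_prop : Continuous fun θ : ℝ => 1 / 2 * Real.cos (((u : ℝ) - v) * θ)).intervalIntegrable _ _
  · exact (by fun_prop : Continuous fun θ : ℝ => 1 / 2 * Real.cos (((u : ℝ) + v + 2) * θ)).intervalIntegrable _ _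

/-- Bessel's inequality. -/
lemma bessel {h : ℝ → ℝ} (hc : Continuous h) (U : Finset ℕ) :
    ∑ u ∈ U, ((2 / π) * ∫ θ in (0 : ℝ)..π, h θ * Real.sin ((u + 1) * θ)) ^ 2 ≤
      (2 / π) * ∫ θ in (0 : ℝ)..π, h θ ^ 2 := by
  have hpi := Real.pi_pos
  set c : ℕ → ℝ := fun u => (2 / π) * ∫ θ in (0 : ℝ)..π, h θ * Real.sin ((u + 1) * θ) with hcd
  have hcI : ∀ u : ℕ, ∫ θ in (0 : ℝ)..π, h θ * Real.sin ((u + 1) * θ) = (π / 2) * c u := by
    intro u
    simp only [hcd]
    field_simp
  have hcs : ∀ u : ℕ, Continuous fun θ : ℝ => Real.sin (((u : ℝ) + 1) * θ) := by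
    intro u; fun_prop
  have h0 : 0 ≤ ∫ θ in (0 : ℝ)..π, (h θ - ∑ u ∈ U, c u * Real.sin ((u + 1) * θ)) ^ 2 := by
    apply intervalIntegral.integral_nonneg hpi.le
    intro θ _
    exact sq_nonneg _
  have h1 : ∀ θ : ℝ, (h θ - ∑ u ∈ U, c u * Real.sin ((u + 1) * θ)) ^ 2 =
      h θ ^ 2 - 2 * (∑ u ∈ U, c u * (h θ * Real.sin ((u + 1) * θ))) +
      ∑ u ∈ U, ∑ v ∈ U, c u * c v * (Real.sin ((u + 1) * θ) * Real.sin ((v + 1) * θ)) := by
    intro θ
    have e1 : (∑ u ∈ U, c u * Real.sin ((u + 1) * θ)) ^ 2 =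
        ∑ u ∈ U, ∑ v ∈ U, c u * c v * (Real.sin ((u + 1) * θ) * Real.sin ((v + 1) * θ)) := by
      rw [sq, Finset.sum_mul_sum]
      exact Finset.sum_congr rfl fun u _ => Finset.sum_congr rfl fun v _ => by ring
    have e2 : ∑ u ∈ U, c u * (h θ * Real.sin ((u + 1) * θ)) =
        h θ * ∑ u ∈ U, c u * Real.sin ((u + 1) * θ) := by
      rw [Finset.mul_sum]
      exact Finset.sum_congr rfl fun u _ => by ring
    rw [← e1, e2]
    ring
  simp_rw [h1] at h0
  rw [intervalIntegral.integral_add, intervalIntegral.integral_sub,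
    intervalIntegral.integral_const_mul, intervalIntegral.integral_finsetSum,
    intervalIntegral.integral_finsetSum] at h0
  · have h2 : ∑ u ∈ U, ∫ θ in (0 : ℝ)..π, c u * (h θ * Real.sin ((u + 1) * θ)) =
        (π / 2) * ∑ u ∈ U, c u ^ 2 := by
      rw [Finset.mul_sum]
      refine Finset.sum_congr rfl fun u _ => ?_
      rw [intervalIntegral.integral_const_mul, hcI]
      ring
    have h3 : ∑ u ∈ U, ∫ θ in (0 : ℝ)..π, ∑ v ∈ U,
        c u * c v * (Real.sin ((u + 1) * θ) * Real.sin ((v + 1) * θ)) =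
        (π / 2) * ∑ u ∈ U, c u ^ 2 := by
      rw [Finset.mul_sum]
      refine Finset.sum_congr rfl fun u hu => ?_
      rw [intervalIntegral.integral_finsetSum]
      · rw [Finset.sum_eq_single u]
        · rw [intervalIntegral.integral_const_mul, orth, if_pos rfl]
          ring
        · intro v _ hne
          rw [intervalIntegral.integral_const_mul, orth, if_neg (fun h => hne h.symm), mul_zero]
        · intro h; exact absurd hu h
      · intro v _
        exact ((continuous_const.mul ((hcs u).mul (hcs v)))).intervalIntegrable _ _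
    rw [h2, h3] at h0
    have h4 : (2 / π) * (∫ θ in (0 : ℝ)..π, h θ ^ 2) ≥ (2 / π) * ((π / 2) * ∑ u ∈ U, c u ^ 2) := by
      apply mul_le_mul_of_nonneg_left _ (by positivity)
      linarith
    have h5 : (2 / π) * ((π / 2) * ∑ u ∈ U, c u ^ 2) = ∑ u ∈ U, c u ^ 2 := by
      field_simp
    rw [h5] at h4
    exact h4
  · intro u _
    exact (continuous_finsetSum _ fun v _ =>
      (continuous_const.mul ((hcs u).mul (hcs v)))).intervalIntegrable _ _
  · intro u _
    exact (continuous_const.mul (hc.mul (hcs u))).intervalIntegrable _ _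
  · exact (hc.pow 2).intervalIntegrable _ _
  · exact (continuous_const.mul (continuous_finsetSum _ fun u _ =>
      continuous_const.mul (hc.mul (hcs u)))).intervalIntegrable _ _
  · exact ((hc.pow 2).sub (continuous_const.mul (continuous_finsetSum _ fun u _ =>
      continuous_const.mul (hc.mul (hcs u))))).intervalIntegrable _ _
  · exact (continuous_finsetSum _ fun u _ => continuous_finsetSum _ fun v _ =>
      (continuous_const.mul ((hcs u).mul (hcs v)))).intervalIntegrable _ _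

lemma gam_formula (u : ℕ) : gam u = (2 / π) * ((∫ θ in (0 : ℝ)..(π / 2), Real.cos (((u : ℝ) - 1) * θ)) -
    ∫ θ in (0 : ℝ)..(π / 2), Real.cos (((u : ℝ) + 3) * θ)) := by
  have hpi := Real.pi_pos
  unfold gam
  congr 1
  have hcont : Continuous fun θ : ℝ => ff θ * Real.sin θ * Real.sin (((u : ℝ) + 1) * θ) := by
    have := cont_ff
    fun_prop
  rw [← intervalIntegral.integral_add_adjacent_intervals (b := π / 2)
    (hcont.intervalIntegrable _ _) (hcont.intervalIntegrable _ _)]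
  have h2 : ∫ θ in (π / 2)..π, ff θ * Real.sin θ * Real.sin (((u : ℝ) + 1) * θ) = 0 := by
    have : ∫ θ in (π / 2)..π, ff θ * Real.sin θ * Real.sin (((u : ℝ) + 1) * θ) =
        ∫ θ in (π / 2)..π, (0 : ℝ) := by
      apply intervalIntegral.integral_congr
      intro θ hθ
      rw [Set.uIcc_of_le (by linarith)] at hθ
      have h3 : Real.cos θ ≤ 0 := Real.cos_nonpos_of_pi_div_two_le_of_le hθ.1 (by linarith [hθ.2])
      simp only
      unfold ff
      rw [max_eq_right (by linarith)]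
      ring
    rw [this]
    simp
  rw [h2, add_zero, ← intervalIntegral.integral_sub]
  · apply intervalIntegral.integral_congr
    intro θ hθ
    rw [Set.uIcc_of_le (by linarith)] at hθ
    have h3 : 0 ≤ Real.cos θ := Real.cos_nonneg_of_mem_Icc ⟨by linarith [hθ.1], hθ.2⟩
    simp only
    unfold ff
    rw [max_eq_left (by linarith)]
    have e1 : ((u : ℝ) - 1) * θ = (u + 1) * θ - 2 * θ := by ring
    have e2 : ((u : ℝ) + 3) * θ = (u + 1) * θ + 2 * θ := by ring
    rw [e1, e2, Real.cos_sub, Real.cos_add, Real.sin_two_mul]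
    ring
  · exact (by fun_prop : Continuous fun θ : ℝ => Real.cos (((u : ℝ) - 1) * θ)).intervalIntegrable _ _
  · exact (by fun_prop : Continuous fun θ : ℝ => Real.cos (((u : ℝ) + 3) * θ)).intervalIntegrable _ _

lemma gam_one : gam 1 = 1 := by
  have hpi := Real.pi_pos
  rw [gam_formula]
  have h0 : ∫ θ in (0 : ℝ)..(π / 2), Real.cos ((((1 : ℕ) : ℝ) + 3) * θ) = 0 := by
    rw [int_cos_mul (by norm_num)]
    have h1 : (((1 : ℕ) : ℝ) + 3) * (π / 2) = ((2 : ℕ) : ℝ) * π := by push_cast; ring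
    rw [h1, Real.sin_nat_mul_pi, zero_div]
  rw [h0]
  simp

lemma gam_even (j : ℕ) : gam (2 * j) = (8 / π) * (-(-1) ^ j) / ((2 * j - 1) * (2 * j + 3)) := by
  have hpi := Real.pi_pos
  have h3 : ((2 * j : ℕ) : ℝ) - 1 ≠ 0 := by
    have : (2 * (j : ℤ)) - 1 ≠ 0 := by omega
    have h4 : (((2 * (j : ℤ)) - 1 : ℤ) : ℝ) ≠ 0 := by exact_mod_cast this
    push_cast at h4 ⊢
    exact h4
  rw [gam_formula, int_cos_mul h3, int_cos_mul (by positivity)]
  have e1 : (((2 * j : ℕ) : ℝ) - 1) * (π / 2) = (j : ℝ) * π - π / 2 := by push_cast; ring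
  have e2 : (((2 * j : ℕ) : ℝ) + 3) * (π / 2) = ((j : ℝ) * π - π / 2) + 2 * π := by push_cast; ring
  have e3 : Real.sin ((j : ℝ) * π - π / 2) = -(-1) ^ j := by
    rw [Real.sin_sub_pi_div_two, Real.cos_nat_mul_pi]
  rw [e1, e2, Real.sin_add_two_pi, e3]
  push_cast at h3 ⊢
  have h5 : (2 * (j : ℝ) + 3) ≠ 0 := by positivity
  field_simp
  ring

lemma gam_odd (j : ℕ) : gam (2 * j + 3) = 0 := by
  have hpi := Real.pi_pos
  have h3 : ((2 * j + 3 : ℕ) : ℝ) - 1 ≠ 0 := by
    push_cast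
    have : (0 : ℝ) ≤ j := by positivity
    linarith
  rw [gam_formula, int_cos_mul h3, int_cos_mul (by positivity)]
  have e1 : (((2 * j + 3 : ℕ) : ℝ) - 1) * (π / 2) = ((j + 1 : ℕ) : ℝ) * π := by push_cast; ring
  have e2 : (((2 * j + 3 : ℕ) : ℝ) + 3) * (π / 2) = ((j + 3 : ℕ) : ℝ) * π := by push_cast; ring
  rw [e1, e2, Real.sin_nat_mul_pi, Real.sin_nat_mul_pi]
  simp

lemma gam_even_sq (j : ℕ) :
    gam (2 * j) ^ 2 = 64 / (π ^ 2 * ((2 * j - 1) ^ 2 * (2 * j + 3) ^ 2)) := by
  rw [gam_even]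
  have h1 : ((-(-1 : ℝ) ^ j)) ^ 2 = 1 := by
    rw [neg_sq, ← pow_mul, mul_comm, pow_mul]
    norm_num
  have hpi := Real.pi_pos
  rw [div_pow, mul_pow, h1, div_pow, mul_pow]
  rw [mul_one, div_div]
  norm_num

end Pool.Agent.Lib.P267408
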