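import Pool.Agent.Lib.P267408.Cheb

open Finset

namespace Pool.Agent.Lib.P267408

open Real MeasureTheory intervalIntegral

/-- Squares of the even coefficients. -/
noncomputable def pj (j : ℕ) : ℝ := gam (2 * j) ^ 2

lemma pj_nonneg (j : ℕ) : 0 ≤ pj j := sq_nonneg _

lemma pj_eq (j : ℕ) : pj j = 64 / (π ^ 2 * ((2 * j - 1) ^ 2 * (2 * j + 3) ^ 2)) := gam_even_sq j

lemma two_mul_sub_ne (j : ℕ) : (2 * (j : ℝ) - 1) ≠ 0 := by
  have : (2 * (j : ℤ)) - 1 ≠ 0 := by omega
  have h4 : (((2 * (j : ℤ)) - 1 : ℤ) : ℝ) ≠ 0 := by exact_mod_cast this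
  push_cast at h4
  exact h4

lemma hasSum_odd_sq : HasSum (fun j : ℕ => 1 / (2 * (j : ℝ) + 1) ^ 2) (π ^ 2 / 8) := by
  have h := hasSum_zeta_two
  have he : HasSum (fun k : ℕ => 1 / (((2 * k : ℕ) : ℝ)) ^ 2) (π ^ 2 / 24) := by
    have h4 := h.mul_left (1 / 4)
    have e : (fun k : ℕ => 1 / (((2 * k : ℕ) : ℝ)) ^ 2) = fun k : ℕ => 1 / 4 * (1 / (k : ℝ) ^ 2) := by
      funext k
      push_cast
      ring
    rw [e, show π ^ 2 / 24 = 1 / 4 * (π ^ 2 / 6) by ring]
    exact h4
  have hs : Summable (fun k : ℕ => 1 / (((2 * k + 1 : ℕ) : ℝ)) ^ 2) := by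
    have hs0 := h.summable
    exact hs0.comp_injective (i := fun k : ℕ => 2 * k + 1) (by
      intro a b hab
      simp only at hab
      omega)
  have hodd := hs.hasSum
  have hsum := HasSum.even_add_odd (f := fun n : ℕ => 1 / (n : ℝ) ^ 2) he hodd
  have huniq := hsum.unique h
  have hval : ∑' k : ℕ, 1 / (((2 * k + 1 : ℕ) : ℝ)) ^ 2 = π ^ 2 / 8 := by linarith
  rw [hval] at hodd
  convert hodd using 1
  funext k
  push_cast
  rfl

lemma partial_frac (x : ℝ) (h1 : x - 1 ≠ 0) (h3 : x + 3 ≠ 0) :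
    1 / ((x - 1) ^ 2 * (x + 3) ^ 2) =
      (1 / 16) * (1 / (x - 1) ^ 2 + 1 / (x + 3) ^ 2 - (1 / 2) * (1 / (x - 1) - 1 / (x + 3))) := by
  field_simp
  ring

lemma tele1 (J : ℕ) : ∑ j ∈ Finset.range (J + 1), (1 / (2 * (j : ℝ) - 1) - 1 / (2 * (j : ℝ) + 3)) =
    - 1 / (2 * (J : ℝ) + 1) - 1 / (2 * (J : ℝ) + 3) := by
  induction J with
  | zero => simp
  | succ J ih =>
    rw [Finset.sum_range_succ, ih]
    push_cast
    have h1 : (2 * (J : ℝ) + 1) ≠ 0 := by positivity
    have h2 : (2 * (J : ℝ) + 3) ≠ 0 := by positivity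
    have h3 : (2 * ((J : ℝ) + 1) - 1) ≠ 0 := by
      have : (2 * ((J : ℝ) + 1) - 1) = 2 * (J : ℝ) + 1 := by ring
      rw [this]; exact h1
    have h4 : (2 * ((J : ℝ) + 1) + 3) ≠ 0 := by positivity
    have h5 : (2 * ((J : ℝ) + 1) + 1) ≠ 0 := by positivity
    field_simp
    ring

lemma sum_pj (J : ℕ) : ∑ j ∈ Finset.range (J + 1), pj j =
    (4 / π ^ 2) * (∑ j ∈ Finset.range J, 1 / (2 * (j : ℝ) + 1) ^ 2 +
      ∑ j ∈ Finset.range (J + 2), 1 / (2 * (j : ℝ) + 1) ^ 2 +
      (1 / 2) * (1 / (2 * (J : ℝ) + 1) + 1 / (2 * (J : ℝ) + 3))) := by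
  have hpi := Real.pi_pos
  have h0 : ∀ j ∈ Finset.range (J + 1), pj j = (4 / π ^ 2) * (1 / (2 * (j : ℝ) - 1) ^ 2 +
      1 / (2 * (j : ℝ) + 3) ^ 2 - (1 / 2) * (1 / (2 * (j : ℝ) - 1) - 1 / (2 * (j : ℝ) + 3))) := by
    intro j _
    rw [pj_eq]
    have h1 := partial_frac (2 * (j : ℝ)) (two_mul_sub_ne j) (by positivity)
    have h2 : 64 / (π ^ 2 * ((2 * (j : ℝ) - 1) ^ 2 * (2 * (j : ℝ) + 3) ^ 2)) =
        (64 / π ^ 2) * (1 / ((2 * (j : ℝ) - 1) ^ 2 * (2 * (j : ℝ) + 3) ^ 2)) := by
      rw [div_mul_div_comm, mul_one]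
    rw [h2, h1]
    ring
  rw [Finset.sum_congr rfl h0, ← Finset.mul_sum, Finset.sum_sub_distrib, Finset.sum_add_distrib,
    ← Finset.mul_sum, tele1]
  congr 1
  have h3 : ∑ j ∈ Finset.range (J + 1), 1 / (2 * (j : ℝ) - 1) ^ 2 =
      1 + ∑ j ∈ Finset.range J, 1 / (2 * (j : ℝ) + 1) ^ 2 := by
    rw [Finset.sum_range_succ', add_comm]
    congr 1
    · norm_num
    · refine Finset.sum_congr rfl fun j _ => ?_
      push_cast
      congr 2
      ring
  have h4 : ∑ j ∈ Finset.range (J + 2), 1 / (2 * (j : ℝ) + 1) ^ 2 =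
      1 + ∑ j ∈ Finset.range (J + 1), 1 / (2 * (j : ℝ) + 3) ^ 2 := by
    rw [Finset.sum_range_succ', add_comm]
    congr 1
    · norm_num
    · refine Finset.sum_congr rfl fun j _ => ?_
      push_cast
      congr 2
      ring
  rw [h3, h4]
  ring

lemma tendsto_sum_pj : Filter.Tendsto (fun J : ℕ => ∑ j ∈ Finset.range (J + 1), pj j)
    Filter.atTop (nhds 1) := by
  have hpi := Real.pi_pos
  have h1 := hasSum_odd_sq.tendsto_sum_nat
  have h2 := h1.comp (Filter.tendsto_add_atTop_nat 2)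
  have h3 : Filter.Tendsto (fun J : ℕ => 1 / (2 * (J : ℝ) + 1)) Filter.atTop (nhds 0) := by
    have h0 := tendsto_one_div_add_atTop_nhds_zero_nat (𝕜 := ℝ)
    refine squeeze_zero (fun J => by positivity) (fun J => ?_) h0
    apply one_div_le_one_div_of_le (by positivity)
    have : (0 : ℝ) ≤ J := by positivity
    linarith
  have h4 : Filter.Tendsto (fun J : ℕ => 1 / (2 * (J : ℝ) + 3)) Filter.atTop (nhds 0) := by
    have h0 := tendsto_one_div_add_atTop_nhds_zero_nat (𝕜 := ℝ)
    refine squeeze_zero (fun J => by positivity) (fun J => ?_) h0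
    apply one_div_le_one_div_of_le (by positivity)
    have : (0 : ℝ) ≤ J := by positivity
    linarith
  have h5 := ((h1.add h2).add ((h3.add h4).const_mul (1 / 2))).const_mul (4 / π ^ 2)
  have h6 : 4 / π ^ 2 * (π ^ 2 / 8 + π ^ 2 / 8 + 1 / 2 * (0 + 0)) = 1 := by
    field_simp
    ring
  rw [h6] at h5
  refine h5.congr fun J => ?_
  rw [sum_pj]
  rfl

lemma sum_pj_le (J : ℕ) : ∑ j ∈ Finset.range (J + 1), pj j ≤ 1 := by
  have hmono : Monotone fun J : ℕ => ∑ j ∈ Finset.range (J + 1), pj j := by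
    refine monotone_nat_of_le_succ fun J => ?_
    rw [Finset.sum_range_succ _ (J + 1)]
    have := pj_nonneg (J + 1)
    linarith
  exact hmono.ge_of_tendsto tendsto_sum_pj J

/-- The mean is less than one. -/
lemma mean_lt (J : ℕ) : ∑ j ∈ Finset.Icc 1 J, ((2 * j : ℕ) : ℝ) * pj j ≤ 80 / 81 := by
  have hpi := Real.pi_gt_three
  have h0 : ∑ j ∈ Finset.Icc 1 J, (2 * (j : ℝ) + 1) * pj j ≤
      (8 / π ^ 2) * (10 / 9) - (8 / π ^ 2) * (1 / (2 * (J : ℝ) + 1) ^ 2 + 1 / (2 * (J : ℝ) + 3) ^ 2) := by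
    induction J with
    | zero => simp; norm_num
    | succ J ih =>
      rw [Finset.sum_Icc_succ_top (by omega)]
      have h1 : (2 * ((J + 1 : ℕ) : ℝ) + 1) * pj (J + 1) =
          (8 / π ^ 2) * (1 / (2 * (J : ℝ) + 1) ^ 2 - 1 / (2 * ((J + 1 : ℕ) : ℝ) + 3) ^ 2) := by
        rw [pj_eq]
        push_cast
        have e1 : 2 * ((J : ℝ) + 1) - 1 = 2 * (J : ℝ) + 1 := by ring
        have e2 : (2 * (J : ℝ) + 1) ≠ 0 := by positivity
        have e3 : 2 * ((J : ℝ) + 1) + 3 ≠ 0 := by positivity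
        rw [e1]
        field_simp
        ring
      rw [h1]
      push_cast at ih ⊢
      have e4 : 2 * ((J : ℝ) + 1) + 1 = 2 * (J : ℝ) + 3 := by ring
      rw [e4]
      linarith
  have h1 : ∑ j ∈ Finset.Icc 1 J, ((2 * j : ℕ) : ℝ) * pj j ≤
      ∑ j ∈ Finset.Icc 1 J, (2 * (j : ℝ) + 1) * pj j := by
    refine Finset.sum_le_sum fun j _ => ?_
    have := pj_nonneg j
    push_cast
    nlinarith
  have h2 : (0 : ℝ) ≤ (8 / π ^ 2) * (1 / (2 * (J : ℝ) + 1) ^ 2 + 1 / (2 * (J : ℝ) + 3) ^ 2) := by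
    positivity
  have h3 : (8 / π ^ 2) * (10 / 9) ≤ 80 / 81 := by
    have : (9 : ℝ) ≤ π ^ 2 := by nlinarith
    calc (8 / π ^ 2) * (10 / 9) ≤ (8 / 9) * (10 / 9) := by
          gcongr
      _ = 80 / 81 := by norm_num
  linarith

/-- Product formula for Chebyshev polynomials of the second kind. -/
lemma sin_mul_sin_prod (s t : ℕ) (θ : ℝ) :
    Real.sin ((s + 1) * θ) * Real.sin ((t + 1) * θ) =
      Real.sin θ * ∑ κ ∈ Finset.range (min s t + 1), Real.sin (((s + t - 2 * κ : ℕ) + 1 : ℝ) * θ) := by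
  have h1 : ∀ m : ℕ, 2 * m ≤ s + t → 2 * (Real.sin θ * ∑ κ ∈ Finset.range (m + 1),
      Real.sin (((s + t - 2 * κ : ℕ) + 1 : ℝ) * θ)) =
      Real.cos (((s : ℝ) + t - 2 * m) * θ) - Real.cos (((s : ℝ) + t + 2) * θ) := by
    intro m
    induction m with
    | zero =>
      intro _
      simp only [Nat.zero_add, Finset.sum_range_one, Nat.mul_zero, Nat.sub_zero]
      push_cast
      have e1 : ((s : ℝ) + t - 2 * 0) * θ = (s + t + 1) * θ - θ := by ring
      have e2 : ((s : ℝ) + t + 2) * θ = (s + t + 1) * θ + θ := by ring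
      rw [e1, e2, Real.cos_sub, Real.cos_add]
      ring
    | succ m ih =>
      intro hm
      rw [Finset.sum_range_succ, mul_add, mul_add, ih (by omega)]
      rw [Nat.cast_sub hm]
      push_cast
      have e1 : ((s : ℝ) + t - 2 * (m + 1)) * θ = (s + t - 2 * (m + 1) + 1) * θ - θ := by ring
      have e2 : ((s : ℝ) + t - 2 * m) * θ = (s + t - 2 * (m + 1) + 1) * θ + θ := by ring
      rw [e1, e2, Real.cos_sub, Real.cos_add]
      ring
  have h2 := h1 (min s t) (by omega)
  have h3 : Real.cos (((s : ℝ) + t - 2 * (min s t : ℕ)) * θ) = Real.cos (((s : ℝ) - t) * θ) := by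
    rcases Nat.le_total s t with h | h
    · rw [Nat.min_eq_left h]
      have : ((s : ℝ) + t - 2 * s) * θ = -(((s : ℝ) - t) * θ) := by ring
      rw [this, Real.cos_neg]
    · rw [Nat.min_eq_right h]
      congr 1
      ring
  rw [h3] at h2
  have e1 : ((s : ℝ) - t) * θ = (s + 1) * θ - (t + 1) * θ := by ring
  have e2 : ((s : ℝ) + t + 2) * θ = (s + 1) * θ + (t + 1) * θ := by ring
  rw [e1, e2, Real.cos_sub, Real.cos_add] at h2
  linarith

/-- Every polynomial is a combination of Chebyshev polynomials. -/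
lemma exists_cheb (p : Polynomial ℝ) : ∃ (D : ℕ) (ρ : ℕ → ℝ), ∀ θ : ℝ,
    p.eval (2 * Real.cos θ) * Real.sin θ =
      ∑ s ∈ Finset.range (D + 1), ρ s * Real.sin ((s + 1) * θ) := by
  set e : ℕ → (ℝ → ℝ) := fun s θ => Real.sin ((s + 1) * θ) with he
  set V : Submodule ℝ (ℝ → ℝ) := Submodule.span ℝ (Set.range e) with hV
  have hmul : ∀ f ∈ V, (fun θ => 2 * Real.cos θ * f θ) ∈ V := by
    intro f hf
    refine Submodule.span_induction (p := fun f _ => (fun θ => 2 * Real.cos θ * f θ) ∈ V)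
      ?_ ?_ ?_ ?_ hf
    · rintro _ ⟨s, rfl⟩
      have h1 : (fun θ => 2 * Real.cos θ * e s θ) =
          e (s + 1) + (if s = 0 then 0 else e (s - 1)) := by
        funext θ
        simp only [he, Pi.add_apply]
        rcases Nat.eq_zero_or_pos s with rfl | hs
        · simp only [if_true, Pi.zero_apply]
          have e1 : (((0 + 1 : ℕ) : ℝ) + 1) * θ = 2 * θ := by push_cast; ring
          have e2 : (((0 : ℕ) : ℝ) + 1) * θ = θ := by push_cast; ring
          rw [e1, e2, Real.sin_two_mul]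
          ring
        · rw [if_neg (by omega)]
          rw [Nat.cast_sub hs]
          push_cast
          have e1 : ((s : ℝ) + 1 + 1) * θ = (s + 1) * θ + θ := by ring
          have e2 : ((s : ℝ) - 1 + 1) * θ = (s + 1) * θ - θ := by ring
          rw [e1, e2, Real.sin_add, Real.sin_sub]
          ring
      rw [h1]
      refine V.add_mem (Submodule.subset_span ⟨s + 1, rfl⟩) ?_
      split_ifs
      · exact V.zero_mem
      · exact Submodule.subset_span ⟨s - 1, rfl⟩
    · have : (fun θ => 2 * Real.cos θ * (0 : ℝ → ℝ) θ) = 0 := by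
        funext θ; simp
      rw [this]
      exact V.zero_mem
    · intro f g _ _ hf hg
      have : (fun θ => 2 * Real.cos θ * (f + g) θ) =
          (fun θ => 2 * Real.cos θ * f θ) + fun θ => 2 * Real.cos θ * g θ := by
        funext θ; simp [mul_add]
      rw [this]
      exact V.add_mem hf hg
    · intro c f _ hf
      have : (fun θ => 2 * Real.cos θ * (c • f) θ) = c • fun θ => 2 * Real.cos θ * f θ := by
        funext θ; simp; ring
      rw [this]
      exact V.smul_mem c hf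
  have hmem : (fun θ => p.eval (2 * Real.cos θ) * Real.sin θ) ∈ V := by
    induction p using Polynomial.induction_on' with
    | add p q hp hq =>
      have : (fun θ => (p + q).eval (2 * Real.cos θ) * Real.sin θ) =
          (fun θ => p.eval (2 * Real.cos θ) * Real.sin θ) +
            fun θ => q.eval (2 * Real.cos θ) * Real.sin θ := by
        funext θ; simp [add_mul]
      rw [this]
      exact V.add_mem hp hq
    | monomial k c =>
      induction k with
      | zero =>
        have : (fun θ => (Polynomial.monomial 0 c).eval (2 * Real.cos θ) * Real.sin θ) =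
            c • e 0 := by
          funext θ; simp [he]
        rw [this]
        exact V.smul_mem c (Submodule.subset_span ⟨0, rfl⟩)
      | succ k ih =>
        have := hmul _ ih
        convert this using 1
        funext θ
        simp only [Polynomial.eval_monomial]
        ring
  rw [hV, Finsupp.mem_span_range_iff_exists_finsupp] at hmem
  obtain ⟨c, hc⟩ := hmem
  refine ⟨c.support.sup id, c, fun θ => ?_⟩
  have h1 : (c.sum fun i a => a • e i) θ = p.eval (2 * Real.cos θ) * Real.sin θ := congrFun hc θ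
  rw [← h1, Finsupp.sum, Finset.sum_apply]
  refine Finset.sum_subset_zero_on_sdiff ?_ ?_ ?_
  · intro s hs
    rw [Finset.mem_range]
    have : s ≤ c.support.sup id := Finset.le_sup (f := id) hs
    omega
  · intro s hs
    rw [Finset.mem_sdiff, Finsupp.notMem_support_iff] at hs
    rw [hs.2, zero_mul]
  · intro s _
    simp [he]

/-- Approximation of the square root. -/
lemma exists_approx (η : ℝ) (hη : 0 < η) : ∃ (D : ℕ) (ρ : ℕ → ℝ), ∀ U : Finset ℕ,
    (∀ u ≤ 2 * D, u ∈ U) → ∑ u ∈ U, (bco ρ D 1 u - gam u) ^ 2 ≤ η := by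
  have hpi := Real.pi_pos
  obtain ⟨δ, hδ0, hδ1, hδη⟩ : ∃ δ : ℝ, 0 < δ ∧ δ ≤ 1 ∧ 50 * δ ^ 2 ≤ η := by
    refine ⟨min 1 (η / 50), lt_min one_pos (by positivity), min_le_left _ _, ?_⟩
    have h1 : min 1 (η / 50) ≤ 1 := min_le_left _ _
    have h2 : min 1 (η / 50) ≤ η / 50 := min_le_right _ _
    have h3 : 0 < min 1 (η / 50) := lt_min one_pos (by positivity)
    nlinarith
  have hgc : Continuous fun y : ℝ => Real.sqrt (2 * max y 0) := by fun_prop
  obtain ⟨p, hp⟩ := exists_polynomial_near_of_continuousOn (-2) 2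
    (fun y => Real.sqrt (2 * max y 0)) hgc.continuousOn δ hδ0
  obtain ⟨D, ρ, hρ⟩ := exists_cheb p
  refine ⟨D, ρ, fun U hU => ?_⟩
  -- expansion of the square
  have hsq : ∀ θ : ℝ, p.eval (2 * Real.cos θ) ^ 2 * Real.sin θ =
      ∑ u ∈ U, bco ρ D 1 u * Real.sin ((u + 1) * θ) := by
    intro θ
    have h1 : (p.eval (2 * Real.cos θ) ^ 2 * Real.sin θ) * Real.sin θ =
        (∑ u ∈ U, bco ρ D 1 u * Real.sin ((u + 1) * θ)) * Real.sin θ := by
      have h2 : (p.eval (2 * Real.cos θ) ^ 2 * Real.sin θ) * Real.sin θ =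
          (p.eval (2 * Real.cos θ) * Real.sin θ) * (p.eval (2 * Real.cos θ) * Real.sin θ) := by ring
      rw [h2, hρ, Finset.sum_mul_sum]
      rw [← bco_sum ρ D 1 U hU (fun u => Real.sin ((u + 1) * θ)), Finset.sum_mul]
      refine Finset.sum_congr rfl fun s _ => ?_
      rw [Finset.sum_mul]
      refine Finset.sum_congr rfl fun t _ => ?_
      have h3 := sin_mul_sin_prod s t θ
      calc ρ s * Real.sin ((s + 1) * θ) * (ρ t * Real.sin ((t + 1) * θ))
          = ρ s * ρ t * (Real.sin ((s + 1) * θ) * Real.sin ((t + 1) * θ)) := by ring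
        _ = _ := by
          rw [h3]
          simp only [one_pow, one_mul]
          ring
    by_cases h0 : Real.sin θ = 0
    · rw [h0, mul_zero]
      symm
      refine Finset.sum_eq_zero fun u _ => ?_
      obtain ⟨m, hm⟩ := Real.sin_eq_zero_iff.mp h0
      have : ((u : ℝ) + 1) * θ = (((u + 1) * m : ℤ) : ℝ) * π := by
        rw [← hm]; push_cast; ring
      rw [this, Real.sin_int_mul_pi, mul_zero]
    · exact mul_right_cancel₀ h0 h1
  set h : ℝ → ℝ := fun θ => (p.eval (2 * Real.cos θ) ^ 2 - ff θ) * Real.sin θ with hh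
  have hpc : Continuous fun θ : ℝ => p.eval (2 * Real.cos θ) := p.continuous.comp (by fun_prop)
  have hffc := cont_ff
  have hhc : Continuous h := by
    simp only [hh]
    exact ((hpc.pow 2).sub hffc).mul Real.continuous_sin
  have hcs : ∀ u : ℕ, Continuous fun θ : ℝ => Real.sin (((u : ℝ) + 1) * θ) := by
    intro u; fun_prop
  have hcoef : ∀ u ∈ U, (2 / π) * ∫ θ in (0 : ℝ)..π, h θ * Real.sin ((u + 1) * θ) =
      bco ρ D 1 u - gam u := by
    intro u hu
    have h1 : ∀ θ : ℝ, h θ * Real.sin ((u + 1) * θ) =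
        (∑ v ∈ U, bco ρ D 1 v * (Real.sin ((v + 1) * θ) * Real.sin ((u + 1) * θ))) -
          ff θ * Real.sin θ * Real.sin ((u + 1) * θ) := by
      intro θ
      simp only [hh]
      rw [sub_mul, sub_mul, hsq, Finset.sum_mul]
      congr 1
      exact Finset.sum_congr rfl fun v _ => by ring
    simp_rw [h1]
    rw [intervalIntegral.integral_sub, intervalIntegral.integral_finsetSum]
    · rw [Finset.sum_eq_single u]
      · rw [intervalIntegral.integral_const_mul, orth, if_pos rfl, mul_sub]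
        unfold gam
        congr 1
        field_simp
      · intro v _ hne
        rw [intervalIntegral.integral_const_mul, orth, if_neg hne, mul_zero]
      · intro h; exact absurd hu h
    · intro v _
      exact (continuous_const.mul ((hcs v).mul (hcs u))).intervalIntegrable _ _
    · exact (continuous_finsetSum _ fun v _ =>
        continuous_const.mul ((hcs v).mul (hcs u))).intervalIntegrable _ _
    · exact ((hffc.mul Real.continuous_sin).mul (hcs u)).intervalIntegrable _ _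
  have hbes := bessel hhc U
  rw [Finset.sum_congr rfl fun u hu => by rw [hcoef u hu]] at hbes
  refine hbes.trans ?_
  have hbound : ∀ θ : ℝ, h θ ^ 2 ≤ (5 * δ) ^ 2 := by
    intro θ
    have hc1 := Real.neg_one_le_cos θ
    have hc2 := Real.cos_le_one θ
    have h1 := hp (2 * Real.cos θ) ⟨by linarith, by linarith⟩
    set g := Real.sqrt (2 * max (2 * Real.cos θ) 0) with hg
    have hmax : max (2 * Real.cos θ) 0 ≤ 2 := max_le (by linarith) (by norm_num)
    have hmax0 : 0 ≤ max (2 * Real.cos θ) 0 := le_max_right _ _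
    have hg0 : 0 ≤ g := Real.sqrt_nonneg _
    have hg2 : g ^ 2 = ff θ := by
      rw [hg, Real.sq_sqrt (by positivity)]
      rfl
    have hg1 : g ≤ 2 := by
      have : g ^ 2 ≤ 2 ^ 2 := by
        rw [hg2]; unfold ff; linarith
      exact le_of_sq_le_sq this (by norm_num)
    have h2 : |p.eval (2 * Real.cos θ) ^ 2 - ff θ| ≤ 5 * δ := by
      rw [← hg2, sq_sub_sq, abs_mul]
      have h3 : |p.eval (2 * Real.cos θ) + g| ≤ 5 := by
        have : p.eval (2 * Real.cos θ) + g = (p.eval (2 * Real.cos θ) - g) + 2 * g := by ring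
        rw [this]
        refine (abs_add_le _ _).trans ?_
        rw [abs_of_nonneg (by positivity : 0 ≤ 2 * g)]
        linarith
      exact mul_le_mul h3 h1.le (abs_nonneg _) (by norm_num)
    have h3 : |h θ| ≤ 5 * δ := by
      simp only [hh]
      rw [abs_mul]
      calc _ ≤ 5 * δ * 1 := mul_le_mul h2 (Real.abs_sin_le_one θ) (abs_nonneg _) (by positivity)
        _ = _ := mul_one _
    rw [← sq_abs]
    gcongr
  calc (2 / π) * (∫ θ in (0 : ℝ)..π, h θ ^ 2) ≤ (2 / π) * (∫ θ in (0 : ℝ)..π, (5 * δ) ^ 2) := by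
        gcongr
        apply intervalIntegral.integral_mono_on hpi.le
        · exact (hhc.pow 2).intervalIntegrable _ _
        · exact intervalIntegrable_const
        · intro θ _; exact hbound θ
    _ = 50 * δ ^ 2 := by
        rw [intervalIntegral.integral_const, smul_eq_mul]
        field_simp
        ring
    _ ≤ η := hδη

end Pool.Agent.Lib.P267408
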