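import Pool.Agent.Lib.P267408.Upper

open Finset

namespace Pool.Agent.Lib.P267408

variable {n : ℕ}

/-- Theta number of a simple graph. -/
noncomputable def thG (G : SimpleGraph (Fin n)) : ℝ :=
  sSup {s : ℝ | ∃ X : Matrix (Fin n) (Fin n) ℝ,
              X.PosSemidef ∧ X.trace = 1 ∧
              (∀ i j, G.Adj i j → X i j = 0) ∧
              s = ∑ i, ∑ j, X i j}

lemma th_eq (ω : Gr n) : th ω = thG (SimpleGraph.fromEdgeSet (ω : Set (Sym2 (Fin n)))) := by
  unfold th thG feas
  congr 1
  ext s
  constructor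
  · rintro ⟨X, h1, h2, h3, h4⟩
    refine ⟨X, h1, h2, fun i j hij => ?_, h4⟩
    rw [SimpleGraph.fromEdgeSet_adj] at hij
    exact h3 i j hij.2 (Finset.mem_coe.mp hij.1)
  · rintro ⟨X, h1, h2, h3, h4⟩
    refine ⟨X, h1, h2, fun i j hij hω => ?_, h4⟩
    apply h3
    rw [SimpleGraph.fromEdgeSet_adj]
    exact ⟨Finset.mem_coe.mpr hω, hij⟩

/-- Sets of unordered pairs are graphs together with sets of loops. -/
noncomputable def grEquiv (n : ℕ) : Gr n ≃ SimpleGraph (Fin n) × Finset (Fin n) := by
  classical
  exact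
  { toFun := fun ω => (SimpleGraph.fromEdgeSet (ω : Set (Sym2 (Fin n))),
      Finset.univ.filter fun i => s(i, i) ∈ ω)
    invFun := fun p => Finset.univ.filter fun e => e ∈ p.1.edgeSet ∨ ∃ i ∈ p.2, s(i, i) = e
    left_inv := by
      intro ω
      ext e
      simp only [Finset.mem_filter, Finset.mem_univ, true_and]
      induction e using Sym2.inductionOn with
      | hf a b =>
        rw [SimpleGraph.mem_edgeSet, SimpleGraph.fromEdgeSet_adj]
        by_cases hab : a = b
        · subst hab
          constructor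
          · rintro (⟨-, h⟩ | ⟨i, hi, h⟩)
            · exact absurd rfl h
            · rwa [h] at hi
          · intro h
            exact Or.inr ⟨a, h, rfl⟩
        · constructor
          · rintro (⟨h, -⟩ | ⟨i, hi, h⟩)
            · exact Finset.mem_coe.mp h
            · exfalso
              rw [Sym2.eq_iff] at h
              rcases h with ⟨h1, h2⟩ | ⟨h1, h2⟩
              · exact hab (h1.symm.trans h2)
              · exact hab (h2.symm.trans h1)
          · intro h
            exact Or.inl ⟨Finset.mem_coe.mpr h, hab⟩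
    right_inv := by
      rintro ⟨G, A⟩
      refine Prod.ext ?_ ?_
      · ext i j
        rw [SimpleGraph.fromEdgeSet_adj]
        simp only [Finset.coe_filter, Finset.mem_univ, true_and, Set.mem_ofPred_eq]
        constructor
        · rintro ⟨h | ⟨k, hk, h⟩, hij⟩
          · exact h
          · exfalso
            rw [Sym2.eq_iff] at h
            rcases h with ⟨h1, h2⟩ | ⟨h1, h2⟩
            · exact hij (h1.symm.trans h2)
            · exact hij (h2.symm.trans h1)
        · intro h
          exact ⟨Or.inl h, h.ne⟩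
      · ext i
        simp only [Finset.mem_filter, Finset.mem_univ, true_and]
        constructor
        · rintro (h | ⟨k, hk, h⟩)
          · exact absurd h (by rw [SimpleGraph.mem_edgeSet]; exact G.irrefl)
          · rw [Sym2.eq_iff] at h
            rcases h with ⟨h1, -⟩ | ⟨h1, -⟩
            · rwa [h1] at hk
            · rwa [h1] at hk
        · intro h
          exact Or.inr ⟨i, h, rfl⟩ }

lemma avg_th_eq (n : ℕ) : avg (fun ω : Gr n => th ω) =
    (∑ᶠ G : SimpleGraph (Fin n), thG G) / (Nat.card (SimpleGraph (Fin n)) : ℝ) := by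
  classical
  have : Fintype (SimpleGraph (Fin n)) := Fintype.ofFinite _
  rw [finsum_eq_sum_of_fintype, Nat.card_eq_fintype_card]
  have h1 : ∑ ω : Gr n, th ω = 2 ^ n * ∑ G : SimpleGraph (Fin n), thG G := by
    have h2 : ∑ ω : Gr n, th ω = ∑ p : SimpleGraph (Fin n) × Finset (Fin n), thG p.1 := by
      refine Fintype.sum_equiv (grEquiv n) _ _ fun ω => ?_
      rw [th_eq]
      rfl
    rw [h2, Fintype.sum_prod_type, Finset.mul_sum]
    refine Finset.sum_congr rfl fun G _ => ?_
    show ∑ _y : Finset (Fin n), thG G = 2 ^ n * thG G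
    rw [Finset.sum_const, Finset.card_univ, Fintype.card_finset, Fintype.card_fin, nsmul_eq_mul]
    push_cast
    ring
  have h2 : (2 : ℝ) ^ Fintype.card (Sym2 (Fin n)) =
      (Fintype.card (SimpleGraph (Fin n)) : ℝ) * 2 ^ n := by
    have h3 := Fintype.card_congr (grEquiv n)
    rw [Fintype.card_prod, Fintype.card_finset, Fintype.card_finset, Fintype.card_fin] at h3
    exact_mod_cast h3
  unfold avg
  rw [h1, h2]
  have h3 : (0 : ℝ) < 2 ^ n := by positivity
  rw [mul_comm ((2 : ℝ) ^ n), mul_div_mul_right _ _ h3.ne']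

/-- The average theta number is asymptotic to the square root. -/
theorem main_limit : Filter.Tendsto (fun n : ℕ =>
    ((∑ᶠ G : SimpleGraph (Fin n), thG G) / (Nat.card (SimpleGraph (Fin n)) : ℝ)) / Real.sqrt n)
    Filter.atTop (nhds 1) := by
  have h1 : ∀ n : ℕ, 0 < n → 1 ≤
      ((∑ᶠ G : SimpleGraph (Fin n), thG G) / (Nat.card (SimpleGraph (Fin n)) : ℝ)) / Real.sqrt n := by
    intro n hn
    have hn' : (0 : ℝ) < n := by exact_mod_cast hn
    have hsn : 0 < Real.sqrt n := Real.sqrt_pos.mpr hn'
    rw [← avg_th_eq, le_div_iff₀ hsn, one_mul]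
    exact avg_th_lower hn
  rw [tendsto_order]
  constructor
  · intro a ha
    filter_upwards [Filter.eventually_gt_atTop 0] with n hn
    exact lt_of_lt_of_le ha (h1 n hn)
  · intro a ha
    obtain ⟨η, hη0, hη1, hηa⟩ : ∃ η : ℝ, 0 < η ∧ η ≤ 1 ∧ 1 + η < a := by
      refine ⟨min 1 ((a - 1) / 2), lt_min one_pos (by linarith), min_le_left _ _, ?_⟩
      have : min 1 ((a - 1) / 2) ≤ (a - 1) / 2 := min_le_right _ _
      linarith
    obtain ⟨n0, hn0⟩ := avg_th_upper hη0 hη1
    filter_upwards [Filter.eventually_ge_atTop n0] with n hn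
    rw [← avg_th_eq]
    exact lt_of_le_of_lt (hn0 n hn) hηa

end Pool.Agent.Lib.P267408
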