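import Pool.Agent.Lib.P267408.Mat

open Finset

namespace Pool.Agent.Lib.P267408

/-- Coefficients of the square of a combination of Chebyshev polynomials. -/
noncomputable def bco (ρ : ℕ → ℝ) (D : ℕ) (x : ℝ) (u : ℕ) : ℝ :=
  ∑ s ∈ Finset.range (D + 1), ∑ t ∈ Finset.range (D + 1), ∑ κ ∈ Finset.range (min s t + 1),
    if s + t - 2 * κ = u then ρ s * ρ t * x ^ κ else 0

/-- Target coefficients. -/
noncomputable def gco (α : ℕ → ℝ) (S : Finset ℕ) (u : ℕ) : ℝ := by
  classical
  exact if u ≤ 1 then 1 else if u ∈ S then α u else 0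

lemma bco_sum (ρ : ℕ → ℝ) (D : ℕ) (x : ℝ) (U : Finset ℕ) (hU : ∀ u ≤ 2 * D, u ∈ U) (F : ℕ → ℝ) :
    ∑ s ∈ Finset.range (D + 1), ∑ t ∈ Finset.range (D + 1), ρ s * ρ t *
      ∑ κ ∈ Finset.range (min s t + 1), x ^ κ * F (s + t - 2 * κ) =
    ∑ u ∈ U, bco ρ D x u * F u := by
  unfold bco
  simp_rw [Finset.sum_mul]
  rw [Finset.sum_comm]
  conv_rhs => rw [Finset.sum_comm]
  rw [Finset.sum_comm]
  refine Finset.sum_congr rfl fun s hs => ?_
  rw [Finset.sum_comm]
  refine Finset.sum_congr rfl fun t ht => ?_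
  rw [Finset.sum_comm, Finset.mul_sum]
  refine Finset.sum_congr rfl fun κ hκ => ?_
  rw [Finset.mem_range] at hs ht hκ
  rw [Finset.sum_eq_single (s + t - 2 * κ)]
  · rw [if_pos rfl]; ring
  · intro u _ hne
    rw [if_neg (fun h => hne h.symm), zero_mul]
  · intro h
    exact absurd (hU _ (by omega)) h

lemma xk_nonneg (α : ℕ → ℝ) (S : Finset ℕ) (k : ℕ) : 0 ≤ xk α S k := by
  induction k with
  | zero => exact le_rfl
  | succ k ih =>
    show 0 ≤ 1 + ∑ s ∈ S, α s ^ 2 * xk α S k ^ s
    have : 0 ≤ ∑ s ∈ S, α s ^ 2 * xk α S k ^ s :=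
      Finset.sum_nonneg fun s _ => mul_nonneg (sq_nonneg _) (pow_nonneg ih _)
    linarith

lemma nrm2_diag {n : ℕ} (hn : 0 < n) :
    nrm2 (n := n) (fun _ i j => if i = j then -(1 / Real.sqrt n) else 0) = 1 / n := by
  have hn' : (0 : ℝ) < n := by exact_mod_cast hn
  unfold nrm2
  have h1 : (fun (_ : Gr n) => ∑ i : Fin n, ∑ j : Fin n,
      (if i = j then -(1 / Real.sqrt n) else 0) ^ 2) = fun _ => 1 := by
    funext ω
    have h2 : ∀ i : Fin n, ∑ j : Fin n, (if i = j then -(1 / Real.sqrt (n : ℝ)) else 0) ^ 2 =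
        1 / n := by
      intro i
      rw [Finset.sum_eq_single i]
      · rw [if_pos rfl, neg_sq, div_pow, one_pow, Real.sq_sqrt hn'.le]
      · intro j _ hne
        rw [if_neg (fun h => hne h.symm)]
        norm_num
      · intro h; exact absurd (Finset.mem_univ _) h
    rw [Finset.sum_congr rfl fun i _ => h2 i, Finset.sum_const, Finset.card_univ,
      Fintype.card_fin, nsmul_eq_mul]
    field_simp
  rw [h1, avg_const]

lemma nrm2_off {n : ℕ} (hn : 0 < n) :
    nrm2 (n := n) (fun _ i j => if i = j then 0 else 1 / Real.sqrt n) ≤ 1 := by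
  have hn' : (0 : ℝ) < n := by exact_mod_cast hn
  unfold nrm2
  rw [div_le_one hn']
  have h1 : avg (fun _ : Gr n => ∑ i : Fin n, ∑ j : Fin n,
      (if i = j then 0 else 1 / Real.sqrt n) ^ 2) ≤ avg (fun _ : Gr n => (n : ℝ)) := by
    refine avg_mono fun ω => ?_
    have h2 : ∀ i : Fin n, ∑ j : Fin n, (if i = j then 0 else 1 / Real.sqrt (n : ℝ)) ^ 2 ≤ 1 := by
      intro i
      calc ∑ j : Fin n, (if i = j then 0 else 1 / Real.sqrt (n : ℝ)) ^ 2
          ≤ ∑ _j : Fin n, 1 / (n : ℝ) := by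
            refine Finset.sum_le_sum fun j _ => ?_
            split_ifs
            · rw [zero_pow (by norm_num)]; positivity
            · rw [div_pow, one_pow, Real.sq_sqrt hn'.le]
        _ = 1 := by
            rw [Finset.sum_const, Finset.card_univ, Fintype.card_fin, nsmul_eq_mul]
            field_simp
    calc _ ≤ ∑ _i : Fin n, (1 : ℝ) := Finset.sum_le_sum fun i _ => h2 i
      _ = n := by simp
  exact h1.trans (le_of_eq (avg_const _))

/-- The approximate certificate. -/
theorem amp_core (α : ℕ → ℝ) (S : Finset ℕ) (hS : ∀ s ∈ S, 2 ≤ s) (k D : ℕ) (ρ : ℕ → ℝ)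
    (U : Finset ℕ) (hU : ∀ u ≤ 2 * D, u ∈ U) (hU0 : 0 ∈ U) (hU1 : 1 ∈ U) (hSU : S ⊆ U) :
    ∃ C : ℝ, 0 ≤ C ∧ ∀ n : ℕ, 0 < n → ∃ (a ε R : Gr n → Fin n → Fin n → ℝ),
      (∀ ω i j, a ω i j = a ω j i) ∧ (∀ ω i j, ε ω i j = ε ω j i) ∧ (∀ ω i, a ω i i = 0) ∧
      (∀ ω ω' i j, (∀ e, e ≠ s(i, j) → (e ∈ ω ↔ e ∈ ω')) → a ω i j = a ω' i j) ∧
      (∀ ω i j, (if i = j then 1 else 0) - 1 / Real.sqrt n + (1 + sg ω s(i, j)) * a ω i j -
        ε ω i j = ∑ x, R ω i x * R ω j x) ∧
      nrm2 a ≤ 2 * xk α S (k + 1) ∧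
      nrm2 ε ≤ 4 * (∑ u ∈ U, (gco α S u - bco ρ D (xk α S k) u) ^ 2 * xk α S k ^ u) +
        4 * (xk α S (k + 1) - xk α S k) + C / n := by
  classical
  set T := Lt S k with hTd
  set T' := Lt S (k + 1) with hT'd
  have hT : GoodT α T := good_Lt α hS k
  have hT' : GoodT α T' := good_Lt α hS (k + 1)
  have hwT : wt α T = xk α S k := wt_Lt α hS k
  have hwT' : wt α T' = xk α S (k + 1) := wt_Lt α hS (k + 1)
  have hex : ∀ p : ℕ × ℕ, ∃ C : ℝ, 0 ≤ C ∧ ∀ n : ℕ, 0 < n → nrm2 (n := n) (fun ω i j =>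
      (∑ x, Ms α T p.1 n ω i x * Ms α T p.2 n ω j x) -
        ∑ κ ∈ Finset.range (min p.1 p.2 + 1), wt α T ^ κ * Ms α T (p.1 + p.2 - 2 * κ) n ω i j) ≤
          C / n := fun p => Ms_mul hT p.1 p.2
  choose Cf hCf0 hCf using hex
  set P := Finset.range (D + 1) ×ˢ Finset.range (D + 1) with hP
  set C1 : ℝ := P.card * ∑ p ∈ P, (ρ p.1 * ρ p.2) ^ 2 * Cf p with hC1
  have hC10 : 0 ≤ C1 := mul_nonneg (by positivity)
    (Finset.sum_nonneg fun p _ => mul_nonneg (sq_nonneg _) (hCf0 p))
  refine ⟨4 * 1 + 4 * C1, by positivity, fun n hn => ?_⟩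
  have hn' : (0 : ℝ) < n := by exact_mod_cast hn
  set a : Gr n → Fin n → Fin n → ℝ := fun ω i j => if i = j then 0 else
    1 / Real.sqrt n + ∑ s ∈ S, α s * Ms α T s n ω i j with ha
  set R : Gr n → Fin n → Fin n → ℝ := fun ω i j =>
    ∑ s ∈ Finset.range (D + 1), ρ s * Ms α T s n ω i j with hR
  set ε : Gr n → Fin n → Fin n → ℝ := fun ω i j =>
    (if i = j then 1 else 0) - 1 / Real.sqrt n + (1 + sg ω s(i, j)) * a ω i j -
      ∑ x, R ω i x * R ω j x with hε
  have hasymm : ∀ ω i j, a ω i j = a ω j i := by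
    intro ω i j
    simp only [ha]
    by_cases h : i = j
    · rw [if_pos h, if_pos h.symm]
    · rw [if_neg h, if_neg (fun h' => h h'.symm)]
      congr 1
      exact Finset.sum_congr rfl fun s _ => by rw [Ms_symm hT]
  have hadiag : ∀ ω i, a ω i i = 0 := by
    intro ω i
    simp only [ha, if_true]
  refine ⟨a, ε, R, hasymm, ?_, hadiag, ?_, ?_, ?_, ?_⟩
  · intro ω i j
    simp only [hε]
    rw [hasymm ω i j, Sym2.eq_swap]
    congr 1
    · congr 2
      by_cases h : i = j
      · rw [if_pos h, if_pos h.symm]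
      · rw [if_neg h, if_neg (fun h' => h h'.symm)]
    · exact Finset.sum_congr rfl fun x _ => mul_comm _ _
  · intro ω ω' i j h
    simp only [ha]
    split_ifs with hij
    · rfl
    · congr 1
      refine Finset.sum_congr rfl fun s hs => ?_
      rw [Ms_indep hT (hS s hs) i j h]
  · intro ω i j
    simp only [hε]
    ring
  · have h1 : ∀ ω i j, a ω i j = (if i = j then 0 else 1 / Real.sqrt n) +
        ∑ s ∈ S, α s * Ms α T s n ω i j := by
      intro ω i j
      simp only [ha]
      split_ifs with hij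
      · subst hij
        rw [zero_add]
        symm
        refine Finset.sum_eq_zero fun s hs => ?_
        rw [Ms_diag hT (by have := hS s hs; omega), mul_zero]
      · rfl
    rw [nrm2_congr h1]
    refine (nrm2_add_le _ _).trans ?_
    have h2 := nrm2_off hn
    have h3 := nrm2_Ms hT S α hn
    have h4 : xk α S (k + 1) = 1 + ∑ s ∈ S, α s ^ 2 * xk α S k ^ s := rfl
    rw [hwT] at h3
    linarith
  · -- the error
    have hkey : ∀ ω i j, ε ω i j =
        ((if i = j then -(1 / Real.sqrt n) else 0) +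
          ∑ u ∈ U, (gco α S u - bco ρ D (xk α S k) u) * Ms α T u n ω i j) +
        ((Ms α T' 1 n ω i j - Ms α T 1 n ω i j) +
          (-1) * ∑ p ∈ P, (ρ p.1 * ρ p.2) * ((∑ x, Ms α T p.1 n ω i x * Ms α T p.2 n ω j x) -
        ∑ κ ∈ Finset.range (min p.1 p.2 + 1), wt α T ^ κ * Ms α T (p.1 + p.2 - 2 * κ) n ω i j)) := by
      intro ω i j
      have hRR : ∑ x, R ω i x * R ω j x = ∑ p ∈ P, (ρ p.1 * ρ p.2) *
          ∑ x, Ms α T p.1 n ω i x * Ms α T p.2 n ω j x := by
        have h2 : ∀ x, R ω i x * R ω j x = ∑ p ∈ P, (ρ p.1 * ρ p.2) *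
            (Ms α T p.1 n ω i x * Ms α T p.2 n ω j x) := by
          intro x
          simp only [hR]
          rw [Finset.sum_mul_sum, hP, Finset.sum_product]
          refine Finset.sum_congr rfl fun s _ => Finset.sum_congr rfl fun t _ => by ring
        simp_rw [h2]
        rw [Finset.sum_comm]
        exact Finset.sum_congr rfl fun p _ => by rw [Finset.mul_sum]
      have hb : ∑ p ∈ P, (ρ p.1 * ρ p.2) * ∑ κ ∈ Finset.range (min p.1 p.2 + 1),
          wt α T ^ κ * Ms α T (p.1 + p.2 - 2 * κ) n ω i j =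
          ∑ u ∈ U, bco ρ D (xk α S k) u * Ms α T u n ω i j := by
        rw [hP, Finset.sum_product, hwT]
        exact bco_sum ρ D (xk α S k) U hU (fun u => Ms α T u n ω i j)
      have hg : ∑ u ∈ U, gco α S u * Ms α T u n ω i j =
          Ms α T 0 n ω i j + (Ms α T 1 n ω i j + ∑ s ∈ S, α s * Ms α T s n ω i j) := by
        have e0 : U = insert 0 (insert 1 ((U.erase 0).erase 1)) := by
          rw [Finset.insert_erase, Finset.insert_erase hU0]
          rw [Finset.mem_erase]
          exact ⟨one_ne_zero, hU1⟩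
        rw [e0, Finset.sum_insert, Finset.sum_insert]
        · congr 1
          · unfold gco
            rw [if_pos (by norm_num), one_mul]
          congr 1
          · unfold gco
            rw [if_pos le_rfl, one_mul]
          symm
          have hsub : S ⊆ (U.erase 0).erase 1 := by
            intro s hs
            have := hS s hs
            rw [Finset.mem_erase, Finset.mem_erase]
            exact ⟨by omega, by omega, hSU hs⟩
          rw [← Finset.sum_subset hsub]
          · refine Finset.sum_congr rfl fun s hs => ?_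
            have := hS s hs
            unfold gco
            rw [if_neg (by omega), if_pos hs]
          · intro u hu huS
            rw [Finset.mem_erase, Finset.mem_erase] at hu
            unfold gco
            rw [if_neg (by omega), if_neg huS, zero_mul]
        · exact Finset.notMem_erase _ _
        · rw [Finset.mem_insert, not_or]
          refine ⟨by norm_num, ?_⟩
          intro h
          rw [Finset.mem_erase, Finset.mem_erase] at h
          exact h.2.1 rfl
      simp_rw [mul_sub, sub_mul]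
      rw [Finset.sum_sub_distrib, Finset.sum_sub_distrib, hb, hg, ← hRR]
      simp only [hε]
      by_cases hij : i = j
      · subst hij
        rw [hadiag, Ms_zero, if_pos rfl, if_pos rfl, Ms_diag hT le_rfl, Ms_diag hT' le_rfl]
        have h0 : ∑ s ∈ S, α s * Ms α T s n ω i i = 0 := by
          refine Finset.sum_eq_zero fun s hs => ?_
          rw [Ms_diag hT (by have := hS s hs; omega), mul_zero]
        rw [h0]
        ring
      · have hnext : Ms α T' 1 n ω i j = sg ω s(i, j) * a ω i j := by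
          show Ms α (nextT S T) 1 n ω i j = _
          rw [Ms_next hT hS ω hij]
          simp only [ha, if_neg hij]
        rw [Ms_zero, if_neg hij, if_neg hij, hnext]
        simp only [ha, if_neg hij]
        ring
    rw [nrm2_congr hkey]
    refine (nrm2_add_le _ _).trans ?_
    have g1 := nrm2_add_le (n := n) (fun ω i j => (if i = j then -(1 / Real.sqrt n) else 0))
      (fun ω i j => ∑ u ∈ U, (gco α S u - bco ρ D (xk α S k) u) * Ms α T u n ω i j)
    have g2 := nrm2_add_le (n := n) (fun ω i j => Ms α T' 1 n ω i j - Ms α T 1 n ω i j)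
      (fun ω i j => (-1) * ∑ p ∈ P, (ρ p.1 * ρ p.2) *
        ((∑ x, Ms α T p.1 n ω i x * Ms α T p.2 n ω j x) -
        ∑ κ ∈ Finset.range (min p.1 p.2 + 1), wt α T ^ κ * Ms α T (p.1 + p.2 - 2 * κ) n ω i j))
    have g3 := nrm2_diag hn
    have g4 := nrm2_Ms hT U (fun u => gco α S u - bco ρ D (xk α S k) u) hn
    have g5 := nrm2_Ms_diff hT' (Lt_sub S k) hn
    have g6 : nrm2 (n := n) (fun ω i j => (-1) * ∑ p ∈ P, (ρ p.1 * ρ p.2) *
        ((∑ x, Ms α T p.1 n ω i x * Ms α T p.2 n ω j x) -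
        ∑ κ ∈ Finset.range (min p.1 p.2 + 1), wt α T ^ κ * Ms α T (p.1 + p.2 - 2 * κ) n ω i j)) ≤
        C1 / n := by
      rw [nrm2_smul]
      have : ((-1 : ℝ)) ^ 2 = 1 := by norm_num
      rw [this, one_mul, hC1]
      refine (nrm2_sum_le _ _).trans ?_
      rw [mul_div_assoc, Finset.sum_div]
      gcongr with p hp
      rw [nrm2_smul, mul_div_assoc]
      gcongr
      exact hCf p n hn
    rw [hwT] at g4
    rw [hwT', ← hTd, hwT] at g5
    have g7 : (4 * 1 + 4 * C1) / (n : ℝ) = 4 * (1 / n) + 4 * (C1 / n) := by ring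
    rw [g7]
    linarith

end Pool.Agent.Lib.P267408
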