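import Mathlib

open Finset

namespace Pool.Agent.Lib.P267408

/-- The vertices incident to a set of edges, together with two roots. -/
def rv {n : ℕ} (r : Fin n × Fin n) (A : Finset (Sym2 (Fin n))) : Finset (Fin n) :=
  Finset.univ.filter fun x => x = r.1 ∨ x = r.2 ∨ ∃ e ∈ A, x ∈ e

variable {Ξ : Type*} [Fintype Ξ] [DecidableEq Ξ] {n : ℕ}

lemma card_out (R : Finset (Fin n)) (t : ℕ) :
    (Finset.univ.filter fun κ : Ξ → Fin n => ((Finset.univ.image κ) \ R).card = t).card ≤
      n ^ t * (t + R.card) ^ Fintype.card Ξ := by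
  classical
  have h : (Finset.univ.filter fun κ : Ξ → Fin n => ((Finset.univ.image κ) \ R).card = t) ⊆
      (Finset.univ : Finset ((Fin t → Fin n) × (Ξ → Fin t ⊕ R))).image
        (fun p x => Sum.elim p.1 (fun y : R => (y : Fin n)) (p.2 x)) := by
    intro κ hκ
    rw [Finset.mem_filter] at hκ
    rw [Finset.mem_image]
    have e : ((Finset.univ.image κ) \ R : Finset (Fin n)) ≃ Fin t :=
      ((Finset.univ.image κ) \ R).equivFinOfCardEq hκ.2
    refine ⟨(fun i => (e.symm i : Fin n), fun x => if h : κ x ∈ R then Sum.inr ⟨κ x, h⟩ else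
      Sum.inl (e ⟨κ x, Finset.mem_sdiff.mpr ⟨Finset.mem_image.mpr ⟨x, Finset.mem_univ _, rfl⟩, h⟩⟩)),
      Finset.mem_univ _, ?_⟩
    funext x
    by_cases h : κ x ∈ R
    · simp [h]
    · simp [h]
  calc _ ≤ _ := Finset.card_le_card h
    _ ≤ _ := Finset.card_image_le
    _ = n ^ t * (t + R.card) ^ Fintype.card Ξ := by
      simp [Finset.card_univ, Fintype.card_prod, Fintype.card_sum]

lemma card_rng (s : ℕ) :
    (Finset.univ.filter fun κ : Ξ → Fin n => (Finset.univ.image κ).card = s).card ≤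
      n ^ s * s ^ Fintype.card Ξ := by
  have := card_out (Ξ := Ξ) (n := n) ∅ s
  simpa using this

/-- The counting lemma. -/
theorem count_pairs (𝒦 : Finset (Ξ → Fin n)) (A : (Ξ → Fin n) → Finset (Sym2 (Fin n)))
    (r : (Ξ → Fin n) → Fin n × Fin n) (M : ℕ) (hn : 0 < n)
    (h1 : ∀ κ ∈ 𝒦, rv (r κ) (A κ) ⊆ Finset.univ.image κ)
    (h2 : ∀ κ ∈ 𝒦, (rv (r κ) (A κ)).card + 2 * ((Finset.univ.image κ) \ rv (r κ) (A κ)).card ≤ M) :
    ∑ κ ∈ 𝒦, (𝒦.filter fun κ' => r κ = r κ' ∧ A κ = A κ').card ≤
      ((M + 1) * M ^ Fintype.card Ξ * ((M + 1) * (2 * M) ^ Fintype.card Ξ)) * n ^ M := by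
  classical
  have hs : ∀ κ ∈ 𝒦, (Finset.univ.image κ).card =
      (rv (r κ) (A κ)).card + ((Finset.univ.image κ) \ rv (r κ) (A κ)).card := by
    intro κ hκ
    rw [Finset.card_sdiff_of_subset (h1 κ hκ)]
    have := Finset.card_le_card (h1 κ hκ)
    omega
  -- fibres
  have hfib : ∀ κ ∈ 𝒦, (𝒦.filter fun κ' => r κ = r κ' ∧ A κ = A κ').card ≤
      ((M + 1) * (2 * M) ^ Fintype.card Ξ) * n ^ (M - (Finset.univ.image κ).card) := by
    intro κ hκ
    set R := rv (r κ) (A κ) with hR
    set s := (Finset.univ.image κ).card with hsd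
    have e1 := hs κ hκ
    have e2 := h2 κ hκ
    rw [← hR] at e1 e2
    have hsub : (𝒦.filter fun κ' => r κ = r κ' ∧ A κ = A κ') ⊆
        (Finset.range (M - s + 1)).biUnion fun t =>
          Finset.univ.filter fun κ' : Ξ → Fin n => ((Finset.univ.image κ') \ R).card = t := by
      intro κ' hκ'
      rw [Finset.mem_filter] at hκ'
      obtain ⟨hk, hr, hA⟩ := hκ'
      rw [Finset.mem_biUnion]
      refine ⟨((Finset.univ.image κ') \ R).card, ?_, by simp⟩
      have e3 := h2 κ' hk
      rw [← hr, ← hA, ← hR] at e3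
      rw [Finset.mem_range]
      omega
    calc _ ≤ _ := Finset.card_le_card hsub
      _ ≤ ∑ t ∈ Finset.range (M - s + 1), _ := Finset.card_biUnion_le
      _ ≤ ∑ t ∈ Finset.range (M - s + 1), n ^ (M - s) * (2 * M) ^ Fintype.card Ξ := by
          refine Finset.sum_le_sum fun t ht => ?_
          rw [Finset.mem_range] at ht
          refine (card_out R t).trans ?_
          gcongr
          · omega
          · omega
      _ = (M - s + 1) * (n ^ (M - s) * (2 * M) ^ Fintype.card Ξ) := by
          rw [Finset.sum_const, Finset.card_range, smul_eq_mul]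
      _ ≤ (M + 1) * (n ^ (M - s) * (2 * M) ^ Fintype.card Ξ) := by gcongr; omega
      _ = _ := by ring
  calc ∑ κ ∈ 𝒦, (𝒦.filter fun κ' => r κ = r κ' ∧ A κ = A κ').card
      ≤ ∑ κ ∈ 𝒦, ((M + 1) * (2 * M) ^ Fintype.card Ξ) * n ^ (M - (Finset.univ.image κ).card) :=
        Finset.sum_le_sum hfib
    _ ≤ ∑ κ ∈ (Finset.range (M + 1)).biUnion (fun s =>
          Finset.univ.filter fun κ : Ξ → Fin n => (Finset.univ.image κ).card = s),
          ((M + 1) * (2 * M) ^ Fintype.card Ξ) * n ^ (M - (Finset.univ.image κ).card) := by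
        refine Finset.sum_le_sum_of_subset ?_
        intro κ hκ
        rw [Finset.mem_biUnion]
        refine ⟨(Finset.univ.image κ).card, ?_, by simp⟩
        have e1 := hs κ hκ
        have e2 := h2 κ hκ
        rw [Finset.mem_range]
        omega
    _ = ∑ s ∈ Finset.range (M + 1), ∑ κ ∈ Finset.univ.filter fun κ : Ξ → Fin n =>
          (Finset.univ.image κ).card = s,
          ((M + 1) * (2 * M) ^ Fintype.card Ξ) * n ^ (M - (Finset.univ.image κ).card) := by
        rw [Finset.sum_biUnion]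
        intro s _ t _ hst
        rw [Function.onFun, Finset.disjoint_left]
        intro κ h3 h4
        rw [Finset.mem_filter] at h3 h4
        exact hst (h3.2.symm.trans h4.2)
    _ ≤ ∑ s ∈ Finset.range (M + 1),
          (M ^ Fintype.card Ξ * ((M + 1) * (2 * M) ^ Fintype.card Ξ)) * n ^ M := by
        refine Finset.sum_le_sum fun s hs' => ?_
        rw [Finset.mem_range] at hs'
        have e5 : ∀ κ ∈ Finset.univ.filter (fun κ : Ξ → Fin n => (Finset.univ.image κ).card = s),
            ((M + 1) * (2 * M) ^ Fintype.card Ξ) * n ^ (M - (Finset.univ.image κ).card) =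
            ((M + 1) * (2 * M) ^ Fintype.card Ξ) * n ^ (M - s) := by
          intro κ hκ
          rw [Finset.mem_filter] at hκ
          rw [hκ.2]
        rw [Finset.sum_congr rfl e5, Finset.sum_const, smul_eq_mul]
        calc _ ≤ (n ^ s * s ^ Fintype.card Ξ) *
              (((M + 1) * (2 * M) ^ Fintype.card Ξ) * n ^ (M - s)) := by
              gcongr
              exact card_rng s
          _ = s ^ Fintype.card Ξ * ((M + 1) * (2 * M) ^ Fintype.card Ξ) * (n ^ s * n ^ (M - s)) := by
              ring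
          _ = s ^ Fintype.card Ξ * ((M + 1) * (2 * M) ^ Fintype.card Ξ) * n ^ M := by
              rw [← pow_add, Nat.add_sub_cancel' (by omega)]
          _ ≤ _ := by
              gcongr
              omega
    _ = _ := by
        rw [Finset.sum_const, Finset.card_range, smul_eq_mul]; ring

end Pool.Agent.Lib.P267408
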