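import Pool.Agent.Lib.P267408.Word

open Finset

namespace Pool.Agent.Lib.P267408

set_option linter.unusedSectionVars false

variable {V : Type*} [DecidableEq V]

/-- The chords to the right of `c`, shifted. -/
def tl (c : ℕ) (E : Finset (ℕ × ℕ)) : Finset (ℕ × ℕ) :=
  (E.filter fun p => c ≤ p.1).image fun p => (p.1 - c, p.2 - c)

lemma mem_tl {c : ℕ} {E : Finset (ℕ × ℕ)} (hE : ∀ p ∈ E, p.1 < p.2) {a b : ℕ} :
    (a, b) ∈ tl c E ↔ (c + a, c + b) ∈ E := by
  unfold tl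
  simp only [Finset.mem_image, Finset.mem_filter, Prod.mk.injEq, Prod.exists]
  constructor
  · rintro ⟨x, y, ⟨h1, h2⟩, h3, h4⟩
    have := hE _ h1
    simp only at this h2
    have e1 : c + a = x := by omega
    have e2 : c + b = y := by omega
    rw [e1, e2]; exact h1
  · intro h
    exact ⟨c + a, c + b, ⟨h, by simp⟩, by omega, by omega⟩

lemma valid_tl {L c : ℕ} {E : Finset (ℕ × ℕ)} (hE : Valid L E) (hc : c ≤ L) :
    Valid (L - c) (tl c E) := by
  constructor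
  · rintro ⟨a, b⟩ h
    rw [mem_tl hE.lt] at h
    have := hE.lt _ h
    simp only at this ⊢
    omega
  · rintro ⟨a, b⟩ h
    rw [mem_tl hE.lt] at h
    have := hE.le _ h
    simp only at this ⊢
    omega
  · intro a ha
    rw [mem_tl hE.lt]
    exact hE.path (c + a) (by omega)
  · rintro ⟨a, b⟩ h ⟨a', b'⟩ h' h1 h2
    rw [mem_tl hE.lt] at h h'
    have := hE.nc _ h _ h' (by simp only at h1 ⊢; omega) (by simp only at h2 ⊢; omega)
    simp only at this ⊢
    omega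

/-- `x` is a root or is incident to an uncancelled edge. -/
def NI (f g : ℕ → V) (E1 E2 : Finset (ℕ × ℕ)) (x : V) : Prop :=
  x = f 0 ∨ x = g 0 ∨ ∃ e ∈ symmDiff (im f E1) (im g E2), x ∈ e

/-- The two paths have exactly their last `k + 1` vertices in common. -/
structure Match (L1 L2 k : ℕ) (f g : ℕ → V) : Prop where
  le1 : k ≤ L1
  le2 : k ≤ L2
  eq : ∀ t ≤ k, f (L1 - k + t) = g (L2 - k + t)
  disj : ∀ a ≤ L1, ∀ b ≤ L2, f a = g b → L1 - k ≤ a ∧ L2 - k ≤ b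

/-- Both words have a cut point at distance `k` from the end, and the same tails. -/
structure Compat (L1 : ℕ) (E1 : Finset (ℕ × ℕ)) (L2 : ℕ) (E2 : Finset (ℕ × ℕ)) (k : ℕ) : Prop where
  le1 : k ≤ L1
  le2 : k ≤ L2
  cut1 : ∀ p ∈ E1, p.2 ≤ L1 - k ∨ L1 - k ≤ p.1
  cut2 : ∀ p ∈ E2, p.2 ≤ L2 - k ∨ L2 - k ≤ p.1
  tail : tl (L1 - k) E1 = tl (L2 - k) E2

lemma mem_im_left {f : ℕ → V} {E : Finset (ℕ × ℕ)} {L : ℕ} (hE : Valid L E) {e : Sym2 V}
    (h : e ∈ im f E) {x : V} (hx : x ∈ e) : ∃ a ≤ L, f a = x := by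
  obtain ⟨p, hp, rfl⟩ := mem_im.mp h
  have h3 := hE.lt p hp
  have h4 := hE.le p hp
  rw [Sym2.mem_iff] at hx
  rcases hx with rfl | rfl
  · exact ⟨p.1, by omega, rfl⟩
  · exact ⟨p.2, h4, rfl⟩

/-- One-sided part of the structural lemma. -/
lemma struct_aux {L1 L2 : ℕ} {E1 E2 : Finset (ℕ × ℕ)} {f g : ℕ → V}
    (hf : Set.InjOn f (Set.Iic L1)) (h1 : Valid L1 E1) (h2 : Valid L2 E2)
    (hv : f L1 = g L2)
    (hiso : ∀ a ≤ L1, ∀ a' ≤ L1, (∃ b ≤ L2, g b = f a) → (∃ b ≤ L2, g b = f a') →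
      NI f g E1 E2 (f a) → NI f g E1 E2 (f a') → a = a') :
    ∃ a0 ≤ L1, NI f g E1 E2 (f a0) ∧ ∀ a ≤ L1, ((∃ b ≤ L2, g b = f a) ↔ a0 ≤ a) := by
  classical
  set inS : ℕ → Prop := fun a => ∃ b ≤ L2, g b = f a with hinS
  have hQ : ∃ a, a ≤ L1 ∧ ∀ a', a ≤ a' → a' ≤ L1 → inS a' :=
    ⟨L1, le_rfl, fun a' h h' => by
      obtain rfl : a' = L1 := le_antisymm h' h
      exact ⟨L2, le_rfl, hv.symm⟩⟩
  set a0 := Nat.find hQ with ha0
  have ha0s := Nat.find_spec hQ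
  rw [← ha0] at ha0s
  -- an edge from inside to outside gives a non isolated vertex
  have hout : ∀ a < L1, (inS a ∧ ¬ inS (a + 1)) → NI f g E1 E2 (f a) := by
    intro a ha hh
    refine Or.inr (Or.inr ⟨s(f a, f (a + 1)), ?_, Sym2.mem_mk_left _ _⟩)
    rw [Finset.mem_symmDiff]
    left
    refine ⟨mem_im.mpr ⟨_, h1.path a ha, rfl⟩, fun hg => hh.2 ?_⟩
    obtain ⟨b, hb, hb'⟩ := mem_im_left h2 hg (Sym2.mem_mk_right _ _)
    exact ⟨b, hb, hb'⟩
  have hout' : ∀ a < L1, (inS (a + 1) ∧ ¬ inS a) → NI f g E1 E2 (f (a + 1)) := by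
    intro a ha hh
    refine Or.inr (Or.inr ⟨s(f a, f (a + 1)), ?_, Sym2.mem_mk_right _ _⟩)
    rw [Finset.mem_symmDiff]
    left
    refine ⟨mem_im.mpr ⟨_, h1.path a ha, rfl⟩, fun hg => hh.2 ?_⟩
    obtain ⟨b, hb, hb'⟩ := mem_im_left h2 hg (Sym2.mem_mk_left _ _)
    exact ⟨b, hb, hb'⟩
  have hpred : 0 < a0 → ¬ inS (a0 - 1) := by
    intro hpos hin
    have h3 := Nat.find_min hQ (m := a0 - 1) (by omega)
    apply h3
    refine ⟨by omega, fun a' h h' => ?_⟩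
    rcases Nat.lt_or_ge a' a0 with h4 | h4
    · obtain rfl : a' = a0 - 1 := by omega
      exact hin
    · exact ha0s.2 a' h4 h'
  have hNI : NI f g E1 E2 (f a0) := by
    rcases Nat.eq_zero_or_pos a0 with h0 | hpos
    · left; rw [h0]
    · have h3 := hout' (a0 - 1) (by omega)
        ⟨by rw [Nat.sub_add_cancel hpos]; exact ha0s.2 a0 le_rfl ha0s.1, hpred hpos⟩
      rwa [Nat.sub_add_cancel hpos] at h3
  refine ⟨a0, ha0s.1, hNI, fun a ha => ⟨fun hin => ?_, fun h => ha0s.2 a h ha⟩⟩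
  by_contra hlt
  push Not at hlt
  have hne : a ≠ a0 - 1 := by
    rintro rfl
    exact hpred (by omega) hin
  obtain ⟨u, hu1, hu2, hu3, hu4⟩ := exists_enter (P := fun u => ¬ inS u) (a := a) (b := a0 - 1)
    (by omega) (not_not.mpr hin) (hpred (by omega))
  have hu3' : inS u := not_not.mp hu3
  have h5 := hout u (by omega) ⟨hu3', hu4⟩
  have := hiso u (by omega) a0 ha0s.1 hu3' (ha0s.2 a0 le_rfl ha0s.1) h5 hNI
  omega

lemma NI_comm {f g : ℕ → V} {E1 E2 : Finset (ℕ × ℕ)} {x : V} :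
    NI f g E1 E2 x ↔ NI g f E2 E1 x := by
  unfold NI
  rw [symmDiff_comm]
  tauto

/-- The structural lemma: if at most one common vertex is a root or incident to an uncancelled
edge, then the two embedded words overlap in a common tail. -/
theorem struct {L1 L2 : ℕ} {E1 E2 : Finset (ℕ × ℕ)} {f g : ℕ → V}
    (hf : Set.InjOn f (Set.Iic L1)) (hg : Set.InjOn g (Set.Iic L2))
    (h1 : Valid L1 E1) (h2 : Valid L2 E2) (hv : f L1 = g L2)
    (hiso : ∀ x y : V, (∃ a ≤ L1, f a = x) → (∃ b ≤ L2, g b = x) → (∃ a ≤ L1, f a = y) →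
      (∃ b ≤ L2, g b = y) → NI f g E1 E2 x → NI f g E1 E2 y → x = y) :
    ∃ k, Match L1 L2 k f g ∧ Compat L1 E1 L2 E2 k := by
  classical
  obtain ⟨a0, ha0, hNa, hA⟩ := struct_aux hf h1 h2 hv (fun a ha a' ha' hb hb' hn hn' =>
    hf ha ha' (hiso _ _ ⟨a, ha, rfl⟩ hb ⟨a', ha', rfl⟩ hb' hn hn'))
  obtain ⟨b0, hb0, hNb, hB⟩ := struct_aux hg h2 h1 hv.symm (fun a ha a' ha' hb hb' hn hn' =>
    hg ha ha' (hiso _ _ hb ⟨a, ha, rfl⟩ hb' ⟨a', ha', rfl⟩ (NI_comm.mpr hn) (NI_comm.mpr hn')))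
  have hfg0 : f a0 = g b0 := hiso _ _ ⟨a0, ha0, rfl⟩ ((hA a0 ha0).mpr le_rfl)
    ((hB b0 hb0).mpr le_rfl) ⟨b0, hb0, rfl⟩ hNa (NI_comm.mpr hNb)
  -- lengths
  have hcard : L1 - a0 = L2 - b0 := by
    have himg : (Finset.Icc a0 L1).image f = (Finset.Icc b0 L2).image g := by
      ext x
      simp only [Finset.mem_image, Finset.mem_Icc]
      constructor
      · rintro ⟨a, ⟨h3, h4⟩, rfl⟩
        obtain ⟨b, hb, hb'⟩ := (hA a h4).mpr h3
        refine ⟨b, ⟨(hB b hb).mp ⟨a, h4, hb'.symm⟩, hb⟩, hb'⟩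
      · rintro ⟨a, ⟨h3, h4⟩, rfl⟩
        obtain ⟨b, hb, hb'⟩ := (hB a h4).mpr h3
        refine ⟨b, ⟨(hA b hb).mp ⟨a, h4, hb'.symm⟩, hb⟩, hb'⟩
    have c1 : ((Finset.Icc a0 L1).image f).card = L1 + 1 - a0 := by
      rw [Finset.card_image_of_injOn, Nat.card_Icc]
      intro x hx y hy hxy
      simp only [Finset.coe_Icc, Set.mem_Icc] at hx hy
      exact hf hx.2 hy.2 hxy
    have c2 : ((Finset.Icc b0 L2).image g).card = L2 + 1 - b0 := by
      rw [Finset.card_image_of_injOn, Nat.card_Icc]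
      intro x hx y hy hxy
      simp only [Finset.coe_Icc, Set.mem_Icc] at hx hy
      exact hg hx.2 hy.2 hxy
    rw [himg, c2] at c1
    omega
  have hnotNI : ∀ a ≤ L1, a0 < a → ¬ NI f g E1 E2 (f a) := by
    intro a ha hlt hN
    have := hiso _ _ ⟨a, ha, rfl⟩ ((hA a ha).mpr hlt.le) ⟨a0, ha0, rfl⟩
      ((hA a0 ha0).mpr le_rfl) hN hNa
    have := hf ha ha0 this
    omega
  have hnotNI' : ∀ a ≤ L2, b0 < a → ¬ NI f g E1 E2 (g a) := by
    intro a ha hlt hN
    have := hiso _ _ ((hB a ha).mpr hlt.le) ⟨a, ha, rfl⟩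
      ((hB b0 hb0).mpr le_rfl) ⟨b0, hb0, rfl⟩ hN (NI_comm.mpr hNb)
    have := hg ha hb0 this
    omega
  have hedge1 : ∀ p ∈ E1, a0 < p.2 → a0 ≤ p.1 ∧ s(f p.1, f p.2) ∈ im g E2 := by
    intro p hp hlt
    have h3 := h1.lt p hp
    have h4 := h1.le p hp
    have h5 : s(f p.1, f p.2) ∈ im g E2 := by
      by_contra hcon
      apply hnotNI p.2 h4 hlt
      exact Or.inr (Or.inr ⟨s(f p.1, f p.2), Finset.mem_symmDiff.mpr
        (Or.inl ⟨mem_im.mpr ⟨p, hp, rfl⟩, hcon⟩), Sym2.mem_mk_right _ _⟩)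
    refine ⟨(hA p.1 (by omega)).mp ?_, h5⟩
    exact mem_im_left h2 h5 (Sym2.mem_mk_left _ _)
  have hedge2 : ∀ p ∈ E2, b0 < p.2 → b0 ≤ p.1 ∧ s(g p.1, g p.2) ∈ im f E1 := by
    intro p hp hlt
    have h3 := h2.lt p hp
    have h4 := h2.le p hp
    have h5 : s(g p.1, g p.2) ∈ im f E1 := by
      by_contra hcon
      apply hnotNI' p.2 h4 hlt
      exact Or.inr (Or.inr ⟨s(g p.1, g p.2), Finset.mem_symmDiff.mpr
        (Or.inr ⟨mem_im.mpr ⟨p, hp, rfl⟩, hcon⟩), Sym2.mem_mk_right _ _⟩)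
    refine ⟨(hB p.1 (by omega)).mp ?_, h5⟩
    exact mem_im_left h1 h5 (Sym2.mem_mk_left _ _)
  -- rigidity of the tails
  have himt : im (fun t => f (a0 + t)) (tl a0 E1) = im (fun t => g (b0 + t)) (tl b0 E2) := by
    ext e
    constructor
    · intro he
      obtain ⟨⟨a, b⟩, hp, rfl⟩ := mem_im.mp he
      rw [mem_tl h1.lt] at hp
      have h3 := h1.lt _ hp
      have h4 := h1.le _ hp
      simp only at h3 h4
      obtain ⟨r, hr, hr'⟩ := mem_im.mp (hedge1 _ hp (by simp only; omega)).2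
      have h5 := h2.lt r hr
      have h6 := h2.le r hr
      have h7 : b0 ≤ r.1 := by
        refine (hB r.1 (by omega)).mp ?_
        have : g r.1 ∈ s(f (a0 + a), f (a0 + b)) := by
          rw [← hr']; exact Sym2.mem_mk_left _ _
        rw [Sym2.mem_iff] at this
        rcases this with h | h
        · exact ⟨a0 + a, by omega, h.symm⟩
        · exact ⟨a0 + b, by omega, h.symm⟩
      refine mem_im.mpr ⟨(r.1 - b0, r.2 - b0), ?_, ?_⟩
      · rw [mem_tl h2.lt, Nat.add_sub_cancel' h7, Nat.add_sub_cancel' (by omega : b0 ≤ r.2)]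
        exact hr
      · show s(g (b0 + (r.1 - b0)), g (b0 + (r.2 - b0))) = s(f (a0 + a), f (a0 + b))
        rw [Nat.add_sub_cancel' h7, Nat.add_sub_cancel' (by omega : b0 ≤ r.2)]
        exact hr'
    · intro he
      obtain ⟨⟨a, b⟩, hp, rfl⟩ := mem_im.mp he
      rw [mem_tl h2.lt] at hp
      have h3 := h2.lt _ hp
      have h4 := h2.le _ hp
      simp only at h3 h4
      obtain ⟨r, hr, hr'⟩ := mem_im.mp (hedge2 _ hp (by simp only; omega)).2
      have h5 := h1.lt r hr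
      have h6 := h1.le r hr
      have h7 : a0 ≤ r.1 := by
        refine (hA r.1 (by omega)).mp ?_
        have : f r.1 ∈ s(g (b0 + a), g (b0 + b)) := by
          rw [← hr']; exact Sym2.mem_mk_left _ _
        rw [Sym2.mem_iff] at this
        rcases this with h | h
        · exact ⟨b0 + a, by omega, h.symm⟩
        · exact ⟨b0 + b, by omega, h.symm⟩
      refine mem_im.mpr ⟨(r.1 - a0, r.2 - a0), ?_, ?_⟩
      · rw [mem_tl h1.lt, Nat.add_sub_cancel' h7, Nat.add_sub_cancel' (by omega : a0 ≤ r.2)]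
        exact hr
      · show s(f (a0 + (r.1 - a0)), f (a0 + (r.2 - a0))) = s(g (b0 + a), g (b0 + b))
        rw [Nat.add_sub_cancel' h7, Nat.add_sub_cancel' (by omega : a0 ≤ r.2)]
        exact hr'
  obtain ⟨-, htail, heq⟩ := rigid (valid_tl h1 ha0) (valid_tl h2 hb0)
    (f := fun t => f (a0 + t)) (g := fun t => g (b0 + t))
    (by
      intro x hx y hy hxy
      simp only [Set.mem_Iic] at hx hy
      have := hf (by simp only [Set.mem_Iic]; omega) (by simp only [Set.mem_Iic]; omega) hxy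
      omega)
    (by
      intro x hx y hy hxy
      simp only [Set.mem_Iic] at hx hy
      have := hg (by simp only [Set.mem_Iic]; omega) (by simp only [Set.mem_Iic]; omega) hxy
      omega)
    hfg0
    (by
      show f (a0 + (L1 - a0)) = g (b0 + (L2 - b0))
      rw [Nat.add_sub_cancel' ha0, Nat.add_sub_cancel' hb0, hv]) himt
  refine ⟨L1 - a0, ⟨by omega, by omega, ?_, ?_⟩, ⟨by omega, by omega, ?_, ?_, ?_⟩⟩
  · intro t ht
    have e1 : L1 - (L1 - a0) = a0 := by omega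
    have e2 : L2 - (L1 - a0) = b0 := by omega
    rw [e1, e2]
    exact heq t ht
  · intro a ha b hb hab
    have e1 : L1 - (L1 - a0) = a0 := by omega
    have e2 : L2 - (L1 - a0) = b0 := by omega
    rw [e1, e2]
    exact ⟨(hA a ha).mp ⟨b, hb, hab.symm⟩, (hB b hb).mp ⟨a, ha, hab⟩⟩
  · intro p hp
    have e1 : L1 - (L1 - a0) = a0 := by omega
    rw [e1]
    rcases Nat.lt_or_ge a0 p.2 with h | h
    · right; exact (hedge1 p hp h).1
    · left; exact h
  · intro p hp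
    have e2 : L2 - (L1 - a0) = b0 := by omega
    rw [e2]
    rcases Nat.lt_or_ge b0 p.2 with h | h
    · right; exact (hedge2 p hp h).1
    · left; exact h
  · have e1 : L1 - (L1 - a0) = a0 := by omega
    have e2 : L2 - (L1 - a0) = b0 := by omega
    rw [e1, e2]
    exact htail

end Pool.Agent.Lib.P267408
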