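import Pool.Agent.Lib.P267408.Basic
import Pool.Agent.Lib.P267408.Struct
import Pool.Agent.Lib.P267408.Count

open Finset

namespace Pool.Agent.Lib.P267408

set_option linter.unusedSectionVars false

variable {V : Type*} [DecidableEq V]

/-- Gluing two words along a common tail of length `k`. -/
def glue (w w' : ℕ × Finset (ℕ × ℕ)) (k : ℕ) : ℕ × Finset (ℕ × ℕ) :=
  ((w.1 - k) + (w'.1 - k),
    (w.2.filter fun p => p.2 ≤ w.1 - k) ∪
    (w'.2.filter fun p => p.2 ≤ w'.1 - k).image fun p =>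
      ((w.1 - k) + (w'.1 - k) - p.2, (w.1 - k) + (w'.1 - k) - p.1))

lemma mem_glue {w w' : ℕ × Finset (ℕ × ℕ)} {k : ℕ} {p : ℕ × ℕ} :
    p ∈ (glue w w' k).2 ↔ (p ∈ w.2 ∧ p.2 ≤ w.1 - k) ∨
      ∃ q ∈ w'.2, q.2 ≤ w'.1 - k ∧
        ((w.1 - k) + (w'.1 - k) - q.2, (w.1 - k) + (w'.1 - k) - q.1) = p := by
  unfold glue
  simp only [Finset.mem_union, Finset.mem_filter, Finset.mem_image, and_assoc]

lemma valid_glue {w w' : ℕ × Finset (ℕ × ℕ)} {k : ℕ} (h1 : Valid w.1 w.2) (h2 : Valid w'.1 w'.2) :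
    Valid (glue w w' k).1 (glue w w' k).2 := by
  have hm : (glue w w' k).1 = (w.1 - k) + (w'.1 - k) := rfl
  constructor
  · intro p hp
    rcases mem_glue.mp hp with ⟨h, -⟩ | ⟨q, hq, hq', rfl⟩
    · exact h1.lt p h
    · have := h2.lt q hq
      simp only
      omega
  · intro p hp
    rw [hm]
    rcases mem_glue.mp hp with ⟨h, h'⟩ | ⟨q, hq, hq', rfl⟩
    · omega
    · simp only
      omega
  · intro a ha
    rw [hm] at ha
    rw [mem_glue]
    rcases Nat.lt_or_ge a (w.1 - k) with h | h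
    · left
      exact ⟨h1.path a (by omega), by simp only; omega⟩
    · right
      refine ⟨(((w.1 - k) + (w'.1 - k)) - (a + 1), ((w.1 - k) + (w'.1 - k)) - (a + 1) + 1),
        h2.path _ (by omega), by simp only; omega, ?_⟩
      simp only [Prod.mk.injEq]
      omega
  · intro p hp r hr hlt hlt'
    rcases mem_glue.mp hp with ⟨h, h'⟩ | ⟨q, hq, hq', rfl⟩
    · rcases mem_glue.mp hr with ⟨h3, h3'⟩ | ⟨q', hq2, hq2', rfl⟩
      · exact h1.nc p h r h3 hlt hlt'
      · have := h2.lt q' hq2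
        simp only at hlt hlt' ⊢
        omega
    · rcases mem_glue.mp hr with ⟨h3, h3'⟩ | ⟨q', hq2, hq2', rfl⟩
      · have := h2.lt q hq
        have := h1.lt r h3
        simp only at hlt hlt' ⊢
        omega
      · have h4 := h2.lt q hq
        have h5 := h2.lt q' hq2
        have h6 := h2.nc q' hq2 q hq
        simp only at hlt hlt' ⊢
        by_contra hcon
        have := h6 (by omega) (by omega)
        omega

/-- The symmetric difference of two matched embedded words is the embedded glued word. -/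
lemma symmDiff_match {w w' : ℕ × Finset (ℕ × ℕ)} {k : ℕ} {f g χ : ℕ → V}
    (h1 : Valid w.1 w.2) (h2 : Valid w'.1 w'.2)
    (hM : Match w.1 w'.1 k f g) (hC : Compat w.1 w.2 w'.1 w'.2 k)
    (hχ1 : ∀ t ≤ w.1 - k, χ t = f t)
    (hχ2 : ∀ t ≤ w'.1 - k, χ ((w.1 - k) + (w'.1 - k) - t) = g t) :
    symmDiff (im f w.2) (im g w'.2) = im χ (glue w w' k).2 := by
  have htail1 : ∀ p ∈ w.2, w.1 - k ≤ p.1 → s(f p.1, f p.2) ∈ im g w'.2 := by
    intro p hp hlt
    have h3 := h1.le p hp
    have h4 := h1.lt p hp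
    have h5 : (p.1 - (w.1 - k), p.2 - (w.1 - k)) ∈ tl (w.1 - k) w.2 := by
      rw [mem_tl h1.lt, Nat.add_sub_cancel' hlt, Nat.add_sub_cancel' (by omega)]
      exact hp
    rw [hC.tail, mem_tl h2.lt] at h5
    refine mem_im.mpr ⟨_, h5, ?_⟩
    have e1 := hM.eq (p.1 - (w.1 - k)) (by have := hM.le1; omega)
    have e2 := hM.eq (p.2 - (w.1 - k)) (by have := hM.le1; omega)
    rw [Nat.add_sub_cancel' hlt] at e1
    rw [Nat.add_sub_cancel' (by omega)] at e2
    simp only
    rw [← e1, ← e2]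
  have htail2 : ∀ p ∈ w'.2, w'.1 - k ≤ p.1 → s(g p.1, g p.2) ∈ im f w.2 := by
    intro p hp hlt
    have h3 := h2.le p hp
    have h4 := h2.lt p hp
    have h5 : (p.1 - (w'.1 - k), p.2 - (w'.1 - k)) ∈ tl (w'.1 - k) w'.2 := by
      rw [mem_tl h2.lt, Nat.add_sub_cancel' hlt, Nat.add_sub_cancel' (by omega)]
      exact hp
    rw [← hC.tail, mem_tl h1.lt] at h5
    refine mem_im.mpr ⟨_, h5, ?_⟩
    have e1 := hM.eq (p.1 - (w'.1 - k)) (by have := hM.le2; omega)
    have e2 := hM.eq (p.2 - (w'.1 - k)) (by have := hM.le2; omega)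
    rw [Nat.add_sub_cancel' hlt] at e1
    rw [Nat.add_sub_cancel' (by omega)] at e2
    simp only
    rw [e1, e2]
  have hhead1 : ∀ p ∈ w.2, p.2 ≤ w.1 - k → s(f p.1, f p.2) ∉ im g w'.2 := by
    intro p hp hle hmem
    have h4 := h1.lt p hp
    obtain ⟨b, hb, hb'⟩ := mem_im_left h2 hmem (Sym2.mem_mk_left _ _)
    have := (hM.disj p.1 (by omega) b hb hb'.symm).1
    omega
  have hhead2 : ∀ p ∈ w'.2, p.2 ≤ w'.1 - k → s(g p.1, g p.2) ∉ im f w.2 := by
    intro p hp hle hmem
    have h4 := h2.lt p hp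
    obtain ⟨b, hb, hb'⟩ := mem_im_left h1 hmem (Sym2.mem_mk_left _ _)
    have := (hM.disj b hb p.1 (by omega) hb').2
    omega
  ext e
  rw [Finset.mem_symmDiff]
  constructor
  · rintro (⟨he, he'⟩ | ⟨he, he'⟩)
    · obtain ⟨p, hp, rfl⟩ := mem_im.mp he
      have hle : p.2 ≤ w.1 - k := by
        rcases hC.cut1 p hp with h | h
        · exact h
        · exact absurd (htail1 p hp h) he'
      have h4 := h1.lt p hp
      refine mem_im.mpr ⟨p, mem_glue.mpr (Or.inl ⟨hp, hle⟩), ?_⟩
      rw [hχ1 _ (by omega), hχ1 _ hle]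
    · obtain ⟨p, hp, rfl⟩ := mem_im.mp he
      have hle : p.2 ≤ w'.1 - k := by
        rcases hC.cut2 p hp with h | h
        · exact h
        · exact absurd (htail2 p hp h) he'
      have h4 := h2.lt p hp
      refine mem_im.mpr ⟨_, mem_glue.mpr (Or.inr ⟨p, hp, hle, rfl⟩), ?_⟩
      simp only
      rw [hχ2 _ hle, hχ2 _ (by omega), Sym2.eq_swap]
  · intro he
    obtain ⟨p, hp, rfl⟩ := mem_im.mp he
    rcases mem_glue.mp hp with ⟨h3, h4⟩ | ⟨q, hq, hq', rfl⟩
    · left
      have h5 := h1.lt p h3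
      rw [hχ1 _ (by omega), hχ1 _ h4]
      exact ⟨mem_im.mpr ⟨p, h3, rfl⟩, hhead1 p h3 h4⟩
    · right
      have h5 := h2.lt q hq
      simp only
      rw [hχ2 _ hq', hχ2 _ (by omega), Sym2.eq_swap]
      exact ⟨mem_im.mpr ⟨q, hq, rfl⟩, hhead2 q hq hq'⟩

/-! ### Pairs of embedded words -/

/-- First component of a pair. -/
def fa {L1 L2 n : ℕ} (κ : Fin (L1 + 1) ⊕ Fin (L2 + 1) → Fin n) : ℕ → Fin n :=
  ev fun x => κ (Sum.inl x)

/-- Second component of a pair. -/
def ga {L1 L2 n : ℕ} (κ : Fin (L1 + 1) ⊕ Fin (L2 + 1) → Fin n) : ℕ → Fin n :=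
  ev fun x => κ (Sum.inr x)

lemma pair_ext {L1 L2 n : ℕ} {κ κ' : Fin (L1 + 1) ⊕ Fin (L2 + 1) → Fin n}
    (h1 : ∀ t ≤ L1, fa κ t = fa κ' t) (h2 : ∀ t ≤ L2, ga κ t = ga κ' t) : κ = κ' := by
  funext x
  rcases x with x | x
  · have := ev_ext (φ := fun x => κ (Sum.inl x)) (ψ := fun x => κ' (Sum.inl x)) h1
    exact congrFun this x
  · have := ev_ext (φ := fun x => κ (Sum.inr x)) (ψ := fun x => κ' (Sum.inr x)) h2
    exact congrFun this x

/-- Matched pairs. -/
noncomputable def PPk (L1 L2 k n : ℕ) : Finset (Fin (L1 + 1) ⊕ Fin (L2 + 1) → Fin n) := by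
  classical
  exact Finset.univ.filter fun κ => Set.InjOn (fa κ) (Set.Iic L1) ∧ Set.InjOn (ga κ) (Set.Iic L2) ∧
    Match L1 L2 k (fa κ) (ga κ)

lemma mem_PPk {L1 L2 k n : ℕ} {κ : Fin (L1 + 1) ⊕ Fin (L2 + 1) → Fin n} :
    κ ∈ PPk L1 L2 k n ↔ Set.InjOn (fa κ) (Set.Iic L1) ∧ Set.InjOn (ga κ) (Set.Iic L2) ∧
    Match L1 L2 k (fa κ) (ga κ) := by
  unfold PPk; simp

/-- The uncancelled part of a matched pair. -/
def chi {L1 L2 n : ℕ} (m k : ℕ) (κ : Fin (L1 + 1) ⊕ Fin (L2 + 1) → Fin n) :
    Fin (m + 1) → Fin n :=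
  fun t => if (t : ℕ) ≤ L1 - k then fa κ t else ga κ (m - t)

lemma card_fiber {L1 L2 k n m : ℕ} (hm : m = (L1 - k) + (L2 - k)) (hk1 : k ≤ L1) (hk2 : k ≤ L2)
    (χ : Fin (m + 1) → Fin n) (hχ : Function.Injective χ) :
    ((PPk L1 L2 k n).filter fun κ => chi m k κ = χ).card =
      (n - (m + 1)).descFactorial k := by
  classical
  have hc : Fintype.card (Fin k ↪ {x : Fin n // x ∉ Set.range χ}) =
      (n - (m + 1)).descFactorial k := by
    rw [Fintype.card_embedding_eq, Fintype.card_fin]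
    congr 1
    have h1 : Fintype.card {x : Fin n // x ∉ Set.range χ} =
        Fintype.card (Fin n) - Fintype.card {x : Fin n // x ∈ Set.range χ} :=
      Fintype.card_subtype_compl _
    rw [h1, Fintype.card_fin]
    congr 1
    have h2 : Fintype.card {x : Fin n // x ∈ Set.range χ} = Fintype.card (Fin (m + 1)) :=
      (Set.card_range_of_injective hχ)
    rw [h2, Fintype.card_fin]
  rw [← hc, ← Finset.card_univ]
  symm
  -- the tail function
  set zt : (Fin k ↪ {x : Fin n // x ∉ Set.range χ}) → ℕ → Fin n :=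
    fun ζ t => if h : t < k then (ζ ⟨t, h⟩ : Fin n) else ev χ 0 with hzt
  have hzt1 : ∀ ζ, ∀ t (h : t < k), zt ζ t = (ζ ⟨t, h⟩ : Fin n) := by
    intro ζ t h; simp only [hzt, h, dif_pos]
  have hzt2 : ∀ ζ, ∀ t < k, ∀ s ≤ k - 1, s < k → zt ζ t = zt ζ s → t = s := by
    intro ζ t h s _ h' heq
    rw [hzt1 ζ t h, hzt1 ζ s h'] at heq
    have := ζ.injective (Subtype.ext heq)
    simpa using this
  have hzt3 : ∀ ζ, ∀ t < k, ∀ s ≤ m, zt ζ t ≠ ev χ s := by
    intro ζ t h s hs heq
    rw [hzt1 ζ t h, ev_of_le _ hs] at heq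
    exact (ζ ⟨t, h⟩).2 ⟨_, heq.symm⟩
  set G : (Fin k ↪ {x : Fin n // x ∉ Set.range χ}) → (Fin (L1 + 1) ⊕ Fin (L2 + 1) → Fin n) :=
    fun ζ => Sum.elim
      (fun a => if (a : ℕ) ≤ L1 - k then ev χ a else zt ζ (a - (L1 - k) - 1))
      (fun b => if (b : ℕ) ≤ L2 - k then ev χ (m - b) else zt ζ (b - (L2 - k) - 1)) with hG
  have hGf : ∀ ζ, ∀ a ≤ L1, fa (G ζ) a =
      if a ≤ L1 - k then ev χ a else zt ζ (a - (L1 - k) - 1) := by
    intro ζ a ha
    unfold fa
    rw [ev_of_le _ ha]
    simp only [hG, Sum.elim_inl]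
  have hGg : ∀ ζ, ∀ b ≤ L2, ga (G ζ) b =
      if b ≤ L2 - k then ev χ (m - b) else zt ζ (b - (L2 - k) - 1) := by
    intro ζ a ha
    unfold ga
    rw [ev_of_le _ ha]
    simp only [hG, Sum.elim_inr]
  have hinjχ := injOn_ev hχ
  refine Finset.card_bij (fun ζ _ => G ζ) ?_ ?_ ?_
  · intro ζ _
    rw [Finset.mem_filter, mem_PPk]
    refine ⟨⟨?_, ?_, ?_⟩, ?_⟩
    · intro a ha b hb hab
      simp only [Set.mem_Iic] at ha hb
      rw [hGf ζ a ha, hGf ζ b hb] at hab
      split_ifs at hab with h1 h2 h2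
      · exact hinjχ (by simp only [Set.mem_Iic]; omega) (by simp only [Set.mem_Iic]; omega) hab
      · exact absurd hab.symm (hzt3 ζ _ (by omega) _ (by omega))
      · exact absurd hab (hzt3 ζ _ (by omega) _ (by omega))
      · have := hzt2 ζ _ (by omega) _ (by omega) (by omega) hab
        omega
    · intro a ha b hb hab
      simp only [Set.mem_Iic] at ha hb
      rw [hGg ζ a ha, hGg ζ b hb] at hab
      split_ifs at hab with h1 h2 h2
      · have := hinjχ (by simp only [Set.mem_Iic]; omega) (by simp only [Set.mem_Iic]; omega) hab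
        omega
      · exact absurd hab.symm (hzt3 ζ _ (by omega) _ (by omega))
      · exact absurd hab (hzt3 ζ _ (by omega) _ (by omega))
      · have := hzt2 ζ _ (by omega) _ (by omega) (by omega) hab
        omega
    · refine ⟨hk1, hk2, ?_, ?_⟩
      · intro t ht
        rw [hGf ζ _ (by omega), hGg ζ _ (by omega)]
        rcases Nat.eq_zero_or_pos t with rfl | hpos
        · rw [if_pos (by omega), if_pos (by omega)]
          congr 1
          omega
        · rw [if_neg (by omega), if_neg (by omega)]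
          congr 1
          omega
      · intro a ha b hb hab
        rw [hGf ζ a ha, hGg ζ b hb] at hab
        split_ifs at hab with h1 h2 h2
        · have := hinjχ (by simp only [Set.mem_Iic]; omega) (by simp only [Set.mem_Iic]; omega) hab
          omega
        · exact absurd hab.symm (hzt3 ζ _ (by omega) _ (by omega))
        · exact absurd hab (hzt3 ζ _ (by omega) _ (by omega))
        · omega
    · funext t
      unfold chi
      have ht : (t : ℕ) ≤ m := by omega
      split_ifs with h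
      · rw [hGf ζ _ (by omega), if_pos h, ev_of_le _ ht]
      · rw [hGg ζ _ (by omega), if_pos (by omega), ev_of_le _ (by omega)]
        congr 1
        apply Fin.ext
        simp only
        omega
  · intro ζ _ ζ' _ heq
    ext t
    have ht := t.2
    have h1 : fa (G ζ) (L1 - k + 1 + t) = fa (G ζ') (L1 - k + 1 + t) := by rw [heq]
    rw [hGf ζ _ (by omega), hGf ζ' _ (by omega), if_neg (by omega), if_neg (by omega)] at h1
    have e : L1 - k + 1 + (t : ℕ) - (L1 - k) - 1 = t := by omega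
    rw [e, hzt1 ζ _ ht, hzt1 ζ' _ ht] at h1
    rw [h1]
  · intro κ hκ
    rw [Finset.mem_filter, mem_PPk] at hκ
    obtain ⟨⟨hf, hg, hM⟩, hchi⟩ := hκ
    have hchi' : ∀ t ≤ m, ev χ t = if t ≤ L1 - k then fa κ t else ga κ (m - t) := by
      intro t ht
      rw [← hchi, ev_of_le _ ht]
      rfl
    have hnot : ∀ t < k, fa κ (L1 - k + 1 + t) ∉ Set.range χ := by
      rintro t ht ⟨s, hs⟩
      have hs' : (s : ℕ) ≤ m := by omega
      have e1 := hchi' s hs'
      rw [ev_of_le _ hs'] at e1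
      have e2 : χ ⟨s, by omega⟩ = χ s := rfl
      rw [e2, hs] at e1
      split_ifs at e1 with h
      · have := hf (by simp only [Set.mem_Iic]; omega) (by simp only [Set.mem_Iic]; omega) e1
        omega
      · have := (hM.disj _ (by omega) _ (by omega) e1).2
        omega
    refine ⟨⟨fun t => ⟨fa κ (L1 - k + 1 + t), hnot t t.2⟩, ?_⟩, Finset.mem_univ _, ?_⟩
    · intro t s hts
      simp only [Subtype.mk.injEq] at hts
      have ht := t.2
      have hs := s.2
      have := hf (by simp only [Set.mem_Iic]; omega) (by simp only [Set.mem_Iic]; omega) hts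
      apply Fin.ext
      omega
    · apply pair_ext
      · intro t ht
        rw [hGf _ t ht]
        split_ifs with h
        · rw [hchi' t (by omega), if_pos h]
        · rw [hzt1 _ _ (by omega)]
          show fa κ _ = fa κ _
          congr 1
          simp only
          omega
      · intro t ht
        rw [hGg _ t ht]
        split_ifs with h
        · rcases Nat.lt_or_ge t (L2 - k) with h' | h'
          · rw [hchi' _ (by omega), if_neg (by omega)]
            congr 1
            omega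
          · rw [hchi' _ (by omega), if_pos (by omega)]
            have := hM.eq 0 (by omega)
            rw [Nat.add_zero, Nat.add_zero] at this
            have e1 : m - t = L1 - k := by omega
            have e2 : t = L2 - k := by omega
            rw [e1, e2, this]
        · rw [hzt1 _ _ (by omega)]
          show fa κ _ = ga κ _
          have := hM.eq (t - (L2 - k)) (by omega)
          have e1 : L2 - k + (t - (L2 - k)) = t := by omega
          rw [e1] at this
          rw [← this]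
          congr 1
          simp only
          omega

end Pool.Agent.Lib.P267408
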