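import Pool.Agent.Lib.P267408.Basic

open Finset

namespace Pool.Agent.Lib.P267408

variable {n : ℕ}

/-- Values of feasible matrices. -/
def feas (ω : Gr n) : Set ℝ :=
  {s : ℝ | ∃ X : Matrix (Fin n) (Fin n) ℝ, X.PosSemidef ∧ X.trace = 1 ∧
    (∀ i j, i ≠ j → s(i, j) ∈ ω → X i j = 0) ∧ s = ∑ i, ∑ j, X i j}

/-- The theta number. -/
noncomputable def th (ω : Gr n) : ℝ := sSup (feas ω)

lemma psd_gram {X : Matrix (Fin n) (Fin n) ℝ} (h : X.PosSemidef) :
    ∃ (m : ℕ) (v : Fin m → Fin n → ℝ), ∀ i j, X i j = ∑ k, v k i * v k j := by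
  obtain ⟨m, v, hv⟩ := Matrix.posSemidef_iff_eq_sum_vecMulVec.mp h
  refine ⟨m, v, fun i j => ?_⟩
  rw [hv, Matrix.sum_apply]
  refine Finset.sum_congr rfl fun k _ => ?_
  rw [Matrix.vecMulVec_apply]
  simp

lemma dot_eq (X : Matrix (Fin n) (Fin n) ℝ) (x : Fin n → ℝ) :
    dotProduct (star x) (Matrix.mulVec X x) = ∑ i, ∑ j, X i j * (x i * x j) := by
  unfold dotProduct Matrix.mulVec dotProduct
  refine Finset.sum_congr rfl fun i _ => ?_
  rw [Finset.mul_sum]
  refine Finset.sum_congr rfl fun j _ => ?_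
  simp only [Pi.star_apply, star_trivial]
  ring

lemma psd_of_quad {X : Matrix (Fin n) (Fin n) ℝ} (hs : ∀ i j, X i j = X j i)
    (h : ∀ x : Fin n → ℝ, 0 ≤ ∑ i, ∑ j, X i j * (x i * x j)) : X.PosSemidef := by
  rw [Matrix.posSemidef_iff_dotProduct_mulVec]
  constructor
  · ext i j
    rw [Matrix.conjTranspose_apply]
    simp [hs i j]
  · intro x
    rw [dot_eq]
    exact h x

lemma psd_quad {X : Matrix (Fin n) (Fin n) ℝ} (h : X.PosSemidef) (x : Fin n → ℝ) :
    0 ≤ ∑ i, ∑ j, X i j * (x i * x j) := by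
  rw [← dot_eq]
  exact h.dotProduct_mulVec_nonneg x

lemma psd_symm {X : Matrix (Fin n) (Fin n) ℝ} (h : X.PosSemidef) (i j : Fin n) :
    X i j = X j i := by
  have := h.isHermitian.apply i j
  simpa using this.symm

lemma sum_le_trace {X : Matrix (Fin n) (Fin n) ℝ} (h : X.PosSemidef) :
    ∑ i, ∑ j, X i j ≤ n * X.trace := by
  obtain ⟨m, v, hv⟩ := psd_gram h
  have h1 : ∑ i, ∑ j, X i j = ∑ k, (∑ i, v k i) ^ 2 := by
    simp_rw [hv, sq, Finset.sum_mul_sum]
    rw [Finset.sum_comm]
    conv_lhs =>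
      enter [2, i]
      rw [Finset.sum_comm]
    rw [Finset.sum_comm]
    refine Finset.sum_congr rfl fun k _ => ?_
    rw [Finset.sum_comm]
  have h2 : X.trace = ∑ k, ∑ i, (v k i) ^ 2 := by
    unfold Matrix.trace
    simp only [Matrix.diag_apply]
    simp_rw [hv]
    rw [Finset.sum_comm]
    exact Finset.sum_congr rfl fun k _ => Finset.sum_congr rfl fun i _ => by ring
  rw [h1, h2, Finset.mul_sum]
  refine Finset.sum_le_sum fun k _ => ?_
  have := sq_sum_le_card_mul_sum_sq (s := (Finset.univ : Finset (Fin n))) (f := v k)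
  simpa using this

lemma feas_bdd (ω : Gr n) : BddAbove (feas ω) := by
  refine ⟨n, ?_⟩
  rintro s ⟨X, h1, h2, -, rfl⟩
  have := sum_le_trace h1
  rw [h2, mul_one] at this
  exact this

lemma one_mem_feas (hn : 0 < n) (ω : Gr n) : (1 : ℝ) ∈ feas ω := by
  have hn' : (0 : ℝ) < n := by exact_mod_cast hn
  refine ⟨(1 / (n : ℝ)) • (1 : Matrix (Fin n) (Fin n) ℝ), ?_, ?_, ?_, ?_⟩
  · exact Matrix.PosSemidef.one.smul (by positivity)
  · rw [Matrix.trace_smul, Matrix.trace_one, Fintype.card_fin, smul_eq_mul]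
    field_simp
  · intro i j hij _
    simp [Matrix.one_apply_ne hij]
  · have : ∀ i : Fin n, ∑ j, ((1 / (n : ℝ)) • (1 : Matrix (Fin n) (Fin n) ℝ)) i j = 1 / n := by
      intro i
      rw [Finset.sum_eq_single i]
      · simp
      · intro j _ hj
        simp [Matrix.one_apply_ne hj.symm]
      · intro h; exact absurd (Finset.mem_univ _) h
    rw [Finset.sum_congr rfl fun i _ => this i, Finset.sum_const, Finset.card_univ,
      Fintype.card_fin, nsmul_eq_mul]
    field_simp

lemma one_le_th (hn : 0 < n) (ω : Gr n) : 1 ≤ th ω :=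
  le_csSup (feas_bdd ω) (one_mem_feas hn ω)

/-! ### Duality -/

/-- Quadratic form. -/
noncomputable def qf (M : Fin n × Fin n → ℝ) (x : Fin n → ℝ) : ℝ := ∑ p, M p * (x p.1 * x p.2)

lemma qf_add (M N : Fin n × Fin n → ℝ) (x : Fin n → ℝ) : qf (M + N) x = qf M x + qf N x := by
  unfold qf
  rw [← Finset.sum_add_distrib]
  exact Finset.sum_congr rfl fun p _ => by rw [Pi.add_apply]; ring

lemma qf_sub (M N : Fin n × Fin n → ℝ) (x : Fin n → ℝ) : qf (M - N) x = qf M x - qf N x := by
  unfold qf
  rw [← Finset.sum_sub_distrib]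
  exact Finset.sum_congr rfl fun p _ => by rw [Pi.sub_apply]; ring

lemma qf_smul (c : ℝ) (M : Fin n × Fin n → ℝ) (x : Fin n → ℝ) : qf (c • M) x = c * qf M x := by
  unfold qf
  rw [Finset.mul_sum]
  exact Finset.sum_congr rfl fun p _ => by rw [Pi.smul_apply, smul_eq_mul]; ring

/-- Identity. -/
def idM (n : ℕ) : Fin n × Fin n → ℝ := fun p => if p.1 = p.2 then 1 else 0

lemma qf_id (x : Fin n → ℝ) : qf (idM n) x = ∑ i, x i ^ 2 := by
  unfold qf idM
  rw [Fintype.sum_prod_type]
  refine Finset.sum_congr rfl fun i _ => ?_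
  rw [Finset.sum_eq_single i]
  · simp; ring
  · intro j _ hj
    simp [hj.symm]
  · intro h; exact absurd (Finset.mem_univ _) h

/-- Supported on the edges. -/
def supp (ω : Gr n) (A : Fin n × Fin n → ℝ) : Prop :=
  ∀ p : Fin n × Fin n, ¬ (p.1 ≠ p.2 ∧ s(p.1, p.2) ∈ ω) → A p = 0

/-- The open cone. -/
def UU (ω : Gr n) : Set (Fin n × Fin n → ℝ) :=
  {M | ∃ A, supp ω A ∧ ∃ c : ℝ, 0 < c ∧ ∀ x : Fin n → ℝ, c * ∑ i, x i ^ 2 ≤ qf (M - A) x}

lemma UU_convex (ω : Gr n) : Convex ℝ (UU ω) := by
  rintro M ⟨A, hA, c, hc, h⟩ M' ⟨A', hA', c', hc', h'⟩ a b ha hb hab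
  refine ⟨a • A + b • A', ?_, a * c + b * c', ?_, ?_⟩
  · intro p hp
    rw [Pi.add_apply, Pi.smul_apply, Pi.smul_apply, hA p hp, hA' p hp]
    simp
  · rcases ha.lt_or_eq with ha' | ha'
    · have : 0 ≤ b * c' := by positivity
      have : 0 < a * c := by positivity
      linarith
    · rw [← ha', zero_add] at hab
      rw [← ha', hab]
      simpa using hc'
  · intro x
    have e : (a • M + b • M') - (a • A + b • A') = a • (M - A) + b • (M' - A') := by
      rw [smul_sub, smul_sub]; abel
    rw [e, qf_add, qf_smul, qf_smul]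
    have h1 := mul_le_mul_of_nonneg_left (h x) ha
    have h2 := mul_le_mul_of_nonneg_left (h' x) hb
    linarith

lemma qf_small {M : Fin n × Fin n → ℝ} {r : ℝ} (hr : 0 ≤ r) (h : ∀ p, |M p| ≤ r) (x : Fin n → ℝ) :
    -(r * (n * ∑ i, x i ^ 2)) ≤ qf M x := by
  have h1 : ∀ p : Fin n × Fin n, -(r * (|x p.1| * |x p.2|)) ≤ M p * (x p.1 * x p.2) := by
    intro p
    have h2 : |M p * (x p.1 * x p.2)| ≤ r * (|x p.1| * |x p.2|) := by
      rw [abs_mul, abs_mul]
      gcongr
      exact h p
    have := neg_abs_le (M p * (x p.1 * x p.2))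
    linarith
  have h2 : ∑ p : Fin n × Fin n, (|x p.1| * |x p.2|) = (∑ i, |x i|) ^ 2 := by
    rw [sq, Finset.sum_mul_sum, Fintype.sum_prod_type]
  have h3 : (∑ i, |x i|) ^ 2 ≤ n * ∑ i, x i ^ 2 := by
    have := sq_sum_le_card_mul_sum_sq (s := (Finset.univ : Finset (Fin n))) (f := fun i => |x i|)
    simpa using this
  calc -(r * (n * ∑ i, x i ^ 2)) ≤ -(r * ∑ p : Fin n × Fin n, (|x p.1| * |x p.2|)) := by
        rw [h2]
        have := mul_le_mul_of_nonneg_left h3 hr
        linarith
    _ = ∑ p : Fin n × Fin n, -(r * (|x p.1| * |x p.2|)) := by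
        rw [Finset.mul_sum, ← Finset.sum_neg_distrib]
    _ ≤ qf M x := Finset.sum_le_sum fun p _ => h1 p

lemma UU_open (hn : 0 < n) (ω : Gr n) : IsOpen (UU ω) := by
  have hn' : (0 : ℝ) < n := by exact_mod_cast hn
  rw [Metric.isOpen_iff]
  rintro M ⟨A, hA, c, hc, h⟩
  refine ⟨c / (2 * n), by positivity, ?_⟩
  intro M' hM'
  rw [Metric.mem_ball, dist_eq_norm] at hM'
  refine ⟨A, hA, c / 2, by positivity, fun x => ?_⟩
  have h1 : ∀ p, |(M' - M) p| ≤ c / (2 * n) := fun p =>
    (norm_le_pi_norm (M' - M) p).trans hM'.le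
  have h2 := qf_small (by positivity) h1 x
  have e : M' - A = (M' - M) + (M - A) := by abel
  rw [e, qf_add]
  have h3 := h x
  have h4 : c / (2 * n) * (n * ∑ i, x i ^ 2) = c / 2 * ∑ i, x i ^ 2 := by
    field_simp
  rw [h4] at h2
  linarith

/-- Duality: for `t` above the theta number there is a dual certificate. -/
theorem dual_cert (hn : 0 < n) (ω : Gr n) {t : ℝ} (ht : th ω < t) :
    ∃ A, supp ω A ∧ ∀ x : Fin n → ℝ, 0 ≤ qf (t • idM n - (fun _ => (1 : ℝ)) - A) x := by
  classical
  by_cases hmem : (t • idM n - (fun _ => (1 : ℝ))) ∈ UU ω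
  · obtain ⟨A, hA, c, hc, h⟩ := hmem
    refine ⟨A, hA, fun x => le_trans ?_ (h x)⟩
    have : 0 ≤ ∑ i, x i ^ 2 := Finset.sum_nonneg fun i _ => sq_nonneg _
    positivity
  exfalso
  obtain ⟨f, hf⟩ := geometric_hahn_banach_point_open (UU_convex ω) (UU_open hn ω) hmem
  set f0 := f (t • idM n - (fun _ => (1 : ℝ))) with hf0
  have hI : idM n ∈ UU ω := by
    refine ⟨0, fun p _ => rfl, 1, one_pos, fun x => ?_⟩
    rw [sub_zero, qf_id, one_mul]
  have hsmul : ∀ M ∈ UU ω, ∀ l : ℝ, 0 < l → l • M ∈ UU ω := by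
    rintro M ⟨A, hA, c, hc, h⟩ l hl
    refine ⟨l • A, fun p hp => by rw [Pi.smul_apply, hA p hp, smul_zero], l * c, by positivity,
      fun x => ?_⟩
    rw [← smul_sub, qf_smul, mul_assoc]
    exact mul_le_mul_of_nonneg_left (h x) hl.le
  have hlt : ∀ M ∈ UU ω, ∀ l : ℝ, 0 < l → f0 < l * f M := by
    intro M hM l hl
    have := hf _ (hsmul M hM l hl)
    rwa [map_smul, smul_eq_mul] at this
  have hpos : ∀ M ∈ UU ω, 0 ≤ f M := by
    intro M hM
    by_contra hneg
    push Not at hneg
    have h1 := hlt M hM ((|f0| + 1) / (-(f M))) (by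
      apply div_pos
      · positivity
      · linarith)
    have h2 : (|f0| + 1) / (-(f M)) * f M = -(|f0| + 1) := by
      have : f M ≠ 0 := hneg.ne
      field_simp
    rw [h2] at h1
    have := neg_abs_le f0
    linarith
  have hf0neg : f0 ≤ 0 := by
    by_contra hcon
    push Not at hcon
    have hfI := hpos _ hI
    have h1 := hlt _ hI (f0 / (f (idM n) + 1)) (by positivity)
    have h2 : f0 / (f (idM n) + 1) * f (idM n) ≤ f0 := by
      rw [div_mul_eq_mul_div, div_le_iff₀ (by positivity)]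
      nlinarith
    linarith
  have hpsd : ∀ M : Fin n × Fin n → ℝ, (∀ x, 0 ≤ qf M x) → 0 ≤ f M := by
    intro M hM
    by_contra hneg
    push Not at hneg
    have h1 : ∀ c : ℝ, 0 < c → 0 ≤ f M + c * f (idM n) := by
      intro c hc
      have h2 : M + c • idM n ∈ UU ω := by
        refine ⟨0, fun p _ => rfl, c, hc, fun x => ?_⟩
        rw [sub_zero, qf_add, qf_smul, qf_id]
        have := hM x
        linarith
      have := hpos _ h2
      rwa [map_add, map_smul, smul_eq_mul] at this
    have hfI := hpos _ hI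
    have h3 := h1 ((-(f M)) / (2 * (f (idM n) + 1))) (by
      apply div_pos
      · linarith
      · positivity)
    have h4 : (-(f M)) / (2 * (f (idM n) + 1)) * f (idM n) ≤ -(f M) / 2 := by
      rw [div_mul_eq_mul_div, div_le_iff₀ (by positivity)]
      nlinarith
    linarith
  have hsupp : ∀ A, supp ω A → f A = 0 := by
    intro A hA
    have h1 : ∀ c : ℝ, 0 ≤ f (idM n) + c * f A := by
      intro c
      have h2 : idM n + c • A ∈ UU ω := by
        refine ⟨c • A, fun p hp => by rw [Pi.smul_apply, hA p hp, smul_zero], 1, one_pos,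
          fun x => ?_⟩
        rw [add_sub_cancel_right, qf_id, one_mul]
      have := hpos _ h2
      rwa [map_add, map_smul, smul_eq_mul] at this
    by_contra hne
    have h3 := h1 (-(f (idM n) + 1) / f A)
    rw [div_mul_cancel₀ _ hne] at h3
    linarith
  -- the matrix
  set Y : Fin n × Fin n → ℝ := fun p => f (fun q => if p = q then 1 else 0) with hY
  have hfY : ∀ M : Fin n × Fin n → ℝ, f M = ∑ p, M p * Y p := by
    intro M
    have := (f : (Fin n × Fin n → ℝ) →ₗ[ℝ] ℝ).pi_apply_eq_sum_univ M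
    simpa using this
  have hquad : ∀ x : Fin n → ℝ, 0 ≤ ∑ p : Fin n × Fin n, (x p.1 * x p.2) * Y p := by
    intro x
    rw [← hfY (fun p => x p.1 * x p.2)]
    apply hpsd
    intro y
    have : qf (fun p : Fin n × Fin n => x p.1 * x p.2) y = (∑ i, x i * y i) ^ 2 := by
      unfold qf
      rw [sq, Finset.sum_mul_sum, Fintype.sum_prod_type]
      exact Finset.sum_congr rfl fun i _ => Finset.sum_congr rfl fun j _ => by ring
    rw [this]
    exact sq_nonneg _
  have hfIpos : 0 < f (idM n) := by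
    rcases (hpos _ hI).lt_or_eq with h | h
    · exact h
    exfalso
    have h1 : 0 ≤ f ((n : ℝ) • idM n - fun _ => (1 : ℝ)) := by
      apply hpsd
      intro x
      rw [qf_sub, qf_smul, qf_id]
      have h2 : qf (fun _ : Fin n × Fin n => (1 : ℝ)) x = (∑ i, x i) ^ 2 := by
        unfold qf
        rw [sq, Finset.sum_mul_sum, Fintype.sum_prod_type]
        exact Finset.sum_congr rfl fun i _ => Finset.sum_congr rfl fun j _ => by ring
      rw [h2]
      have := sq_sum_le_card_mul_sum_sq (s := (Finset.univ : Finset (Fin n))) (f := x)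
      simp only [Finset.card_univ, Fintype.card_fin] at this
      linarith
    rw [map_sub, map_smul, smul_eq_mul, ← h, mul_zero, zero_sub] at h1
    have h3 := hf _ hI
    have h4 : f0 = -f (fun _ => (1 : ℝ)) := by
      rw [hf0, map_sub, map_smul, smul_eq_mul, ← h, mul_zero, zero_sub]
    linarith
  -- feasibility
  have hle : t ≤ th ω := by
    set X : Matrix (Fin n) (Fin n) ℝ :=
      Matrix.of fun i j => (Y (i, j) + Y (j, i)) / (2 * f (idM n)) with hX
    have hXs : ∀ i j, X i j = X j i := by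
      intro i j
      simp only [hX, Matrix.of_apply]
      rw [add_comm]
    have hsumY : ∀ x : Fin n → ℝ, ∑ i, ∑ j, X i j * (x i * x j) =
        (∑ p : Fin n × Fin n, (x p.1 * x p.2) * Y p) / f (idM n) := by
      intro x
      have h1 : ∑ i, ∑ j, X i j * (x i * x j) =
          (∑ i, ∑ j, (x i * x j) * Y (i, j) + ∑ i, ∑ j, (x i * x j) * Y (j, i)) /
            (2 * f (idM n)) := by
        rw [← Finset.sum_add_distrib, Finset.sum_div]
        refine Finset.sum_congr rfl fun i _ => ?_
        rw [← Finset.sum_add_distrib, Finset.sum_div]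
        refine Finset.sum_congr rfl fun j _ => ?_
        simp only [hX, Matrix.of_apply]
        ring
      have h2 : ∑ i, ∑ j, (x i * x j) * Y (j, i) = ∑ i, ∑ j, (x i * x j) * Y (i, j) := by
        rw [Finset.sum_comm]
        exact Finset.sum_congr rfl fun i _ => Finset.sum_congr rfl fun j _ => by ring
      rw [h1, h2, Fintype.sum_prod_type]
      field_simp
      ring
    have hval : t ≤ ∑ i, ∑ j, X i j := by
      have h1 := hsumY (fun _ => 1)
      simp only [mul_one, one_mul] at h1
      rw [h1, le_div_iff₀ hfIpos]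
      have h2 := hfY (fun _ => (1 : ℝ))
      simp only [one_mul] at h2
      rw [← h2]
      have h3 : f0 = t * f (idM n) - f (fun _ => (1 : ℝ)) := by
        rw [hf0, map_sub, map_smul, smul_eq_mul]
      linarith
    refine hval.trans (le_csSup (feas_bdd ω) ⟨X, ?_, ?_, ?_, rfl⟩)
    · apply psd_of_quad hXs
      intro x
      rw [hsumY x]
      exact div_nonneg (hquad x) hfIpos.le
    · have h1 : f (idM n) = ∑ i, Y (i, i) := by
        rw [hfY, Fintype.sum_prod_type]
        refine Finset.sum_congr rfl fun i _ => ?_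
        rw [Finset.sum_eq_single i]
        · simp [idM]
        · intro j _ hj
          simp [idM, hj.symm]
        · intro h; exact absurd (Finset.mem_univ _) h
      unfold Matrix.trace
      simp only [Matrix.diag_apply, hX, Matrix.of_apply]
      rw [← Finset.sum_div, Finset.sum_add_distrib, ← h1]
      field_simp
      norm_num
    · intro i j hij hω
      have hYz : ∀ a b : Fin n, a ≠ b → s(a, b) ∈ ω → Y (a, b) = 0 := by
        intro a b hab hω'
        apply hsupp
        intro p hp
        by_cases h : (a, b) = p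
        · exfalso
          apply hp
          rw [← h]
          exact ⟨hab, hω'⟩
        · simp [h]
      simp only [hX, Matrix.of_apply]
      rw [hYz i j hij hω, hYz j i hij.symm (by rw [Sym2.eq_swap]; exact hω)]
      simp
  linarith

/-- Lovász's inequality. -/
theorem th_mul_compl (hn : 0 < n) (ω : Gr n) : (n : ℝ) ≤ th ω * th ωᶜ := by
  have hn' : (0 : ℝ) < n := by exact_mod_cast hn
  have h1 := one_le_th hn ω
  have key : ∀ t, th ω < t → (n : ℝ) ≤ t * th ωᶜ := by
    intro t ht
    have htpos : 0 < t := by linarith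
    obtain ⟨A, hA, hpsd⟩ := dual_cert hn ω ht
    set Z : Matrix (Fin n) (Fin n) ℝ := Matrix.of fun i j =>
      ((if i = j then t else 0) - (A (i, j) + A (j, i)) / 2) / (n * t) with hZ
    have hAd : ∀ i, A (i, i) = 0 := fun i => hA (i, i) (fun h => h.1 rfl)
    have hquad : ∀ x : Fin n → ℝ, ∑ i, ∑ j, Z i j * (x i * x j) =
        (qf (t • idM n - (fun _ => (1 : ℝ)) - A) x + (∑ i, x i) ^ 2) / (n * t) := by
      intro x
      have h2 : qf (fun _ : Fin n × Fin n => (1 : ℝ)) x = (∑ i, x i) ^ 2 := by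
        unfold qf
        rw [sq, Finset.sum_mul_sum, Fintype.sum_prod_type]
        exact Finset.sum_congr rfl fun i _ => Finset.sum_congr rfl fun j _ => by ring
      rw [qf_sub, qf_sub, h2]
      have h3 : qf (t • idM n) x - (∑ i, x i) ^ 2 - qf A x + (∑ i, x i) ^ 2 =
          qf (t • idM n) x - qf A x := by ring
      rw [h3]
      unfold qf
      rw [Fintype.sum_prod_type, Fintype.sum_prod_type]
      have h4 : ∑ i, ∑ j, A (i, j) * (x i * x j) =
          ∑ i, ∑ j, ((A (i, j) + A (j, i)) / 2) * (x i * x j) := by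
        have h5 : ∑ i, ∑ j, A (j, i) * (x i * x j) = ∑ i, ∑ j, A (i, j) * (x i * x j) := by
          rw [Finset.sum_comm]
          exact Finset.sum_congr rfl fun i _ => Finset.sum_congr rfl fun j _ => by ring
        have h6 : ∑ i, ∑ j, ((A (i, j) + A (j, i)) / 2) * (x i * x j) =
            (∑ i, ∑ j, A (i, j) * (x i * x j) + ∑ i, ∑ j, A (j, i) * (x i * x j)) / 2 := by
          rw [← Finset.sum_add_distrib, Finset.sum_div]
          refine Finset.sum_congr rfl fun i _ => ?_
          rw [← Finset.sum_add_distrib, Finset.sum_div]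
          refine Finset.sum_congr rfl fun j _ => ?_
          ring
        rw [h6, h5]
        ring
      simp only
      rw [h4, ← Finset.sum_sub_distrib, Finset.sum_div]
      refine Finset.sum_congr rfl fun i _ => ?_
      rw [← Finset.sum_sub_distrib, Finset.sum_div]
      refine Finset.sum_congr rfl fun j _ => ?_
      simp only [hZ, Matrix.of_apply, idM, Pi.smul_apply, smul_eq_mul]
      by_cases h : i = j
      · simp only [h, if_true]; ring
      · simp only [h, if_false]; ring
    have hmem : (∑ i, ∑ j, Z i j) ∈ feas ωᶜ := by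
      refine ⟨Z, ?_, ?_, ?_, rfl⟩
      · apply psd_of_quad
        · intro i j
          simp only [hZ, Matrix.of_apply]
          rw [add_comm (A (i, j))]
          by_cases h : i = j
          · rw [if_pos h, if_pos h.symm]
          · rw [if_neg h, if_neg (fun h' => h h'.symm)]
        · intro x
          rw [hquad x]
          have := hpsd x
          positivity
      · unfold Matrix.trace
        simp only [Matrix.diag_apply, hZ, Matrix.of_apply, hAd]
        simp
        field_simp
      · intro i j hij hω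
        have hω' : s(i, j) ∉ ω := by
          rw [Finset.mem_compl] at hω; exact hω
        have hω'' : s(j, i) ∉ ω := by
          rw [Sym2.eq_swap]; exact hω'
        simp only [hZ, Matrix.of_apply]
        rw [if_neg hij, hA (i, j) (fun h => hω' h.2), hA (j, i) (fun h => hω'' h.2)]
        simp
    have hval : (n : ℝ) / t ≤ ∑ i, ∑ j, Z i j := by
      have h2 := hquad (fun _ => 1)
      simp only [mul_one] at h2
      rw [h2]
      have h3 := hpsd (fun _ => 1)
      simp only [Finset.sum_const, Finset.card_univ, Fintype.card_fin, nsmul_eq_mul, mul_one]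
      rw [div_le_div_iff₀ htpos (by positivity)]
      have h4 : (n : ℝ) * (n * t) = (n : ℝ) ^ 2 * t := by ring
      rw [h4]
      gcongr
      linarith
    have h2 := hval.trans (le_csSup (feas_bdd ωᶜ) hmem)
    rw [div_le_iff₀ htpos] at h2
    show (n : ℝ) ≤ t * th ωᶜ
    unfold th
    linarith
  have hc := one_le_th hn ωᶜ
  by_contra hcon
  push Not at hcon
  have hlt : th ω < (n : ℝ) / th ωᶜ := by
    rw [lt_div_iff₀ (by linarith)]
    exact hcon
  obtain ⟨t, ht1, ht2⟩ := exists_between hlt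
  have := key t ht1
  rw [lt_div_iff₀ (by linarith)] at ht2
  linarith

/-- The lower bound for the average. -/
theorem avg_th_lower (hn : 0 < n) : Real.sqrt n ≤ avg (fun ω : Gr n => th ω) := by
  classical
  have h1 : ∀ ω : Gr n, 2 * Real.sqrt n ≤ th ω + th ωᶜ := by
    intro ω
    have h2 := th_mul_compl hn ω
    have h3 := one_le_th hn ω
    have h4 := one_le_th hn ωᶜ
    have h5 : Real.sqrt n ≤ (th ω + th ωᶜ) / 2 := by
      apply Real.sqrt_le_iff.mpr
      constructor
      · linarith
      · nlinarith [sq_nonneg (th ω - th ωᶜ)]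
    linarith
  have h2 : avg (fun ω : Gr n => th ωᶜ) = avg (fun ω : Gr n => th ω) := by
    unfold avg
    congr 1
    exact Finset.sum_nbij' (fun ω => ωᶜ) (fun ω => ωᶜ) (fun _ _ => Finset.mem_univ _)
      (fun _ _ => Finset.mem_univ _) (fun ω _ => compl_compl ω) (fun ω _ => compl_compl ω)
      (fun ω _ => rfl)
  have h3 := avg_mono h1
  rw [avg_const, avg_add, h2] at h3
  linarith

end Pool.Agent.Lib.P267408
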