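import Pool.Agent.Lib.P267408.MaxE
import Pool.Agent.Lib.P267408.Lovasz

open Finset

namespace Pool.Agent.Lib.P267408

/-- Sign of `k` in the sign vector encoded by `ξ`. -/
def sgv {ι : Type*} [DecidableEq ι] (ξ : Finset ι) (k : ι) : ℝ := if k ∈ ξ then 1 else -1

section rad

variable {ι : Type*} [DecidableEq ι]

lemma rad_split {s : Finset ι} {e : ι} (hne : e ∉ s) (v : ι → ℝ) {ξ : Finset ι} (hξ : ξ ⊆ s) :
    ∑ k ∈ insert e s, sgv ξ k * v k = -v e + ∑ k ∈ s, sgv ξ k * v k ∧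
    ∑ k ∈ insert e s, sgv (insert e ξ) k * v k = v e + ∑ k ∈ s, sgv ξ k * v k := by
  rw [Finset.sum_insert hne, Finset.sum_insert hne]
  have h1 : e ∉ ξ := fun h => hne (hξ h)
  constructor
  · congr 1
    unfold sgv
    rw [if_neg h1]
    ring
  · congr 1
    · unfold sgv
      rw [if_pos (Finset.mem_insert_self _ _)]
      ring
    · refine Finset.sum_congr rfl fun k hk => ?_
      have hke : k ≠ e := fun h => hne (h ▸ hk)
      unfold sgv
      congr 1
      simp [Finset.mem_insert, hke]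

lemma rad_two (s : Finset ι) (v w : ι → ℝ) :
    EB (1 / 2) s (fun ξ => (∑ k ∈ s, sgv ξ k * v k) * (∑ k ∈ s, sgv ξ k * w k)) =
      ∑ k ∈ s, v k * w k := by
  induction s using Finset.induction_on with
  | empty =>
    simp only [Finset.sum_empty, mul_zero]
    exact EB_const _ _ _
  | insert e s hne ih =>
    rw [EB_insert _ _ hne, Finset.sum_insert hne, ← ih]
    have h1 : ∀ ξ ⊆ s, (1 - 1 / 2 : ℝ) * ((∑ k ∈ insert e s, sgv ξ k * v k) *
        (∑ k ∈ insert e s, sgv ξ k * w k)) + 1 / 2 * ((∑ k ∈ insert e s, sgv (insert e ξ) k * v k) *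
        (∑ k ∈ insert e s, sgv (insert e ξ) k * w k)) = v e * w e +
        (∑ k ∈ s, sgv ξ k * v k) * (∑ k ∈ s, sgv ξ k * w k) := by
      intro ξ hξ
      rw [(rad_split hne v hξ).1, (rad_split hne w hξ).1, (rad_split hne v hξ).2,
        (rad_split hne w hξ).2]
      ring
    rw [EB_congr s h1, EB_add, EB_const]

lemma rad_four (s : Finset ι) (v : ι → ℝ) :
    EB (1 / 2) s (fun ξ => (∑ k ∈ s, sgv ξ k * v k) ^ 4) ≤ 3 * (∑ k ∈ s, v k ^ 2) ^ 2 := by
  induction s using Finset.induction_on with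
  | empty =>
    simp only [Finset.sum_empty]
    rw [EB_const]
    norm_num
  | insert e s hne ih =>
    rw [EB_insert _ _ hne, Finset.sum_insert hne]
    have h1 : ∀ ξ ⊆ s, (1 - 1 / 2 : ℝ) * ((∑ k ∈ insert e s, sgv ξ k * v k) ^ 4) +
        1 / 2 * ((∑ k ∈ insert e s, sgv (insert e ξ) k * v k) ^ 4) =
        (v e ^ 4 + (6 * v e ^ 2) * ((∑ k ∈ s, sgv ξ k * v k) * (∑ k ∈ s, sgv ξ k * v k))) +
        (∑ k ∈ s, sgv ξ k * v k) ^ 4 := by
      intro ξ hξ
      rw [(rad_split hne v hξ).1, (rad_split hne v hξ).2]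
      ring
    rw [EB_congr s h1, EB_add, EB_add, EB_const, EB_mul_left, rad_two]
    have h2 : ∑ k ∈ s, v k * v k = ∑ k ∈ s, v k ^ 2 :=
      Finset.sum_congr rfl fun k _ => by ring
    rw [h2]
    have h3 : 0 ≤ ∑ k ∈ s, v k ^ 2 := Finset.sum_nonneg fun k _ => sq_nonneg _
    nlinarith [sq_nonneg (v e), mul_nonneg (sq_nonneg (v e)) h3, sq_nonneg (v e ^ 2)]

end rad

/-- Truncation at level `5`. -/
noncomputable def clp (x : ℝ) : ℝ := max (-5) (min 5 x)

lemma clp_abs (x : ℝ) : |clp x| ≤ 5 := by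
  unfold clp
  rw [abs_le]
  constructor
  · exact le_max_left _ _
  · exact max_le (by norm_num) (min_le_left _ _)

lemma clp_sq (x : ℝ) : clp x ^ 2 ≤ x ^ 2 := by
  unfold clp
  rcases le_total 5 x with h | h
  · rw [min_eq_left h, max_eq_right (by norm_num)]
    nlinarith
  · rw [min_eq_right h]
    rcases le_total (-5) x with h' | h'
    · rw [max_eq_right h']
    · rw [max_eq_left h']
      nlinarith

lemma clp_diff (x : ℝ) : (x - clp x) ^ 2 ≤ x ^ 4 / 25 := by
  unfold clp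
  rcases le_total 5 x with h | h
  · rw [min_eq_left h, max_eq_right (by norm_num)]
    have h1 : 0 ≤ x - 5 := by linarith
    have h2 : x - 5 ≤ x ^ 2 / 5 := by nlinarith
    have h3 : (x - 5) ^ 2 ≤ (x ^ 2 / 5) ^ 2 := by gcongr
    calc (x - 5) ^ 2 ≤ (x ^ 2 / 5) ^ 2 := h3
      _ = x ^ 4 / 25 := by ring
  · rw [min_eq_right h]
    rcases le_total (-5) x with h' | h'
    · rw [max_eq_right h', sub_self, zero_pow (by norm_num)]
      positivity
    · rw [max_eq_left h']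
      have h1 : 0 ≤ -(x + 5) := by linarith
      have h2 : -(x + 5) ≤ x ^ 2 / 5 := by nlinarith
      have h3 : (-(x + 5)) ^ 2 ≤ (x ^ 2 / 5) ^ 2 := by gcongr
      calc (x - -5) ^ 2 = (-(x + 5)) ^ 2 := by ring
        _ ≤ (x ^ 2 / 5) ^ 2 := h3
        _ = x ^ 4 / 25 := by ring

variable {n : ℕ}

/-- Grothendieck-type bound with constant `K`. -/
def GP (N : Fin n → Fin n → ℝ) (K : ℝ) : Prop :=
  ∀ (ι : Type) (s : Finset ι) (w : ι → ℝ) (a b : Fin n → ι → ℝ) (α β : ℝ), 0 < α → 0 < β →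
    (∀ k ∈ s, 0 ≤ w k) → (∀ i, ∑ k ∈ s, w k * a i k ^ 2 ≤ α ^ 2) →
    (∀ j, ∑ k ∈ s, w k * b j k ^ 2 ≤ β ^ 2) →
    ∑ i, ∑ j, N i j * ∑ k ∈ s, w k * (a i k * b j k) ≤ α * β * K

lemma GP_base (N : Fin n → Fin n → ℝ) : GP N (∑ i, ∑ j, |N i j|) := by
  intro ι s w a b α β hα hβ hw ha hb
  rw [Finset.mul_sum]
  refine Finset.sum_le_sum fun i _ => ?_
  rw [Finset.mul_sum]
  refine Finset.sum_le_sum fun j _ => ?_
  have h1 : |∑ k ∈ s, w k * (a i k * b j k)| ≤ α * β := by
    apply abs_le_of_sq_le_sq _ (by positivity)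
    have h2 := Finset.sum_mul_sq_le_sq_mul_sq s (fun k => Real.sqrt (w k) * a i k)
      (fun k => Real.sqrt (w k) * b j k)
    have e1 : ∑ k ∈ s, Real.sqrt (w k) * a i k * (Real.sqrt (w k) * b j k) =
        ∑ k ∈ s, w k * (a i k * b j k) := by
      refine Finset.sum_congr rfl fun k hk => ?_
      calc _ = (Real.sqrt (w k) * Real.sqrt (w k)) * (a i k * b j k) := by ring
        _ = _ := by rw [Real.mul_self_sqrt (hw k hk)]
    have e2 : ∀ c : ι → ℝ, ∑ k ∈ s, (Real.sqrt (w k) * c k) ^ 2 = ∑ k ∈ s, w k * c k ^ 2 := by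
      intro c
      refine Finset.sum_congr rfl fun k hk => ?_
      rw [mul_pow, Real.sq_sqrt (hw k hk)]
    rw [e1, e2, e2] at h2
    have h3 : 0 ≤ ∑ k ∈ s, w k * b j k ^ 2 :=
      Finset.sum_nonneg fun k hk => mul_nonneg (hw k hk) (sq_nonneg _)
    calc _ ≤ _ := h2
      _ ≤ α ^ 2 * β ^ 2 := mul_le_mul (ha i) (hb j) h3 (by positivity)
      _ = (α * β) ^ 2 := by ring
  calc N i j * ∑ k ∈ s, w k * (a i k * b j k) ≤ |N i j * ∑ k ∈ s, w k * (a i k * b j k)| :=
        le_abs_self _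
    _ = |N i j| * |∑ k ∈ s, w k * (a i k * b j k)| := abs_mul _ _
    _ ≤ |N i j| * (α * β) := by gcongr
    _ = _ := by ring

lemma GP_step {N : Fin n → Fin n → ℝ} {T K : ℝ}
    (hT : ∀ x y : Fin n → ℝ, (∀ i, |x i| ≤ 1) → (∀ j, |y j| ≤ 1) →
      ∑ i, ∑ j, N i j * (x i * y j) ≤ T) (hK : GP N K) : GP N (25 * T + 7 / 10 * K) := by
  classical
  intro ι s w a b α β hα hβ hw ha hb
  set p : Finset ι → ℝ := fun ξ => (1 / 2 : ℝ) ^ ξ.card * (1 - 1 / 2) ^ (s.card - ξ.card) with hp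
  have hp0 : ∀ ξ ∈ s.powerset, 0 ≤ p ξ := fun ξ _ => by
    simp only [hp]; norm_num
  have hEB : ∀ F : Finset ι → ℝ, EB (1 / 2) s F = ∑ ξ ∈ s.powerset, p ξ * F ξ := fun F => rfl
  set A : Fin n → ι → ℝ := fun i k => Real.sqrt (w k) * a i k / α with hA
  set Bv : Fin n → ι → ℝ := fun j k => Real.sqrt (w k) * b j k / β with hB
  set u : Fin n → Finset ι → ℝ := fun i ξ => ∑ k ∈ s, sgv ξ k * A i k with hu
  set v : Fin n → Finset ι → ℝ := fun j ξ => ∑ k ∈ s, sgv ξ k * Bv j k with hv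
  have hA2 : ∀ i, ∑ k ∈ s, A i k ^ 2 ≤ 1 := by
    intro i
    have : ∑ k ∈ s, A i k ^ 2 = (∑ k ∈ s, w k * a i k ^ 2) / α ^ 2 := by
      rw [Finset.sum_div]
      refine Finset.sum_congr rfl fun k hk => ?_
      simp only [hA]
      rw [div_pow, mul_pow, Real.sq_sqrt (hw k hk)]
    rw [this, div_le_one (by positivity)]
    exact ha i
  have hB2 : ∀ j, ∑ k ∈ s, Bv j k ^ 2 ≤ 1 := by
    intro i
    have : ∑ k ∈ s, Bv i k ^ 2 = (∑ k ∈ s, w k * b i k ^ 2) / β ^ 2 := by
      rw [Finset.sum_div]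
      refine Finset.sum_congr rfl fun k hk => ?_
      simp only [hB]
      rw [div_pow, mul_pow, Real.sq_sqrt (hw k hk)]
    rw [this, div_le_one (by positivity)]
    exact hb i
  have hmom : ∀ (C : ι → ℝ), ∑ k ∈ s, C k ^ 2 ≤ 1 →
      ∑ ξ ∈ s.powerset, p ξ * (∑ k ∈ s, sgv ξ k * C k) ^ 2 ≤ 1 ^ 2 ∧
      ∑ ξ ∈ s.powerset, p ξ * ((∑ k ∈ s, sgv ξ k * C k) - clp (∑ k ∈ s, sgv ξ k * C k)) ^ 2 ≤
        (7 / 20) ^ 2 ∧
      ∑ ξ ∈ s.powerset, p ξ * (clp (∑ k ∈ s, sgv ξ k * C k)) ^ 2 ≤ 1 ^ 2 := by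
    intro C hC
    have h1 : ∑ ξ ∈ s.powerset, p ξ * (∑ k ∈ s, sgv ξ k * C k) ^ 2 ≤ 1 ^ 2 := by
      have := rad_two s C C
      rw [hEB] at this
      calc ∑ ξ ∈ s.powerset, p ξ * (∑ k ∈ s, sgv ξ k * C k) ^ 2 =
            ∑ k ∈ s, C k * C k := by
              rw [← this]
              exact Finset.sum_congr rfl fun ξ _ => by rw [sq]
        _ = ∑ k ∈ s, C k ^ 2 := Finset.sum_congr rfl fun k _ => by ring
        _ ≤ 1 ^ 2 := by rw [one_pow]; exact hC
    refine ⟨h1, ?_, ?_⟩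
    · have h2 := rad_four s C
      rw [hEB] at h2
      calc ∑ ξ ∈ s.powerset, p ξ * ((∑ k ∈ s, sgv ξ k * C k) - clp (∑ k ∈ s, sgv ξ k * C k)) ^ 2
          ≤ ∑ ξ ∈ s.powerset, p ξ * ((∑ k ∈ s, sgv ξ k * C k) ^ 4 / 25) :=
            Finset.sum_le_sum fun ξ hξ => mul_le_mul_of_nonneg_left (clp_diff _) (hp0 ξ hξ)
        _ = (∑ ξ ∈ s.powerset, p ξ * (∑ k ∈ s, sgv ξ k * C k) ^ 4) / 25 := by
            rw [Finset.sum_div]
            exact Finset.sum_congr rfl fun ξ _ => by ring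
        _ ≤ (3 * (∑ k ∈ s, C k ^ 2) ^ 2) / 25 := by gcongr
        _ ≤ (3 * 1 ^ 2) / 25 := by
            have : 0 ≤ ∑ k ∈ s, C k ^ 2 := Finset.sum_nonneg fun k _ => sq_nonneg _
            gcongr
        _ ≤ (7 / 20) ^ 2 := by norm_num
    · refine le_trans (Finset.sum_le_sum fun ξ hξ => ?_) h1
      exact mul_le_mul_of_nonneg_left (clp_sq _) (hp0 ξ hξ)
  -- the decomposition
  have hmain : ∑ i, ∑ j, N i j * ∑ k ∈ s, w k * (a i k * b j k) =
      α * β * ∑ i, ∑ j, N i j * ∑ ξ ∈ s.powerset, p ξ * (u i ξ * v j ξ) := by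
    rw [Finset.mul_sum]
    refine Finset.sum_congr rfl fun i _ => ?_
    rw [Finset.mul_sum]
    refine Finset.sum_congr rfl fun j _ => ?_
    have h1 : ∑ ξ ∈ s.powerset, p ξ * (u i ξ * v j ξ) = ∑ k ∈ s, A i k * Bv j k := by
      rw [← hEB]
      exact rad_two s (A i) (Bv j)
    have h2 : ∑ k ∈ s, w k * (a i k * b j k) = α * β * ∑ k ∈ s, A i k * Bv j k := by
      rw [Finset.mul_sum]
      refine Finset.sum_congr rfl fun k hk => ?_
      simp only [hA, hB]
      have h3 := Real.mul_self_sqrt (hw k hk)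
      field_simp
      rw [Real.sq_sqrt (hw k hk)]
      ring
    rw [h1, h2]
    ring
  rw [hmain]
  apply mul_le_mul_of_nonneg_left _ (by positivity)
  have hsplit : ∑ i, ∑ j, N i j * ∑ ξ ∈ s.powerset, p ξ * (u i ξ * v j ξ) =
      ∑ ξ ∈ s.powerset, p ξ * ∑ i, ∑ j, N i j * (clp (u i ξ) * clp (v j ξ)) +
      ∑ i, ∑ j, N i j * ∑ ξ ∈ s.powerset, p ξ * ((u i ξ - clp (u i ξ)) * clp (v j ξ)) +
      ∑ i, ∑ j, N i j * ∑ ξ ∈ s.powerset, p ξ * (u i ξ * (v j ξ - clp (v j ξ))) := by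
    have h1 : ∑ ξ ∈ s.powerset, p ξ * ∑ i, ∑ j, N i j * (clp (u i ξ) * clp (v j ξ)) =
        ∑ i, ∑ j, N i j * ∑ ξ ∈ s.powerset, p ξ * (clp (u i ξ) * clp (v j ξ)) := by
      simp_rw [Finset.mul_sum]
      rw [Finset.sum_comm]
      refine Finset.sum_congr rfl fun i _ => ?_
      rw [Finset.sum_comm]
      refine Finset.sum_congr rfl fun j _ => ?_
      exact Finset.sum_congr rfl fun ξ _ => by ring
    rw [h1, ← Finset.sum_add_distrib, ← Finset.sum_add_distrib]
    refine Finset.sum_congr rfl fun i _ => ?_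
    rw [← Finset.sum_add_distrib, ← Finset.sum_add_distrib]
    refine Finset.sum_congr rfl fun j _ => ?_
    rw [← mul_add, ← mul_add, ← Finset.sum_add_distrib, ← Finset.sum_add_distrib]
    congr 1
    exact Finset.sum_congr rfl fun ξ _ => by ring
  rw [hsplit]
  have hpart1 : ∑ ξ ∈ s.powerset, p ξ * ∑ i, ∑ j, N i j * (clp (u i ξ) * clp (v j ξ)) ≤ 25 * T := by
    have h1 : ∀ ξ, ∑ i, ∑ j, N i j * (clp (u i ξ) * clp (v j ξ)) ≤ 25 * T := by
      intro ξ
      have h2 := hT (fun i => clp (u i ξ) / 5) (fun j => clp (v j ξ) / 5)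
        (fun i => by rw [abs_div, abs_of_pos (by norm_num : (0 : ℝ) < 5), div_le_one (by norm_num)]
                     exact clp_abs _)
        (fun j => by rw [abs_div, abs_of_pos (by norm_num : (0 : ℝ) < 5), div_le_one (by norm_num)]
                     exact clp_abs _)
      have h3 : ∑ i, ∑ j, N i j * (clp (u i ξ) * clp (v j ξ)) =
          25 * ∑ i, ∑ j, N i j * (clp (u i ξ) / 5 * (clp (v j ξ) / 5)) := by
        rw [Finset.mul_sum]
        refine Finset.sum_congr rfl fun i _ => ?_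
        rw [Finset.mul_sum]
        exact Finset.sum_congr rfl fun j _ => by ring
      rw [h3]
      linarith
    calc _ ≤ ∑ ξ ∈ s.powerset, p ξ * (25 * T) :=
          Finset.sum_le_sum fun ξ hξ => mul_le_mul_of_nonneg_left (h1 ξ) (hp0 ξ hξ)
      _ = 25 * T := by
          rw [← Finset.sum_mul]
          have := EB_wsum (1 / 2) s
          rw [this, one_mul]
  have hpart2 := hK (Finset ι) s.powerset p (fun i ξ => u i ξ - clp (u i ξ))
    (fun j ξ => clp (v j ξ)) (7 / 20) 1 (by norm_num) one_pos hp0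
    (fun i => (hmom (A i) (hA2 i)).2.1) (fun j => (hmom (Bv j) (hB2 j)).2.2)
  have hpart3 := hK (Finset ι) s.powerset p (fun i ξ => u i ξ)
    (fun j ξ => v j ξ - clp (v j ξ)) 1 (7 / 20) one_pos (by norm_num) hp0
    (fun i => (hmom (A i) (hA2 i)).1) (fun j => (hmom (Bv j) (hB2 j)).2.1)
  linarith

/-- An elementary Grothendieck inequality. -/
theorem groth {N : Fin n → Fin n → ℝ} {T : ℝ}
    (hT : ∀ x y : Fin n → ℝ, (∀ i, |x i| ≤ 1) → (∀ j, |y j| ≤ 1) →
      ∑ i, ∑ j, N i j * (x i * y j) ≤ T) : GP N (84 * T) := by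
  have hT0 : 0 ≤ T := by
    have := hT (fun _ => 0) (fun _ => 0) (by simp) (by simp)
    simpa using this
  set K0 := ∑ i, ∑ j, |N i j| with hK0
  have h1 : ∀ m : ℕ, GP N (84 * T + (7 / 10) ^ m * K0) := by
    intro m
    induction m with
    | zero =>
      have h2 := GP_base N
      intro ι s w a b α β hα hβ hw ha hb
      have h3 := h2 ι s w a b α β hα hβ hw ha hb
      refine h3.trans ?_
      apply mul_le_mul_of_nonneg_left _ (by positivity)
      rw [pow_zero, one_mul]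
      linarith
    | succ m ih =>
      have h2 := GP_step hT ih
      intro ι s w a b α β hα hβ hw ha hb
      have h3 := h2 ι s w a b α β hα hβ hw ha hb
      refine h3.trans ?_
      apply mul_le_mul_of_nonneg_left _ (by positivity)
      rw [pow_succ]
      linarith
  intro ι s w a b α β hα hβ hw ha hb
  have h2 : Filter.Tendsto (fun m : ℕ => α * β * (84 * T + (7 / 10) ^ m * K0)) Filter.atTop
      (nhds (α * β * (84 * T + 0 * K0))) := by
    apply Filter.Tendsto.const_mul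
    apply Filter.Tendsto.const_add
    apply Filter.Tendsto.mul_const
    exact tendsto_pow_atTop_nhds_zero_of_lt_one (by norm_num) (by norm_num)
  rw [zero_mul, add_zero] at h2
  exact ge_of_tendsto' h2 fun m => h1 m ι s w a b α β hα hβ hw ha hb

/-- Optimising a linear form over a box. -/
lemma vertex (c l h u : Fin n → ℝ) (hu : ∀ i, l i ≤ u i ∧ u i ≤ h i) :
    ∑ i, c i * u i ≤ ∑ i, c i * (if 0 ≤ c i then h i else l i) := by
  refine Finset.sum_le_sum fun i _ => ?_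
  split_ifs with h0
  · exact mul_le_mul_of_nonneg_left (hu i).2 h0
  · push Not at h0
    exact mul_le_mul_of_nonpos_left (hu i).1 h0.le

lemma sign_cube {N : Fin n → Fin n → ℝ} {T : ℝ}
    (hT : ∀ A B : Finset (Fin n), ∑ i, ∑ j, N i j * (sgv A i * sgv B j) ≤ T)
    (x y : Fin n → ℝ) (hx : ∀ i, |x i| ≤ 1) (hy : ∀ j, |y j| ≤ 1) :
    ∑ i, ∑ j, N i j * (x i * y j) ≤ T := by
  classical
  set c : Fin n → ℝ := fun i => ∑ j, N i j * y j with hc
  set A : Finset (Fin n) := Finset.univ.filter fun i => 0 ≤ c i with hA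
  have h1 : ∑ i, ∑ j, N i j * (x i * y j) ≤ ∑ i, ∑ j, N i j * (sgv A i * y j) := by
    have h2 := vertex c (fun _ => -1) (fun _ => 1) x (fun i => abs_le.mp (hx i))
    have e1 : ∑ i, ∑ j, N i j * (x i * y j) = ∑ i, c i * x i := by
      refine Finset.sum_congr rfl fun i _ => ?_
      simp only [hc]
      rw [Finset.sum_mul]
      exact Finset.sum_congr rfl fun j _ => by ring
    have e2 : ∑ i, ∑ j, N i j * (sgv A i * y j) = ∑ i, c i * (if 0 ≤ c i then 1 else -1) := by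
      refine Finset.sum_congr rfl fun i _ => ?_
      have : sgv A i = if 0 ≤ c i then 1 else -1 := by
        unfold sgv
        simp only [hA, Finset.mem_filter, Finset.mem_univ, true_and]
      rw [this]
      conv_rhs => rw [show c i = ∑ j, N i j * y j from rfl]
      rw [Finset.sum_mul]
      exact Finset.sum_congr rfl fun j _ => by ring
    rw [e1, e2]
    exact h2
  set d : Fin n → ℝ := fun j => ∑ i, N i j * sgv A i with hd
  set B : Finset (Fin n) := Finset.univ.filter fun j => 0 ≤ d j with hB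
  have h3 : ∑ i, ∑ j, N i j * (sgv A i * y j) ≤ ∑ i, ∑ j, N i j * (sgv A i * sgv B j) := by
    have h2 := vertex d (fun _ => -1) (fun _ => 1) y (fun i => abs_le.mp (hy i))
    have e1 : ∑ i, ∑ j, N i j * (sgv A i * y j) = ∑ j, d j * y j := by
      rw [Finset.sum_comm]
      refine Finset.sum_congr rfl fun j _ => ?_
      simp only [hd]
      rw [Finset.sum_mul]
      exact Finset.sum_congr rfl fun i _ => by ring
    have e2 : ∑ i, ∑ j, N i j * (sgv A i * sgv B j) = ∑ j, d j * (if 0 ≤ d j then 1 else -1) := by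
      rw [Finset.sum_comm]
      refine Finset.sum_congr rfl fun j _ => ?_
      have : sgv B j = if 0 ≤ d j then 1 else -1 := by
        unfold sgv
        simp only [hB, Finset.mem_filter, Finset.mem_univ, true_and]
      rw [this]
      conv_rhs => rw [show d j = ∑ i, N i j * sgv A i from rfl]
      rw [Finset.sum_mul]
      exact Finset.sum_congr rfl fun i _ => by ring
    rw [e1, e2]
    exact h2
  exact h1.trans (h3.trans (hT A B))

/-- Grothendieck for positive semidefinite matrices with bounded diagonal. -/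
theorem groth_psd {N : Fin n → Fin n → ℝ} {T : ℝ}
    (hT : ∀ A B : Finset (Fin n), ∑ i, ∑ j, N i j * (sgv A i * sgv B j) ≤ T)
    {X : Matrix (Fin n) (Fin n) ℝ} (hX : X.PosSemidef) {C : ℝ} (hC : 0 < C)
    (hd : ∀ i, X i i ≤ C) : ∑ i, ∑ j, N i j * X i j ≤ C * (84 * T) := by
  obtain ⟨m, v, hv⟩ := psd_gram hX
  have hs := Real.sqrt_pos.mpr hC
  have h1 := groth (sign_cube hT) (Fin m) Finset.univ (fun _ => 1) (fun i k => v k i)
    (fun j k => v k j) (Real.sqrt C) (Real.sqrt C) hs hs (fun _ _ => zero_le_one)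
    (fun i => by
      rw [Real.sq_sqrt hC.le]
      refine le_trans (le_of_eq ?_) (hd i)
      rw [hv]
      exact Finset.sum_congr rfl fun k _ => by ring)
    (fun i => by
      rw [Real.sq_sqrt hC.le]
      refine le_trans (le_of_eq ?_) (hd i)
      rw [hv]
      exact Finset.sum_congr rfl fun k _ => by ring)
  rw [Real.mul_self_sqrt hC.le] at h1
  refine le_trans (le_of_eq ?_) h1
  refine Finset.sum_congr rfl fun i _ => Finset.sum_congr rfl fun j _ => ?_
  rw [hv]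
  congr 1
  exact Finset.sum_congr rfl fun k _ => by ring

end Pool.Agent.Lib.P267408
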