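import Pool.Agent.Lib.P267408.Conv

open Finset MeasureTheory ProbabilityTheory Filter Topology

namespace Pool.Agent.Lib.P267408

variable {n : ℕ}

/-- Averages over sets of unordered pairs are averages over graphs. -/
lemma avg_graph (F : SimpleGraph (Fin n) → ℝ) :
    avg (fun ω : Gr n => F (SimpleGraph.fromEdgeSet (ω : Set (Sym2 (Fin n))))) =
      (∑ᶠ G : SimpleGraph (Fin n), F G) / (Nat.card (SimpleGraph (Fin n)) : ℝ) := by
  classical
  have : Fintype (SimpleGraph (Fin n)) := Fintype.ofFinite _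
  rw [finsum_eq_sum_of_fintype, Nat.card_eq_fintype_card]
  have h1 : ∑ ω : Gr n, F (SimpleGraph.fromEdgeSet (ω : Set (Sym2 (Fin n)))) =
      2 ^ n * ∑ G : SimpleGraph (Fin n), F G := by
    have h2 : ∑ ω : Gr n, F (SimpleGraph.fromEdgeSet (ω : Set (Sym2 (Fin n)))) =
        ∑ p : SimpleGraph (Fin n) × Finset (Fin n), F p.1 := by
      refine Fintype.sum_equiv (grEquiv n) _ _ fun ω => ?_
      rfl
    rw [h2, Fintype.sum_prod_type, Finset.mul_sum]
    refine Finset.sum_congr rfl fun G _ => ?_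
    show ∑ _y : Finset (Fin n), F G = 2 ^ n * F G
    rw [Finset.sum_const, Finset.card_univ, Fintype.card_finset, Fintype.card_fin, nsmul_eq_mul]
    push_cast
    ring
  have h2 : (2 : ℝ) ^ Fintype.card (Sym2 (Fin n)) =
      (Fintype.card (SimpleGraph (Fin n)) : ℝ) * 2 ^ n := by
    have h3 := Fintype.card_congr (grEquiv n)
    rw [Fintype.card_prod, Fintype.card_finset, Fintype.card_finset, Fintype.card_fin] at h3
    exact_mod_cast h3
  unfold avg
  rw [h1, h2]
  have h3 : (0 : ℝ) < 2 ^ n := by positivity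
  rw [mul_comm ((2 : ℝ) ^ n), mul_div_mul_right _ _ h3.ne']

/-- The distance to the square root in terms of the theta numbers of the graph and of its complement. -/
lemma abs_le {Y Z ε : ℝ} (hε : 0 < ε) (hY : 0 < Y) (hZ : 0 < Z) (h : 1 ≤ Y * Z) :
    |Y - 1| ≤ ε + (1 + 1 / (4 * ε)) * (Y + Z - 2) := by
  have hs : 0 ≤ Y + Z - 2 := by nlinarith [sq_nonneg (Y - Z)]
  set s := Y + Z - 2 with hs'
  have h1 : (Y - Z) ^ 2 ≤ (2 * (ε + s / (4 * ε)) + s) ^ 2 := by
    have h2 : (Y - Z) ^ 2 ≤ 4 * s + s ^ 2 := by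
      have : Z = s + 2 - Y := by rw [hs']; ring
      rw [this] at h ⊢
      nlinarith
    have h3 : 4 * s ≤ (2 * (ε + s / (4 * ε))) ^ 2 := by
      have h4 : (2 * (ε + s / (4 * ε))) ^ 2 - 4 * s = (2 * (ε - s / (4 * ε))) ^ 2 := by
        field_simp
        ring
      nlinarith [sq_nonneg (2 * (ε - s / (4 * ε)))]
    have h5 : 0 ≤ 2 * (ε + s / (4 * ε)) := by positivity
    nlinarith [mul_nonneg h5 hs]
  have h2 : |Y - Z| ≤ 2 * (ε + s / (4 * ε)) + s := abs_le_of_sq_le_sq h1 (by positivity)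
  have h3 : Y - 1 = (s + (Y - Z)) / 2 := by rw [hs']; ring
  rw [h3, abs_div, abs_two]
  have h4 : |s + (Y - Z)| ≤ s + |Y - Z| := (abs_add_le _ _).trans (by rw [abs_of_nonneg hs])
  have h5 : ε + (1 + 1 / (4 * ε)) * s = (s + (2 * (ε + s / (4 * ε)) + s)) / 2 := by
    field_simp
    ring
  rw [h5]
  linarith

/-- The average distance. -/
lemma avg_abs_le (hn : 0 < n) {ε : ℝ} (hε : 0 < ε) :
    avg (fun ω : Gr n => |th ω / Real.sqrt n - 1|) ≤
      ε + (1 + 1 / (4 * ε)) * (2 * (avg (fun ω : Gr n => th ω) / Real.sqrt n - 1)) := by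
  classical
  have hn' : (0 : ℝ) < n := by exact_mod_cast hn
  have hs : 0 < Real.sqrt n := Real.sqrt_pos.mpr hn'
  have h1 : ∀ ω : Gr n, |th ω / Real.sqrt n - 1| ≤
      ε + (1 + 1 / (4 * ε)) * (th ω / Real.sqrt n + th ωᶜ / Real.sqrt n - 2) := by
    intro ω
    have h3 := one_le_th hn ω
    have h4 := one_le_th hn ωᶜ
    refine abs_le hε (by positivity) (by positivity) ?_
    rw [div_mul_div_comm, Real.mul_self_sqrt hn'.le, le_div_iff₀ hn', one_mul]
    exact th_mul_compl hn ω
  have h2 : avg (fun ω : Gr n => th ωᶜ) = avg (fun ω : Gr n => th ω) := by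
    unfold avg
    congr 1
    exact Finset.sum_nbij' (fun ω => ωᶜ) (fun ω => ωᶜ) (fun _ _ => Finset.mem_univ _)
      (fun _ _ => Finset.mem_univ _) (fun ω _ => compl_compl ω) (fun ω _ => compl_compl ω)
      (fun ω _ => rfl)
  refine (avg_mono h1).trans (le_of_eq ?_)
  rw [avg_add, avg_const, avg_mul_left]
  have h5 : avg (fun ω : Gr n => th ω / Real.sqrt n + th ωᶜ / Real.sqrt n - 2) =
      2 * (avg (fun ω : Gr n => th ω) / Real.sqrt n - 1) := by
    have h6 : (fun ω : Gr n => th ω / Real.sqrt n + th ωᶜ / Real.sqrt n - 2) =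
        fun ω : Gr n => th ω / Real.sqrt n + (th ωᶜ / Real.sqrt n + (-2)) := by
      funext ω; ring
    rw [h6, avg_add (fun ω : Gr n => th ω / Real.sqrt n), avg_add (fun ω : Gr n => th ωᶜ / Real.sqrt n), avg_const,
      avg_div, avg_div, h2]
    ring
  rw [h5]

theorem avg_abs_tendsto : Tendsto (fun n : ℕ => avg (fun ω : Gr n => |th ω / Real.sqrt n - 1|)) atTop (𝓝 0) := by
  have h0 : Tendsto (fun n : ℕ => avg (fun ω : Gr n => th ω) / Real.sqrt n) atTop (𝓝 1) := by
    refine main_limit.congr fun n => ?_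
    rw [avg_th_eq]
  rw [Metric.tendsto_atTop]
  intro δ hδ
  have hε : 0 < δ / 2 := by positivity
  have hc : 0 < 1 + 1 / (4 * (δ / 2)) := by positivity
  rw [Metric.tendsto_atTop] at h0
  obtain ⟨N, hN⟩ := h0 (δ / (8 * (1 + 1 / (4 * (δ / 2))))) (by positivity)
  refine ⟨max N 1, fun n hn => ?_⟩
  have h1 := hN n (le_trans (le_max_left _ _) hn)
  have h2 : 0 < n := lt_of_lt_of_le one_pos (le_trans (le_max_right _ _) hn)
  rw [Real.dist_eq] at h1 ⊢
  have h3 := avg_abs_le h2 hε
  have h4 : 0 ≤ avg (fun ω : Gr n => |th ω / Real.sqrt n - 1|) := avg_nonneg fun ω => abs_nonneg _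
  rw [sub_zero, abs_of_nonneg h4]
  have h5 : (1 + 1 / (4 * (δ / 2))) * (2 * (avg (fun ω : Gr n => th ω) / Real.sqrt n - 1)) ≤ δ / 4 := by
    have h6 := (le_abs_self _).trans h1.le
    have h7 := mul_le_mul_of_nonneg_left h6 (by positivity : 0 ≤ 2 * (1 + 1 / (4 * (δ / 2))))
    have h8 : 2 * (1 + 1 / (4 * (δ / 2))) * (δ / (8 * (1 + 1 / (4 * (δ / 2))))) = δ / 4 := by
      field_simp
      ring
    linarith
  linarith

/-- The values of the feasible matrices have a greatest element. -/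
theorem thG_isGreatest (hn : 0 < n) (G : SimpleGraph (Fin n)) :
    IsGreatest {s : ℝ | ∃ X : Matrix (Fin n) (Fin n) ℝ, X.PosSemidef ∧ X.trace = 1 ∧
      (∀ i j, G.Adj i j → X i j = 0) ∧ s = ∑ i, ∑ j, X i j} (thG G) := by
  classical
  set K : Set (Matrix (Fin n) (Fin n) ℝ) := {X | X.PosSemidef ∧ X.trace = 1 ∧ ∀ i j, G.Adj i j → X i j = 0} with hK
  have hKeq : K = {X | (∀ i j, X i j = X j i)} ∩ ({X | ∀ x : Fin n → ℝ, 0 ≤ ∑ i, ∑ j, X i j * (x i * x j)} ∩
      ({X | X.trace = 1} ∩ {X | ∀ i j, G.Adj i j → X i j = 0})) := by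
    ext X
    constructor
    · rintro ⟨h1, h2, h3⟩
      exact ⟨psd_symm h1, psd_quad h1, h2, h3⟩
    · rintro ⟨h1, h2, h3, h4⟩
      exact ⟨psd_of_quad h1 h2, h3, h4⟩
  have hclosed : IsClosed K := by
    rw [hKeq]
    refine IsClosed.inter ?_ (IsClosed.inter ?_ (IsClosed.inter ?_ ?_))
    · have : {X : Matrix (Fin n) (Fin n) ℝ | ∀ i j, X i j = X j i} = ⋂ i, ⋂ j, {X | X i j = X j i} := by
        ext X; simp
      rw [this]
      exact isClosed_iInter fun i => isClosed_iInter fun j => isClosed_eq (by fun_prop) (by fun_prop)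
    · have : {X : Matrix (Fin n) (Fin n) ℝ | ∀ x : Fin n → ℝ, 0 ≤ ∑ i, ∑ j, X i j * (x i * x j)} =
          ⋂ x : Fin n → ℝ, {X | 0 ≤ ∑ i, ∑ j, X i j * (x i * x j)} := by
        ext X; simp
      rw [this]
      exact isClosed_iInter fun x => isClosed_le (by fun_prop) (by fun_prop)
    · exact isClosed_eq (by unfold Matrix.trace; fun_prop) (by fun_prop)
    · have : {X : Matrix (Fin n) (Fin n) ℝ | ∀ i j, G.Adj i j → X i j = 0} =
          ⋂ i, ⋂ j, ⋂ _ : G.Adj i j, {X | X i j = 0} := by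
        ext X; simp
      rw [this]
      exact isClosed_iInter fun i => isClosed_iInter fun j => isClosed_iInter fun _ =>
        isClosed_eq (by fun_prop) (by fun_prop)
  have hbd : K ⊆ Set.pi Set.univ fun _ : Fin n => Set.pi Set.univ fun _ : Fin n => Set.Icc (-1 : ℝ) 1 := by
    rintro X ⟨h1, h2, -⟩ i - j -
    have hdiag : ∀ i, 0 ≤ X i i := by
      intro i
      have := psd_quad h1 (fun k => if k = i then 1 else 0)
      simpa using this
    have hle : ∀ i, X i i ≤ 1 := by
      intro i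
      rw [← h2]
      unfold Matrix.trace
      exact Finset.single_le_sum (f := fun k => X.diag k) (fun k _ => hdiag k) (Finset.mem_univ i)
    have hsym := psd_symm h1 i j
    have hq : ∀ c : ℝ, 0 ≤ X i i + 2 * c * X i j + c ^ 2 * X j j := by
      intro c
      have h3 := psd_quad h1 (fun k => (if k = i then 1 else 0) + c * (if k = j then 1 else 0))
      have h4 : ∑ a, ∑ b, X a b * (((if a = i then 1 else 0) + c * (if a = j then 1 else 0)) *
          ((if b = i then 1 else 0) + c * (if b = j then 1 else 0))) =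
          X i i + c * X i j + c * X j i + c ^ 2 * X j j := by
        have h5 : ∀ a b, X a b * (((if a = i then (1 : ℝ) else 0) + c * (if a = j then 1 else 0)) *
            ((if b = i then 1 else 0) + c * (if b = j then 1 else 0))) =
            (if a = i then (if b = i then X a b else 0) else 0) + (if a = i then (if b = j then c * X a b else 0) else 0)
            + (if a = j then (if b = i then c * X a b else 0) else 0) +
              (if a = j then (if b = j then c ^ 2 * X a b else 0) else 0) := by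
          intro a b
          split_ifs <;> ring
        simp_rw [h5, Finset.sum_add_distrib]
        simp
      rw [h4] at h3
      rw [hsym] at h3 ⊢
      linarith
    have hp := hq 1
    have hm := hq (-1)
    have h5 := hle i
    have h6 := hle j
    constructor <;> nlinarith
  have hcomp : IsCompact K := (isCompact_univ_pi fun _ => isCompact_univ_pi fun _ => isCompact_Icc).of_isClosed_subset
    hclosed hbd
  have hne : K.Nonempty := by
    have hn' : (0 : ℝ) < n := by exact_mod_cast hn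
    refine ⟨(1 / (n : ℝ)) • (1 : Matrix (Fin n) (Fin n) ℝ), Matrix.PosSemidef.one.smul (by positivity), ?_, ?_⟩
    · rw [Matrix.trace_smul, Matrix.trace_one, Fintype.card_fin, smul_eq_mul]
      field_simp
    · intro i j hij
      simp [Matrix.one_apply_ne hij.ne]
  have hcont : ContinuousOn (fun X : Matrix (Fin n) (Fin n) ℝ => ∑ i, ∑ j, X i j) K := by
    apply Continuous.continuousOn
    fun_prop
  obtain ⟨X, hX, hmax⟩ := hcomp.exists_isMaxOn hne hcont
  have hgr : IsGreatest {s : ℝ | ∃ X : Matrix (Fin n) (Fin n) ℝ, X.PosSemidef ∧ X.trace = 1 ∧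
      (∀ i j, G.Adj i j → X i j = 0) ∧ s = ∑ i, ∑ j, X i j} (∑ i, ∑ j, X i j) := by
    refine ⟨⟨X, hX.1, hX.2.1, hX.2.2, rfl⟩, ?_⟩
    rintro s ⟨Y, h1, h2, h3, rfl⟩
    exact hmax ⟨h1, h2, h3⟩
  have : thG G = ∑ i, ∑ j, X i j := hgr.csSup_eq
  rw [this]
  exact hgr

/-- A random graph on `n` vertices in which the pairs are edges independently with probability `1/2`. -/
def IsHalf {Ω : Type*} [MeasurableSpace Ω] (μ : Measure Ω) (G : Ω → SimpleGraph (Fin n)) : Prop :=
  (∀ p : {p : Fin n × Fin n // p.1 < p.2}, MeasurableSet {ω | (G ω).Adj p.1.1 p.1.2}) ∧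
    iIndepSet (fun p : {p : Fin n × Fin n // p.1 < p.2} => {ω | (G ω).Adj p.1.1 p.1.2}) μ ∧
      ∀ p : {p : Fin n × Fin n // p.1 < p.2}, μ {ω | (G ω).Adj p.1.1 p.1.2} = 1 / 2

section

variable {Ω : Type*} [MeasurableSpace Ω] {μ : Measure Ω} [IsProbabilityMeasure μ] {G : Ω → SimpleGraph (Fin n)}

lemma fiber_eq (H : SimpleGraph (Fin n)) : {ω | G ω = H} = ⋂ p ∈ (Finset.univ : Finset {p : Fin n × Fin n // p.1 < p.2}),
    {ω | (G ω).Adj p.1.1 p.1.2 ↔ H.Adj p.1.1 p.1.2} := by
  ext ω
  simp only [Set.mem_ofPred_eq, Finset.mem_univ, Set.iInter_true, Set.mem_iInter, Subtype.forall, Prod.forall]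
  constructor
  · rintro rfl i j _
    exact Iff.rfl
  · intro h
    ext i j
    rcases lt_trichotomy i j with hij | hij | hij
    · exact h i j hij
    · subst hij
      simp
    · rw [SimpleGraph.adj_comm, H.adj_comm]
      exact h j i hij

lemma fiber_meas (h : IsHalf μ G) (H : SimpleGraph (Fin n)) : MeasurableSet {ω | G ω = H} ∧
    μ {ω | G ω = H} = (1 / 2) ^ Fintype.card {p : Fin n × Fin n // p.1 < p.2} := by
  classical
  obtain ⟨h1, h2, h3⟩ := h
  have h4 : ∀ p : {p : Fin n × Fin n // p.1 < p.2}, {ω | (G ω).Adj p.1.1 p.1.2 ↔ H.Adj p.1.1 p.1.2} =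
      if H.Adj p.1.1 p.1.2 then {ω | (G ω).Adj p.1.1 p.1.2} else {ω | (G ω).Adj p.1.1 p.1.2}ᶜ := by
    intro p
    split_ifs with hp <;> ext ω <;> simp [hp]
  constructor
  · rw [fiber_eq]
    refine Finset.measurableSet_biInter _ fun p _ => ?_
    rw [h4 p]
    split_ifs
    · exact h1 p
    · exact (h1 p).compl
  · rw [fiber_eq, iIndep.meas_biInter h2]
    · have h5 : ∀ p : {p : Fin n × Fin n // p.1 < p.2}, μ {ω | (G ω).Adj p.1.1 p.1.2 ↔ H.Adj p.1.1 p.1.2} = 1 / 2 := by
        intro p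
        rw [h4 p]
        split_ifs
        · exact h3 p
        · rw [prob_compl_eq_one_sub (h1 p), h3 p]
          simp
      rw [Finset.prod_congr rfl fun p _ => h5 p, Finset.prod_const, Finset.card_univ]
    · intro p _
      rw [h4 p]
      split_ifs
      · exact MeasurableSpace.measurableSet_generateFrom (Set.mem_singleton _)
      · exact (MeasurableSpace.measurableSet_generateFrom (Set.mem_singleton _)).compl

/-- The expectation is the average over all graphs. -/
theorem integral_eq (h : IsHalf μ G) (F : SimpleGraph (Fin n) → ℝ) :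
    ∫ ω, F (G ω) ∂μ = avg (fun ω : Gr n => F (SimpleGraph.fromEdgeSet (ω : Set (Sym2 (Fin n))))) ∧
      Integrable (fun ω => F (G ω)) μ := by
  classical
  have : Fintype (SimpleGraph (Fin n)) := Fintype.ofFinite _
  have hF : (fun ω => F (G ω)) = fun ω => ∑ H : SimpleGraph (Fin n), Set.indicator {ω | G ω = H} (fun _ => F H) ω := by
    funext ω
    rw [Finset.sum_eq_single (G ω)]
    · exact (Set.indicator_of_mem (show ω ∈ {ω' | G ω' = G ω} from rfl) (fun _ => F (G ω))).symm
    · intro H _ hH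
      exact Set.indicator_of_notMem (fun h => hH h.symm) _
    · intro h; exact absurd (Finset.mem_univ _) h
  have hint : ∀ H : SimpleGraph (Fin n), Integrable (Set.indicator {ω | G ω = H} (fun _ => F H)) μ := fun H =>
    (integrable_const (F H)).indicator (fiber_meas h H).1
  have hreal : ∀ H : SimpleGraph (Fin n), μ.real {ω | G ω = H} =
      (1 / 2) ^ Fintype.card {p : Fin n × Fin n // p.1 < p.2} := by
    intro H
    rw [Measure.real, (fiber_meas h H).2]
    simp
  have hsum : (∑ _H : SimpleGraph (Fin n), (1 / 2 : ℝ) ^ Fintype.card {p : Fin n × Fin n // p.1 < p.2}) = 1 := by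
    have h1 : ∫ _ω, (1 : ℝ) ∂μ = 1 := by simp
    have h2 : (fun _ : Ω => (1 : ℝ)) = fun ω => ∑ H : SimpleGraph (Fin n), Set.indicator {ω | G ω = H} (fun _ => (1 : ℝ)) ω := by
      funext ω
      rw [Finset.sum_eq_single (G ω)]
      · exact (Set.indicator_of_mem (show ω ∈ {ω' | G ω' = G ω} from rfl) (fun _ => (1 : ℝ))).symm
      · intro H _ hH
        exact Set.indicator_of_notMem (fun h => hH h.symm) _
      · intro h; exact absurd (Finset.mem_univ _) h
    rw [h2, integral_finsetSum _ fun H _ => (integrable_const (1 : ℝ)).indicator (fiber_meas h H).1] at h1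
    refine Eq.trans ?_ h1
    refine Finset.sum_congr rfl fun H _ => ?_
    rw [integral_indicator_const _ (fiber_meas h H).1, hreal]
    simp
  refine ⟨?_, ?_⟩
  · rw [avg_graph, hF, integral_finsetSum _ fun H _ => hint H, finsum_eq_sum_of_fintype, Nat.card_eq_fintype_card]
    have h3 : ∀ H : SimpleGraph (Fin n), ∫ ω, Set.indicator {ω | G ω = H} (fun _ => F H) ω ∂μ =
        (1 / 2) ^ Fintype.card {p : Fin n × Fin n // p.1 < p.2} * F H := by
      intro H
      rw [integral_indicator_const _ (fiber_meas h H).1, hreal, smul_eq_mul]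
    rw [Finset.sum_congr rfl fun H _ => h3 H, ← Finset.mul_sum]
    rw [Finset.sum_const, Finset.card_univ, nsmul_eq_mul] at hsum
    have h4 : (Fintype.card (SimpleGraph (Fin n)) : ℝ) ≠ 0 := by
      intro h0
      rw [h0, zero_mul] at hsum
      exact zero_ne_one hsum
    rw [eq_div_iff h4]
    linear_combination (∑ H : SimpleGraph (Fin n), F H) * hsum
  · rw [hF]
    exact integrable_finsetSum _ fun H _ => hint H

lemma compl_fromEdgeSet (ω : Gr n) : (SimpleGraph.fromEdgeSet (ω : Set (Sym2 (Fin n))))ᶜ =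
    SimpleGraph.fromEdgeSet ((ωᶜ : Gr n) : Set (Sym2 (Fin n))) := by
  classical
  ext i j
  rw [SimpleGraph.compl_adj, SimpleGraph.fromEdgeSet_adj, SimpleGraph.fromEdgeSet_adj]
  simp only [Finset.coe_compl, Set.mem_compl_iff, Finset.mem_coe]
  tauto

end

/-- The three limits. -/
theorem limits {Ω : ℕ → Type*} [∀ n, MeasurableSpace (Ω n)] (μ : ∀ n, Measure (Ω n)) [∀ n, IsProbabilityMeasure (μ n)]
    (G : ∀ n, Ω n → SimpleGraph (Fin n)) (hG : ∀ n, IsHalf (μ n) (G n)) :
    Tendsto (fun n => (∫ ω, thG (G n ω) ∂μ n) / Real.sqrt n) atTop (𝓝 1) ∧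
    Tendsto (fun n => ∫ ω, |thG (G n ω) / Real.sqrt n - 1| ∂μ n) atTop (𝓝 0) ∧
    Tendsto (fun n => ∫ ω, |thG (G n ω)ᶜ / Real.sqrt n - 1| ∂μ n) atTop (𝓝 0) ∧
    ∀ ε : ℝ, 0 < ε → Tendsto (fun n => (μ n).real {ω | ε ≤ |thG (G n ω) / Real.sqrt n - 1|}) atTop (𝓝 0) := by
  have h2 : Tendsto (fun n => ∫ ω, |thG (G n ω) / Real.sqrt n - 1| ∂μ n) atTop (𝓝 0) := by
    refine avg_abs_tendsto.congr fun n => ?_
    rw [(integral_eq (hG n) (fun H => |thG H / Real.sqrt n - 1|)).1]
    simp_rw [th_eq]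
  refine ⟨?_, h2, ?_, ?_⟩
  · refine main_limit.congr fun n => ?_
    rw [(integral_eq (hG n) thG).1, ← avg_th_eq]
    simp_rw [th_eq]
  · refine avg_abs_tendsto.congr fun n => ?_
    classical
    rw [(integral_eq (hG n) (fun H => |thG Hᶜ / Real.sqrt n - 1|)).1]
    simp_rw [compl_fromEdgeSet, ← th_eq]
    unfold avg
    congr 1
    exact Finset.sum_nbij' (fun ω => ωᶜ) (fun ω => ωᶜ) (fun _ _ => Finset.mem_univ _)
      (fun _ _ => Finset.mem_univ _) (fun ω _ => compl_compl ω) (fun ω _ => compl_compl ω)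
      (fun ω _ => by rw [compl_compl])
  · intro ε hε
    have h3 : Tendsto (fun n => (∫ ω, |thG (G n ω) / Real.sqrt n - 1| ∂μ n) / ε) atTop (𝓝 0) := by
      have := h2.div_const ε
      rwa [zero_div] at this
    refine squeeze_zero (fun n => measureReal_nonneg) (fun n => ?_) h3
    rw [le_div_iff₀ hε, mul_comm]
    exact mul_meas_ge_le_integral_of_nonneg (Filter.Eventually.of_forall fun ω => abs_nonneg _)
      (integral_eq (hG n) (fun H => |thG H / Real.sqrt n - 1|)).2 ε

end Pool.Agent.Lib.P267408
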