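import Pool.Agent.Lib.P267408.Tree

open Finset

namespace Pool.Agent.Lib.P267408

variable {n : ℕ}

lemma Om_diag {w : WW} (hpos : 0 < w.1) (ω : Gr n) (i : Fin n) : Om w n ω i i = 0 := by
  unfold Om
  refine Finset.sum_eq_zero fun φ hφ => ?_
  rw [if_neg]
  rw [Prod.mk.injEq]
  rintro ⟨h1, h2⟩
  have := injOn_ev (mem_Inj.mp hφ) (by simp only [Set.mem_Iic]; omega : 0 ∈ Set.Iic w.1)
    (by simp only [Set.mem_Iic]; omega : w.1 ∈ Set.Iic w.1) (h1.trans h2.symm)
  omega

lemma Nm_diag {w : WW} (hpos : 0 < w.1) (ω : Gr n) (i : Fin n) : Nm w n ω i i = 0 := by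
  unfold Nm
  rw [Om_diag hpos, zero_div]

/-- `Om` with explicit length. -/
noncomputable def OmL (L : ℕ) (E : Finset (ℕ × ℕ)) (n : ℕ) (ω : Gr n) (i j : Fin n) : ℝ :=
  ∑ φ ∈ Inj L n, if (ev φ 0, ev φ L) = (i, j) then wch (im (ev φ) E) ω else 0

lemma Om_eq (w : WW) (ω : Gr n) (i j : Fin n) : Om w n ω i j = OmL w.1 w.2 n ω i j := rfl

lemma im_star {L : ℕ} {E : Finset (ℕ × ℕ)} (hv : Valid L E) (φ : Fin (L + 1) → Fin n) :
    im (ev fun x => φ (Fin.rev x)) (E.image fun p => (L - p.2, L - p.1)) = im (ev φ) E := by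
  have hev : ∀ t ≤ L, ev (fun x => φ (Fin.rev x)) t = ev φ (L - t) := by
    intro t ht
    rw [ev_of_le _ ht, ev_of_le _ (by omega)]
    congr 1
    apply Fin.ext
    rw [Fin.val_rev]
    simp only
    omega
  ext e
  rw [mem_im, mem_im]
  constructor
  · rintro ⟨p, hp, rfl⟩
    obtain ⟨q, hq, rfl⟩ := Finset.mem_image.mp hp
    have h1 := hv.lt q hq
    have h2 := hv.le q hq
    refine ⟨q, hq, ?_⟩
    simp only
    rw [hev _ (by omega), hev _ (by omega), Nat.sub_sub_self h2, Nat.sub_sub_self (by omega),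
      Sym2.eq_swap]
  · rintro ⟨q, hq, rfl⟩
    have h1 := hv.lt q hq
    have h2 := hv.le q hq
    refine ⟨_, Finset.mem_image.mpr ⟨q, hq, rfl⟩, ?_⟩
    simp only
    rw [hev _ (by omega), hev _ (by omega), Nat.sub_sub_self h2, Nat.sub_sub_self (by omega),
      Sym2.eq_swap]

lemma OmL_star {L : ℕ} {E : Finset (ℕ × ℕ)} (hv : Valid L E) (ω : Gr n) (i j : Fin n) :
    OmL L (E.image fun p => (L - p.2, L - p.1)) n ω i j = OmL L E n ω j i := by
  unfold OmL
  symm
  refine Finset.sum_nbij' (fun φ x => φ (Fin.rev x)) (fun φ x => φ (Fin.rev x)) ?_ ?_ ?_ ?_ ?_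
  · intro φ hφ
    rw [mem_Inj] at hφ ⊢
    exact hφ.comp Fin.rev_injective
  · intro φ hφ
    rw [mem_Inj] at hφ ⊢
    exact hφ.comp Fin.rev_injective
  · intro φ _
    funext x
    show φ (Fin.rev (Fin.rev x)) = φ x
    rw [Fin.rev_rev]
  · intro φ _
    funext x
    show φ (Fin.rev (Fin.rev x)) = φ x
    rw [Fin.rev_rev]
  · intro φ _
    rw [im_star hv φ]
    have h0 : ev (fun x => φ (Fin.rev x)) 0 = ev φ L := by
      rw [ev_of_le _ (Nat.zero_le _), ev_of_le _ le_rfl]
      congr 1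
    have h1 : ev (fun x => φ (Fin.rev x)) L = ev φ 0 := by
      rw [ev_of_le _ (Nat.zero_le _), ev_of_le _ le_rfl]
      congr 1
      apply Fin.ext
      rw [Fin.val_rev]
      simp
    rw [h0, h1]
    by_cases h2 : ev φ 0 = j <;> by_cases h3 : ev φ L = i <;> simp [h2, h3]

lemma Om_starW {w : WW} (hv : Valid w.1 w.2) (ω : Gr n) (i j : Fin n) :
    Om (starW w) n ω i j = Om w n ω j i := OmL_star hv ω i j

lemma Nm_starW {w : WW} (hv : Valid w.1 w.2) (ω : Gr n) (i j : Fin n) :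
    Nm (starW w) n ω i j = Nm w n ω j i := by
  unfold Nm
  rw [Om_starW hv]
  rfl

/-- The long edge is not used. -/
lemma not_mem_im {w : WW} (hv : Valid w.1 w.2) (hpos : 0 < w.1) (hno : (0, w.1) ∉ w.2)
    {φ : Fin (w.1 + 1) → Fin n} (hφ : Function.Injective φ) :
    s(ev φ 0, ev φ w.1) ∉ im (ev φ) w.2 := by
  intro h
  obtain ⟨p, hp, hp'⟩ := mem_im.mp h
  have := edge_inj (injOn_ev hφ) (p := p) (r := (0, w.1)) (hv.lt p hp) (hv.le p hp) hpos le_rfl hp'
  rw [this] at hp
  exact hno hp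

lemma OmL_close {L : ℕ} {E : Finset (ℕ × ℕ)} (hv : Valid L E) (hpos : 0 < L) (hno : (0, L) ∉ E)
    (ω : Gr n) (i j : Fin n) :
    OmL L (insert (0, L) E) n ω i j = sg ω s(i, j) * OmL L E n ω i j := by
  unfold OmL
  rw [Finset.mul_sum]
  refine Finset.sum_congr rfl fun φ hφ => ?_
  rw [mem_Inj] at hφ
  split_ifs with h
  · have h1 : im (ev φ) (insert (0, L) E) = insert s(ev φ 0, ev φ L) (im (ev φ) E) := by
      unfold im
      rw [Finset.image_insert]
    rw [h1]
    unfold wch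
    rw [Finset.prod_insert (not_mem_im (w := (L, E)) hv hpos hno hφ)]
    rw [Prod.mk.injEq] at h
    rw [h.1, h.2]
  · rw [mul_zero]

lemma Om_closeW {w : WW} (hv : Valid w.1 w.2) (hpos : 0 < w.1) (hno : (0, w.1) ∉ w.2)
    (ω : Gr n) (i j : Fin n) : Om (closeW w) n ω i j = sg ω s(i, j) * Om w n ω i j :=
  OmL_close hv hpos hno ω i j

lemma Nm_closeW {w : WW} (hv : Valid w.1 w.2) (hpos : 0 < w.1) (hno : (0, w.1) ∉ w.2)
    (ω : Gr n) (i j : Fin n) : Nm (closeW w) n ω i j = sg ω s(i, j) * Nm w n ω i j := by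
  unfold Nm
  rw [Om_closeW hv hpos hno, mul_div_assoc]
  rfl

lemma wch_congr {A : Finset (Sym2 (Fin n))} {ω ω' : Gr n} (h : ∀ e ∈ A, (e ∈ ω ↔ e ∈ ω')) :
    wch A ω = wch A ω' := by
  unfold wch
  refine Finset.prod_congr rfl fun e he => ?_
  unfold sg
  by_cases h1 : e ∈ ω
  · rw [if_pos h1, if_pos ((h e he).mp h1)]
  · rw [if_neg h1, if_neg (fun h2 => h1 ((h e he).mpr h2))]

/-- Cavity property. -/
lemma Nm_indep {w : WW} (hv : Valid w.1 w.2) (hpos : 0 < w.1) (hno : (0, w.1) ∉ w.2)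
    {ω ω' : Gr n} (i j : Fin n) (h : ∀ e, e ≠ s(i, j) → (e ∈ ω ↔ e ∈ ω')) :
    Nm w n ω i j = Nm w n ω' i j := by
  unfold Nm Om
  congr 1
  refine Finset.sum_congr rfl fun φ hφ => ?_
  rw [mem_Inj] at hφ
  split_ifs with h1
  · apply wch_congr
    intro e he
    apply h
    rintro rfl
    rw [Prod.mk.injEq] at h1
    rw [← h1.1, ← h1.2] at he
    exact not_mem_im hv hpos hno hφ he
  · rfl

lemma Nm_nil (ω : Gr n) (i j : Fin n) :
    Nm (0, ∅) n ω i j = if i = j then 1 else 0 := by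
  classical
  unfold Nm
  rw [pow_zero, div_one, Om_eq]
  show OmL 0 ∅ n ω i j = _
  unfold OmL
  rw [Finset.sum_eq_single (fun _ => i)]
  · by_cases h : i = j
    · subst h
      simp [ev, im, wch]
    · have h' : ¬ ((i, i) = (i, j)) := by
        rw [Prod.mk.injEq]
        exact fun h2 => h h2.2
      simp [ev, h]
  · intro φ _ hne
    rw [if_neg]
    rw [Prod.mk.injEq]
    rintro ⟨h1, -⟩
    apply hne
    funext x
    have hx : x = 0 := Fin.ext (by have := x.2; simp only [Fin.val_zero]; omega)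
    subst hx
    rw [← h1]
    rfl
  · intro h
    exfalso
    apply h
    rw [mem_Inj]
    intro a b _
    exact Fin.ext (by have := a.2; have := b.2; omega)

lemma Nm_edge (ω : Gr n) (i j : Fin n) (hij : i ≠ j) :
    Nm (1, {(0, 1)}) n ω i j = sg ω s(i, j) / Real.sqrt n := by
  classical
  unfold Nm Om
  rw [pow_one]
  congr 1
  rw [Finset.sum_eq_single (fun x : Fin 2 => if x = 0 then i else j)]
  · have h0 : ev (L := 1) (fun x : Fin 2 => if x = 0 then i else j) 0 = i := by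
      rw [ev_of_le _ (by omega)]; simp
    have h1 : ev (L := 1) (fun x : Fin 2 => if x = 0 then i else j) 1 = j := by
      rw [ev_of_le _ (by omega)]; simp
    show (if (ev (L := 1) (fun x : Fin 2 => if x = 0 then i else j) 0,
      ev (L := 1) (fun x : Fin 2 => if x = 0 then i else j) 1) = (i, j) then _ else 0) = _
    rw [h0, h1, if_pos rfl]
    unfold im wch
    rw [Finset.image_singleton, Finset.prod_singleton]
    simp only
    rw [h0, h1]
  · intro φ _ hne
    rw [if_neg]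
    rw [Prod.mk.injEq]
    rintro ⟨h1, h2⟩
    apply hne
    apply ev_ext
    intro t ht
    rcases Nat.eq_zero_or_pos t with rfl | hpos
    · rw [h1, ev_of_le _ (by omega)]; simp
    · have : t = 1 := by
        have : t ≤ 1 := ht
        omega
      subst this
      have h2' : ev φ 1 = j := h2
      rw [h2', ev_of_le _ (by omega)]; simp
  · intro h
    exfalso
    apply h
    rw [mem_Inj]
    intro a b hab
    have : ∀ x : Fin 2, x = 0 ∨ x = 1 := by decide
    rcases this a with rfl | rfl <;> rcases this b with rfl | rfl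
    · rfl
    · simp only [if_true, one_ne_zero, if_false] at hab
      exact absurd hab hij
    · simp only [if_true, one_ne_zero, if_false] at hab
      exact absurd hab.symm hij
    · rfl

/-! ### The next alphabet -/

/-- The next alphabet. -/
def nextT (S : Finset ℕ) (T : Finset B) : Finset B :=
  insert B.nil (S.biUnion fun s => (Wds T s).image enc)

lemma mem_nextT {S : Finset ℕ} {T : Finset B} {a : B} :
    a ∈ nextT S T ↔ a = B.nil ∨ ∃ s ∈ S, ∃ l ∈ Wds T s, enc l = a := by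
  unfold nextT
  simp only [Finset.mem_insert, Finset.mem_biUnion, Finset.mem_image]

lemma nextT_mono {S : Finset ℕ} {T T' : Finset B} (h : T ⊆ T') : nextT S T ⊆ nextT S T' := by
  intro a ha
  rw [mem_nextT] at ha ⊢
  rcases ha with rfl | ⟨s, hs, l, hl, rfl⟩
  · exact Or.inl rfl
  · refine Or.inr ⟨s, hs, l, ?_, rfl⟩
    rw [mem_Wds] at hl ⊢
    exact ⟨hl.1, fun a ha => h (hl.2 a ha)⟩

lemma Ltr_edge : Ltr (1, {(0, 1)}) := by
  refine ⟨⟨?_, ?_, ?_, ?_⟩, ?_, ?_⟩
  · intro p hp; rw [Finset.mem_singleton] at hp; subst hp; simp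
  · intro p hp; rw [Finset.mem_singleton] at hp; subst hp; simp
  · intro a ha
    have : a = 0 := by simp only at ha; omega
    subst this; simp
  · intro p hp r hr h1 h2
    rw [Finset.mem_singleton] at hp hr; subst hp hr; simp
  · simp
  · simp

/-- The long chord is not in a word with at least two letters. -/
lemma long_not_mem {l : List WW} (h : ∀ a ∈ l, Ltr a) (hlen : 2 ≤ l.length) :
    (0, (catW l).1) ∉ (catW l).2 := by
  cases l with
  | nil => simp at hlen
  | cons a l =>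
    have h2 : ∀ b ∈ l, Ltr b := fun b hb => h b (List.mem_cons_of_mem _ hb)
    have ha := h a (List.mem_cons_self ..)
    have hpos := ha.pos
    have hpos' : 0 < (catW l).1 := catW_pos h2 (by
      rintro rfl
      simp at hlen)
    intro hmem
    have h3 : (0, a.1 + (catW l).1) ∈ (concat a (catW l)).2 := hmem
    have h4 := cut_concat ha.valid _ h3
    simp only at h4
    omega

lemma good_empty (α : ℕ → ℝ) : GoodT α ∅ := by
  constructor <;> intro a ha <;> simp at ha

section next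

variable {α : ℕ → ℝ} {T : Finset B} {S : Finset ℕ}

lemma GoodT.long {s : ℕ} (hT : GoodT α T) (hs : 2 ≤ s) {l : List B} (hl : l ∈ Wds T s) :
    (0, (cat l).1) ∉ (cat l).2 := by
  apply long_not_mem (hT.ltr_map hl)
  rw [List.length_map, (mem_Wds.mp hl).1]
  exact hs

lemma GoodT.cat_pos {s : ℕ} (hT : GoodT α T) (hs : 1 ≤ s) {l : List B} (hl : l ∈ Wds T s) :
    0 < (cat l).1 := by
  apply catW_pos (hT.ltr_map hl)
  intro h
  have := congrArg List.length h
  rw [List.length_map, (mem_Wds.mp hl).1, List.length_nil] at this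
  omega

lemma lw_enc' {s : ℕ} (hs : 2 ≤ s) {l : List B} (hl : l ∈ Wds T s) :
    lw (enc l) = closeW (cat l) := by
  apply lw_enc
  rintro rfl
  have := (mem_Wds.mp hl).1
  simp at this
  omega

lemma cl_enc' {s : ℕ} (hs : 2 ≤ s) {l : List B} (hl : l ∈ Wds T s) :
    cl α (enc l) = α s * cw α l := by
  rw [cl_enc, (mem_Wds.mp hl).1]
  rintro rfl
  have := (mem_Wds.mp hl).1
  simp at this
  omega

lemma closeW_inj {w w' : WW} (hw : (0, w.1) ∉ w.2) (hw' : (0, w'.1) ∉ w'.2)
    (h : closeW w = closeW w') : w = w' := by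
  have h1 : w.1 = w'.1 := by
    have h0 : (closeW w).1 = (closeW w').1 := by rw [h]
    exact h0
  refine Prod.ext h1 ?_
  have h2 : insert (0, w.1) w.2 = insert (0, w'.1) w'.2 := congrArg Prod.snd h
  rw [← Finset.erase_insert hw, h2, h1, Finset.erase_insert hw']

theorem good_next (hT : GoodT α T) (hS : ∀ s ∈ S, 2 ≤ s) : GoodT α (nextT S T) := by
  have hlen : ∀ s ∈ S, ∀ l ∈ Wds T s, 2 ≤ (lw (enc l)).1 := by
    intro s hs l hl
    rw [lw_enc' (hS s hs) hl, closeW_fst]
    have h1 := length_le_catW (hT.ltr_map hl)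
    rw [List.length_map, (mem_Wds.mp hl).1] at h1
    exact (hS s hs).trans h1
  constructor
  · intro a ha
    rw [mem_nextT] at ha
    rcases ha with rfl | ⟨s, hs, l, hl, rfl⟩
    · exact Ltr_edge
    · rw [lw_enc' (hS s hs) hl]
      have hpos := hT.cat_pos (by have := hS s hs; omega) hl
      exact ⟨valid_closeW (hT.valid hl) hpos, hpos, mem_closeW.mpr (Or.inl rfl)⟩
  · intro a ha b hb hab
    rw [mem_nextT] at ha hb
    rcases ha with rfl | ⟨s, hs, l, hl, rfl⟩ <;> rcases hb with rfl | ⟨s', hs', l', hl', rfl⟩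
    · rfl
    · have := hlen s' hs' l' hl'
      rw [← hab, lw_nil] at this
      simp at this
    · have := hlen s hs l hl
      rw [hab, lw_nil] at this
      simp at this
    · rw [lw_enc' (hS s hs) hl, lw_enc' (hS s' hs') hl'] at hab
      rw [hT.cat_inj hl hl' (closeW_inj (hT.long (hS s hs) hl) (hT.long (hS s' hs') hl') hab)]
  · intro a ha
    rw [mem_nextT] at ha ⊢
    rcases ha with rfl | ⟨s, hs, l, hl, rfl⟩
    · exact Or.inl rfl
    · exact Or.inr ⟨s, hs, starL l, hT.starL_mem hl, (starB_enc l).symm⟩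
  · intro a ha
    rw [mem_nextT] at ha
    rcases ha with rfl | ⟨s, hs, l, hl, rfl⟩
    · rfl
    · rw [starB_enc, starB_enc, hT.starL_starL hl]
  · intro a ha
    rw [mem_nextT] at ha
    rcases ha with rfl | ⟨s, hs, l, hl, rfl⟩
    · rfl
    · rw [starB_enc, cl_enc' (hS s hs) hl, cl_enc' (hS s hs) (hT.starL_mem hl), hT.cw_starL hl]
  · intro a ha
    rw [mem_nextT] at ha
    rcases ha with rfl | ⟨s, hs, l, hl, rfl⟩
    · show lw B.nil = starW (lw B.nil)
      rw [lw_nil]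
      unfold starW
      simp
    · rw [starB_enc, lw_enc' (hS s hs) hl, lw_enc' (hS s hs) (hT.starL_mem hl), hT.cat_starL hl,
        starW_closeW]

lemma sum_nextT (hS : ∀ s ∈ S, 2 ≤ s) (F : B → ℝ) :
    ∑ a ∈ nextT S T, F a = F B.nil + ∑ s ∈ S, ∑ l ∈ Wds T s, F (enc l) := by
  unfold nextT
  rw [Finset.sum_insert, Finset.sum_biUnion]
  · congr 1
    refine Finset.sum_congr rfl fun s _ => ?_
    rw [Finset.sum_image]
    intro l _ l' _ h
    exact enc_inj h
  · intro s _ t _ hst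
    rw [Function.onFun, Finset.disjoint_left]
    intro a h1 h2
    obtain ⟨l, hl, rfl⟩ := Finset.mem_image.mp h1
    obtain ⟨l', hl', h3⟩ := Finset.mem_image.mp h2
    have := enc_inj h3
    subst this
    exact hst ((mem_Wds.mp hl).1.symm.trans (mem_Wds.mp hl').1)
  · intro h
    rw [Finset.mem_biUnion] at h
    obtain ⟨s, hs, h⟩ := h
    obtain ⟨l, hl, h⟩ := Finset.mem_image.mp h
    have h' : enc l = enc [] := h
    have := enc_inj h'
    subst this
    have h1 := (mem_Wds.mp hl).1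
    have h2 := hS s hs
    simp at h1
    omega

theorem wt_next (hS : ∀ s ∈ S, 2 ≤ s) :
    wt α (nextT S T) = 1 + ∑ s ∈ S, α s ^ 2 * wt α T ^ s := by
  unfold wt
  rw [sum_nextT hS, cl_nil, one_pow]
  congr 1
  refine Finset.sum_congr rfl fun s hs => ?_
  have h1 : ∀ l ∈ Wds T s, cl α (enc l) ^ 2 = α s ^ 2 * cw α l ^ 2 := by
    intro l hl
    rw [cl_enc' (hS s hs) hl]; ring
  rw [Finset.sum_congr rfl h1, ← Finset.mul_sum, sum_cw_sq]
  rfl

end next

lemma Ms_one (α : ℕ → ℝ) (T : Finset B) (ω : Gr n) (i j : Fin n) :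
    Ms α T 1 n ω i j = ∑ a ∈ T, cl α a * Nm (lw a) n ω i j := by
  unfold Ms
  rw [show (1 : ℕ) = 0 + 1 from rfl, sum_Wds_succ]
  refine Finset.sum_congr rfl fun a _ => ?_
  rw [sum_Wds_zero, cw_cons, cw_nil, mul_one]
  congr 2
  show concat (lw a) (0, ∅) = lw a
  exact concat_nil _

lemma Ms_zero (α : ℕ → ℝ) (T : Finset B) (ω : Gr n) (i j : Fin n) :
    Ms α T 0 n ω i j = if i = j then 1 else 0 := by
  unfold Ms
  rw [sum_Wds_zero, cw_nil, one_mul]
  exact Nm_nil ω i j

lemma Ms_diag {α : ℕ → ℝ} {T : Finset B} (hT : GoodT α T) {s : ℕ} (hs : 1 ≤ s) (ω : Gr n)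
    (i : Fin n) : Ms α T s n ω i i = 0 := by
  unfold Ms
  refine Finset.sum_eq_zero fun l hl => ?_
  rw [Nm_diag (hT.cat_pos hs hl), mul_zero]

lemma Ms_symm {α : ℕ → ℝ} {T : Finset B} (hT : GoodT α T) (s : ℕ) (ω : Gr n)
    (i j : Fin n) : Ms α T s n ω i j = Ms α T s n ω j i := by
  unfold Ms
  rw [← hT.sum_starL (fun l => cw α l * Nm (cat l) n ω i j)]
  refine Finset.sum_congr rfl fun l hl => ?_
  rw [hT.cw_starL hl, hT.cat_starL hl, Nm_starW (hT.valid hl)]

lemma Ms_indep {α : ℕ → ℝ} {T : Finset B} (hT : GoodT α T) {s : ℕ} (hs : 2 ≤ s)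
    {ω ω' : Gr n} (i j : Fin n) (h : ∀ e, e ≠ s(i, j) → (e ∈ ω ↔ e ∈ ω')) :
    Ms α T s n ω i j = Ms α T s n ω' i j := by
  unfold Ms
  refine Finset.sum_congr rfl fun l hl => ?_
  rw [Nm_indep (hT.valid hl) (hT.cat_pos (by omega) hl) (hT.long hs hl) i j h]

/-- The fixed point structure. -/
theorem Ms_next {α : ℕ → ℝ} {T : Finset B} {S : Finset ℕ} (hT : GoodT α T)
    (hS : ∀ s ∈ S, 2 ≤ s) (ω : Gr n) {i j : Fin n} (hij : i ≠ j) :
    Ms α (nextT S T) 1 n ω i j =
      sg ω s(i, j) * (1 / Real.sqrt n + ∑ s ∈ S, α s * Ms α T s n ω i j) := by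
  rw [Ms_one, sum_nextT hS, cl_nil, one_mul, lw_nil, Nm_edge ω i j hij, mul_add, mul_one_div]
  congr 1
  rw [Finset.mul_sum]
  refine Finset.sum_congr rfl fun s hs => ?_
  unfold Ms
  rw [Finset.mul_sum, Finset.mul_sum]
  refine Finset.sum_congr rfl fun l hl => ?_
  rw [cl_enc' (hS s hs) hl, lw_enc' (hS s hs) hl, Nm_closeW (hT.valid hl)
    (hT.cat_pos (by have := hS s hs; omega) hl) (hT.long (hS s hs) hl)]
  ring

/-- Difference of two nested alphabets. -/
theorem nrm2_Ms_diff {α : ℕ → ℝ} {T T' : Finset B} (hT' : GoodT α T') (hsub : T ⊆ T')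
    (hn : 0 < n) :
    nrm2 (n := n) (fun ω i j => Ms α T' 1 n ω i j - Ms α T 1 n ω i j) ≤ wt α T' - wt α T := by
  classical
  have hinj : Set.InjOn lw ((T' \ T : Finset B) : Set B) := by
    intro a ha b hb hab
    rw [Finset.mem_coe, Finset.mem_sdiff] at ha hb
    exact hT'.inj a ha.1 b hb.1 hab
  set g : WW → ℝ := fun w => ∑ a ∈ T' \ T, if lw a = w then cl α a else 0 with hg
  have hgval : ∀ a ∈ T' \ T, g (lw a) = cl α a := by
    intro a ha
    simp only [hg]
    rw [Finset.sum_eq_single a]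
    · rw [if_pos rfl]
    · intro b hb hne
      rw [if_neg]
      intro h
      exact hne (hinj (Finset.mem_coe.mpr hb) (Finset.mem_coe.mpr ha) h)
    · intro h; exact absurd ha h
  have h1 := nrm2_words ((T' \ T).image lw) (fun w hw => by
    obtain ⟨a, ha, rfl⟩ := Finset.mem_image.mp hw
    exact (hT'.ltr a (Finset.mem_sdiff.mp ha).1).valid) g hn
  have h2 : ∀ (ω : Gr n) i j, Ms α T' 1 n ω i j - Ms α T 1 n ω i j =
      ∑ w ∈ (T' \ T).image lw, g w * Nm w n ω i j := by
    intro ω i j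
    rw [Ms_one, Ms_one, Finset.sum_image hinj, ← Finset.sum_sdiff hsub, add_sub_cancel_right]
    exact Finset.sum_congr rfl fun a ha => by rw [hgval a ha]
  rw [nrm2_congr h2]
  refine h1.trans (le_of_eq ?_)
  rw [Finset.sum_image hinj]
  unfold wt
  rw [← Finset.sum_sdiff hsub, add_sub_cancel_right]
  exact Finset.sum_congr rfl fun a ha => by rw [hgval a ha]

/-- The alphabets. -/
def Lt (S : Finset ℕ) : ℕ → Finset B
  | 0 => ∅
  | k + 1 => nextT S (Lt S k)

lemma Lt_sub (S : Finset ℕ) (k : ℕ) : Lt S k ⊆ Lt S (k + 1) := by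
  induction k with
  | zero => exact Finset.empty_subset _
  | succ k ih => exact nextT_mono ih

lemma good_Lt (α : ℕ → ℝ) {S : Finset ℕ} (hS : ∀ s ∈ S, 2 ≤ s) (k : ℕ) : GoodT α (Lt S k) := by
  induction k with
  | zero => exact good_empty α
  | succ k ih => exact good_next ih hS

/-- The variances. -/
noncomputable def xk (α : ℕ → ℝ) (S : Finset ℕ) : ℕ → ℝ
  | 0 => 0
  | k + 1 => 1 + ∑ s ∈ S, α s ^ 2 * xk α S k ^ s

lemma wt_Lt (α : ℕ → ℝ) {S : Finset ℕ} (hS : ∀ s ∈ S, 2 ≤ s) (k : ℕ) :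
    wt α (Lt S k) = xk α S k := by
  induction k with
  | zero => rfl
  | succ k ih =>
    show wt α (nextT S (Lt S k)) = 1 + ∑ s ∈ S, α s ^ 2 * xk α S k ^ s
    rw [wt_next hS, ih]

end Pool.Agent.Lib.P267408
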