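import Pool.Agent.Lib.P267408.Basic

open Finset

namespace Pool.Agent.Lib.P267408

/-- Expected maximum of finitely many variables with bounded exponential moments. -/
lemma max_bound {Ω Z : Type*} (s : Finset Ω) (p : Ω → ℝ) (hp : ∀ ω ∈ s, 0 ≤ p ω)
    (hsum : ∑ ω ∈ s, p ω = 1) (Zs : Finset Z) (F : Z → Ω → ℝ) (M : Ω → ℝ)
    (hM : ∀ ω ∈ s, ∃ z ∈ Zs, M ω ≤ F z ω) (t : ℝ) (ht : 0 < t) (V : ℝ)
    (hV : ∀ z ∈ Zs, ∑ ω ∈ s, p ω * Real.exp (t * F z ω) ≤ Real.exp V) :
    ∑ ω ∈ s, p ω * M ω ≤ (Real.log Zs.card + V) / t := by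
  classical
  have hne : Zs.Nonempty := by
    have : s.Nonempty := by
      by_contra h
      rw [Finset.not_nonempty_iff_eq_empty] at h
      rw [h, Finset.sum_empty] at hsum
      exact zero_ne_one hsum
    obtain ⟨ω, hω⟩ := this
    obtain ⟨z, hz, -⟩ := hM ω hω
    exact ⟨z, hz⟩
  have hcard : (0 : ℝ) < Zs.card := by exact_mod_cast hne.card_pos
  set L := Real.log Zs.card + V with hL
  have hexpL : Real.exp L = Zs.card * Real.exp V := by
    rw [hL, Real.exp_add, Real.exp_log hcard]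
  rw [le_div_iff₀ ht]
  have h1 : ∀ ω ∈ s, M ω * t ≤ L - 1 + Real.exp (-L) * ∑ z ∈ Zs, Real.exp (t * F z ω) := by
    intro ω hω
    obtain ⟨z, hz, hzM⟩ := hM ω hω
    have h2 : Real.exp (t * M ω) ≤ ∑ z ∈ Zs, Real.exp (t * F z ω) := by
      calc Real.exp (t * M ω) ≤ Real.exp (t * F z ω) := by
            apply Real.exp_le_exp.mpr
            exact mul_le_mul_of_nonneg_left hzM ht.le
        _ ≤ _ := Finset.single_le_sum (f := fun z => Real.exp (t * F z ω))
          (fun _ _ => (Real.exp_pos _).le) hz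
    have h3 := Real.add_one_le_exp (t * M ω - L)
    have h4 : Real.exp (t * M ω - L) = Real.exp (-L) * Real.exp (t * M ω) := by
      rw [← Real.exp_add]; ring_nf
    rw [h4] at h3
    have h5 := mul_le_mul_of_nonneg_left h2 (Real.exp_pos (-L)).le
    linarith
  calc (∑ ω ∈ s, p ω * M ω) * t = ∑ ω ∈ s, p ω * (M ω * t) := by
        rw [Finset.sum_mul]
        exact Finset.sum_congr rfl fun ω _ => by ring
    _ ≤ ∑ ω ∈ s, p ω * (L - 1 + Real.exp (-L) * ∑ z ∈ Zs, Real.exp (t * F z ω)) :=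
        Finset.sum_le_sum fun ω hω => mul_le_mul_of_nonneg_left (h1 ω hω) (hp ω hω)
    _ = (L - 1) * ∑ ω ∈ s, p ω +
        Real.exp (-L) * ∑ z ∈ Zs, ∑ ω ∈ s, p ω * Real.exp (t * F z ω) := by
        rw [Finset.sum_comm, Finset.mul_sum, Finset.mul_sum, ← Finset.sum_add_distrib]
        refine Finset.sum_congr rfl fun ω _ => ?_
        rw [← Finset.mul_sum]
        ring
    _ ≤ (L - 1) * 1 + Real.exp (-L) * ∑ z ∈ Zs, Real.exp V := by
        rw [hsum]
        have h5 : ∑ z ∈ Zs, ∑ ω ∈ s, p ω * Real.exp (t * F z ω) ≤ ∑ z ∈ Zs, Real.exp V :=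
          Finset.sum_le_sum hV
        have := mul_le_mul_of_nonneg_left h5 (Real.exp_pos (-L)).le
        linarith
    _ = L := by
        rw [Finset.sum_const, nsmul_eq_mul, ← hexpL, ← Real.exp_add]
        simp

/-! ### Bernoulli subsets -/

section EB

set_option linter.unusedSectionVars false

variable {E : Type*} [DecidableEq E]

/-- Expectation over a random subset of `s` with density `q`. -/
noncomputable def EB (q : ℝ) (s : Finset E) (F : Finset E → ℝ) : ℝ :=
  ∑ ξ ∈ s.powerset, (q ^ ξ.card * (1 - q) ^ (s.card - ξ.card)) * F ξ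

lemma EB_wsum (q : ℝ) (s : Finset E) :
    ∑ ξ ∈ s.powerset, (q ^ ξ.card * (1 - q) ^ (s.card - ξ.card)) = 1 := by
  rw [Finset.sum_pow_mul_eq_add_pow]
  simp

lemma EB_const (q : ℝ) (s : Finset E) (c : ℝ) : EB q s (fun _ => c) = c := by
  unfold EB
  rw [← Finset.sum_mul, EB_wsum, one_mul]

lemma EB_w_nonneg {q : ℝ} (h0 : 0 ≤ q) (h1 : q ≤ 1) (s ξ : Finset E) :
    0 ≤ q ^ ξ.card * (1 - q) ^ (s.card - ξ.card) := by
  have : 0 ≤ 1 - q := by linarith
  positivity

lemma EB_mono {q : ℝ} (h0 : 0 ≤ q) (h1 : q ≤ 1) (s : Finset E) {F G : Finset E → ℝ}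
    (h : ∀ ξ ⊆ s, F ξ ≤ G ξ) : EB q s F ≤ EB q s G := by
  unfold EB
  refine Finset.sum_le_sum fun ξ hξ => ?_
  exact mul_le_mul_of_nonneg_left (h ξ (Finset.mem_powerset.mp hξ)) (EB_w_nonneg h0 h1 s ξ)

lemma EB_congr {q : ℝ} (s : Finset E) {F G : Finset E → ℝ}
    (h : ∀ ξ ⊆ s, F ξ = G ξ) : EB q s F = EB q s G := by
  unfold EB
  refine Finset.sum_congr rfl fun ξ hξ => ?_
  rw [h ξ (Finset.mem_powerset.mp hξ)]

lemma EB_add (q : ℝ) (s : Finset E) (F G : Finset E → ℝ) :
    EB q s (fun ξ => F ξ + G ξ) = EB q s F + EB q s G := by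
  unfold EB
  rw [← Finset.sum_add_distrib]
  exact Finset.sum_congr rfl fun _ _ => by ring

lemma EB_sub (q : ℝ) (s : Finset E) (F G : Finset E → ℝ) :
    EB q s (fun ξ => F ξ - G ξ) = EB q s F - EB q s G := by
  unfold EB
  rw [← Finset.sum_sub_distrib]
  exact Finset.sum_congr rfl fun _ _ => by ring

lemma EB_mul_left (q : ℝ) (s : Finset E) (c : ℝ) (F : Finset E → ℝ) :
    EB q s (fun ξ => c * F ξ) = c * EB q s F := by
  unfold EB
  rw [Finset.mul_sum]
  exact Finset.sum_congr rfl fun _ _ => by ring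

lemma EB_mul_right (q : ℝ) (s : Finset E) (c : ℝ) (F : Finset E → ℝ) :
    EB q s (fun ξ => F ξ * c) = EB q s F * c := by
  unfold EB
  rw [Finset.sum_mul]
  exact Finset.sum_congr rfl fun _ _ => by ring

lemma EB_sum (q : ℝ) (s : Finset E) {ι : Type*} (I : Finset ι) (F : ι → Finset E → ℝ) :
    EB q s (fun ξ => ∑ i ∈ I, F i ξ) = ∑ i ∈ I, EB q s (F i) := by
  unfold EB
  rw [Finset.sum_comm]
  exact Finset.sum_congr rfl fun _ _ => by rw [Finset.mul_sum]

lemma EB_nonneg {q : ℝ} (h0 : 0 ≤ q) (h1 : q ≤ 1) (s : Finset E) {F : Finset E → ℝ}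
    (h : ∀ ξ ⊆ s, 0 ≤ F ξ) : 0 ≤ EB q s F := by
  have := EB_mono h0 h1 s h
  rwa [EB_const] at this

lemma EB_sq {q : ℝ} (h0 : 0 ≤ q) (h1 : q ≤ 1) (s : Finset E) (F : Finset E → ℝ) :
    (EB q s F) ^ 2 ≤ EB q s (fun ξ => F ξ ^ 2) := by
  set m := EB q s F with hm
  have h2 : 0 ≤ EB q s (fun ξ => (F ξ - m) ^ 2) := EB_nonneg h0 h1 s fun ξ _ => sq_nonneg _
  have h3 : EB q s (fun ξ => (F ξ - m) ^ 2) = EB q s (fun ξ => F ξ ^ 2) - m ^ 2 := by
    have : (fun ξ => (F ξ - m) ^ 2) = fun ξ => (F ξ ^ 2 - (2 * m) * F ξ) + m ^ 2 := by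
      funext ξ; ring
    rw [this, EB_add, EB_sub, EB_const, EB_mul_left, ← hm]
    ring
  linarith

lemma EB_prod (q : ℝ) (s : Finset E) (u v : E → ℝ) :
    EB q s (fun ξ => ∏ e ∈ s, if e ∈ ξ then u e else v e) =
      ∏ e ∈ s, (q * u e + (1 - q) * v e) := by
  unfold EB
  rw [Finset.prod_add]
  refine Finset.sum_congr rfl fun ξ hξ => ?_
  rw [Finset.mem_powerset] at hξ
  rw [Finset.prod_mul_distrib, Finset.prod_mul_distrib, Finset.prod_const, Finset.prod_const,
    Finset.card_sdiff_of_subset hξ]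
  have h1 : ∏ e ∈ s, (if e ∈ ξ then u e else v e) = (∏ e ∈ ξ, u e) * ∏ e ∈ s \ ξ, v e := by
    rw [← Finset.prod_sdiff hξ, mul_comm]
    congr 1
    · exact Finset.prod_congr rfl fun e he => by rw [if_pos he]
    · exact Finset.prod_congr rfl fun e he => by rw [if_neg (Finset.mem_sdiff.mp he).2]
  simp only
  rw [h1]
  ring

lemma EB_insert (q : ℝ) (s : Finset E) {e : E} (hne : e ∉ s) (G : Finset E → ℝ) :
    EB q (insert e s) G = EB q s (fun ξ => (1 - q) * G ξ + q * G (insert e ξ)) := by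
  unfold EB
  rw [Finset.card_insert_of_notMem hne, Finset.sum_powerset_insert hne, ← Finset.sum_add_distrib]
  refine Finset.sum_congr rfl fun ξ hξ => ?_
  rw [Finset.mem_powerset] at hξ
  have h1 : e ∉ ξ := fun h => hne (hξ h)
  have h2 := Finset.card_le_card hξ
  rw [Finset.card_insert_of_notMem h1]
  have h3 : s.card + 1 - ξ.card = (s.card - ξ.card) + 1 := by omega
  have h4 : s.card + 1 - (ξ.card + 1) = s.card - ξ.card := by omega
  rw [h3, h4, pow_succ, pow_succ]
  ring

/-- A coordinate is independent of functions of the other coordinates. -/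
lemma EB_indep (q : ℝ) (s : Finset E) {e : E} (he : e ∈ s) (F : Finset E → ℝ)
    (hF : ∀ ξ ⊆ s.erase e, F (insert e ξ) = F ξ) :
    EB q s (fun ξ => (if e ∈ ξ then 1 else 0) * F ξ) = q * EB q s F := by
  have hs : s = insert e (s.erase e) := (Finset.insert_erase he).symm
  have hne : e ∉ s.erase e := Finset.notMem_erase e s
  rw [hs, EB_insert q _ hne, EB_insert q _ hne, ← EB_mul_left]
  apply EB_congr
  intro ξ hξ
  have h1 : e ∉ ξ := fun h => hne (hξ h)
  rw [if_neg h1, if_pos (Finset.mem_insert_self _ _), hF ξ hξ]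
  ring

end EB

/-- The sub-Gaussian constant of centred Bernoulli variables. -/
noncomputable def kap (q : ℝ) : ℝ := 2 * Real.sqrt q + 2 / Real.log (1 / q)

lemma kap_pos {q : ℝ} (h0 : 0 < q) (h1 : q < 1) : 0 < kap q := by
  unfold kap
  have : 0 < Real.log (1 / q) := Real.log_pos (by rw [lt_div_iff₀ h0]; linarith)
  have := Real.sqrt_pos.mpr h0
  positivity

lemma bern_mgf {q : ℝ} (h0 : 0 < q) (h1 : q < 1) (t : ℝ) :
    q * Real.exp (t * (q - 1)) + (1 - q) * Real.exp (t * q) ≤ Real.exp (kap q * t ^ 2) := by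
  have hlog : 0 < Real.log (1 / q) := Real.log_pos (by rw [lt_div_iff₀ h0]; linarith)
  set A := Real.log (1 / q) / 2 with hA
  have hA0 : 0 < A := by positivity
  have hsq := Real.sqrt_pos.mpr h0
  have hkap : kap q = 2 * Real.sqrt q + 1 / A := by
    unfold kap
    rw [hA]
    field_simp
  have hexpA : q * Real.exp A = Real.sqrt q := by
    have : Real.exp A = Real.sqrt (1 / q) := by
      rw [hA, Real.exp_half, Real.exp_log (by positivity)]
    rw [this, Real.sqrt_div' _ h0.le, Real.sqrt_one]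
    have h2 : q = Real.sqrt q * Real.sqrt q := (Real.mul_self_sqrt h0.le).symm
    field_simp
    rw [Real.sq_sqrt h0.le]
  rcases le_or_gt |t| A with ht | ht
  · -- moderate range
    have h2 : q * Real.exp (t * (q - 1)) + (1 - q) * Real.exp (t * q) =
        Real.exp (t * q) * (1 + q * (Real.exp (-t) - 1)) := by
      have : t * (q - 1) = t * q + -t := by ring
      rw [this, Real.exp_add]
      ring
    have h3 : 1 + q * (Real.exp (-t) - 1) ≤ Real.exp (q * (Real.exp (-t) - 1)) := by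
      have := Real.add_one_le_exp (q * (Real.exp (-t) - 1))
      linarith
    have h4 : Real.exp (t * q) * (1 + q * (Real.exp (-t) - 1)) ≤
        Real.exp (q * (Real.exp (-t) - 1 + t)) := by
      calc _ ≤ Real.exp (t * q) * Real.exp (q * (Real.exp (-t) - 1)) := by gcongr
        _ = _ := by rw [← Real.exp_add]; ring_nf
    rw [h2]
    refine h4.trans (Real.exp_le_exp.mpr ?_)
    have h5 : q * (Real.exp (-t) - 1 + t) ≤ 2 * Real.sqrt q * t ^ 2 := by
      rcases le_or_gt |t| 1 with ht1 | ht1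
      · have h6 := Real.abs_exp_sub_one_sub_id_le (x := -t) (by rwa [abs_neg])
        have h7 : Real.exp (-t) - 1 + t ≤ t ^ 2 := by
          have := le_abs_self (Real.exp (-t) - 1 - -t)
          nlinarith
        have h8 : q ≤ Real.sqrt q := by
          have h9 : Real.sqrt q ≤ 1 := Real.sqrt_le_one.mpr h1.le
          nlinarith [Real.mul_self_sqrt h0.le]
        calc q * (Real.exp (-t) - 1 + t) ≤ q * t ^ 2 := by gcongr
          _ ≤ 2 * Real.sqrt q * t ^ 2 := by
            have : q ≤ 2 * Real.sqrt q := by linarith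
            gcongr
      · have h6 : Real.exp (-t) ≤ Real.exp A := by
          apply Real.exp_le_exp.mpr
          have := neg_le_abs t
          linarith
        have h7 : t ≤ Real.exp A := by
          have := Real.add_one_le_exp A
          have := le_abs_self t
          linarith
        have h8 : 1 ≤ t ^ 2 := by
          have : 1 ≤ |t| ^ 2 := by nlinarith
          rwa [sq_abs] at this
        have h9 : Real.exp (-t) - 1 + t ≤ 2 * Real.exp A := by linarith
        calc q * (Real.exp (-t) - 1 + t) ≤ q * (2 * Real.exp A) := by gcongr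
          _ = 2 * Real.sqrt q * 1 := by rw [← hexpA]; ring
          _ ≤ 2 * Real.sqrt q * t ^ 2 := by gcongr
    rw [hkap]
    have : 0 ≤ 1 / A * t ^ 2 := by positivity
    nlinarith
  · -- large range
    have h2 : q * Real.exp (t * (q - 1)) + (1 - q) * Real.exp (t * q) ≤ Real.exp |t| := by
      have h3 : Real.exp (t * (q - 1)) ≤ Real.exp |t| := by
        apply Real.exp_le_exp.mpr
        calc t * (q - 1) ≤ |t * (q - 1)| := le_abs_self _
          _ = |t| * |q - 1| := abs_mul _ _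
          _ ≤ |t| * 1 := by
            gcongr
            rw [abs_le]; constructor <;> linarith
          _ = |t| := mul_one _
      have h4 : Real.exp (t * q) ≤ Real.exp |t| := by
        apply Real.exp_le_exp.mpr
        calc t * q ≤ |t * q| := le_abs_self _
          _ = |t| * |q| := abs_mul _ _
          _ ≤ |t| * 1 := by
            gcongr
            rw [abs_le]; constructor <;> linarith
          _ = |t| := mul_one _
      have h5 : 0 ≤ 1 - q := by linarith
      calc _ ≤ q * Real.exp |t| + (1 - q) * Real.exp |t| := by gcongr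
        _ = _ := by ring
    refine h2.trans (Real.exp_le_exp.mpr ?_)
    rw [hkap]
    have h3 : |t| ≤ 1 / A * t ^ 2 := by
      rw [← sq_abs, one_div, ← div_eq_inv_mul, le_div_iff₀ hA0]
      nlinarith [abs_nonneg t]
    have : 0 ≤ 2 * Real.sqrt q * t ^ 2 := by positivity
    nlinarith

lemma kap_tendsto : Filter.Tendsto kap (nhdsWithin 0 (Set.Ioi 0)) (nhds 0) := by
  unfold kap
  have h1 : Filter.Tendsto (fun q : ℝ => 2 * Real.sqrt q) (nhdsWithin 0 (Set.Ioi 0)) (nhds 0) := by
    have : Filter.Tendsto (fun q : ℝ => 2 * Real.sqrt q) (nhds 0) (nhds (2 * Real.sqrt 0)) :=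
      (continuous_const.mul Real.continuous_sqrt).tendsto 0
    rw [Real.sqrt_zero, mul_zero] at this
    exact this.mono_left nhdsWithin_le_nhds
  have h2 : Filter.Tendsto (fun q : ℝ => 2 / Real.log (1 / q)) (nhdsWithin 0 (Set.Ioi 0))
      (nhds 0) := by
    have h3 : Filter.Tendsto (fun q : ℝ => Real.log (1 / q)) (nhdsWithin 0 (Set.Ioi 0))
        Filter.atTop := by
      have h4 : Filter.Tendsto (fun q : ℝ => 1 / q) (nhdsWithin 0 (Set.Ioi 0)) Filter.atTop := by
        simp_rw [one_div]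
        exact tendsto_inv_nhdsGT_zero
      exact Real.tendsto_log_atTop.comp h4
    exact h3.const_div_atTop 2
  have := h1.add h2
  rwa [add_zero] at this

end Pool.Agent.Lib.P267408
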