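import Pool.Agent.Lib.P267408.Glue

open Finset

namespace Pool.Agent.Lib.P267408

variable {n : ℕ}

/-- All pairs of embedded words with a common last vertex. -/
noncomputable def PP (L1 L2 n : ℕ) : Finset (Fin (L1 + 1) ⊕ Fin (L2 + 1) → Fin n) := by
  classical
  exact Finset.univ.filter fun κ => Set.InjOn (fa κ) (Set.Iic L1) ∧ Set.InjOn (ga κ) (Set.Iic L2) ∧
    fa κ L1 = ga κ L2

lemma mem_PP {L1 L2 : ℕ} {κ : Fin (L1 + 1) ⊕ Fin (L2 + 1) → Fin n} :
    κ ∈ PP L1 L2 n ↔ Set.InjOn (fa κ) (Set.Iic L1) ∧ Set.InjOn (ga κ) (Set.Iic L2) ∧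
    fa κ L1 = ga κ L2 := by
  unfold PP; simp

lemma match_last {L1 L2 k : ℕ} {V : Type*} {f g : ℕ → V} (h : Match L1 L2 k f g) :
    f L1 = g L2 := by
  have := h.eq k le_rfl
  rwa [Nat.sub_add_cancel h.le1, Nat.sub_add_cancel h.le2] at this

lemma PPk_subset {L1 L2 k : ℕ} : PPk L1 L2 k n ⊆ PP L1 L2 n := by
  intro κ hκ
  rw [mem_PPk] at hκ
  rw [mem_PP]
  exact ⟨hκ.1, hκ.2.1, match_last hκ.2.2⟩

lemma match_unique {L1 L2 k k' : ℕ} {V : Type*} {f g : ℕ → V} (h : Match L1 L2 k f g)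
    (h' : Match L1 L2 k' f g) : k = k' := by
  have h1 := h.eq 0 (Nat.zero_le _)
  have h2 := h'.eq 0 (Nat.zero_le _)
  rw [Nat.add_zero, Nat.add_zero] at h1 h2
  have h3 := (h'.disj _ (Nat.sub_le _ _) _ (Nat.sub_le _ _) h1).1
  have h4 := (h.disj _ (Nat.sub_le _ _) _ (Nat.sub_le _ _) h2).1
  have := h.le1
  have := h'.le1
  omega

lemma Om_mul (w w' : ℕ × Finset (ℕ × ℕ)) (ω : Gr n) (i j : Fin n) :
    ∑ x, Om w n ω i x * Om w' n ω j x =
      ∑ κ ∈ PP w.1 w'.1 n, if (fa κ 0, ga κ 0) = (i, j) then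
        wch (symmDiff (im (fa κ) w.2) (im (ga κ) w'.2)) ω else 0 := by
  classical
  unfold Om
  have h1 : ∀ x, (∑ φ ∈ Inj w.1 n, if (ev φ 0, ev φ w.1) = (i, x) then wch (im (ev φ) w.2) ω else 0) *
      (∑ ψ ∈ Inj w'.1 n, if (ev ψ 0, ev ψ w'.1) = (j, x) then wch (im (ev ψ) w'.2) ω else 0) =
      ∑ p ∈ Inj w.1 n ×ˢ Inj w'.1 n,
        (if (ev p.1 0, ev p.1 w.1) = (i, x) then wch (im (ev p.1) w.2) ω else 0) *
        (if (ev p.2 0, ev p.2 w'.1) = (j, x) then wch (im (ev p.2) w'.2) ω else 0) := by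
    intro x
    rw [Finset.sum_mul_sum, Finset.sum_product]
  simp_rw [h1]
  rw [Finset.sum_comm]
  have h2 : ∀ p ∈ Inj w.1 n ×ˢ Inj w'.1 n,
      ∑ x, (if (ev p.1 0, ev p.1 w.1) = (i, x) then wch (im (ev p.1) w.2) ω else 0) *
        (if (ev p.2 0, ev p.2 w'.1) = (j, x) then wch (im (ev p.2) w'.2) ω else 0) =
      if ev p.1 w.1 = ev p.2 w'.1 then (if (ev p.1 0, ev p.2 0) = (i, j) then
        wch (symmDiff (im (ev p.1) w.2) (im (ev p.2) w'.2)) ω else 0) else 0 := by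
    intro p _
    rw [Finset.sum_eq_single (ev p.1 w.1)]
    · rw [← wch_mul]
      simp only [Prod.mk.injEq, and_true]
      by_cases h3 : ev p.1 0 = i <;> by_cases h4 : ev p.2 0 = j <;>
        by_cases h5 : ev p.2 w'.1 = ev p.1 w.1 <;>
        by_cases h6 : ev p.1 w.1 = ev p.2 w'.1 <;> simp_all
    · intro x _ hx
      rw [if_neg, zero_mul]
      rw [Prod.mk.injEq]
      rintro ⟨-, h⟩
      exact hx h.symm
    · intro h; exact absurd (Finset.mem_univ _) h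
  rw [Finset.sum_congr rfl h2, ← Finset.sum_filter]
  symm
  refine Finset.sum_equiv (Equiv.sumArrowEquivProdArrow _ _ _) ?_ ?_
  · intro κ
    rw [mem_PP, Finset.mem_filter, Finset.mem_product, mem_Inj, mem_Inj]
    constructor
    · rintro ⟨h3, h4, h5⟩
      exact ⟨⟨inj_of_injOn_ev h3, inj_of_injOn_ev h4⟩, h5⟩
    · rintro ⟨⟨h3, h4⟩, h5⟩
      exact ⟨injOn_ev h3, injOn_ev h4, h5⟩
  · intro κ _
    rfl

/-- The matched pairs give the glued word. -/
lemma sum_PPk (w w' : ℕ × Finset (ℕ × ℕ)) (h1 : Valid w.1 w.2) (h2 : Valid w'.1 w'.2) (k : ℕ)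
    (hC : Compat w.1 w.2 w'.1 w'.2 k) (ω : Gr n) (i j : Fin n) :
    (∑ κ ∈ PPk w.1 w'.1 k n, if (fa κ 0, ga κ 0) = (i, j) then
        wch (symmDiff (im (fa κ) w.2) (im (ga κ) w'.2)) ω else 0) =
      ((n - ((glue w w' k).1 + 1)).descFactorial k : ℝ) * Om (glue w w' k) n ω i j := by
  classical
  set m := (glue w w' k).1 with hm
  have hm' : m = (w.1 - k) + (w'.1 - k) := rfl
  have hk1 := hC.le1
  have hk2 := hC.le2
  have hchi1 : ∀ κ ∈ PPk w.1 w'.1 k n, ∀ t ≤ w.1 - k, ev (chi m k κ) t = fa κ t := by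
    intro κ hκ t ht
    rw [ev_of_le _ (by omega)]
    unfold chi
    rw [if_pos ht]
  have hchi2 : ∀ κ ∈ PPk w.1 w'.1 k n, ∀ t ≤ w'.1 - k, ev (chi m k κ) (m - t) = ga κ t := by
    intro κ hκ t ht
    rw [ev_of_le _ (by omega)]
    unfold chi
    simp only
    split_ifs with h
    · have hM := (mem_PPk.mp hκ).2.2
      have := hM.eq 0 (Nat.zero_le _)
      rw [Nat.add_zero, Nat.add_zero] at this
      have e1 : m - t = w.1 - k := by omega
      have e2 : t = w'.1 - k := by omega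
      rw [e1, e2, this]
    · congr 1
      omega
  have hinj : ∀ κ ∈ PPk w.1 w'.1 k n, chi m k κ ∈ Inj m n := by
    intro κ hκ
    rw [mem_Inj]
    apply inj_of_injOn_ev
    obtain ⟨hf, hg, hM⟩ := mem_PPk.mp hκ
    intro a ha b hb hab
    simp only [Set.mem_Iic] at ha hb
    have key : ∀ t ≤ m, (t ≤ w.1 - k ∧ ev (chi m k κ) t = fa κ t) ∨
        (w.1 - k < t ∧ ev (chi m k κ) t = ga κ (m - t)) := by
      intro t ht
      rcases Nat.lt_or_ge (w.1 - k) t with h | h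
      · right
        refine ⟨h, ?_⟩
        have := hchi2 κ hκ (m - t) (by omega)
        rwa [Nat.sub_sub_self ht] at this
      · left
        exact ⟨h, hchi1 κ hκ t h⟩
    rcases key a ha with ⟨h3, h4⟩ | ⟨h3, h4⟩ <;> rcases key b hb with ⟨h5, h6⟩ | ⟨h5, h6⟩
    · rw [h4, h6] at hab
      exact hf (by simp only [Set.mem_Iic]; omega) (by simp only [Set.mem_Iic]; omega) hab
    · rw [h4, h6] at hab
      have := (hM.disj _ (by omega) _ (by omega) hab).2
      omega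
    · rw [h4, h6] at hab
      have := (hM.disj _ (by omega) _ (by omega) hab.symm).2
      omega
    · rw [h4, h6] at hab
      have := hg (by simp only [Set.mem_Iic]; omega) (by simp only [Set.mem_Iic]; omega) hab
      omega
  have hF : ∀ κ ∈ PPk w.1 w'.1 k n, (if (fa κ 0, ga κ 0) = (i, j) then
        wch (symmDiff (im (fa κ) w.2) (im (ga κ) w'.2)) ω else 0) =
      if (ev (chi m k κ) 0, ev (chi m k κ) m) = (i, j) then
        wch (im (ev (chi m k κ)) (glue w w' k).2) ω else 0 := by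
    intro κ hκ
    have e1 := hchi1 κ hκ 0 (Nat.zero_le _)
    have e2 := hchi2 κ hκ 0 (Nat.zero_le _)
    rw [Nat.sub_zero] at e2
    rw [e1, e2, symmDiff_match h1 h2 (mem_PPk.mp hκ).2.2 hC (hchi1 κ hκ) (hchi2 κ hκ)]
  rw [Finset.sum_congr rfl hF]
  rw [← Finset.sum_fiberwise_of_maps_to hinj]
  unfold Om
  rw [Finset.mul_sum]
  refine Finset.sum_congr rfl fun χ hχ => ?_
  have h3 : ∀ κ ∈ (PPk w.1 w'.1 k n).filter (fun κ => chi m k κ = χ),
      (if (ev (chi m k κ) 0, ev (chi m k κ) m) = (i, j) then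
        wch (im (ev (chi m k κ)) (glue w w' k).2) ω else 0) =
      if (ev χ 0, ev χ m) = (i, j) then wch (im (ev χ) (glue w w' k).2) ω else 0 := by
    intro κ hκ
    rw [(Finset.mem_filter.mp hκ).2]
  rw [Finset.sum_congr rfl h3, Finset.sum_const, nsmul_eq_mul]
  rw [card_fiber hm' hk1 hk2 χ (mem_Inj.mp hχ)]

/-- The counting input for unmatched pairs. -/
lemma unmatched_count {w w' : ℕ × Finset (ℕ × ℕ)} (h1 : Valid w.1 w.2) (h2 : Valid w'.1 w'.2)
    {κ : Fin (w.1 + 1) ⊕ Fin (w'.1 + 1) → Fin n} (hκ : κ ∈ PP w.1 w'.1 n)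
    (hno : ¬ ∃ k, Match w.1 w'.1 k (fa κ) (ga κ) ∧ Compat w.1 w.2 w'.1 w'.2 k) :
    rv (fa κ 0, ga κ 0) (symmDiff (im (fa κ) w.2) (im (ga κ) w'.2)) ⊆ Finset.univ.image κ ∧
    (rv (fa κ 0, ga κ 0) (symmDiff (im (fa κ) w.2) (im (ga κ) w'.2))).card +
      2 * ((Finset.univ.image κ) \
        rv (fa κ 0, ga κ 0) (symmDiff (im (fa κ) w.2) (im (ga κ) w'.2))).card ≤ w.1 + w'.1 := by
  classical
  obtain ⟨hf, hg, hv⟩ := mem_PP.mp hκ
  set R := rv (fa κ 0, ga κ 0) (symmDiff (im (fa κ) w.2) (im (ga κ) w'.2)) with hR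
  have hRmem : ∀ x, x ∈ R ↔ NI (fa κ) (ga κ) w.2 w'.2 x := by
    intro x
    rw [hR]
    unfold rv NI
    simp
  set F1 : Finset (Fin n) := (Finset.range (w.1 + 1)).image (fa κ) with hF1
  set F2 : Finset (Fin n) := (Finset.range (w'.1 + 1)).image (ga κ) with hF2
  have hmem1 : ∀ x, x ∈ F1 ↔ ∃ a ≤ w.1, fa κ a = x := by
    intro x
    simp only [hF1, Finset.mem_image, Finset.mem_range, Nat.lt_succ_iff]
  have hmem2 : ∀ x, x ∈ F2 ↔ ∃ a ≤ w'.1, ga κ a = x := by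
    intro x
    simp only [hF2, Finset.mem_image, Finset.mem_range, Nat.lt_succ_iff]
  have hU : Finset.univ.image κ = F1 ∪ F2 := by
    ext x
    rw [Finset.mem_union, hmem1, hmem2, Finset.mem_image]
    constructor
    · rintro ⟨y, -, rfl⟩
      rcases y with y | y
      · left
        refine ⟨y, by omega, ?_⟩
        unfold fa
        rw [ev_of_le _ (by omega)]
      · right
        refine ⟨y, by omega, ?_⟩
        unfold ga
        rw [ev_of_le _ (by omega)]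
    · rintro (⟨a, ha, rfl⟩ | ⟨a, ha, rfl⟩)
      · refine ⟨Sum.inl ⟨a, by omega⟩, Finset.mem_univ _, ?_⟩
        unfold fa
        rw [ev_of_le _ ha]
      · refine ⟨Sum.inr ⟨a, by omega⟩, Finset.mem_univ _, ?_⟩
        unfold ga
        rw [ev_of_le _ ha]
  have hc1 : F1.card = w.1 + 1 := by
    rw [hF1, Finset.card_image_of_injOn, Finset.card_range]
    intro a ha b hb hab
    rw [Finset.coe_range, Set.mem_Iio] at ha hb
    exact hf (by simp only [Set.mem_Iic]; omega) (by simp only [Set.mem_Iic]; omega) hab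
  have hc2 : F2.card = w'.1 + 1 := by
    rw [hF2, Finset.card_image_of_injOn, Finset.card_range]
    intro a ha b hb hab
    rw [Finset.coe_range, Set.mem_Iio] at ha hb
    exact hg (by simp only [Set.mem_Iic]; omega) (by simp only [Set.mem_Iic]; omega) hab
  have hRsub : R ⊆ F1 ∪ F2 := by
    intro x hx
    rw [hRmem] at hx
    rw [Finset.mem_union, hmem1, hmem2]
    rcases hx with h | h | ⟨e, he, hxe⟩
    · left; exact ⟨0, Nat.zero_le _, h.symm⟩
    · right; exact ⟨0, Nat.zero_le _, h.symm⟩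
    · rw [Finset.mem_symmDiff] at he
      rcases he with ⟨he, -⟩ | ⟨he, -⟩
      · left; exact mem_im_left h1 he hxe
      · right; exact mem_im_left h2 he hxe
  -- non common vertices are incident to uncancelled edges
  have hcomm : (F1 ∪ F2) \ R ⊆ (F1 ∩ F2) \ R := by
    intro x hx
    rw [Finset.mem_sdiff, hRmem, Finset.mem_union] at hx
    rw [Finset.mem_sdiff, hRmem, Finset.mem_inter]
    obtain ⟨hx, hN⟩ := hx
    refine ⟨?_, hN⟩
    by_contra hcon
    apply hN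
    rcases hx with hx | hx
    · have hx2 : x ∉ F2 := fun h => hcon ⟨hx, h⟩
      obtain ⟨a, ha, rfl⟩ := (hmem1 x).mp hx
      rcases Nat.eq_zero_or_pos a with h0 | hpos
      · left; rw [h0]
      · right; right
        have hp := h1.path (a - 1) (by omega)
        rw [Nat.sub_add_cancel hpos] at hp
        refine ⟨s(fa κ (a - 1), fa κ a), ?_, Sym2.mem_mk_right _ _⟩
        rw [Finset.mem_symmDiff]
        left
        refine ⟨mem_im.mpr ⟨_, hp, rfl⟩, fun hm => hx2 ?_⟩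
        rw [hmem2]
        exact mem_im_left h2 hm (Sym2.mem_mk_right _ _)
    · have hx2 : x ∉ F1 := fun h => hcon ⟨h, hx⟩
      obtain ⟨a, ha, rfl⟩ := (hmem2 x).mp hx
      rcases Nat.eq_zero_or_pos a with h0 | hpos
      · right; left; rw [h0]
      · right; right
        have hp := h2.path (a - 1) (by omega)
        rw [Nat.sub_add_cancel hpos] at hp
        refine ⟨s(ga κ (a - 1), ga κ a), ?_, Sym2.mem_mk_right _ _⟩
        rw [Finset.mem_symmDiff]
        right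
        refine ⟨mem_im.mpr ⟨_, hp, rfl⟩, fun hm => hx2 ?_⟩
        rw [hmem1]
        exact mem_im_left h1 hm (Sym2.mem_mk_right _ _)
  -- two common vertices which are not isolated
  have htwo : 2 ≤ ((F1 ∩ F2) ∩ R).card := by
    by_contra hcon
    push Not at hcon
    have hle : ((F1 ∩ F2) ∩ R).card ≤ 1 := by omega
    rw [Finset.card_le_one] at hle
    apply hno
    apply struct hf hg h1 h2 hv
    intro x y hx1 hx2 hy1 hy2 hNx hNy
    apply hle
    · rw [Finset.mem_inter, Finset.mem_inter, hmem1, hmem2, hRmem]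
      exact ⟨⟨hx1, hx2⟩, hNx⟩
    · rw [Finset.mem_inter, Finset.mem_inter, hmem1, hmem2, hRmem]
      exact ⟨⟨hy1, hy2⟩, hNy⟩
  have e1 := Finset.card_union_add_card_inter F1 F2
  have e2 := Finset.card_sdiff_add_card_inter (F1 ∩ F2) R
  have e3 := Finset.card_le_card hcomm
  have e4 := Finset.card_sdiff_add_card_inter (F1 ∪ F2) R
  have e5 : (F1 ∪ F2) ∩ R = R := Finset.inter_eq_right.mpr hRsub
  rw [e5] at e4
  rw [hU]
  exact ⟨hRsub, by omega⟩

/-- The unmatched pairs. -/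
noncomputable def PN (w w' : ℕ × Finset (ℕ × ℕ)) (n : ℕ) :
    Finset (Fin (w.1 + 1) ⊕ Fin (w'.1 + 1) → Fin n) := by
  classical
  exact (PP w.1 w'.1 n).filter fun κ =>
    ¬ ∃ k, Match w.1 w'.1 k (fa κ) (ga κ) ∧ Compat w.1 w.2 w'.1 w'.2 k

lemma nrm2_PN (w w' : ℕ × Finset (ℕ × ℕ)) (h1 : Valid w.1 w.2) (h2 : Valid w'.1 w'.2) :
    ∃ C : ℝ, 0 ≤ C ∧ ∀ n : ℕ, 0 < n → nrm2 (n := n) (fun ω i j =>
      (∑ κ ∈ PN w w' n, if (fa κ 0, ga κ 0) = (i, j) then
        wch (symmDiff (im (fa κ) w.2) (im (ga κ) w'.2)) ω else 0) /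
          ((Real.sqrt n) ^ w.1 * (Real.sqrt n) ^ w'.1)) ≤ C / n := by
  classical
  set M := w.1 + w'.1 with hM
  set c : ℕ := (M + 1) * M ^ Fintype.card (Fin (w.1 + 1) ⊕ Fin (w'.1 + 1)) *
    ((M + 1) * (2 * M) ^ Fintype.card (Fin (w.1 + 1) ⊕ Fin (w'.1 + 1))) with hc
  refine ⟨c, by positivity, fun n hn => ?_⟩
  have hn' : (0 : ℝ) < n := by exact_mod_cast hn
  have hmain := count_pairs (PN w w' n)
    (fun κ => symmDiff (im (fa κ) w.2) (im (ga κ) w'.2)) (fun κ => (fa κ 0, ga κ 0)) M hn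
    (fun κ hκ => by
      unfold PN at hκ
      rw [Finset.mem_filter] at hκ
      exact (unmatched_count h1 h2 hκ.1 hκ.2).1)
    (fun κ hκ => by
      unfold PN at hκ
      rw [Finset.mem_filter] at hκ
      exact (unmatched_count h1 h2 hκ.1 hκ.2).2)
  rw [← hc] at hmain
  have h3 : (fun (ω : Gr n) (i j : Fin n) =>
      (∑ κ ∈ PN w w' n, if (fa κ 0, ga κ 0) = (i, j) then
        wch (symmDiff (im (fa κ) w.2) (im (ga κ) w'.2)) ω else 0) /
          ((Real.sqrt n) ^ w.1 * (Real.sqrt n) ^ w'.1)) =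
      fun ω i j => (1 / ((Real.sqrt n) ^ w.1 * (Real.sqrt n) ^ w'.1)) *
        ∑ κ ∈ PN w w' n, if (fa κ 0, ga κ 0) = (i, j) then
        1 * wch (symmDiff (im (fa κ) w.2) (im (ga κ) w'.2)) ω else 0 := by
    funext ω i j
    simp only [one_mul]
    ring
  rw [h3, nrm2_smul]
  have h4 : nrm2 (n := n) (fun ω i j => ∑ κ ∈ PN w w' n, if (fa κ 0, ga κ 0) = (i, j) then
        1 * wch (symmDiff (im (fa κ) w.2) (im (ga κ) w'.2)) ω else 0) ≤ (c * (n : ℝ) ^ M) / n := by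
    unfold nrm2
    rw [avg_sq_config (PN w w' n) (fun κ => (fa κ 0, ga κ 0))
      (fun κ => symmDiff (im (fa κ) w.2) (im (ga κ) w'.2)) (fun _ => 1)]
    refine div_le_div_of_nonneg_right ?_ hn'.le
    have h5 : ∑ κ ∈ PN w w' n, ∑ κ' ∈ PN w w' n,
        (if (fa κ 0, ga κ 0) = (fa κ' 0, ga κ' 0) ∧
          symmDiff (im (fa κ) w.2) (im (ga κ) w'.2) = symmDiff (im (fa κ') w.2) (im (ga κ') w'.2)
        then (1 : ℝ) * 1 else 0) = ((∑ κ ∈ PN w w' n, ((PN w w' n).filter fun κ' =>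
          (fa κ 0, ga κ 0) = (fa κ' 0, ga κ' 0) ∧
          symmDiff (im (fa κ) w.2) (im (ga κ) w'.2) =
            symmDiff (im (fa κ') w.2) (im (ga κ') w'.2)).card : ℕ) : ℝ) := by
      rw [Nat.cast_sum]
      refine Finset.sum_congr rfl fun κ _ => ?_
      rw [mul_one, Finset.sum_boole]
    rw [h5]
    exact_mod_cast hmain
  calc (1 / ((Real.sqrt n) ^ w.1 * (Real.sqrt n) ^ w'.1)) ^ 2 * nrm2 (n := n) (fun ω i j =>
        ∑ κ ∈ PN w w' n, if (fa κ 0, ga κ 0) = (i, j) then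
        1 * wch (symmDiff (im (fa κ) w.2) (im (ga κ) w'.2)) ω else 0)
      ≤ (1 / ((Real.sqrt n) ^ w.1 * (Real.sqrt n) ^ w'.1)) ^ 2 * ((c * (n : ℝ) ^ M) / n) := by
        gcongr
    _ = (c : ℝ) / n := by
        have : (1 / ((Real.sqrt n) ^ w.1 * (Real.sqrt n) ^ w'.1)) ^ 2 = 1 / (n : ℝ) ^ M := by
          rw [← pow_add, div_pow, one_pow, ← pow_mul, mul_comm _ 2, pow_mul, Real.sq_sqrt hn'.le]
        rw [this]
        field_simp

lemma pow_le_descFactorial (n m k : ℕ) :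
    n ^ k ≤ (n - (m + 1)).descFactorial k + k * (m + k) * n ^ (k - 1) := by
  rcases Nat.eq_zero_or_pos k with rfl | hk
  · simp
  have h1 : (n - (m + k)) ^ k ≤ (n - (m + 1)).descFactorial k := by
    have := Nat.pow_sub_le_descFactorial (n - (m + 1)) k
    refine le_trans (Nat.pow_le_pow_left ?_ k) this
    omega
  have h2 : ∀ (c j : ℕ), n ^ j ≤ (n - c) ^ j + j * c * n ^ (j - 1) := by
    intro c j
    induction j with
    | zero => simp
    | succ j ih =>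
      rcases Nat.eq_zero_or_pos j with rfl | hj
      · simp; omega
      have h3 : n ≤ (n - c) + c := by omega
      calc n ^ (j + 1) = n * n ^ j := by ring
        _ ≤ n * ((n - c) ^ j + j * c * n ^ (j - 1)) := Nat.mul_le_mul_left _ ih
        _ = n * (n - c) ^ j + j * c * (n * n ^ (j - 1)) := by ring
        _ = n * (n - c) ^ j + j * c * n ^ j := by
          rw [← pow_succ', Nat.sub_add_cancel hj]
        _ ≤ ((n - c) + c) * (n - c) ^ j + j * c * n ^ j := by gcongr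
        _ = (n - c) ^ (j + 1) + c * (n - c) ^ j + j * c * n ^ j := by ring
        _ ≤ (n - c) ^ (j + 1) + c * n ^ j + j * c * n ^ j := by
          gcongr
          omega
        _ = _ := by
          rw [Nat.add_sub_cancel]; ring
  calc n ^ k ≤ (n - (m + k)) ^ k + k * (m + k) * n ^ (k - 1) := h2 (m + k) k
    _ ≤ _ := by gcongr

lemma descFactorial_ratio (n m k : ℕ) (hn : 0 < n) :
    (((n - (m + 1)).descFactorial k : ℝ) / (n : ℝ) ^ k - 1) ^ 2 ≤ ((k * (m + k) : ℕ) : ℝ) ^ 2 / n := by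
  have hn' : (0 : ℝ) < n := by exact_mod_cast hn
  have hn1 : (1 : ℝ) ≤ n := by exact_mod_cast hn
  rcases Nat.eq_zero_or_pos k with rfl | hk
  · simp
  have h1 : ((n : ℝ)) ^ k ≤ ((n - (m + 1)).descFactorial k : ℝ) +
      ((k * (m + k) : ℕ) : ℝ) * (n : ℝ) ^ (k - 1) := by
    exact_mod_cast pow_le_descFactorial n m k
  have h2 : ((n - (m + 1)).descFactorial k : ℝ) ≤ (n : ℝ) ^ k := by
    have h3 := Nat.descFactorial_le_pow (n - (m + 1)) k
    have h4 : (n - (m + 1)) ^ k ≤ n ^ k := Nat.pow_le_pow_left (by omega) k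
    exact_mod_cast h3.trans h4
  have hpk : (0 : ℝ) < (n : ℝ) ^ k := by positivity
  have h3 : ((n - (m + 1)).descFactorial k : ℝ) / (n : ℝ) ^ k ≤ 1 := by
    rw [div_le_one hpk]; exact h2
  have h4 : 1 - ((k * (m + k) : ℕ) : ℝ) / n ≤ ((n - (m + 1)).descFactorial k : ℝ) / (n : ℝ) ^ k := by
    rw [le_div_iff₀ hpk]
    have : (n : ℝ) ^ k = (n : ℝ) ^ (k - 1) * n := by
      rw [← pow_succ, Nat.sub_add_cancel hk]
    have h5 : (1 - ((k * (m + k) : ℕ) : ℝ) / n) * (n : ℝ) ^ k =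
        (n : ℝ) ^ k - ((k * (m + k) : ℕ) : ℝ) * (n : ℝ) ^ (k - 1) := by
      rw [this]; field_simp
    rw [h5]; linarith
  have h5 : (((n - (m + 1)).descFactorial k : ℝ) / (n : ℝ) ^ k - 1) ^ 2 ≤
      (((k * (m + k) : ℕ) : ℝ) / n) ^ 2 := by
    apply sq_le_sq'
    · linarith
    · have : (0 : ℝ) ≤ ((k * (m + k) : ℕ) : ℝ) / n := by positivity
      linarith
  refine h5.trans ?_
  rw [div_pow]
  have : (n : ℝ) ≤ (n : ℝ) ^ 2 := by nlinarith
  gcongr

/-- The product rule. -/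
theorem prod_rule (w w' : ℕ × Finset (ℕ × ℕ)) (h1 : Valid w.1 w.2) (h2 : Valid w'.1 w'.2)
    (𝒞 : Finset ℕ) (h𝒞 : ∀ k, k ∈ 𝒞 ↔ Compat w.1 w.2 w'.1 w'.2 k) :
    ∃ C : ℝ, 0 ≤ C ∧ ∀ n : ℕ, 0 < n → nrm2 (n := n) (fun ω i j =>
      (∑ x, Nm w n ω i x * Nm w' n ω j x) - ∑ k ∈ 𝒞, Nm (glue w w' k) n ω i j) ≤ C / n := by
  classical
  obtain ⟨C, hC0, hC⟩ := nrm2_PN w w' h1 h2
  set C' : ℝ := 2 * (𝒞.card * ∑ k ∈ 𝒞, ((k * ((glue w w' k).1 + k) : ℕ) : ℝ) ^ 2) with hC'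
  have hC'0 : 0 ≤ C' := by positivity
  refine ⟨2 * C + C', by positivity, fun n hn => ?_⟩
  have hn' : (0 : ℝ) < n := by exact_mod_cast hn
  have hs : (0 : ℝ) < Real.sqrt n := Real.sqrt_pos.mpr hn'
  -- decomposition of the pairs
  have hdec : ∀ (F : (Fin (w.1 + 1) ⊕ Fin (w'.1 + 1) → Fin n) → ℝ),
      ∑ κ ∈ PP w.1 w'.1 n, F κ = ∑ κ ∈ PN w w' n, F κ + ∑ k ∈ 𝒞, ∑ κ ∈ PPk w.1 w'.1 k n, F κ := by
    intro F
    rw [← Finset.sum_biUnion]
    · rw [← Finset.sum_filter_add_sum_filter_not (PP w.1 w'.1 n) (fun κ =>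
        ¬ ∃ k, Match w.1 w'.1 k (fa κ) (ga κ) ∧ Compat w.1 w.2 w'.1 w'.2 k)]
      congr 1
      refine Finset.sum_congr ?_ fun _ _ => rfl
      ext κ
      rw [Finset.mem_filter, Finset.mem_biUnion, not_not]
      constructor
      · rintro ⟨h3, k, h4, h5⟩
        obtain ⟨h6, h7, -⟩ := mem_PP.mp h3
        exact ⟨k, (h𝒞 k).mpr h5, mem_PPk.mpr ⟨h6, h7, h4⟩⟩
      · rintro ⟨k, hk, hκ⟩
        exact ⟨PPk_subset hκ, k, (mem_PPk.mp hκ).2.2, (h𝒞 k).mp hk⟩
    · intro k _ k' _ hkk'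
      rw [Function.onFun, Finset.disjoint_left]
      intro κ h3 h4
      exact hkk' (match_unique (mem_PPk.mp h3).2.2 (mem_PPk.mp h4).2.2)
  have hsplit : (fun (ω : Gr n) (i j : Fin n) =>
      (∑ x, Nm w n ω i x * Nm w' n ω j x) - ∑ k ∈ 𝒞, Nm (glue w w' k) n ω i j) =
      fun ω i j => (∑ κ ∈ PN w w' n, if (fa κ 0, ga κ 0) = (i, j) then
        wch (symmDiff (im (fa κ) w.2) (im (ga κ) w'.2)) ω else 0) /
          ((Real.sqrt n) ^ w.1 * (Real.sqrt n) ^ w'.1) +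
        ∑ k ∈ 𝒞, (((n - ((glue w w' k).1 + 1)).descFactorial k : ℝ) / (n : ℝ) ^ k - 1) *
          Nm (glue w w' k) n ω i j := by
    funext ω i j
    have h3 : ∑ x, Nm w n ω i x * Nm w' n ω j x =
        (∑ x, Om w n ω i x * Om w' n ω j x) / ((Real.sqrt n) ^ w.1 * (Real.sqrt n) ^ w'.1) := by
      rw [Finset.sum_div]
      refine Finset.sum_congr rfl fun x _ => ?_
      unfold Nm
      rw [div_mul_div_comm]
    rw [h3, Om_mul, hdec, add_div, add_sub_assoc]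
    congr 1
    rw [Finset.sum_div, ← Finset.sum_sub_distrib]
    refine Finset.sum_congr rfl fun k hk => ?_
    have hCk := (h𝒞 k).mp hk
    rw [sum_PPk w w' h1 h2 k hCk, sub_mul, one_mul]
    congr 1
    unfold Nm
    have hpow : (Real.sqrt n) ^ w.1 * (Real.sqrt n) ^ w'.1 =
        (n : ℝ) ^ k * (Real.sqrt n) ^ (glue w w' k).1 := by
      have e1 : w.1 + w'.1 = 2 * k + (glue w w' k).1 := by
        have := hCk.le1
        have := hCk.le2
        show w.1 + w'.1 = 2 * k + ((w.1 - k) + (w'.1 - k))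
        omega
      rw [← pow_add, e1, pow_add, pow_mul, Real.sq_sqrt hn'.le]
    rw [hpow]
    field_simp
  rw [hsplit]
  refine (nrm2_add_le _ _).trans ?_
  have h3 := hC n hn
  have h4 : nrm2 (n := n) (fun ω i j => ∑ k ∈ 𝒞,
      (((n - ((glue w w' k).1 + 1)).descFactorial k : ℝ) / (n : ℝ) ^ k - 1) *
          Nm (glue w w' k) n ω i j) ≤
      (𝒞.card * ∑ k ∈ 𝒞, ((k * ((glue w w' k).1 + k) : ℕ) : ℝ) ^ 2) / n := by
    refine (nrm2_sum_le _ _).trans ?_
    rw [mul_div_assoc, Finset.sum_div]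
    gcongr with k hk
    have hw := nrm2_words {glue w w' k} (fun v hv => by
      rw [Finset.mem_singleton.mp hv]; exact valid_glue h1 h2)
      (fun _ => ((n - ((glue w w' k).1 + 1)).descFactorial k : ℝ) / (n : ℝ) ^ k - 1) hn
    simp only [Finset.sum_singleton] at hw
    exact hw.trans (descFactorial_ratio n _ k hn)
  calc _ ≤ 2 * (C / n) + 2 * ((𝒞.card * ∑ k ∈ 𝒞, ((k * ((glue w w' k).1 + k) : ℕ) : ℝ) ^ 2) / n) := by
        gcongr
    _ = (2 * C + C') / n := by rw [hC']; ring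

end Pool.Agent.Lib.P267408
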