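import Pool.Agent.Lib.P267408.Groth

open Finset

namespace Pool.Agent.Lib.P267408

variable {n : ℕ}

/-- Coefficient of an unordered pair. -/
noncomputable def ce (C : Fin n × Fin n → ℝ) (e : Sym2 (Fin n)) : ℝ :=
  ∑ p ∈ Finset.univ.filter (fun p : Fin n × Fin n => s(p.1, p.2) = e), C p

lemma fiber_card (e : Sym2 (Fin n)) :
    (Finset.univ.filter (fun p : Fin n × Fin n => s(p.1, p.2) = e)).card ≤ 2 := by
  classical
  induction e using Sym2.inductionOn with
  | hf a b =>
    refine (Finset.card_le_card (t := {(a, b), (b, a)}) ?_).trans Finset.card_le_two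
    intro p hp
    rw [Finset.mem_filter, Sym2.eq_iff] at hp
    rw [Finset.mem_insert, Finset.mem_singleton]
    rcases hp.2 with ⟨h1, h2⟩ | ⟨h1, h2⟩
    · exact Or.inl (Prod.ext h1 h2)
    · exact Or.inr (Prod.ext h1 h2)

lemma sum_ce (C : Fin n × Fin n → ℝ) (g : Sym2 (Fin n) → ℝ) :
    ∑ p : Fin n × Fin n, g s(p.1, p.2) * C p = ∑ e, g e * ce C e := by
  classical
  rw [← Finset.sum_fiberwise_of_maps_to (s := (Finset.univ : Finset (Fin n × Fin n)))
    (t := Finset.univ) (g := fun p => s(p.1, p.2)) (fun p _ => Finset.mem_univ _)]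
  refine Finset.sum_congr rfl fun e _ => ?_
  unfold ce
  rw [Finset.mul_sum]
  refine Finset.sum_congr rfl fun p hp => ?_
  rw [(Finset.mem_filter.mp hp).2]

lemma sum_ce_sq (C : Fin n × Fin n → ℝ) : ∑ e, ce C e ^ 2 ≤ 2 * ∑ p, C p ^ 2 := by
  classical
  have h1 : ∀ e, ce C e ^ 2 ≤
      2 * ∑ p ∈ Finset.univ.filter (fun p : Fin n × Fin n => s(p.1, p.2) = e), C p ^ 2 := by
    intro e
    unfold ce
    refine sq_sum_le_card_mul_sum_sq.trans ?_
    have h2 : ((Finset.univ.filter (fun p : Fin n × Fin n => s(p.1, p.2) = e)).card : ℝ) ≤ 2 := by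
      exact_mod_cast fiber_card e
    have h3 : 0 ≤ ∑ p ∈ Finset.univ.filter (fun p : Fin n × Fin n => s(p.1, p.2) = e), C p ^ 2 :=
      Finset.sum_nonneg fun _ _ => sq_nonneg _
    exact mul_le_mul_of_nonneg_right h2 h3
  calc ∑ e, ce C e ^ 2 ≤ ∑ e, 2 * ∑ p ∈ Finset.univ.filter
        (fun p : Fin n × Fin n => s(p.1, p.2) = e), C p ^ 2 := Finset.sum_le_sum fun e _ => h1 e
    _ = 2 * ∑ p, C p ^ 2 := by
        rw [← Finset.mul_sum, Finset.sum_fiberwise_of_maps_to (fun p _ => Finset.mem_univ _)]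

lemma avg_eq_EB (F : Gr n → ℝ) : avg F = EB (1 / 2) Finset.univ F := by
  unfold avg EB
  rw [Finset.sum_div, Finset.powerset_univ]
  refine Finset.sum_congr rfl fun ξ _ => ?_
  have h1 : (1 - 1 / 2 : ℝ) = 1 / 2 := by norm_num
  have h2 := Finset.card_le_univ ξ
  rw [h1, ← pow_add, Finset.card_univ, Nat.add_sub_cancel' h2, one_div, inv_pow]
  ring

/-- Exponential moments of Rademacher sums over edges. -/
lemma avg_exp (c : Sym2 (Fin n) → ℝ) :
    avg (fun ω => Real.exp (∑ e, sg ω e * c e)) ≤ Real.exp ((∑ e, c e ^ 2) / 2) := by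
  classical
  rw [avg_eq_EB]
  have h1 : ∀ ξ : Finset (Sym2 (Fin n)), Real.exp (∑ e, sg ξ e * c e) =
      ∏ e, if e ∈ ξ then Real.exp (c e) else Real.exp (-(c e)) := by
    intro ξ
    rw [Real.exp_sum]
    refine Finset.prod_congr rfl fun e _ => ?_
    unfold sg
    split_ifs
    · rw [one_mul]
    · rw [neg_one_mul]
  simp_rw [h1]
  rw [EB_prod, Finset.sum_div, Real.exp_sum]
  apply Finset.prod_le_prod
  · intro e _
    have := Real.exp_pos (c e)
    have := Real.exp_pos (-(c e))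
    norm_num
    positivity
  · intro e _
    have h2 := Real.cosh_le_exp_half_sq (c e)
    rw [Real.cosh_eq] at h2
    refine le_trans (le_of_eq ?_) h2
    ring

/-- The signed adjacency form. -/
noncomputable def BB (ω : Gr n) (x y : Fin n → ℝ) : ℝ :=
  ∑ i, ∑ j, (if i = j then 0 else -sg ω s(i, j)) * (x i * y j)

lemma BB_eq (ω : Gr n) (x y : Fin n → ℝ) : BB ω x y =
    ∑ e, sg ω e * ce (fun p => if p.1 = p.2 then 0 else -(x p.1 * y p.2)) e := by
  rw [← sum_ce, Fintype.sum_prod_type]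
  unfold BB
  refine Finset.sum_congr rfl fun i _ => Finset.sum_congr rfl fun j _ => ?_
  simp only
  split_ifs
  · ring
  · ring

/-- Short integer vectors. -/
noncomputable def Zk (n k : ℕ) : Finset (Fin n → ℤ) :=
  (Fintype.piFinset fun _ => Finset.Icc (-(4 * k : ℤ)) (4 * k)).filter fun z =>
    ∑ i, z i ^ 2 ≤ 4 * k

lemma mem_Zk {k : ℕ} {z : Fin n → ℤ} : z ∈ Zk n k ↔ ∑ i, z i ^ 2 ≤ 4 * k := by
  unfold Zk
  rw [Finset.mem_filter, Fintype.mem_piFinset]
  refine ⟨fun h => h.2, fun h => ⟨fun i => ?_, h⟩⟩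
  have h1 : z i ^ 2 ≤ ∑ i, z i ^ 2 :=
    Finset.single_le_sum (f := fun i => z i ^ 2) (fun i _ => sq_nonneg _) (Finset.mem_univ i)
  rw [Finset.mem_Icc]
  constructor <;> nlinarith

lemma zero_mem_Zk (n k : ℕ) : (0 : Fin n → ℤ) ∈ Zk n k := by
  rw [mem_Zk]
  simp

lemma sum_natAbs (x : ℝ) (hx0 : 0 < x) (hx : x ≤ 1 / 2) (K : ℕ) :
    ∑ m ∈ Finset.Icc (-(K : ℤ)) K, x ^ m.natAbs ≤ 1 + 4 * x - 4 * x ^ (K + 1) := by
  induction K with
  | zero => simp
  | succ K ih =>
    have h1 : Finset.Icc (-((K + 1 : ℕ) : ℤ)) ((K + 1 : ℕ) : ℤ) =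
        insert ((K + 1 : ℕ) : ℤ) (insert (-((K + 1 : ℕ) : ℤ)) (Finset.Icc (-(K : ℤ)) K)) := by
      ext m
      simp only [Finset.mem_insert, Finset.mem_Icc]
      push_cast
      omega
    rw [h1, Finset.sum_insert, Finset.sum_insert]
    · have e1 : ((K + 1 : ℕ) : ℤ).natAbs = K + 1 := by omega
      have e2 : (-((K + 1 : ℕ) : ℤ)).natAbs = K + 1 := by omega
      rw [e1, e2]
      have h2 : x ^ (K + 1 + 1) = x ^ (K + 1) * x := pow_succ _ _
      have h3 : 0 < x ^ (K + 1) := by positivity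
      rw [h2]
      nlinarith
    · simp only [Finset.mem_Icc, not_and, not_le]
      push_cast
      omega
    · simp only [Finset.mem_insert, Finset.mem_Icc, not_or, not_and, not_le]
      push_cast
      omega

lemma card_Zk (k : ℕ) (x : ℝ) (hx0 : 0 < x) (hx : x ≤ 1 / 2) :
    ((Zk n k).card : ℝ) * x ^ (4 * k) ≤ Real.exp (4 * x * n) := by
  classical
  have h1 : ∀ z ∈ Zk n k, x ^ (4 * k) ≤ ∏ i, x ^ (z i).natAbs := by
    intro z hz
    rw [Finset.prod_pow_eq_pow_sum]
    apply pow_le_pow_of_le_one hx0.le (by linarith)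
    have h2 := mem_Zk.mp hz
    have h3 : ∑ i, ((z i).natAbs : ℤ) ≤ ∑ i, z i ^ 2 := by
      refine Finset.sum_le_sum fun i _ => ?_
      rw [Int.natCast_natAbs, ← sq_abs]
      have h4 := abs_nonneg (z i)
      rcases h4.lt_or_eq with h | h
      · nlinarith
      · rw [← h]; simp
    have h4 : ((∑ i, (z i).natAbs : ℕ) : ℤ) ≤ ((4 * k : ℕ) : ℤ) := by
      rw [Nat.cast_sum]
      exact h3.trans (h2.trans (le_of_eq (by push_cast; ring)))
    exact_mod_cast h4
  calc ((Zk n k).card : ℝ) * x ^ (4 * k) = ∑ _z ∈ Zk n k, x ^ (4 * k) := by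
        rw [Finset.sum_const, nsmul_eq_mul]
    _ ≤ ∑ z ∈ Zk n k, ∏ i, x ^ (z i).natAbs := Finset.sum_le_sum h1
    _ ≤ ∑ z ∈ Fintype.piFinset fun _ : Fin n => Finset.Icc (-(4 * k : ℤ)) (4 * k),
        ∏ i, x ^ (z i).natAbs := by
        refine Finset.sum_le_sum_of_subset_of_nonneg (Finset.filter_subset _ _) ?_
        intro z _ _
        positivity
    _ = ∏ _i : Fin n, ∑ m ∈ Finset.Icc (-(4 * k : ℤ)) (4 * k), x ^ m.natAbs := by
        rw [Finset.prod_univ_sum]
    _ ≤ ∏ _i : Fin n, Real.exp (4 * x) := by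
        apply Finset.prod_le_prod
        · intro i _
          exact Finset.sum_nonneg fun m _ => by positivity
        · intro i _
          have h5 := sum_natAbs x hx0 hx (4 * k)
          push_cast at h5
          have h6 := Real.add_one_le_exp (4 * x)
          have h7 : 0 < 4 * x ^ (4 * k + 1) := by positivity
          linarith
    _ = Real.exp (4 * x * n) := by
        rw [Finset.prod_const, Finset.card_univ, Fintype.card_fin, ← Real.exp_nat_mul]
        ring_nf

/-- The maximum over short integer vectors. -/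
noncomputable def MS (k : ℕ) (ω : Gr n) : ℝ :=
  ((Zk n k ×ˢ Zk n k).sup' ⟨(0, 0), Finset.mem_product.mpr ⟨zero_mem_Zk n k, zero_mem_Zk n k⟩⟩
    fun p => BB ω (fun i => (p.1 i : ℝ)) fun i => (p.2 i : ℝ)) / k

lemma MS_nonneg (k : ℕ) (ω : Gr n) : 0 ≤ MS k ω := by
  unfold MS
  apply div_nonneg _ (by positivity)
  have h1 := Finset.le_sup' (s := Zk n k ×ˢ Zk n k)
    (f := fun p => BB ω (fun i => (p.1 i : ℝ)) fun i => (p.2 i : ℝ))
    (b := (0, 0)) (Finset.mem_product.mpr ⟨zero_mem_Zk n k, zero_mem_Zk n k⟩)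
  refine le_trans (le_of_eq ?_) h1
  unfold BB
  simp

lemma small_vec {k : ℕ} (hk : 0 < k) (ω : Gr n) {v : Fin n → ℝ} {B : Finset (Fin n)}
    (hB : B.card ≤ k) (hv : ∀ i ∉ B, v i = 0) : BB ω v v ≤ MS k ω * ∑ i, v i ^ 2 := by
  classical
  have hk' : (0 : ℝ) < k := by exact_mod_cast hk
  set L := ∑ i, v i ^ 2 with hL
  have hL0 : 0 ≤ L := Finset.sum_nonneg fun i _ => sq_nonneg _
  rcases hL0.lt_or_eq with hLpos | hLz
  swap
  · have hz : ∀ i, v i = 0 := by
      intro i
      have h1 : v i ^ 2 ≤ L :=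
        Finset.single_le_sum (f := fun i => v i ^ 2) (fun i _ => sq_nonneg _) (Finset.mem_univ i)
      rw [← hLz] at h1
      have h2 : v i ^ 2 = 0 := le_antisymm h1 (sq_nonneg _)
      exact pow_eq_zero_iff (two_ne_zero) |>.mp h2
    rw [← hLz, mul_zero]
    unfold BB
    refine le_of_eq (Finset.sum_eq_zero fun i _ => Finset.sum_eq_zero fun j _ => ?_)
    rw [hz i]; ring
  set c := Real.sqrt (k / L) with hc
  have hc0 : 0 < c := Real.sqrt_pos.mpr (by positivity)
  have hc2 : c ^ 2 = k / L := Real.sq_sqrt (by positivity)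
  set u : Fin n → ℝ := fun i => c * v i with hu
  have huB : ∀ i ∉ B, u i = 0 := fun i hi => by simp only [hu]; rw [hv i hi, mul_zero]
  have hu2 : ∑ i, u i ^ 2 = k := by
    simp only [hu]
    simp_rw [mul_pow]
    rw [← Finset.mul_sum, hc2, ← hL]
    field_simp
  have hround : ∀ z : Fin n → ℤ, (∀ i, z i = ⌊u i⌋ ∨ z i = ⌈u i⌉) → z ∈ Zk n k := by
    intro z hz
    rw [mem_Zk]
    have h1 : ∑ i, ((z i : ℤ) : ℝ) ^ 2 ≤ 4 * k := by
      have h2 : ∀ i, ((z i : ℤ) : ℝ) ^ 2 ≤ 2 * u i ^ 2 + (if i ∈ B then 2 else 0) := by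
        intro i
        split_ifs with hi
        · have h3 : |(z i : ℝ) - u i| ≤ 1 := by
            rw [abs_le]
            rcases hz i with h | h
            · rw [h]
              have := Int.floor_le (u i)
              have := Int.lt_floor_add_one (u i)
              constructor <;> linarith
            · rw [h]
              have := Int.le_ceil (u i)
              have := Int.ceil_lt_add_one (u i)
              constructor <;> linarith
          have h4 : ((z i : ℝ) - u i) ^ 2 ≤ 1 := by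
            rw [← sq_abs]
            exact pow_le_one₀ (abs_nonneg _) h3
          nlinarith [sq_nonneg ((z i : ℝ) - 2 * u i)]
        · have h3 := huB i hi
          have h4 : z i = 0 := by
            rcases hz i with h | h
            · rw [h, h3, Int.floor_zero]
            · rw [h, h3, Int.ceil_zero]
          rw [h4, h3]
          simp
      calc ∑ i, ((z i : ℤ) : ℝ) ^ 2 ≤ ∑ i, (2 * u i ^ 2 + (if i ∈ B then 2 else 0)) :=
            Finset.sum_le_sum fun i _ => h2 i
        _ = 2 * k + 2 * B.card := by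
            rw [Finset.sum_add_distrib, ← Finset.mul_sum, hu2, Finset.sum_ite_mem,
              Finset.univ_inter, Finset.sum_const, nsmul_eq_mul]
            ring
        _ ≤ 4 * k := by
            have : (B.card : ℝ) ≤ k := by exact_mod_cast hB
            linarith
    have h2 : ((∑ i, z i ^ 2 : ℤ) : ℝ) ≤ ((4 * k : ℤ) : ℝ) := by
      push_cast
      exact h1
    exact_mod_cast h2
  -- first rounding
  set cf : Fin n → ℝ := fun i => ∑ j, (if i = j then 0 else -sg ω s(i, j)) * u j with hcf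
  set z : Fin n → ℤ := fun i => if 0 ≤ cf i then ⌈u i⌉ else ⌊u i⌋ with hz
  have hzZ : z ∈ Zk n k := hround z (fun i => by
    simp only [hz]
    split_ifs
    · exact Or.inr rfl
    · exact Or.inl rfl)
  have hst1 : BB ω u u ≤ BB ω (fun i => (z i : ℝ)) u := by
    have h1 := vertex cf (fun i => (⌊u i⌋ : ℝ)) (fun i => (⌈u i⌉ : ℝ)) u
      (fun i => ⟨Int.floor_le _, Int.le_ceil _⟩)
    have e1 : ∀ y : Fin n → ℝ, BB ω y u = ∑ i, cf i * y i := by
      intro y
      unfold BB
      refine Finset.sum_congr rfl fun i _ => ?_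
      simp only [hcf]
      rw [Finset.sum_mul]
      exact Finset.sum_congr rfl fun j _ => by ring
    rw [e1, e1]
    refine h1.trans (le_of_eq ?_)
    refine Finset.sum_congr rfl fun i _ => ?_
    simp only [hz]
    split_ifs <;> rfl
  set df : Fin n → ℝ := fun j => ∑ i, (if i = j then 0 else -sg ω s(i, j)) * (z i : ℝ) with hdf
  set z' : Fin n → ℤ := fun j => if 0 ≤ df j then ⌈u j⌉ else ⌊u j⌋ with hz'
  have hzZ' : z' ∈ Zk n k := hround z' (fun i => by
    simp only [hz']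
    split_ifs
    · exact Or.inr rfl
    · exact Or.inl rfl)
  have hst2 : BB ω (fun i => (z i : ℝ)) u ≤ BB ω (fun i => (z i : ℝ)) fun i => (z' i : ℝ) := by
    have h1 := vertex df (fun i => (⌊u i⌋ : ℝ)) (fun i => (⌈u i⌉ : ℝ)) u
      (fun i => ⟨Int.floor_le _, Int.le_ceil _⟩)
    have e1 : ∀ y : Fin n → ℝ, BB ω (fun i => (z i : ℝ)) y = ∑ j, df j * y j := by
      intro y
      unfold BB
      rw [Finset.sum_comm]
      refine Finset.sum_congr rfl fun j _ => ?_
      simp only [hdf]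
      rw [Finset.sum_mul]
      exact Finset.sum_congr rfl fun i _ => by ring
    rw [e1, e1]
    refine h1.trans (le_of_eq ?_)
    refine Finset.sum_congr rfl fun i _ => ?_
    simp only [hz']
    split_ifs <;> rfl
  have hmax : BB ω u u ≤ k * MS k ω := by
    refine (hst1.trans hst2).trans ?_
    unfold MS
    rw [mul_div_cancel₀ _ hk'.ne']
    exact Finset.le_sup' (s := Zk n k ×ˢ Zk n k)
      (f := fun p => BB ω (fun i => (p.1 i : ℝ)) fun i => (p.2 i : ℝ))
      (b := (z, z')) (Finset.mem_product.mpr ⟨hzZ, hzZ'⟩)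
  have hscale : BB ω u u = c ^ 2 * BB ω v v := by
    unfold BB
    rw [Finset.mul_sum]
    refine Finset.sum_congr rfl fun i _ => ?_
    rw [Finset.mul_sum]
    refine Finset.sum_congr rfl fun j _ => ?_
    simp only [hu]
    ring
  rw [hscale, hc2] at hmax
  have h1 : (k : ℝ) / L * BB ω v v * (L / k) ≤ k * MS k ω * (L / k) :=
    mul_le_mul_of_nonneg_right hmax (by positivity)
  have h2 : (k : ℝ) / L * BB ω v v * (L / k) = BB ω v v := by field_simp
  have h3 : (k : ℝ) * MS k ω * (L / k) = MS k ω * L := by field_simp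
  rw [h2, h3] at h1
  exact h1

/-- Small supports. -/
lemma small_psd {k : ℕ} (hk : 0 < k) (ω : Gr n) {X : Matrix (Fin n) (Fin n) ℝ}
    (hX : X.PosSemidef) {B : Finset (Fin n)} (hB : B.card ≤ k) (hXB : ∀ i ∉ B, X i i = 0) :
    ∑ i, ∑ j, (if i = j then 0 else -sg ω s(i, j)) * X i j ≤ MS k ω * X.trace := by
  obtain ⟨m, v, hv⟩ := psd_gram hX
  have h1 : ∀ r, ∀ i ∉ B, v r i = 0 := by
    intro r i hi
    have h2 := hXB i hi
    rw [hv] at h2
    have h3 : v r i * v r i ≤ 0 := by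
      rw [← h2]
      exact Finset.single_le_sum (f := fun k => v k i * v k i) (fun k _ => mul_self_nonneg _)
        (Finset.mem_univ r)
    exact mul_self_eq_zero.mp (le_antisymm h3 (mul_self_nonneg _))
  have h2 : ∑ i, ∑ j, (if i = j then 0 else -sg ω s(i, j)) * X i j = ∑ r, BB ω (v r) (v r) := by
    unfold BB
    rw [Finset.sum_comm (s := (Finset.univ : Finset (Fin m)))]
    refine Finset.sum_congr rfl fun i _ => ?_
    rw [Finset.sum_comm (s := (Finset.univ : Finset (Fin m)))]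
    refine Finset.sum_congr rfl fun j _ => ?_
    rw [hv, Finset.mul_sum]
  have h3 : X.trace = ∑ r, ∑ i, v r i ^ 2 := by
    unfold Matrix.trace
    simp only [Matrix.diag_apply]
    simp_rw [hv]
    rw [Finset.sum_comm]
    exact Finset.sum_congr rfl fun k _ => Finset.sum_congr rfl fun i _ => by ring
  rw [h2, h3, Finset.mul_sum]
  exact Finset.sum_le_sum fun r _ => small_vec hk ω hB (h1 r)

/-- Expected size of `MS`. -/
theorem small_avg {k : ℕ} (hk : 0 < k) (hn : 0 < n) {r : ℝ} (hr : 0 < r) (hr2 : r ^ 2 ≤ 1 / 2)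
    (hkn : (k : ℝ) ≤ r ^ 4 * n) : avg (fun ω : Gr n => MS k ω) ≤ 32 * r * Real.sqrt n := by
  classical
  have hk' : (0 : ℝ) < k := by exact_mod_cast hk
  have hn' : (0 : ℝ) < n := by exact_mod_cast hn
  have hsn : 0 < Real.sqrt n := Real.sqrt_pos.mpr hn'
  set t : ℝ := r * Real.sqrt n / k with ht
  have ht0 : 0 < t := by positivity
  have hmgf : ∀ p ∈ Zk n k ×ˢ Zk n k, ∑ ω ∈ (Finset.univ : Finset (Gr n)),
      (1 / 2 ^ Fintype.card (Sym2 (Fin n))) * Real.exp (t *
        BB ω (fun i => (p.1 i : ℝ)) fun i => (p.2 i : ℝ)) ≤ Real.exp (16 * (k * t) ^ 2) := by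
    rintro ⟨z, z'⟩ hp
    rw [Finset.mem_product] at hp
    obtain ⟨h1, h2⟩ := hp
    rw [mem_Zk] at h1 h2
    simp only at h1 h2 ⊢
    have h3 : ∑ i, ((z i : ℤ) : ℝ) ^ 2 ≤ 4 * k := by exact_mod_cast h1
    have h4 : ∑ i, ((z' i : ℤ) : ℝ) ^ 2 ≤ 4 * k := by exact_mod_cast h2
    set C : Fin n × Fin n → ℝ := fun p => if p.1 = p.2 then 0 else -((z p.1 : ℝ) * (z' p.2 : ℝ))
      with hC
    have h5 : ∀ ω : Gr n, t * BB ω (fun i => (z i : ℝ)) (fun i => (z' i : ℝ)) =
        ∑ e, sg ω e * (t * ce C e) := by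
      intro ω
      rw [BB_eq, Finset.mul_sum]
      exact Finset.sum_congr rfl fun e _ => by ring
    simp_rw [h5]
    have h6 := avg_exp (n := n) (fun e => t * ce C e)
    have h7 : ∑ e, (t * ce C e) ^ 2 ≤ 32 * (k * t) ^ 2 := by
      simp_rw [mul_pow]
      rw [← Finset.mul_sum]
      have h8 := sum_ce_sq C
      have h9 : ∑ p, C p ^ 2 ≤ (4 * k) * (4 * k) := by
        calc ∑ p, C p ^ 2 ≤ ∑ p : Fin n × Fin n, (z p.1 : ℝ) ^ 2 * (z' p.2 : ℝ) ^ 2 := by
              refine Finset.sum_le_sum fun p _ => ?_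
              simp only [hC]
              split_ifs
              · rw [zero_pow (by norm_num)]; positivity
              · rw [neg_sq, mul_pow]
          _ = (∑ i, (z i : ℝ) ^ 2) * ∑ i, (z' i : ℝ) ^ 2 := by
              rw [Finset.sum_mul_sum, Fintype.sum_prod_type]
          _ ≤ _ := by
              have : 0 ≤ ∑ i, (z' i : ℝ) ^ 2 := Finset.sum_nonneg fun i _ => sq_nonneg _
              gcongr
      calc t ^ 2 * ∑ e, ce C e ^ 2 ≤ t ^ 2 * (2 * ((4 * k) * (4 * k))) := by
            gcongr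
            linarith
        _ = 32 * ((k : ℝ) ^ 2 * t ^ 2) := by ring
    have h8 : ∑ ω ∈ (Finset.univ : Finset (Gr n)), (1 / 2 ^ Fintype.card (Sym2 (Fin n)) : ℝ) *
        Real.exp (∑ e, sg ω e * (t * ce C e)) =
        avg (fun ω => Real.exp (∑ e, sg ω e * (t * ce C e))) := by
      unfold avg
      rw [Finset.sum_div]
      exact Finset.sum_congr rfl fun ω _ => by ring
    rw [h8]
    refine h6.trans (Real.exp_le_exp.mpr ?_)
    linarith
  have hmb := max_bound (Finset.univ : Finset (Gr n)) (fun _ => 1 / 2 ^ Fintype.card (Sym2 (Fin n)))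
    (fun _ _ => by positivity) (by
      rw [Finset.sum_const, Finset.card_univ, nsmul_eq_mul, card_Gr]
      field_simp) (Zk n k ×ˢ Zk n k)
    (fun p ω => BB ω (fun i => (p.1 i : ℝ)) fun i => (p.2 i : ℝ)) (fun ω => k * MS k ω)
    (fun ω _ => by
      obtain ⟨p, hp, hp'⟩ := Finset.exists_mem_eq_sup' (s := Zk n k ×ˢ Zk n k)
        ⟨(0, 0), Finset.mem_product.mpr ⟨zero_mem_Zk n k, zero_mem_Zk n k⟩⟩
        (fun p => BB ω (fun i => (p.1 i : ℝ)) fun i => (p.2 i : ℝ))
      refine ⟨p, hp, ?_⟩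
      unfold MS
      rw [mul_div_cancel₀ _ hk'.ne', hp'])
    t ht0 (16 * (k * t) ^ 2) hmgf
  have h1 : ∑ ω ∈ (Finset.univ : Finset (Gr n)), (1 / 2 ^ Fintype.card (Sym2 (Fin n)) : ℝ) *
      (k * MS k ω) = k * avg (fun ω : Gr n => MS k ω) := by
    unfold avg
    rw [mul_div_assoc', Finset.mul_sum, Finset.sum_div]
    exact Finset.sum_congr rfl fun ω _ => by ring
  rw [h1] at hmb
  -- the entropy
  have hcard := card_Zk (n := n) k (r ^ 2) (by positivity) hr2
  have hcpos : (0 : ℝ) < (Zk n k).card := by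
    have : (Zk n k).Nonempty := ⟨0, zero_mem_Zk n k⟩
    exact_mod_cast this.card_pos
  have hlog : Real.log (Zk n k).card ≤ 8 * r ^ 2 * n := by
    have h2 : Real.log ((Zk n k).card * (r ^ 2) ^ (4 * k)) ≤ 4 * r ^ 2 * n := by
      have := Real.log_le_log (by positivity) hcard
      rwa [Real.log_exp] at this
    rw [Real.log_mul hcpos.ne' (by positivity), Real.log_pow] at h2
    have h3 : -Real.log (r ^ 2) ≤ 1 / r ^ 2 := by
      have := Real.log_le_sub_one_of_pos (show 0 < 1 / r ^ 2 by positivity)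
      rw [one_div, Real.log_inv] at this
      rw [one_div]
      linarith
    have h4 : ((4 * k : ℕ) : ℝ) * (-Real.log (r ^ 2)) ≤ 4 * r ^ 2 * n := by
      calc ((4 * k : ℕ) : ℝ) * (-Real.log (r ^ 2)) ≤ ((4 * k : ℕ) : ℝ) * (1 / r ^ 2) := by gcongr
        _ = 4 * k / r ^ 2 := by push_cast; ring
        _ ≤ 4 * (r ^ 4 * n) / r ^ 2 := by gcongr
        _ = 4 * r ^ 2 * n := by field_simp
    linarith
  have hlog2 : Real.log ((Zk n k ×ˢ Zk n k).card : ℕ) ≤ 16 * r ^ 2 * n := by
    rw [Finset.card_product, Nat.cast_mul, Real.log_mul hcpos.ne' hcpos.ne']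
    linarith
  have hkt : (k : ℝ) * t = r * Real.sqrt n := by rw [ht]; field_simp
  have h2 : k * avg (fun ω : Gr n => MS k ω) ≤ (16 * r ^ 2 * n + 16 * (r * Real.sqrt n) ^ 2) / t := by
    refine hmb.trans ?_
    rw [hkt]
    gcongr
  have h3 : (16 * r ^ 2 * n + 16 * (r * Real.sqrt n) ^ 2) / t = k * (32 * r * Real.sqrt n) := by
    rw [mul_pow, Real.sq_sqrt hn'.le, ht]
    have h4 : (n : ℝ) = Real.sqrt n * Real.sqrt n := (Real.mul_self_sqrt hn'.le).symm
    field_simp
    rw [Real.sq_sqrt hn'.le]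
    ring
  rw [h3] at h2
  exact le_of_mul_le_mul_left h2 hk'

end Pool.Agent.Lib.P267408
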