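import Pool.Agent.Lib.P267408.Small

open Finset

namespace Pool.Agent.Lib.P267408

variable {n : ℕ}

/-- Density of the revealed edges. -/
noncomputable def p1 (q : ℝ) : ℝ := (1 / 2 - q) / (1 - q)

lemma p1_props {q : ℝ} (h0 : 0 < q) (h1 : q < 1 / 2) : 0 ≤ p1 q ∧ p1 q ≤ 1 ∧
    p1 q + (1 - p1 q) * q = 1 / 2 ∧ (1 - p1 q) * (1 - q) = 1 / 2 := by
  have h2 : 0 < 1 - q := by linarith
  unfold p1
  refine ⟨div_nonneg (by linarith) h2.le, ?_, ?_, ?_⟩
  · rw [div_le_one h2]; linarith
  · field_simp; ring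
  · field_simp; ring

/-- Joint expectation over the revealed edges and the remaining edges. -/
noncomputable def EJ (q : ℝ) (F : Gr n → Gr n → ℝ) : ℝ :=
  ∑ D : Gr n, (p1 q ^ D.card * (1 - p1 q) ^ (Fintype.card (Sym2 (Fin n)) - D.card)) * EB q Dᶜ (F D)

lemma EJ_mono {q : ℝ} (h0 : 0 < q) (h1 : q < 1 / 2) {F G : Gr n → Gr n → ℝ}
    (h : ∀ D, ∀ ξ ⊆ Dᶜ, F D ξ ≤ G D ξ) : EJ q F ≤ EJ q G := by
  obtain ⟨h2, h3, -, -⟩ := p1_props h0 h1
  unfold EJ
  refine Finset.sum_le_sum fun D _ => ?_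
  apply mul_le_mul_of_nonneg_left (EB_mono h0.le (by linarith) _ (h D))
  have : 0 ≤ 1 - p1 q := by linarith
  positivity

lemma EJ_add (q : ℝ) (F G : Gr n → Gr n → ℝ) :
    EJ q (fun D ξ => F D ξ + G D ξ) = EJ q F + EJ q G := by
  unfold EJ
  rw [← Finset.sum_add_distrib]
  refine Finset.sum_congr rfl fun D _ => ?_
  rw [EB_add]
  ring

lemma EJ_mul_left (q c : ℝ) (F : Gr n → Gr n → ℝ) :
    EJ q (fun D ξ => c * F D ξ) = c * EJ q F := by
  unfold EJ
  rw [Finset.mul_sum]
  refine Finset.sum_congr rfl fun D _ => ?_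
  rw [EB_mul_left]
  ring

lemma EJ_wsum (q : ℝ) : ∑ D : Gr n,
    (p1 q ^ D.card * (1 - p1 q) ^ (Fintype.card (Sym2 (Fin n)) - D.card)) = 1 := by
  have := Finset.sum_pow_mul_eq_add_pow (p1 q) (1 - p1 q) (Finset.univ : Finset (Sym2 (Fin n)))
  rw [Finset.powerset_univ, Finset.card_univ] at this
  rw [this]
  simp

lemma EJ_const (q c : ℝ) : EJ (n := n) q (fun _ _ => c) = c := by
  unfold EJ
  simp_rw [EB_const]
  rw [← Finset.sum_mul, EJ_wsum, one_mul]

/-- A function of the revealed edges only. -/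
lemma EJ_fst (q : ℝ) (F : Gr n → ℝ) : EJ q (fun D _ => F D) = ∑ D : Gr n,
    (p1 q ^ D.card * (1 - p1 q) ^ (Fintype.card (Sym2 (Fin n)) - D.card)) * F D := by
  unfold EJ
  exact Finset.sum_congr rfl fun D _ => by rw [EB_const]

/-- Averaging over the last part can be inserted. -/
lemma EJ_inner (q : ℝ) (F : Gr n → Gr n → ℝ) :
    EJ q (fun D _ => EB q Dᶜ (F D)) = EJ q F := by
  rw [EJ_fst]
  rfl

lemma EJ_union {q : ℝ} (h0 : 0 < q) (h1 : q < 1 / 2) (G : Gr n → ℝ) :
    EJ q (fun D ξ => G (D ∪ ξ)) = avg G := by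
  classical
  obtain ⟨h2, h3, h4, h5⟩ := p1_props h0 h1
  set N := Fintype.card (Sym2 (Fin n)) with hN
  have step1 : ∀ D : Gr n, (p1 q ^ D.card * (1 - p1 q) ^ (N - D.card)) *
      EB q Dᶜ (fun ξ => G (D ∪ ξ)) =
      ∑ ω ∈ Finset.univ.filter (fun ω : Gr n => D ⊆ ω),
        (1 / 2) ^ (N - ω.card) * (p1 q ^ D.card * ((1 - p1 q) * q) ^ (ω.card - D.card)) * G ω := by
    intro D
    unfold EB
    rw [Finset.mul_sum]
    refine Finset.sum_nbij' (fun ξ => D ∪ ξ) (fun ω => ω \ D) ?_ ?_ ?_ ?_ ?_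
    · intro ξ _
      rw [Finset.mem_filter]
      exact ⟨Finset.mem_univ _, Finset.subset_union_left⟩
    · intro ω _
      rw [Finset.mem_powerset]
      intro e he
      rw [Finset.mem_compl]
      exact (Finset.mem_sdiff.mp he).2
    · intro ξ hξ
      rw [Finset.mem_powerset] at hξ
      ext e
      simp only [Finset.mem_sdiff, Finset.mem_union]
      constructor
      · rintro ⟨h | h, h'⟩
        · exact absurd h h'
        · exact h
      · intro h
        exact ⟨Or.inr h, Finset.mem_compl.mp (hξ h)⟩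
    · intro ω hω
      rw [Finset.mem_filter] at hω
      exact Finset.union_sdiff_of_subset hω.2
    · intro ξ hξ
      rw [Finset.mem_powerset] at hξ
      have hdisj : Disjoint D ξ := by
        rw [Finset.disjoint_left]
        intro e he he'
        exact Finset.mem_compl.mp (hξ he') he
      have hcard : (D ∪ ξ).card = D.card + ξ.card := Finset.card_union_of_disjoint hdisj
      have hle : (D ∪ ξ).card ≤ N := Finset.card_le_univ _
      rw [hcard] at hle ⊢
      have hcc : (Dᶜ : Gr n).card = N - D.card := by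
        rw [Finset.card_compl]
      rw [hcc]
      have e1 : D.card + ξ.card - D.card = ξ.card := by omega
      have e2 : N - D.card - ξ.card = N - (D.card + ξ.card) := by omega
      have e3 : N - D.card = ξ.card + (N - (D.card + ξ.card)) := by omega
      rw [e1, e2, mul_pow, ← h5, mul_pow]
      have e4 : (1 - p1 q) ^ (N - D.card) =
          (1 - p1 q) ^ ξ.card * (1 - p1 q) ^ (N - (D.card + ξ.card)) := by
        rw [← pow_add, ← e3]
      rw [e4]
      ring
  unfold EJ
  rw [Finset.sum_congr rfl fun D _ => step1 D]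
  rw [Finset.sum_comm' (s' := fun ω : Gr n => ω.powerset) (t' := (Finset.univ : Finset (Gr n)))
    (by
      intro D ω
      simp only [Finset.mem_univ, Finset.mem_filter, Finset.mem_powerset, true_and, and_true])]
  unfold avg
  rw [Finset.sum_div]
  refine Finset.sum_congr rfl fun ω _ => ?_
  rw [← Finset.sum_mul, ← Finset.mul_sum, Finset.sum_pow_mul_eq_add_pow, h4, ← pow_add]
  have h6 : ω.card ≤ N := Finset.card_le_univ _
  rw [Nat.sub_add_cancel h6, one_div, inv_pow]
  ring

/-! ### The averaged certificate -/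

/-- Conditional mean. -/
noncomputable def cm (q : ℝ) (a : Gr n → Fin n → Fin n → ℝ) (D : Gr n) (i j : Fin n) : ℝ :=
  EB q Dᶜ (fun ξ => a (D ∪ ξ) i j)

/-- Coefficients of the noise matrix. -/
noncomputable def cc (q : ℝ) (a ε : Gr n → Fin n → Fin n → ℝ) (D : Gr n) (i j : Fin n) : ℝ :=
  2 * cm q a D i j - cm q ε D i j / q

/-- The noise matrix. -/
noncomputable def NN (q : ℝ) (a ε : Gr n → Fin n → Fin n → ℝ) (D ξ : Gr n) (i j : Fin n) : ℝ :=
  if i = j ∨ s(i, j) ∈ D then 0 else cc q a ε D i j * (q - if s(i, j) ∈ ξ then 1 else 0)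

/-- The averaged certificate. -/
lemma avg_cert {q : ℝ} (h0 : 0 < q) (h1 : q < 1 / 2) {a ε R : Gr n → Fin n → Fin n → ℝ}
    (ha : ∀ ω i, a ω i i = 0)
    (hcav : ∀ ω ω' i j, (∀ e, e ≠ s(i, j) → (e ∈ ω ↔ e ∈ ω')) → a ω i j = a ω' i j)
    (hcert : ∀ ω i j, (if i = j then 1 else 0) - 1 / Real.sqrt n + (1 + sg ω s(i, j)) * a ω i j -
        ε ω i j = ∑ x, R ω i x * R ω j x)
    (D : Gr n) {ξ0 : Gr n} {X : Matrix (Fin n) (Fin n) ℝ} (hX : X.PosSemidef)
    (hfeas : ∀ i j, i ≠ j → s(i, j) ∈ D ∪ ξ0 → X i j = 0) :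
    (∑ i, ∑ j, X i j) / Real.sqrt n ≤ X.trace + ∑ i, |cm q ε D i i| * X i i +
      ∑ i, ∑ j, NN q a ε D ξ0 i j * X i j := by
  classical
  have hq1 : q ≤ 1 := by linarith
  -- pointwise
  have hpt : ∀ ω : Gr n, 0 ≤ ∑ i, ∑ j, X i j * ((if i = j then 1 else 0) - 1 / Real.sqrt n +
      (1 + sg ω s(i, j)) * a ω i j - ε ω i j) := by
    intro ω
    have e1 : ∑ i, ∑ j, X i j * ((if i = j then 1 else 0) - 1 / Real.sqrt n +
        (1 + sg ω s(i, j)) * a ω i j - ε ω i j) =
        ∑ x, ∑ i, ∑ j, X i j * (R ω i x * R ω j x) := by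
      rw [Finset.sum_comm (s := (Finset.univ : Finset (Fin n))) (t := Finset.univ)
        (f := fun x i => ∑ j, X i j * (R ω i x * R ω j x))]
      refine Finset.sum_congr rfl fun i _ => ?_
      rw [Finset.sum_comm (s := (Finset.univ : Finset (Fin n))) (t := Finset.univ)
        (f := fun x j => X i j * (R ω i x * R ω j x))]
      refine Finset.sum_congr rfl fun j _ => ?_
      rw [hcert, Finset.mul_sum]
    rw [e1]
    exact Finset.sum_nonneg fun x _ => psd_quad hX (fun i => R ω i x)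
  have hEB : 0 ≤ EB q Dᶜ (fun ξ => ∑ i, ∑ j, X i j * ((if i = j then 1 else 0) - 1 / Real.sqrt n +
      (1 + sg (D ∪ ξ) s(i, j)) * a (D ∪ ξ) i j - ε (D ∪ ξ) i j)) :=
    EB_nonneg h0.le hq1 _ fun ξ _ => hpt _
  rw [EB_sum] at hEB
  have e2 : ∀ i, EB q Dᶜ (fun ξ => ∑ j, X i j * ((if i = j then 1 else 0) - 1 / Real.sqrt n +
      (1 + sg (D ∪ ξ) s(i, j)) * a (D ∪ ξ) i j - ε (D ∪ ξ) i j)) =
      ∑ j, X i j * ((if i = j then 1 else 0) - 1 / Real.sqrt n +
        EB q Dᶜ (fun ξ => (1 + sg (D ∪ ξ) s(i, j)) * a (D ∪ ξ) i j) - cm q ε D i j) := by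
    intro i
    rw [EB_sum]
    refine Finset.sum_congr rfl fun j _ => ?_
    rw [EB_mul_left, EB_sub, EB_add, EB_const]
    rfl
  rw [Finset.sum_congr rfl fun i _ => e2 i] at hEB
  have hterm : ∀ i j, X i j * ((if i = j then 1 else 0) - 1 / Real.sqrt n +
        EB q Dᶜ (fun ξ => (1 + sg (D ∪ ξ) s(i, j)) * a (D ∪ ξ) i j) - cm q ε D i j) ≤
      (if i = j then X i i + |cm q ε D i i| * X i i else 0) - X i j / Real.sqrt n +
        NN q a ε D ξ0 i j * X i j := by
    intro i j
    by_cases hij : i = j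
    · subst hij
      have e3 : EB q Dᶜ (fun ξ => (1 + sg (D ∪ ξ) s(i, i)) * a (D ∪ ξ) i i) = 0 := by
        simp_rw [ha, mul_zero]
        exact EB_const _ _ _
      unfold NN
      rw [e3, if_pos rfl, if_pos rfl, if_pos (Or.inl rfl)]
      have h2 : 0 ≤ X i i := hX.diag_nonneg
      have h3 := neg_abs_le (cm q ε D i i)
      have h4 : -(cm q ε D i i) * X i i ≤ |cm q ε D i i| * X i i :=
        mul_le_mul_of_nonneg_right (by linarith) h2
      have h5 : X i i * (1 - 1 / Real.sqrt n + 0 - cm q ε D i i) =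
          X i i - X i i / Real.sqrt n + -(cm q ε D i i) * X i i := by ring
      rw [h5]
      linarith
    · by_cases hD : s(i, j) ∈ D
      · have h2 := hfeas i j hij (Finset.mem_union_left _ hD)
        rw [h2, if_neg hij, if_neg hij]
        simp
      · have e3 : EB q Dᶜ (fun ξ => (1 + sg (D ∪ ξ) s(i, j)) * a (D ∪ ξ) i j) =
            2 * (q * cm q a D i j) := by
          have h2 := EB_indep q Dᶜ (Finset.mem_compl.mpr hD) (fun ξ => a (D ∪ ξ) i j) (by
            intro ξ _
            apply hcav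
            intro e he
            simp only [Finset.mem_union, Finset.mem_insert]
            tauto)
          unfold cm
          rw [← h2, ← EB_mul_left]
          apply EB_congr
          intro ξ _
          unfold sg
          by_cases hξ : s(i, j) ∈ ξ
          · rw [if_pos (Finset.mem_union_right _ hξ), if_pos hξ]; ring
          · have : s(i, j) ∉ D ∪ ξ := by
              rw [Finset.mem_union]; tauto
            rw [if_neg this, if_neg hξ]; ring
        have h6 : NN q a ε D ξ0 i j * X i j = (2 * (q * cm q a D i j) - cm q ε D i j) * X i j := by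
          unfold NN
          rw [if_neg (by tauto)]
          by_cases hξ : s(i, j) ∈ ξ0
          · rw [hfeas i j hij (Finset.mem_union_right _ hξ)]; ring
          · rw [if_neg hξ]
            unfold cc
            field_simp
            ring
        rw [e3, if_neg hij, if_neg hij, h6]
        apply le_of_eq
        ring
  have hsum := Finset.sum_le_sum fun i (_ : i ∈ (Finset.univ : Finset (Fin n))) =>
    Finset.sum_le_sum fun j (_ : j ∈ (Finset.univ : Finset (Fin n))) => hterm i j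
  have hfin := hEB.trans hsum
  simp_rw [Finset.sum_add_distrib, Finset.sum_sub_distrib] at hfin
  have e4 : ∑ i : Fin n, ∑ j : Fin n, (if i = j then X i i + |cm q ε D i i| * X i i else 0) =
      X.trace + ∑ i, |cm q ε D i i| * X i i := by
    unfold Matrix.trace
    rw [← Finset.sum_add_distrib]
    refine Finset.sum_congr rfl fun i _ => ?_
    rw [Finset.sum_ite_eq]
    simp
  have e5 : ∑ i, ∑ j, X i j / Real.sqrt n = (∑ i, ∑ j, X i j) / Real.sqrt n := by
    rw [Finset.sum_div]
    exact Finset.sum_congr rfl fun i _ => by rw [Finset.sum_div]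
  rw [e4, e5] at hfin
  linarith

/-- Maximum of the noise form over sign vectors. -/
noncomputable def TT (q : ℝ) (a ε : Gr n → Fin n → Fin n → ℝ) (D ξ : Gr n) : ℝ :=
  ((Finset.univ : Finset (Finset (Fin n) × Finset (Fin n))).sup' ⟨(∅, ∅), Finset.mem_univ _⟩
    fun p => ∑ i, ∑ j, NN q a ε D ξ i j * (sgv p.1 i * sgv p.2 j))

lemma TT_le (q : ℝ) (a ε : Gr n → Fin n → Fin n → ℝ) (D ξ : Gr n) (A B : Finset (Fin n)) :
    ∑ i, ∑ j, NN q a ε D ξ i j * (sgv A i * sgv B j) ≤ TT q a ε D ξ := by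
  unfold TT
  exact Finset.le_sup' (s := (Finset.univ : Finset (Finset (Fin n) × Finset (Fin n))))
    (f := fun p => ∑ i, ∑ j, NN q a ε D ξ i j * (sgv p.1 i * sgv p.2 j)) (b := (A, B))
    (Finset.mem_univ _)

lemma sgv_sq {ι : Type*} [DecidableEq ι] (A : Finset ι) (i : ι) : sgv A i ^ 2 = 1 := by
  unfold sgv; split_ifs <;> norm_num

/-- Conditional expectation of the maximum. -/
lemma TT_exp {q : ℝ} (h0 : 0 < q) (h1 : q < 1 / 2) (a ε : Gr n → Fin n → Fin n → ℝ) (D : Gr n)
    {t : ℝ} (ht : 0 < t) : EB q Dᶜ (TT q a ε D) ≤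
      2 * n / t + 2 * kap q * t * ∑ i, ∑ j, cc q a ε D i j ^ 2 := by
  classical
  have hq1 : q < 1 := by linarith
  have hκ := kap_pos h0 hq1
  set S := ∑ i, ∑ j, cc q a ε D i j ^ 2 with hS
  have hmgf : ∀ p ∈ (Finset.univ : Finset (Finset (Fin n) × Finset (Fin n))),
      ∑ ξ ∈ (Dᶜ : Gr n).powerset, (q ^ ξ.card * (1 - q) ^ ((Dᶜ : Gr n).card - ξ.card)) *
        Real.exp (t * ∑ i, ∑ j, NN q a ε D ξ i j * (sgv p.1 i * sgv p.2 j)) ≤
      Real.exp (2 * kap q * t ^ 2 * S) := by
    rintro ⟨A, B⟩ -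
    simp only
    set C : Fin n × Fin n → ℝ := fun p => if p.1 = p.2 then 0 else
      cc q a ε D p.1 p.2 * (sgv A p.1 * sgv B p.2) with hC
    have h2 : ∀ ξ : Gr n, t * ∑ i, ∑ j, NN q a ε D ξ i j * (sgv A i * sgv B j) =
        ∑ e ∈ Dᶜ, (t * ce C e) * (q - if e ∈ ξ then 1 else 0) := by
      intro ξ
      have h3 := sum_ce C (fun e => if e ∈ D then 0 else (q - if e ∈ ξ then 1 else 0))
      rw [Fintype.sum_prod_type] at h3
      have h4 : ∑ i, ∑ j, NN q a ε D ξ i j * (sgv A i * sgv B j) =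
          ∑ i, ∑ j, (if s(i, j) ∈ D then 0 else (q - if s(i, j) ∈ ξ then 1 else 0)) * C (i, j) := by
        refine Finset.sum_congr rfl fun i _ => Finset.sum_congr rfl fun j _ => ?_
        unfold NN
        simp only [hC]
        by_cases hij : i = j
        · rw [if_pos (Or.inl hij), if_pos hij]; ring
        · by_cases hD : s(i, j) ∈ D
          · rw [if_pos (Or.inr hD), if_pos hD]; ring
          · rw [if_neg (by tauto), if_neg hD, if_neg hij]; ring
      rw [h4, h3, ← Finset.sum_compl_add_sum D]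
      rw [mul_add, Finset.mul_sum, Finset.mul_sum]
      have h5 : ∑ e ∈ D, t * ((if e ∈ D then 0 else (q - if e ∈ ξ then 1 else 0)) * ce C e) = 0 := by
        refine Finset.sum_eq_zero fun e he => ?_
        rw [if_pos he]; ring
      rw [h5, add_zero]
      refine Finset.sum_congr rfl fun e he => ?_
      rw [if_neg (Finset.mem_compl.mp he)]
      ring
    have h6 : ∀ ξ : Gr n, Real.exp (t * ∑ i, ∑ j, NN q a ε D ξ i j * (sgv A i * sgv B j)) =
        ∏ e ∈ Dᶜ, if e ∈ ξ then Real.exp ((t * ce C e) * (q - 1)) else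
          Real.exp ((t * ce C e) * q) := by
      intro ξ
      rw [h2, Real.exp_sum]
      refine Finset.prod_congr rfl fun e _ => ?_
      split_ifs
      · rfl
      · rw [sub_zero]
    have h7 := EB_prod q Dᶜ (fun e => Real.exp ((t * ce C e) * (q - 1)))
      (fun e => Real.exp ((t * ce C e) * q))
    unfold EB at h7
    simp_rw [h6]
    rw [h7]
    calc ∏ e ∈ Dᶜ, (q * Real.exp ((t * ce C e) * (q - 1)) + (1 - q) * Real.exp ((t * ce C e) * q))
        ≤ ∏ e ∈ Dᶜ, Real.exp (kap q * (t * ce C e) ^ 2) := by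
          apply Finset.prod_le_prod
          · intro e _
            have h8 := Real.exp_pos ((t * ce C e) * (q - 1))
            have h9 := Real.exp_pos ((t * ce C e) * q)
            have : 0 ≤ 1 - q := by linarith
            positivity
          · intro e _
            exact bern_mgf h0 hq1 _
      _ = Real.exp (∑ e ∈ Dᶜ, kap q * (t * ce C e) ^ 2) := by rw [Real.exp_sum]
      _ ≤ Real.exp (2 * kap q * t ^ 2 * S) := by
          apply Real.exp_le_exp.mpr
          have h8 : ∑ e ∈ Dᶜ, kap q * (t * ce C e) ^ 2 ≤ kap q * t ^ 2 * ∑ e, ce C e ^ 2 := by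
            rw [Finset.mul_sum]
            calc ∑ e ∈ Dᶜ, kap q * (t * ce C e) ^ 2 ≤ ∑ e, kap q * (t * ce C e) ^ 2 :=
                  Finset.sum_le_sum_of_subset_of_nonneg (Finset.subset_univ _)
                    fun e _ _ => by positivity
              _ = _ := Finset.sum_congr rfl fun e _ => by ring
          have h9 := sum_ce_sq C
          have h10 : ∑ p, C p ^ 2 ≤ S := by
            rw [Fintype.sum_prod_type, hS]
            refine Finset.sum_le_sum fun i _ => Finset.sum_le_sum fun j _ => ?_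
            simp only [hC]
            split_ifs
            · rw [zero_pow (by norm_num)]; positivity
            · rw [mul_pow, mul_pow, sgv_sq, sgv_sq]
              simp
          calc _ ≤ _ := h8
            _ ≤ kap q * t ^ 2 * (2 * S) := by
              gcongr
              linarith
            _ = _ := by ring
  have hmb := max_bound (Dᶜ : Gr n).powerset
    (fun ξ => q ^ ξ.card * (1 - q) ^ ((Dᶜ : Gr n).card - ξ.card))
    (fun ξ _ => EB_w_nonneg h0.le hq1.le _ _) (EB_wsum q Dᶜ)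
    (Finset.univ : Finset (Finset (Fin n) × Finset (Fin n)))
    (fun p ξ => ∑ i, ∑ j, NN q a ε D ξ i j * (sgv p.1 i * sgv p.2 j)) (TT q a ε D)
    (fun ξ _ => by
      obtain ⟨p, hp, hp'⟩ := Finset.exists_mem_eq_sup'
        (s := (Finset.univ : Finset (Finset (Fin n) × Finset (Fin n))))
        ⟨(∅, ∅), Finset.mem_univ _⟩
        (fun p => ∑ i, ∑ j, NN q a ε D ξ i j * (sgv p.1 i * sgv p.2 j))
      exact ⟨p, hp, le_of_eq hp'⟩)
    t ht (2 * kap q * t ^ 2 * S) hmgf
  have hEq : EB q Dᶜ (TT q a ε D) = ∑ ξ ∈ (Dᶜ : Gr n).powerset,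
      (q ^ ξ.card * (1 - q) ^ ((Dᶜ : Gr n).card - ξ.card)) * TT q a ε D ξ := rfl
  rw [hEq]
  refine hmb.trans ?_
  have hcard : Real.log ((Finset.univ : Finset (Finset (Fin n) × Finset (Fin n))).card : ℕ) ≤
      2 * n := by
    rw [Finset.card_univ, Fintype.card_prod, Fintype.card_finset, Fintype.card_fin]
    push_cast
    rw [Real.log_mul (by positivity) (by positivity), Real.log_pow]
    have h8 : Real.log 2 ≤ 1 := by
      have := Real.log_le_sub_one_of_pos (show (0 : ℝ) < 2 by norm_num)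
      linarith
    have : (0 : ℝ) ≤ n := by positivity
    nlinarith
  calc (Real.log ((Finset.univ : Finset (Finset (Fin n) × Finset (Fin n))).card : ℕ) +
        2 * kap q * t ^ 2 * S) / t ≤ (2 * n + 2 * kap q * t ^ 2 * S) / t := by gcongr
    _ = 2 * n / t + 2 * kap q * t * S := by
        field_simp

end Pool.Agent.Lib.P267408
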