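import Pool.Agent.Lib.P267408.Cat

open Finset

namespace Pool.Agent.Lib.P267408

/-- Binary trees, encoding nested lists. -/
inductive B : Type
  | nil : B
  | cons : B → B → B
  deriving DecidableEq

/-- Encoding of lists of trees. -/
def enc : List B → B
  | [] => B.nil
  | a :: l => B.cons a (enc l)

lemma enc_inj {l l' : List B} (h : enc l = enc l') : l = l' := by
  induction l generalizing l' with
  | nil =>
    cases l' with
    | nil => rfl
    | cons a l' => exact absurd h (by simp [enc])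
  | cons a l ih =>
    cases l' with
    | nil => exact absurd h (by simp [enc])
    | cons a' l' =>
      simp only [enc, B.cons.injEq] at h
      rw [h.1, ih h.2]

/-- Letter made from the word `w` encoded by the tree. -/
def mkL : B → WW → WW
  | B.nil, _ => (1, {(0, 1)})
  | B.cons _ _, w => closeW w

/-- The word encoded by a tree. -/
def catB : B → WW
  | B.nil => (0, ∅)
  | B.cons a b => concat (mkL a (catB a)) (catB b)

/-- The letter encoded by a tree. -/
def lw (a : B) : WW := mkL a (catB a)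

lemma catB_enc (l : List B) : catB (enc l) = catW (l.map lw) := by
  induction l with
  | nil => rfl
  | cons a l ih =>
    show concat (lw a) (catB (enc l)) = concat (lw a) (catW (l.map lw))
    rw [ih]

lemma lw_enc {l : List B} (h : l ≠ []) : lw (enc l) = closeW (catW (l.map lw)) := by
  cases l with
  | nil => exact absurd rfl h
  | cons a l =>
    rw [← catB_enc]
    rfl

lemma lw_nil : lw B.nil = (1, {(0, 1)}) := rfl

/-- Length of the list encoded by a tree. -/
def lenB : B → ℕ
  | B.nil => 0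
  | B.cons _ b => lenB b + 1

lemma lenB_enc (l : List B) : lenB (enc l) = l.length := by
  induction l with
  | nil => rfl
  | cons a l ih => simp [enc, lenB, ih]

/-- Coefficient of a letter from that of the word. -/
def mkc (α : ℕ → ℝ) : B → ℝ → ℝ
  | B.nil, _ => 1
  | B.cons a b, x => α (lenB (B.cons a b)) * x

/-- Coefficient of the word encoded by a tree. -/
def cwB (α : ℕ → ℝ) : B → ℝ
  | B.nil => 1
  | B.cons a b => mkc α a (cwB α a) * cwB α b

/-- Coefficient of a letter. -/
def cl (α : ℕ → ℝ) (a : B) : ℝ := mkc α a (cwB α a)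

/-- Coefficient of a word. -/
def cw (α : ℕ → ℝ) (l : List B) : ℝ := (l.map (cl α)).prod

lemma cwB_enc (α : ℕ → ℝ) (l : List B) : cwB α (enc l) = cw α l := by
  induction l with
  | nil => rfl
  | cons a l ih =>
    show cl α a * cwB α (enc l) = _
    rw [ih]
    simp [cw]

lemma cl_enc (α : ℕ → ℝ) {l : List B} (h : l ≠ []) : cl α (enc l) = α l.length * cw α l := by
  cases l with
  | nil => exact absurd rfl h
  | cons a l =>
    rw [← lenB_enc, ← cwB_enc]
    rfl

lemma cl_nil (α : ℕ → ℝ) : cl α B.nil = 1 := rfl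

lemma cw_nil (α : ℕ → ℝ) : cw α [] = 1 := rfl

lemma cw_cons (α : ℕ → ℝ) (a : B) (l : List B) : cw α (a :: l) = cl α a * cw α l := by
  simp [cw]

lemma cw_append (α : ℕ → ℝ) (l l' : List B) : cw α (l ++ l') = cw α l * cw α l' := by
  simp [cw]

/-- Append for encoded lists. -/
def appB : B → B → B
  | B.nil, c => c
  | B.cons a b, c => B.cons a (appB b c)

lemma appB_enc (l l' : List B) : appB (enc l) (enc l') = enc (l ++ l') := by
  induction l with
  | nil => rfl
  | cons a l ih =>
    show B.cons a (appB (enc l) (enc l')) = B.cons a (enc (l ++ l'))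
    rw [ih]

/-- Reversal. -/
def starB : B → B
  | B.nil => B.nil
  | B.cons a b => appB (starB b) (B.cons (starB a) B.nil)

/-- Reversal of a list of letters. -/
def starL (l : List B) : List B := (l.map starB).reverse

lemma starB_enc (l : List B) : starB (enc l) = enc (starL l) := by
  induction l with
  | nil => rfl
  | cons a l ih =>
    show appB (starB (enc l)) (enc [starB a]) = _
    rw [ih, appB_enc]
    simp [starL]

/-- Words of `s` letters in `T`. -/
def Wds (T : Finset B) : ℕ → Finset (List B)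
  | 0 => {[]}
  | s + 1 => (T ×ˢ Wds T s).image fun p => p.1 :: p.2

lemma mem_Wds {T : Finset B} {s : ℕ} {l : List B} :
    l ∈ Wds T s ↔ l.length = s ∧ ∀ a ∈ l, a ∈ T := by
  induction s generalizing l with
  | zero =>
    unfold Wds
    rw [Finset.mem_singleton]
    constructor
    · rintro rfl; simp
    · rintro ⟨h, -⟩; exact List.length_eq_zero_iff.mp h
  | succ s ih =>
    unfold Wds
    rw [Finset.mem_image]
    constructor
    · rintro ⟨⟨a, m⟩, h, rfl⟩
      rw [Finset.mem_product] at h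
      have := ih.mp h.2
      refine ⟨by simp [this.1], ?_⟩
      intro b hb
      rcases List.mem_cons.mp hb with rfl | hb
      · exact h.1
      · exact this.2 b hb
    · rintro ⟨h1, h2⟩
      cases l with
      | nil => simp at h1
      | cons a m =>
        refine ⟨(a, m), ?_, rfl⟩
        rw [Finset.mem_product]
        refine ⟨h2 a (List.mem_cons_self ..), ih.mpr ⟨?_, ?_⟩⟩
        · simpa using h1
        · intro b hb
          exact h2 b (List.mem_cons_of_mem _ hb)

lemma sum_Wds_zero {T : Finset B} (F : List B → ℝ) : ∑ l ∈ Wds T 0, F l = F [] := by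
  unfold Wds
  rw [Finset.sum_singleton]

lemma sum_Wds_succ {T : Finset B} {s : ℕ} (F : List B → ℝ) :
    ∑ l ∈ Wds T (s + 1), F l = ∑ a ∈ T, ∑ l ∈ Wds T s, F (a :: l) := by
  have h : Wds T (s + 1) = (T ×ˢ Wds T s).image fun p => p.1 :: p.2 := rfl
  rw [h, Finset.sum_image, Finset.sum_product]
  rintro ⟨a, l⟩ _ ⟨b, m⟩ _ heq
  simp only [List.cons.injEq] at heq
  rw [heq.1, heq.2]

lemma sum_Wds_add {T : Finset B} {s t : ℕ} (F : List B → ℝ) :
    ∑ l ∈ Wds T (s + t), F l = ∑ u ∈ Wds T s, ∑ v ∈ Wds T t, F (u ++ v) := by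
  induction s generalizing F with
  | zero =>
    rw [Nat.zero_add, sum_Wds_zero]
    rfl
  | succ s ih =>
    rw [Nat.succ_add, sum_Wds_succ, sum_Wds_succ]
    refine Finset.sum_congr rfl fun a _ => ?_
    rw [ih (fun l => F (a :: l))]
    rfl

/-- The total squared weight of an alphabet. -/
noncomputable def wt (α : ℕ → ℝ) (T : Finset B) : ℝ := ∑ a ∈ T, cl α a ^ 2

lemma sum_cw_sq (α : ℕ → ℝ) (T : Finset B) (s : ℕ) :
    ∑ l ∈ Wds T s, cw α l ^ 2 = wt α T ^ s := by
  induction s with
  | zero => rw [sum_Wds_zero, cw_nil, pow_zero, one_pow]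
  | succ s ih =>
    rw [sum_Wds_succ, pow_succ', wt, Finset.sum_mul]
    refine Finset.sum_congr rfl fun a _ => ?_
    rw [← wt, ← ih, Finset.mul_sum]
    refine Finset.sum_congr rfl fun l _ => ?_
    rw [cw_cons]
    ring

/-- Good alphabets. -/
structure GoodT (α : ℕ → ℝ) (T : Finset B) : Prop where
  ltr : ∀ a ∈ T, Ltr (lw a)
  inj : ∀ a ∈ T, ∀ b ∈ T, lw a = lw b → a = b
  star_mem : ∀ a ∈ T, starB a ∈ T
  star_star : ∀ a ∈ T, starB (starB a) = a
  star_cl : ∀ a ∈ T, cl α (starB a) = cl α a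
  star_lw : ∀ a ∈ T, lw (starB a) = starW (lw a)

/-- The word of a list of letters. -/
def cat (l : List B) : WW := catW (l.map lw)

lemma cat_append (l l' : List B) : cat (l ++ l') = concat (cat l) (cat l') := by
  unfold cat
  rw [List.map_append, catW_append]

section good

variable {α : ℕ → ℝ} {T : Finset B} (hT : GoodT α T)
include hT

lemma GoodT.ltr_map {s : ℕ} {l : List B} (hl : l ∈ Wds T s) : ∀ w ∈ l.map lw, Ltr w := by
  intro w hw
  obtain ⟨a, ha, rfl⟩ := List.mem_map.mp hw
  exact hT.ltr a ((mem_Wds.mp hl).2 a ha)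

lemma GoodT.valid {s : ℕ} {l : List B} (hl : l ∈ Wds T s) : Valid (cat l).1 (cat l).2 :=
  valid_catW fun a ha => (hT.ltr_map hl a ha).valid

lemma GoodT.map_inj {l l' : List B} (hl : ∀ a ∈ l, a ∈ T) (hl' : ∀ a ∈ l', a ∈ T)
    (h : l.map lw = l'.map lw) : l = l' := by
  induction l generalizing l' with
  | nil =>
    cases l' with
    | nil => rfl
    | cons a l' => simp at h
  | cons a l ih =>
    cases l' with
    | nil => simp at h
    | cons a' l' =>
      simp only [List.map_cons, List.cons.injEq] at h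
      rw [hT.inj a (hl a (List.mem_cons_self ..)) a' (hl' a' (List.mem_cons_self ..)) h.1,
        ih (fun b hb => hl b (List.mem_cons_of_mem _ hb))
          (fun b hb => hl' b (List.mem_cons_of_mem _ hb)) h.2]

lemma GoodT.cat_inj {s s' : ℕ} {l l' : List B} (hl : l ∈ Wds T s) (hl' : l' ∈ Wds T s')
    (h : cat l = cat l') : l = l' := by
  apply hT.map_inj (mem_Wds.mp hl).2 (mem_Wds.mp hl').2
  exact catW_inj (hT.ltr_map hl) (hT.ltr_map hl') h

lemma GoodT.starL_mem {s : ℕ} {l : List B} (hl : l ∈ Wds T s) : starL l ∈ Wds T s := by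
  rw [mem_Wds] at hl ⊢
  unfold starL
  refine ⟨by simp [hl.1], ?_⟩
  intro a ha
  rw [List.mem_reverse, List.mem_map] at ha
  obtain ⟨b, hb, rfl⟩ := ha
  exact hT.star_mem b (hl.2 b hb)

lemma GoodT.starL_starL {s : ℕ} {l : List B} (hl : l ∈ Wds T s) : starL (starL l) = l := by
  rw [mem_Wds] at hl
  unfold starL
  rw [List.map_reverse, List.reverse_reverse, List.map_map]
  have : ∀ a ∈ l, (starB ∘ starB) a = a := fun a ha => hT.star_star a (hl.2 a ha)
  rw [List.map_congr_left this]
  simp

lemma GoodT.cw_starL {s : ℕ} {l : List B} (hl : l ∈ Wds T s) : cw α (starL l) = cw α l := by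
  rw [mem_Wds] at hl
  unfold starL cw
  rw [List.map_reverse, List.prod_reverse, List.map_map]
  congr 1
  exact List.map_congr_left fun a ha => hT.star_cl a (hl.2 a ha)

lemma GoodT.cat_starL {s : ℕ} {l : List B} (hl : l ∈ Wds T s) : cat (starL l) = starW (cat l) := by
  unfold cat
  rw [starW_catW fun a ha => (hT.ltr_map hl a ha).valid]
  unfold starL
  rw [List.map_reverse, List.map_map, List.map_map]
  congr 2
  exact List.map_congr_left fun a ha => hT.star_lw a ((mem_Wds.mp hl).2 a ha)

lemma GoodT.sum_starL {s : ℕ} (F : List B → ℝ) :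
    ∑ l ∈ Wds T s, F (starL l) = ∑ l ∈ Wds T s, F l := by
  refine Finset.sum_nbij' starL starL ?_ ?_ ?_ ?_ ?_
  · intro l hl; exact hT.starL_mem hl
  · intro l hl; exact hT.starL_mem hl
  · intro l hl; exact hT.starL_starL hl
  · intro l hl; exact hT.starL_starL hl
  · intro l _; rfl

end good

/-- The random matrix of all words with `s` letters. -/
noncomputable def Ms (α : ℕ → ℝ) (T : Finset B) (s n : ℕ) (ω : Gr n) (i j : Fin n) : ℝ :=
  ∑ l ∈ Wds T s, cw α l * Nm (cat l) n ω i j

lemma nrm2_congr {n : ℕ} {F G : Gr n → Fin n → Fin n → ℝ} (h : ∀ ω i j, F ω i j = G ω i j) :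
    nrm2 F = nrm2 G := by
  have : F = G := by funext ω i j; exact h ω i j
  rw [this]

/-- Orthogonality. -/
theorem nrm2_Ms {α : ℕ → ℝ} {T : Finset B} (hT : GoodT α T) (U : Finset ℕ) (β : ℕ → ℝ) {n : ℕ}
    (hn : 0 < n) : nrm2 (n := n) (fun ω i j => ∑ s ∈ U, β s * Ms α T s n ω i j) ≤
      ∑ s ∈ U, β s ^ 2 * wt α T ^ s := by
  classical
  set Λ : Finset (List B) := U.biUnion fun s => Wds T s with hΛ
  have hdisj : (U : Set ℕ).PairwiseDisjoint fun s => Wds T s := by
    intro s _ t _ hst
    rw [Function.onFun, Finset.disjoint_left]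
    intro l h1 h2
    exact hst ((mem_Wds.mp h1).1.symm.trans (mem_Wds.mp h2).1)
  have hinj : Set.InjOn cat (Λ : Set (List B)) := by
    intro l hl l' hl' h
    rw [Finset.mem_coe, hΛ, Finset.mem_biUnion] at hl hl'
    obtain ⟨s, -, hs⟩ := hl
    obtain ⟨s', -, hs'⟩ := hl'
    exact hT.cat_inj hs hs' h
  -- coefficient of a word
  set g : WW → ℝ := fun w => ∑ l ∈ Λ, if cat l = w then β l.length * cw α l else 0 with hg
  have hgval : ∀ l ∈ Λ, g (cat l) = β l.length * cw α l := by
    intro l hl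
    simp only [hg]
    rw [Finset.sum_eq_single l]
    · rw [if_pos rfl]
    · intro l' hl' hne
      rw [if_neg]
      intro h
      exact hne (hinj (Finset.mem_coe.mpr hl') (Finset.mem_coe.mpr hl) h)
    · intro h; exact absurd hl h
  have h1 := nrm2_words (Λ.image cat) (fun w hw => by
    obtain ⟨l, hl, rfl⟩ := Finset.mem_image.mp hw
    rw [hΛ, Finset.mem_biUnion] at hl
    obtain ⟨s, -, hs⟩ := hl
    exact hT.valid hs) g hn
  have h2 : ∀ ω i j, ∑ s ∈ U, β s * Ms α T s n ω i j =
      ∑ w ∈ Λ.image cat, g w * Nm w n ω i j := by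
    intro ω i j
    rw [Finset.sum_image hinj, hΛ, Finset.sum_biUnion hdisj]
    refine Finset.sum_congr rfl fun s hs => ?_
    unfold Ms
    rw [Finset.mul_sum]
    refine Finset.sum_congr rfl fun l hl => ?_
    rw [hgval l (by rw [hΛ, Finset.mem_biUnion]; exact ⟨s, hs, hl⟩), (mem_Wds.mp hl).1]
    ring
  rw [nrm2_congr h2]
  refine h1.trans (le_of_eq ?_)
  rw [Finset.sum_image hinj, hΛ, Finset.sum_biUnion hdisj]
  refine Finset.sum_congr rfl fun s hs => ?_
  rw [← sum_cw_sq, Finset.mul_sum]
  refine Finset.sum_congr rfl fun l hl => ?_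
  rw [hgval l (by rw [hΛ, Finset.mem_biUnion]; exact ⟨s, hs, hl⟩), (mem_Wds.mp hl).1]
  ring

/-- The algebraic part of the product rule. -/
lemma Ms_mul_algebra {α : ℕ → ℝ} {T : Finset B} (hT : GoodT α T) (s t n : ℕ) (ω : Gr n)
    (i j : Fin n) :
    ∑ l ∈ Wds T s, ∑ l' ∈ Wds T t, cw α l * cw α l' *
      (∑ κ ∈ Finset.range (min s t + 1), if l.drop (s - κ) = l'.drop (t - κ) then
        Nm (concat (cat (l.take (s - κ))) (starW (cat (l'.take (t - κ))))) n ω i j else 0) =
      ∑ κ ∈ Finset.range (min s t + 1), wt α T ^ κ * Ms α T (s + t - 2 * κ) n ω i j := by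
  classical
  have h0 : ∀ l ∈ Wds T s, ∑ l' ∈ Wds T t, cw α l * cw α l' *
      (∑ κ ∈ Finset.range (min s t + 1), if l.drop (s - κ) = l'.drop (t - κ) then
        Nm (concat (cat (l.take (s - κ))) (starW (cat (l'.take (t - κ))))) n ω i j else 0) =
      ∑ κ ∈ Finset.range (min s t + 1), ∑ l' ∈ Wds T t, cw α l * cw α l' *
        (if l.drop (s - κ) = l'.drop (t - κ) then
        Nm (concat (cat (l.take (s - κ))) (starW (cat (l'.take (t - κ))))) n ω i j else 0) := by
    intro l _
    rw [Finset.sum_comm]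
    refine Finset.sum_congr rfl fun l' _ => ?_
    rw [Finset.mul_sum]
  rw [Finset.sum_congr rfl h0, Finset.sum_comm]
  refine Finset.sum_congr rfl fun κ hκ => ?_
  rw [Finset.mem_range] at hκ
  obtain ⟨a, rfl⟩ : ∃ a, s = a + κ := ⟨s - κ, by omega⟩
  obtain ⟨b, rfl⟩ : ∃ b, t = b + κ := ⟨t - κ, by omega⟩
  have e1 : a + κ + (b + κ) - 2 * κ = a + b := by omega
  rw [e1, Nat.add_sub_cancel, Nat.add_sub_cancel, sum_Wds_add]
  have h1 : ∀ u ∈ Wds T a, ∀ v ∈ Wds T κ, ∑ l' ∈ Wds T (b + κ), cw α (u ++ v) * cw α l' *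
        (if (u ++ v).drop a = l'.drop b then
        Nm (concat (cat ((u ++ v).take a)) (starW (cat (l'.take b)))) n ω i j else 0) =
      cw α v ^ 2 * ∑ u' ∈ Wds T b, cw α u * cw α u' * Nm (concat (cat u) (starW (cat u'))) n ω i j := by
    intro u hu v hv
    have hua := (mem_Wds.mp hu).1
    rw [sum_Wds_add, Finset.mul_sum]
    refine Finset.sum_congr rfl fun u' hu' => ?_
    have hub := (mem_Wds.mp hu').1
    have e2 : (u ++ v).drop a = v := by rw [← hua, List.drop_left]
    have e3 : (u ++ v).take a = u := by rw [← hua, List.take_left]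
    rw [e2, e3, Finset.sum_eq_single v]
    · have e4 : (u' ++ v).drop b = v := by rw [← hub, List.drop_left]
      have e5 : (u' ++ v).take b = u' := by rw [← hub, List.take_left]
      rw [e4, e5, if_pos rfl, cw_append, cw_append]
      ring
    · intro v' _ hne
      have e4 : (u' ++ v').drop b = v' := by rw [← hub, List.drop_left]
      rw [e4, if_neg (fun h => hne h.symm), mul_zero]
    · intro h; exact absurd hv h
  rw [Finset.sum_congr rfl fun u hu => Finset.sum_congr rfl fun v hv => h1 u hu v hv]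
  have h2 : ∀ u ∈ Wds T a, ∑ v ∈ Wds T κ, cw α v ^ 2 * (∑ u' ∈ Wds T b, cw α u * cw α u' *
      Nm (concat (cat u) (starW (cat u'))) n ω i j) =
      wt α T ^ κ * ∑ u' ∈ Wds T b, cw α (u ++ u') * Nm (cat (u ++ u')) n ω i j := by
    intro u hu
    rw [← Finset.sum_mul, sum_cw_sq]
    congr 1
    rw [← hT.sum_starL (fun u' => cw α (u ++ u') * Nm (cat (u ++ u')) n ω i j)]
    refine Finset.sum_congr rfl fun u' hu' => ?_
    rw [cw_append, cat_append, hT.cw_starL hu', hT.cat_starL hu']
  rw [Finset.sum_congr rfl h2, ← Finset.mul_sum]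
  unfold Ms
  rw [sum_Wds_add]

/-- The product rule for the matrices `Ms`. -/
theorem Ms_mul {α : ℕ → ℝ} {T : Finset B} (hT : GoodT α T) (s t : ℕ) :
    ∃ C : ℝ, 0 ≤ C ∧ ∀ n : ℕ, 0 < n → nrm2 (n := n) (fun ω i j =>
      (∑ x, Ms α T s n ω i x * Ms α T t n ω j x) -
        ∑ κ ∈ Finset.range (min s t + 1), wt α T ^ κ * Ms α T (s + t - 2 * κ) n ω i j) ≤ C / n := by
  classical
  have hex : ∀ p : List B × List B, ∃ C : ℝ, 0 ≤ C ∧ (p ∈ Wds T s ×ˢ Wds T t →
      ∀ n : ℕ, 0 < n → nrm2 (n := n) (fun ω i j =>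
      (∑ x, Nm (cat p.1) n ω i x * Nm (cat p.2) n ω j x) -
        ∑ κ ∈ Finset.range (min s t + 1),
          if p.1.drop (s - κ) = p.2.drop (t - κ) then
            Nm (concat (cat (p.1.take (s - κ))) (starW (cat (p.2.take (t - κ)))))
              n ω i j else 0) ≤ C / n) := by
    rintro ⟨l, l'⟩
    by_cases hp : (l, l') ∈ Wds T s ×ˢ Wds T t
    · rw [Finset.mem_product] at hp
      obtain ⟨hl, hl'⟩ := hp
      obtain ⟨C, hC0, hC⟩ := prod_rule_list (hT.ltr_map hl) (hT.ltr_map hl')
      refine ⟨C, hC0, fun _ n hn => ?_⟩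
      have h1 := hC n hn
      rw [List.length_map, List.length_map, (mem_Wds.mp hl).1, (mem_Wds.mp hl').1] at h1
      refine le_trans (le_of_eq (nrm2_congr ?_)) h1
      intro ω i j
      congr 1
      refine Finset.sum_congr rfl fun κ _ => ?_
      rw [← List.map_drop, ← List.map_drop, ← List.map_take, ← List.map_take]
      have hiff : (l.drop (s - κ)).map lw = (l'.drop (t - κ)).map lw ↔
          l.drop (s - κ) = l'.drop (t - κ) := by
        constructor
        · intro h
          exact hT.map_inj (fun a ha => (mem_Wds.mp hl).2 a (List.mem_of_mem_drop ha))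
            (fun a ha => (mem_Wds.mp hl').2 a (List.mem_of_mem_drop ha)) h
        · intro h; rw [h]
      by_cases h2 : l.drop (s - κ) = l'.drop (t - κ)
      · rw [if_pos h2, if_pos (hiff.mpr h2)]
        rfl
      · rw [if_neg h2, if_neg (fun h => h2 (hiff.mp h))]
    · exact ⟨0, le_rfl, fun h => absurd h hp⟩
  choose Cf hCf0 hCf using hex
  set P := Wds T s ×ˢ Wds T t with hP
  refine ⟨P.card * ∑ p ∈ P, (cw α p.1 * cw α p.2) ^ 2 * Cf p, ?_, fun n hn => ?_⟩
  · refine mul_nonneg (by positivity) (Finset.sum_nonneg fun p _ => mul_nonneg (sq_nonneg _) (hCf0 p))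
  have h1 : ∀ (ω : Gr n) i j, (∑ x, Ms α T s n ω i x * Ms α T t n ω j x) -
        ∑ κ ∈ Finset.range (min s t + 1), wt α T ^ κ * Ms α T (s + t - 2 * κ) n ω i j =
      ∑ p ∈ P, (cw α p.1 * cw α p.2) * ((∑ x, Nm (cat p.1) n ω i x * Nm (cat p.2) n ω j x) -
        ∑ κ ∈ Finset.range (min s t + 1),
          if p.1.drop (s - κ) = p.2.drop (t - κ) then
            Nm (concat (cat (p.1.take (s - κ))) (starW (cat (p.2.take (t - κ)))))
              n ω i j else 0) := by
    intro ω i j
    rw [← Ms_mul_algebra hT s t n ω i j]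
    simp_rw [mul_sub]
    rw [Finset.sum_sub_distrib]
    congr 1
    · rw [hP, Finset.sum_product]
      unfold Ms
      have h2 : ∀ x, (∑ l ∈ Wds T s, cw α l * Nm (cat l) n ω i x) *
          (∑ l ∈ Wds T t, cw α l * Nm (cat l) n ω j x) =
          ∑ l ∈ Wds T s, ∑ l' ∈ Wds T t,
            cw α l * cw α l' * (Nm (cat l) n ω i x * Nm (cat l') n ω j x) := by
        intro x
        rw [Finset.sum_mul_sum]
        refine Finset.sum_congr rfl fun l _ => Finset.sum_congr rfl fun l' _ => by ring
      simp_rw [h2]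
      rw [Finset.sum_comm]
      refine Finset.sum_congr rfl fun l _ => ?_
      rw [Finset.sum_comm]
      refine Finset.sum_congr rfl fun l' _ => ?_
      rw [Finset.mul_sum]
    · rw [hP, Finset.sum_product]
  rw [nrm2_congr h1]
  refine (nrm2_sum_le _ _).trans ?_
  rw [mul_div_assoc, Finset.sum_div]
  gcongr with p hp
  rw [nrm2_smul, mul_div_assoc]
  gcongr
  exact hCf p hp n hn

end Pool.Agent.Lib.P267408
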