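import Pool.Agent.Lib.P267408.Spr
import Pool.Agent.Lib.P267408.Amp

open Finset

namespace Pool.Agent.Lib.P267408

variable {n : ℕ}

lemma avg_sq_eq (hn : 0 < n) (F : Gr n → Fin n → Fin n → ℝ) :
    avg (fun ω => ∑ i, ∑ j, (F ω i j) ^ 2) = n * nrm2 F := by
  have hn' : (0 : ℝ) < n := by exact_mod_cast hn
  unfold nrm2
  field_simp

lemma cm_sq_le {q : ℝ} (h0 : 0 < q) (h1 : q < 1 / 2) (F : Gr n → Fin n → Fin n → ℝ) (D : Gr n) :
    ∑ i, ∑ j, cm q F D i j ^ 2 ≤ EB q Dᶜ (fun ξ => ∑ i, ∑ j, (F (D ∪ ξ) i j) ^ 2) := by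
  rw [EB_sum]
  refine Finset.sum_le_sum fun i _ => ?_
  rw [EB_sum]
  refine Finset.sum_le_sum fun j _ => ?_
  exact EB_sq h0.le (by linarith) _ _

lemma EJ_cm_sq {q : ℝ} (h0 : 0 < q) (h1 : q < 1 / 2) (hn : 0 < n)
    (F : Gr n → Fin n → Fin n → ℝ) :
    EJ q (fun D _ => ∑ i, ∑ j, cm q F D i j ^ 2) ≤ n * nrm2 F := by
  calc EJ q (fun D _ => ∑ i, ∑ j, cm q F D i j ^ 2)
      ≤ EJ q (fun D _ => EB q Dᶜ (fun ξ => ∑ i, ∑ j, (F (D ∪ ξ) i j) ^ 2)) :=
        EJ_mono h0 h1 fun D _ _ => cm_sq_le h0 h1 F D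
    _ = EJ q (fun D ξ => ∑ i, ∑ j, (F (D ∪ ξ) i j) ^ 2) :=
        EJ_inner q (fun D ξ => ∑ i, ∑ j, (F (D ∪ ξ) i j) ^ 2)
    _ = avg (fun ω => ∑ i, ∑ j, (F ω i j) ^ 2) :=
        EJ_union h0 h1 (fun ω => ∑ i, ∑ j, (F ω i j) ^ 2)
    _ = n * nrm2 F := avg_sq_eq hn F

lemma EJ_cc {q : ℝ} (h0 : 0 < q) (h1 : q < 1 / 2) (hn : 0 < n)
    (a ε : Gr n → Fin n → Fin n → ℝ) :
    EJ q (fun D _ => ∑ i, ∑ j, cc q a ε D i j ^ 2) ≤
      n * (8 * nrm2 a + 2 / q ^ 2 * nrm2 ε) := by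
  have h2 : ∀ D : Gr n, ∑ i, ∑ j, cc q a ε D i j ^ 2 ≤
      8 * (∑ i, ∑ j, cm q a D i j ^ 2) + 2 / q ^ 2 * ∑ i, ∑ j, cm q ε D i j ^ 2 := by
    intro D
    rw [Finset.mul_sum, Finset.mul_sum, ← Finset.sum_add_distrib]
    refine Finset.sum_le_sum fun i _ => ?_
    rw [Finset.mul_sum, Finset.mul_sum, ← Finset.sum_add_distrib]
    refine Finset.sum_le_sum fun j _ => ?_
    unfold cc
    have h3 : 2 / q ^ 2 * cm q ε D i j ^ 2 = 2 * (cm q ε D i j / q) ^ 2 := by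
      rw [div_pow]; ring
    rw [h3]
    nlinarith [sq_nonneg (2 * cm q a D i j + cm q ε D i j / q)]
  have h3 := EJ_mono h0 h1 (F := fun D _ => ∑ i, ∑ j, cc q a ε D i j ^ 2)
    (G := fun D _ => 8 * (∑ i, ∑ j, cm q a D i j ^ 2) +
      2 / q ^ 2 * ∑ i, ∑ j, cm q ε D i j ^ 2) (fun D _ _ => h2 D)
  refine h3.trans ?_
  rw [EJ_add, EJ_mul_left, EJ_mul_left]
  have h4 := EJ_cm_sq h0 h1 hn a
  have h5 := EJ_cm_sq h0 h1 hn ε
  have h6 : 2 / q ^ 2 * EJ q (fun D _ => ∑ i, ∑ j, cm q ε D i j ^ 2) ≤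
      2 / q ^ 2 * (n * nrm2 ε) := by gcongr
  calc _ ≤ 8 * (n * nrm2 a) + 2 / q ^ 2 * (n * nrm2 ε) := by linarith
    _ = _ := by ring

lemma EJ_diag {q : ℝ} (h0 : 0 < q) (h1 : q < 1 / 2) (hn : 0 < n)
    (ε : Gr n → Fin n → Fin n → ℝ) {s : ℝ} (hs : 0 < s) (hε : nrm2 ε ≤ s ^ 2) :
    EJ q (fun D _ => ∑ i, |cm q ε D i i|) ≤ n * s := by
  have hn' : (0 : ℝ) < n := by exact_mod_cast hn
  have h2 : ∀ D : Gr n, ∑ i, |cm q ε D i i| ≤
      1 / (2 * s) * (∑ i, ∑ j, cm q ε D i j ^ 2) + n * s / 2 := by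
    intro D
    have h3 : ∀ i, |cm q ε D i i| ≤ 1 / (2 * s) * (∑ j, cm q ε D i j ^ 2) + s / 2 := by
      intro i
      have h4 : cm q ε D i i ^ 2 ≤ ∑ j, cm q ε D i j ^ 2 :=
        Finset.single_le_sum (f := fun j => cm q ε D i j ^ 2) (fun _ _ => sq_nonneg _)
          (Finset.mem_univ i)
      have h5 : |cm q ε D i i| ≤ 1 / (2 * s) * cm q ε D i i ^ 2 + s / 2 := by
        rw [← sq_abs]
        have h6 : 0 ≤ (|cm q ε D i i| - s) ^ 2 / (2 * s) := by positivity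
        have h7 : (|cm q ε D i i| - s) ^ 2 / (2 * s) =
            1 / (2 * s) * |cm q ε D i i| ^ 2 + s / 2 - |cm q ε D i i| := by
          field_simp; ring
        linarith
      have h8 : 1 / (2 * s) * cm q ε D i i ^ 2 ≤ 1 / (2 * s) * ∑ j, cm q ε D i j ^ 2 := by
        gcongr
      linarith
    calc ∑ i, |cm q ε D i i| ≤ ∑ i, (1 / (2 * s) * (∑ j, cm q ε D i j ^ 2) + s / 2) :=
          Finset.sum_le_sum fun i _ => h3 i
      _ = _ := by
          rw [Finset.sum_add_distrib, ← Finset.mul_sum, Finset.sum_const, Finset.card_univ,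
            Fintype.card_fin, nsmul_eq_mul]
          ring
  have h3 := EJ_mono h0 h1 (F := fun D _ => ∑ i, |cm q ε D i i|)
    (G := fun D _ => 1 / (2 * s) * (∑ i, ∑ j, cm q ε D i j ^ 2) + n * s / 2) (fun D _ _ => h2 D)
  refine h3.trans ?_
  rw [EJ_add, EJ_mul_left, EJ_const]
  have h4 := EJ_cm_sq h0 h1 hn ε
  have h5 : 1 / (2 * s) * EJ q (fun D _ => ∑ i, ∑ j, cm q ε D i j ^ 2) ≤
      1 / (2 * s) * (n * s ^ 2) := by
    apply mul_le_mul_of_nonneg_left _ (by positivity)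
    exact h4.trans (by gcongr)
  have h6 : 1 / (2 * s) * (n * s ^ 2) = n * s / 2 := by field_simp
  linarith

/-! ### Restriction to a set of indices -/

/-- Restriction of a matrix to a set of indices. -/
def restr (B : Finset (Fin n)) (X : Matrix (Fin n) (Fin n) ℝ) : Matrix (Fin n) (Fin n) ℝ :=
  Matrix.of fun i j => if i ∈ B ∧ j ∈ B then X i j else 0

lemma restr_apply (B : Finset (Fin n)) (X : Matrix (Fin n) (Fin n) ℝ) (i j : Fin n) :
    restr B X i j = if i ∈ B ∧ j ∈ B then X i j else 0 := rfl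

lemma restr_quad (B : Finset (Fin n)) (X : Matrix (Fin n) (Fin n) ℝ) (x : Fin n → ℝ) :
    ∑ i, ∑ j, restr B X i j * (x i * x j) =
      ∑ i, ∑ j, X i j * ((if i ∈ B then x i else 0) * (if j ∈ B then x j else 0)) := by
  refine Finset.sum_congr rfl fun i _ => Finset.sum_congr rfl fun j _ => ?_
  rw [restr_apply]
  by_cases h1 : i ∈ B <;> by_cases h2 : j ∈ B <;> simp [h1, h2]

lemma restr_psd (B : Finset (Fin n)) {X : Matrix (Fin n) (Fin n) ℝ} (hX : X.PosSemidef) :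
    (restr B X).PosSemidef := by
  apply psd_of_quad
  · intro i j
    rw [restr_apply, restr_apply, psd_symm hX i j]
    by_cases h1 : i ∈ B <;> by_cases h2 : j ∈ B <;> simp [h1, h2]
  · intro x
    rw [restr_quad]
    exact psd_quad hX _

lemma restr_trace (B : Finset (Fin n)) {X : Matrix (Fin n) (Fin n) ℝ} (hX : X.PosSemidef) :
    (restr B X).trace ≤ X.trace := by
  unfold Matrix.trace
  refine Finset.sum_le_sum fun i _ => ?_
  rw [Matrix.diag_apply, Matrix.diag_apply, restr_apply]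
  split_ifs
  · exact le_rfl
  · exact hX.diag_nonneg

lemma split_sum (B : Finset (Fin n)) {X : Matrix (Fin n) (Fin n) ℝ} (hX : X.PosSemidef)
    {θ : ℝ} (hθ : 0 < θ) : ∑ i, ∑ j, X i j ≤
      (1 + 1 / θ) * (∑ i, ∑ j, restr B X i j) + (1 + θ) * ∑ i, ∑ j, restr Bᶜ X i j := by
  classical
  set b : Fin n → ℝ := fun i => if i ∈ B then 1 else 0 with hb
  set c : Fin n → ℝ := fun i => if i ∈ Bᶜ then 1 else 0 with hc
  have hbc : ∀ i, b i + c i = 1 := by
    intro i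
    simp only [hb, hc, Finset.mem_compl]
    by_cases h : i ∈ B <;> simp [h]
  have e1 : ∑ i, ∑ j, restr B X i j = ∑ i, ∑ j, X i j * (b i * b j) := by
    have := restr_quad B X (fun _ => 1)
    simp only [mul_one] at this
    exact this
  have e2 : ∑ i, ∑ j, restr Bᶜ X i j = ∑ i, ∑ j, X i j * (c i * c j) := by
    have := restr_quad Bᶜ X (fun _ => 1)
    simp only [mul_one] at this
    exact this
  have e3 : ∑ i, ∑ j, X i j = ∑ i, ∑ j, X i j * (b i * b j) +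
      ∑ i, ∑ j, X i j * (b i * c j + c i * b j) + ∑ i, ∑ j, X i j * (c i * c j) := by
    rw [← Finset.sum_add_distrib, ← Finset.sum_add_distrib]
    refine Finset.sum_congr rfl fun i _ => ?_
    rw [← Finset.sum_add_distrib, ← Finset.sum_add_distrib]
    refine Finset.sum_congr rfl fun j _ => ?_
    have : X i j = X i j * ((b i + c i) * (b j + c j)) := by rw [hbc, hbc]; ring
    rw [this]
    have h2 : (b i + c i) * (b j + c j) = 1 := by rw [hbc, hbc]; ring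
    calc X i j * ((b i + c i) * (b j + c j)) = X i j * ((b i + c i) * (b j + c j)) *
        ((b i + c i) * (b j + c j)) := by rw [h2]; ring
      _ = X i j * ((b i + c i) * (b j + c j)) * (b i * b j) +
        X i j * ((b i + c i) * (b j + c j)) * (b i * c j + c i * b j) +
        X i j * ((b i + c i) * (b j + c j)) * (c i * c j) := by ring
  have e4 := psd_quad hX (fun i => b i - θ * c i)
  have e5 : ∑ i, ∑ j, X i j * ((b i - θ * c i) * (b j - θ * c j)) =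
      ∑ i, ∑ j, X i j * (b i * b j) - θ * ∑ i, ∑ j, X i j * (b i * c j + c i * b j) +
        θ ^ 2 * ∑ i, ∑ j, X i j * (c i * c j) := by
    rw [Finset.mul_sum, Finset.mul_sum, ← Finset.sum_sub_distrib, ← Finset.sum_add_distrib]
    refine Finset.sum_congr rfl fun i _ => ?_
    rw [Finset.mul_sum, Finset.mul_sum, ← Finset.sum_sub_distrib, ← Finset.sum_add_distrib]
    exact Finset.sum_congr rfl fun j _ => by ring
  rw [e5] at e4
  rw [e1, e2, e3]
  set P := ∑ i, ∑ j, X i j * (b i * b j)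
  set Q := ∑ i, ∑ j, X i j * (b i * c j + c i * b j)
  set R := ∑ i, ∑ j, X i j * (c i * c j)
  have h3 : Q ≤ 1 / θ * P + θ * R := by
    have h4 : 0 ≤ (P - θ * Q + θ ^ 2 * R) / θ := div_nonneg e4 hθ.le
    have h5 : (P - θ * Q + θ ^ 2 * R) / θ = 1 / θ * P - Q + θ * R := by field_simp
    linarith
  linarith

/-- The deterministic bound for the theta number. -/
lemma th_bound {q : ℝ} (h0 : 0 < q) (h1 : q < 1 / 2) (hn : 0 < n)
    {a ε R : Gr n → Fin n → Fin n → ℝ}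
    (ha : ∀ ω i, a ω i i = 0)
    (hcav : ∀ ω ω' i j, (∀ e, e ≠ s(i, j) → (e ∈ ω ↔ e ∈ ω')) → a ω i j = a ω' i j)
    (hcert : ∀ ω i j, (if i = j then 1 else 0) - 1 / Real.sqrt n + (1 + sg ω s(i, j)) * a ω i j -
        ε ω i j = ∑ x, R ω i x * R ω j x)
    {C0 : ℝ} (hC0 : 0 < C0) {k : ℕ} (hk : 0 < k) (hkC : n / C0 ≤ k) {θ : ℝ} (hθ : 0 < θ)
    (D ξ : Gr n) :
    th (D ∪ ξ) / Real.sqrt n ≤ (1 + 1 / θ) * ((1 + MS k (D ∪ ξ)) / Real.sqrt n) +
      (1 + θ) * (1 + C0 / n * (∑ i, |cm q ε D i i| + 84 * TT q a ε D ξ)) := by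
  classical
  have hn' : (0 : ℝ) < n := by exact_mod_cast hn
  have hsn : 0 < Real.sqrt n := Real.sqrt_pos.mpr hn'
  rw [div_le_iff₀ hsn]
  apply csSup_le ⟨1, one_mem_feas hn _⟩
  rintro s ⟨X, hX, htr, hfe, rfl⟩
  rw [← div_le_iff₀ hsn]
  set B : Finset (Fin n) := Finset.univ.filter fun i => C0 / n < X i i with hB
  have hBk : B.card ≤ k := by
    have h2 : (B.card : ℝ) * (C0 / n) ≤ 1 := by
      calc (B.card : ℝ) * (C0 / n) = ∑ _i ∈ B, C0 / n := by
            rw [Finset.sum_const, nsmul_eq_mul]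
        _ ≤ ∑ i ∈ B, X i i := by
            refine Finset.sum_le_sum fun i hi => ?_
            rw [hB, Finset.mem_filter] at hi
            exact hi.2.le
        _ ≤ ∑ i, X i i :=
            Finset.sum_le_sum_of_subset_of_nonneg (Finset.subset_univ _)
              fun i _ _ => hX.diag_nonneg
        _ = 1 := htr
    have h3 : (B.card : ℝ) ≤ n / C0 := by
      rw [le_div_iff₀ hC0]
      have h4 : (B.card : ℝ) * (C0 / n) * n ≤ 1 * n := by gcongr
      have h5 : (B.card : ℝ) * (C0 / n) * n = B.card * C0 := by field_simp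
      linarith
    exact_mod_cast h3.trans hkC
  have hMS := MS_nonneg k (D ∪ ξ)
  -- the part on B
  have hpartB : ∑ i, ∑ j, restr B X i j ≤ 1 + MS k (D ∪ ξ) := by
    have h2 := small_psd hk (D ∪ ξ) (restr_psd B hX) hBk (fun i hi => by
      rw [restr_apply, if_neg (fun h => hi h.1)])
    have h3 : ∑ i, ∑ j, restr B X i j = (restr B X).trace +
        ∑ i, ∑ j, (if i = j then 0 else -sg (D ∪ ξ) s(i, j)) * restr B X i j := by
      unfold Matrix.trace
      rw [← Finset.sum_add_distrib]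
      refine Finset.sum_congr rfl fun i _ => ?_
      rw [Matrix.diag_apply]
      have h4 : ∀ j, restr B X i j = (if i = j then restr B X i i else 0) +
          (if i = j then 0 else -sg (D ∪ ξ) s(i, j)) * restr B X i j := by
        intro j
        by_cases hij : i = j
        · subst hij
          rw [if_pos rfl, if_pos rfl, zero_mul, add_zero]
        · rw [if_neg hij, if_neg hij, zero_add]
          by_cases hω : s(i, j) ∈ D ∪ ξ
          · have h5 : restr B X i j = 0 := by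
              rw [restr_apply, hfe i j hij hω]; simp
            rw [h5, mul_zero]
          · unfold sg
            rw [if_neg hω]; ring
      rw [Finset.sum_congr rfl fun j _ => h4 j, Finset.sum_add_distrib, Finset.sum_ite_eq]
      simp only [Finset.mem_univ, if_true]
    have h4 := restr_trace B hX
    rw [htr] at h4
    have h5 : 0 ≤ (restr B X).trace := (restr_psd B hX).trace_nonneg
    rw [h3]
    nlinarith
  -- the part on the complement
  have hpartC : (∑ i, ∑ j, restr Bᶜ X i j) / Real.sqrt n ≤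
      1 + C0 / n * (∑ i, |cm q ε D i i| + 84 * TT q a ε D ξ) := by
    have hd : ∀ i, restr Bᶜ X i i ≤ C0 / n := by
      intro i
      rw [restr_apply]
      split_ifs with h
      · have h2 := h.1
        rw [Finset.mem_compl, hB, Finset.mem_filter, not_and, not_lt] at h2
        exact h2 (Finset.mem_univ _)
      · positivity
    have h2 := avg_cert h0 h1 ha hcav hcert D (ξ0 := ξ) (restr_psd Bᶜ hX) (by
      intro i j hij hω
      rw [restr_apply, hfe i j hij hω]; simp)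
    have h3 := groth_psd (TT_le q a ε D ξ) (restr_psd Bᶜ hX) (by positivity : 0 < C0 / n) hd
    have h4 := restr_trace Bᶜ hX
    rw [htr] at h4
    have h5 : ∑ i, |cm q ε D i i| * restr Bᶜ X i i ≤ C0 / n * ∑ i, |cm q ε D i i| := by
      rw [Finset.mul_sum]
      refine Finset.sum_le_sum fun i _ => ?_
      rw [mul_comm]
      exact mul_le_mul_of_nonneg_right (hd i) (abs_nonneg _)
    calc _ ≤ _ := h2
      _ ≤ 1 + C0 / n * ∑ i, |cm q ε D i i| + C0 / n * (84 * TT q a ε D ξ) := by linarith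
      _ = _ := by ring
  have hspl := split_sum B hX hθ
  calc (∑ i, ∑ j, X i j) / Real.sqrt n
      ≤ ((1 + 1 / θ) * (∑ i, ∑ j, restr B X i j) + (1 + θ) * ∑ i, ∑ j, restr Bᶜ X i j) /
          Real.sqrt n := by gcongr
    _ = (1 + 1 / θ) * ((∑ i, ∑ j, restr B X i j) / Real.sqrt n) +
          (1 + θ) * ((∑ i, ∑ j, restr Bᶜ X i j) / Real.sqrt n) := by ring
    _ ≤ _ := by gcongr

/-- The upper bound. -/
theorem avg_th_upper {η : ℝ} (hη0 : 0 < η) (hη1 : η ≤ 1) :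
    ∃ n0 : ℕ, ∀ n ≥ n0, avg (fun ω : Gr n => th ω) / Real.sqrt n ≤ 1 + η := by
  classical
  -- parameters
  set θ : ℝ := η / 8 with hθ
  have hθ0 : 0 < θ := by positivity
  set K : ℝ := 1 + 1 / θ with hK
  have hK0 : 0 < K := by positivity
  obtain ⟨r, hr0, hr2, hrK⟩ : ∃ r : ℝ, 0 < r ∧ r ^ 2 ≤ 1 / 2 ∧ K * (32 * r) ≤ η / 8 := by
    refine ⟨min (1 / 2) (η / (8 * 32 * K)), lt_min (by norm_num) (by positivity), ?_, ?_⟩
    · have h2 : min (1 / 2) (η / (8 * 32 * K)) ≤ 1 / 2 := min_le_left _ _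
      have h3 : 0 < min (1 / 2) (η / (8 * 32 * K)) := lt_min (by norm_num) (by positivity)
      nlinarith
    · have h2 : min (1 / 2) (η / (8 * 32 * K)) ≤ η / (8 * 32 * K) := min_le_right _ _
      calc K * (32 * min (1 / 2) (η / (8 * 32 * K))) ≤ K * (32 * (η / (8 * 32 * K))) := by gcongr
        _ = η / 8 := by field_simp
  set C0 : ℝ := 2 / r ^ 4 with hC0
  have hC0p : 0 < C0 := by positivity
  obtain ⟨q, hq0, hq1, hqκ⟩ : ∃ q : ℝ, 0 < q ∧ q < 1 / 2 ∧ kap q ≤ (η / (32 * 5880 * C0)) ^ 2 := by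
    have h2 : ∀ᶠ q in nhdsWithin (0 : ℝ) (Set.Ioi 0), kap q ≤ (η / (32 * 5880 * C0)) ^ 2 := by
      have h3 : (0 : ℝ) < (η / (32 * 5880 * C0)) ^ 2 := by positivity
      exact (kap_tendsto.eventually (gt_mem_nhds h3)).mono fun q hq => le_of_lt hq
    have h3 : ∀ᶠ q in nhdsWithin (0 : ℝ) (Set.Ioi 0), q < 1 / 2 :=
      nhdsWithin_le_nhds (gt_mem_nhds (by norm_num))
    have h4 : ∀ᶠ q in nhdsWithin (0 : ℝ) (Set.Ioi 0), 0 < q := self_mem_nhdsWithin
    obtain ⟨q, hq⟩ := (h2.and (h3.and h4)).exists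
    exact ⟨q, hq.2.2, hq.2.1, hq.1⟩
  have hκ0 := kap_pos hq0 (by linarith)
  set sκ := Real.sqrt (kap q) with hsκ
  have hsκ0 : 0 < sκ := Real.sqrt_pos.mpr hκ0
  have hsκ1 : sκ ≤ η / (32 * 5880 * C0) := by
    rw [hsκ]
    exact Real.sqrt_le_iff.mpr ⟨by positivity, hqκ⟩
  set σ : ℝ := min q (η / (32 * C0)) with hσ
  have hσ0 : 0 < σ := lt_min hq0 (by positivity)
  have hσq : σ ≤ q := min_le_left _ _
  have hσ1 : σ ≤ η / (32 * C0) := min_le_right _ _
  obtain ⟨n1, hn1⟩ := amp (σ ^ 2) (by positivity)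
  obtain ⟨n2, hn2⟩ := exists_nat_gt (2 / r ^ 4)
  obtain ⟨n3, hn3⟩ := exists_nat_gt ((8 * K / η) ^ 2)
  refine ⟨n1 + n2 + n3 + 1, fun n hn => ?_⟩
  have hnpos : 0 < n := by omega
  have hn' : (0 : ℝ) < n := by exact_mod_cast hnpos
  have hsn : 0 < Real.sqrt n := Real.sqrt_pos.mpr hn'
  obtain ⟨a, ε, R, -, -, ha, hcav, hcert, ha4, hεσ⟩ := hn1 n (by omega)
  -- the size of small sets
  set k : ℕ := ⌈(n : ℝ) / C0⌉₊ with hk
  have hkpos : 0 < k := Nat.ceil_pos.mpr (by positivity)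
  have hkC : (n : ℝ) / C0 ≤ k := Nat.le_ceil _
  have hkr : (k : ℝ) ≤ r ^ 4 * n := by
    have h2 : (k : ℝ) < n / C0 + 1 := Nat.ceil_lt_add_one (by positivity)
    have h3 : (n : ℝ) / C0 = r ^ 4 * n / 2 := by
      rw [hC0]; field_simp
    have h4 : 1 ≤ r ^ 4 * n / 2 := by
      have h5 : (n2 : ℝ) ≤ n := by exact_mod_cast (by omega : n2 ≤ n)
      have h6 : 2 / r ^ 4 < n := lt_of_lt_of_le hn2 h5
      rw [div_lt_iff₀ (by positivity)] at h6
      linarith
    linarith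
  -- expectation of the deterministic bound
  have hdet := EJ_mono hq0 hq1 (n := n) (F := fun D ξ => th (D ∪ ξ) / Real.sqrt n)
    (G := fun D ξ => (1 + 1 / θ) * ((1 + MS k (D ∪ ξ)) / Real.sqrt n) +
      (1 + θ) * (1 + C0 / n * (∑ i, |cm q ε D i i| + 84 * TT q a ε D ξ)))
    (fun D ξ _ => th_bound hq0 hq1 hnpos ha hcav hcert hC0p hkpos hkC hθ0 D ξ)
  have hL : EJ q (fun D ξ : Gr n => th (D ∪ ξ) / Real.sqrt n) =
      avg (fun ω : Gr n => th ω) / Real.sqrt n := by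
    rw [EJ_union hq0 hq1 (fun ω => th ω / Real.sqrt n), avg_div]
  have hR : EJ q (fun D ξ : Gr n => (1 + 1 / θ) * ((1 + MS k (D ∪ ξ)) / Real.sqrt n) +
      (1 + θ) * (1 + C0 / n * (∑ i, |cm q ε D i i| + 84 * TT q a ε D ξ))) =
      (1 + 1 / θ) * ((1 + avg (fun ω : Gr n => MS k ω)) / Real.sqrt n) +
      (1 + θ) * (1 + C0 / n * (EJ q (fun (D _ : Gr n) => ∑ i, |cm q ε D i i|) +
        84 * EJ q (fun D ξ : Gr n => TT q a ε D ξ))) := by
    rw [EJ_add, EJ_mul_left, EJ_mul_left, EJ_add, EJ_const, EJ_mul_left, EJ_add, EJ_mul_left]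
    congr 2
    rw [EJ_union hq0 hq1 (fun ω => (1 + MS k ω) / Real.sqrt n), avg_div, avg_add, avg_const]
  rw [hL, hR] at hdet
  refine hdet.trans ?_
  -- estimates
  have hMS := small_avg hkpos hnpos hr0 hr2 hkr
  have hdiag := EJ_diag hq0 hq1 hnpos ε hσ0 hεσ
  have hTT : EJ q (fun D ξ : Gr n => TT q a ε D ξ) ≤ n * (70 * sκ) := by
    rw [← EJ_inner q (fun D ξ : Gr n => TT q a ε D ξ)]
    have h2 := EJ_mono hq0 hq1 (n := n) (F := fun D _ => EB q Dᶜ (TT q a ε D))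
      (G := fun D _ => 2 * n / (1 / sκ) + 2 * kap q * (1 / sκ) * ∑ i, ∑ j, cc q a ε D i j ^ 2)
      (fun D _ _ => TT_exp hq0 hq1 a ε D (by positivity))
    refine h2.trans ?_
    rw [EJ_add, EJ_const, EJ_mul_left]
    have h3 := EJ_cc hq0 hq1 hnpos a ε
    have h4 : (8 * nrm2 a + 2 / q ^ 2 * nrm2 ε) ≤ 34 := by
      have h5 : 2 / q ^ 2 * nrm2 ε ≤ 2 := by
        have h6 : nrm2 ε ≤ q ^ 2 := hεσ.trans (by gcongr)
        calc 2 / q ^ 2 * nrm2 ε ≤ 2 / q ^ 2 * q ^ 2 := by gcongr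
          _ = 2 := by field_simp
      linarith
    have h5 : 2 * kap q * (1 / sκ) = 2 * sκ := by
      have h6 : kap q = sκ * sκ := (Real.mul_self_sqrt hκ0.le).symm
      rw [h6]
      field_simp
    rw [h5]
    have h6 : 2 * (n : ℝ) / (1 / sκ) = 2 * n * sκ := by field_simp
    rw [h6]
    calc 2 * (n : ℝ) * sκ + 2 * sκ * EJ q (fun (D _ : Gr n) => ∑ i, ∑ j, cc q a ε D i j ^ 2)
        ≤ 2 * (n : ℝ) * sκ + 2 * sκ * (n * 34) := by
          gcongr
          exact h3.trans (by gcongr)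
      _ = n * (70 * sκ) := by ring
  have h1 : (1 + 1 / θ) * ((1 + avg (fun ω : Gr n => MS k ω)) / Real.sqrt n) ≤ η / 4 := by
    have h2 : (1 + avg (fun ω : Gr n => MS k ω)) / Real.sqrt n ≤ 1 / Real.sqrt n + 32 * r := by
      rw [add_div]
      have : avg (fun ω : Gr n => MS k ω) / Real.sqrt n ≤ 32 * r := by
        rw [div_le_iff₀ hsn]; exact hMS
      linarith
    have h3 : K * (1 / Real.sqrt n) ≤ η / 8 := by
      have h4 : 8 * K / η ≤ Real.sqrt n := by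
        apply Real.le_sqrt_of_sq_le
        have h5 : (n3 : ℝ) ≤ n := by exact_mod_cast (by omega : n3 ≤ n)
        linarith
      rw [mul_one_div, div_le_iff₀ hsn]
      rw [div_le_iff₀ hη0] at h4
      linarith
    calc K * ((1 + avg (fun ω : Gr n => MS k ω)) / Real.sqrt n)
        ≤ K * (1 / Real.sqrt n + 32 * r) := by gcongr
      _ = K * (1 / Real.sqrt n) + K * (32 * r) := by ring
      _ ≤ η / 4 := by linarith
  have h2 : C0 / n * (EJ q (fun (D _ : Gr n) => ∑ i, |cm q ε D i i|) +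
        84 * EJ q (fun D ξ : Gr n => TT q a ε D ξ)) ≤ η / 16 := by
    calc C0 / n * (EJ q (fun (D _ : Gr n) => ∑ i, |cm q ε D i i|) +
        84 * EJ q (fun D ξ : Gr n => TT q a ε D ξ))
        ≤ C0 / n * (n * σ + 84 * (n * (70 * sκ))) := by gcongr
      _ = C0 * σ + 5880 * C0 * sκ := by field_simp; ring
      _ ≤ C0 * (η / (32 * C0)) + 5880 * C0 * (η / (32 * 5880 * C0)) := by gcongr
      _ = η / 16 := by field_simp; ring
  have h3 : (1 + θ) * (1 + C0 / n * (EJ q (fun (D _ : Gr n) => ∑ i, |cm q ε D i i|) +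
        84 * EJ q (fun D ξ : Gr n => TT q a ε D ξ))) ≤ (1 + η / 8) * (1 + η / 16) := by
    rw [hθ]
    gcongr
  nlinarith

end Pool.Agent.Lib.P267408
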